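import Pool.Agent.Lib.TWRW.TrG

/-!
# RowB, the trichotomy

* `row_B`, `row_C`: the outcomes (B), (C);
* `rowTri`: **the trichotomy**.
-/

set_option autoImplicit false
set_option linter.unusedSectionVars false

open Polynomial Finset

namespace Pool.Agent.TWRW

open Pool.Agent.H15JM (RVal)
open Pool.Agent.LU1 (VPos adj)
open Pool.Agent.D2 (Ctx0)
open Pool.Agent.D2P (clI)
open Pool.Agent.TWM
open Pool.Agent.TWS (IsoE SphC)
open Pool.Agent.TWII (PG LP)
open Pool.Agent.TWN1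
open Pool.Agent.TWLY
open Pool.Agent.TWCY
open Pool.Agent.TWRB

universe u

variable {k Ω : Type u} [Field k] [Field Ω] [Algebra k Ω] {v : RVal Ω}
  {L : ℕ → IntermediateField k Ω} {W B F K : IntermediateField k Ω} {w : Fin 2 → Ω}
  {x z a : Ω} {p : ℕ} [hp : Fact p.Prime] [CharP Ω p] [CharP k p] [IsAlgClosed Ω] [IsAlgClosed k]
  {D₀ D dw du dz : Ω → Ω}

/-- **Case (B).** -/
theorem row_B (H : DK v W B F K w z D₀ D dw du dz) (h : HB p v L W B F K w x z a)
    (hB : BaseD p v W x D₀)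
    (hω : ∀ f ∈ PI F, LP p v K 0 (f.eval z) → Gt v 0 (du (f.eval z)) → Gt v 0 (dz (f.eval z)) →
      ∀ l, l ≠ 0 → Gt v 0 (D ((hasseDeriv l f).eval z)))
    {f : Polynomial Ω} (hf : f ∈ PI F) (hl : LP p v K 0 (f.eval z))
    (hrel : PG p v K 0 (a - f.eval z)) {i : ℕ}
    (hi : ¬ Gt v 0 (dw ((hasseDeriv (p ^ (i + 1)) f).eval z))) :
    ∃ (e : k) (κ γ : ℕ → k) (t : ℕ) (a₀ b : Ω), b ∈ W ∧ LP p v B 0 (w 0 + b) ∧ a₀ ∈ F ∧
      Rel2 p v K (w 0) x z a e κ γ t a₀ b ∧ ∃ j ∈ range (t + 1), γ j ≠ 0 := by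
  have hWB := h.WB
  have hBF := h.BF
  have hWF : W ≤ F := hWB.trans hBF
  have hFK := hb_leFK h
  have hxF : x ∈ F := hWF h.xW
  have hpp : ∀ i, (p ^ (i + 1) : ℕ) ≠ 0 := fun i => pow_ne_zero _ hp.out.ne_zero
  have hj : ∀ l, LP p v K 0 ((hasseDeriv l f).eval z) := jet_lp h hf hl
  have hm : ∀ l, hasseDeriv l f ∈ PI F := TWLM.hasseDeriv_mem_PI hf
  have hK : ∀ l, (hasseDeriv l f).eval z ∈ K := jet_memK h hf
  have hsu : ∀ l, l ≠ 0 → Gt v 0 (du ((hasseDeriv l f).eval z)) := fun l hl0 =>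
    du_jet h H.hu H.uB H.u1 hf hl hl0
  have hsz : ∀ l, l ≠ 0 → Gt v 0 (dz ((hasseDeriv l f).eval z)) := fun l hl0 =>
    H.lz h hf hl hl0
  obtain ⟨b, hb, hlb⟩ := exists_ws H h hB hω (hm (p ^ (i + 1))) (hj _) (hsu _ (hpp i))
    (hsz _ (hpp i)) hi
  have hbB : w 0 + b ∈ B := add_mem h.w0B (hWB hb)
  have hbK : w 0 + b ∈ K := hFK (hBF hbB)
  have hlbK : LP p v K 0 (w 0 + b) := TWN1.LP.of_le' (hBF.trans hFK) hlb
  have hdwb : dw (w 0 + b) = 1 := by
    rw [H.hw.add _ (hFK (hBF h.w0B)) _ (hFK (hWF hb)), H.w0, H.wW b hb, add_zero]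
  set γ : ℕ → k := fun l => rsd k v (dw ((hasseDeriv l f).eval z)) with hγ
  -- the differences
  have hdK : ∀ l, (hasseDeriv l f).eval z - algebraMap k Ω (γ l) * (w 0 + b) ∈ K := fun l =>
    sub_mem (hK l) (mul_mem (K.algebraMap_mem _) hbK)
  have hdl : ∀ l, LP p v K 0 ((hasseDeriv l f).eval z - algebraMap k Ω (γ l) * (w 0 + b)) :=
    fun l => (hj l).sub (lp_const h.c0 hlbK _)
  have hdr : ∀ {E : Ω → Ω}, Drv v K E → ∀ l, E ((hasseDeriv l f).eval z -
      algebraMap k Ω (γ l) * (w 0 + b)) = E ((hasseDeriv l f).eval z) -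
        algebraMap k Ω (γ l) * E (w 0 + b) := fun hE l => by
    rw [hE.map_sub (hK l) (mul_mem (K.algebraMap_mem _) hbK), hE.map_smul _ hbK]
  set κ : ℕ → k := fun l => rsd k v (D ((hasseDeriv l f).eval z -
    algebraMap k Ω (γ l) * (w 0 + b))) with hκ
  have hcl : ∀ l, l ≠ 0 → PG p v K 0 ((hasseDeriv l f).eval z -
      (algebraMap k Ω (κ l) * x + algebraMap k Ω (γ l) * (w 0 + b))) := by
    intro l hl0
    obtain ⟨c, h1, h2⟩ := H.cls h hB (hdK l) (hdl l) (by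
      rw [hdr H.hw, hdwb, mul_one]
      exact rsd_spec h.c0 (H.hw.ge_of_lp (hK l) (hj l))) (by
      rw [hdr H.hu, H.uB _ hbB, mul_zero, sub_zero]
      exact hsu l hl0) (by
      rw [hdr H.hz, H.zF _ (hBF hbB), mul_zero, sub_zero]
      exact hsz l hl0)
    rw [← h1] at h2
    have e1 : (hasseDeriv l f).eval z -
        (algebraMap k Ω (κ l) * x + algebraMap k Ω (γ l) * (w 0 + b)) =
        (hasseDeriv l f).eval z - algebraMap k Ω (γ l) * (w 0 + b) - algebraMap k Ω (κ l) * x := by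
      ring
    rw [e1]
    exact h2
  have hnp : ∀ l, l ≠ 0 → (∀ i, l ≠ p ^ i) → PG p v K 0 ((hasseDeriv l f).eval z) := by
    intro l hl0 hnp
    have h1 := np_gt h H.hw hf hl (fun l hl0 m hm0 =>
      H.lw h (hm l) (hj l) (hsu l hl0) (hsz l hl0) hm0) hl0 hnp
    have h2 := np_gt h H.hD hf hl (fun l hl0 m hm0 =>
      hω _ (hm l) (hj l) (hsu l hl0) (hsz l hl0) m hm0) hl0 hnp
    exact H.null h hB (hK l) (hj l) h2 h1 (hsu l hl0) (hsz l hl0)
  obtain ⟨e, he⟩ := jet_one_const h H hf hl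
  obtain ⟨a₀, ha₀, h1⟩ := form_of_jets h hf hl
    (A := fun i => algebraMap k Ω (κ (p ^ (i + 1))) * x +
      algebraMap k Ω (γ (p ^ (i + 1))) * (w 0 + b))
    (fun i => add_mem (mul_mem (F.algebraMap_mem _) hxF) (mul_mem (F.algebraMap_mem _) (hBF hbB)))
    he (fun i => hcl _ (hpp i)) (fun l _ hl0 hl => hnp l hl0 hl)
    (t := f.natDegree + i) (by omega)
  refine ⟨e, fun i => κ (p ^ (i + 1)), fun i => γ (p ^ (i + 1)), f.natDegree + i, a₀, b, hb, hlb,
    ha₀, ?_, i, mem_range.2 (by omega), fun h0 => hi (gt_of_rsd h.c0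
      (H.hw.ge_of_lp (hK _) (hj _)) h0)⟩
  unfold Rel2
  rw [form_two] at h1
  have h3 := hrel.add h1
  refine (congrArg _ ?_).mp h3
  ring

/-- **Case (C).** -/
theorem row_C (H : DK v W B F K w z D₀ D dw du dz) (h : HB p v L W B F K w x z a)
    (hB : BaseD p v W x D₀) {s : k} {ω : k} (hω0 : ω ≠ 0)
    (hω : ∀ f ∈ PI F, LP p v K 0 (f.eval z) → Gt v 0 (du (f.eval z)) → Gt v 0 (dz (f.eval z)) →
      ∑ l ∈ Icc 1 f.natDegree, s ^ l * rsd k v (D ((hasseDeriv l f).eval z)) =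
        ω * rsd k v (dw (f.eval z)))
    {f : Polynomial Ω} (hf : f ∈ PI F) (hfa : v.Ge 1 (a - f.eval z)) {i : ℕ} (hi0 : i ≠ 0)
    (hi : ¬ Gt v 0 (dw ((hasseDeriv (p ^ i) f).eval z))) :
    ∃ (i : ℕ) (c : k), i ≠ 0 ∧ c ≠ 0 ∧
      (∀ y ∈ B, LP p v B 0 y → ∃ c' : k, PG p v B 0 (y - algebraMap k Ω c' * x)) ∧
      ∀ f ∈ PI F, v.Ge 1 (a - f.eval z) → ∃ (κ : ℕ → k) (t : ℕ) (a₀ : Ω),
        HB p v L W B F K w x z (algebraMap k Ω c * (hasseDeriv (p ^ i) f).eval z) ∧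
        TieF p v F K x z (algebraMap k Ω c * (hasseDeriv (p ^ i) f).eval z) 0 κ t a₀ := by
  have hWB := h.WB
  have hBF := h.BF
  have hFK := hb_leFK h
  have hKe := h.K_eq
  have hxB : x ∈ B := hWB h.xW
  have hq0 : (p ^ i : ℕ) ≠ 0 := pow_ne_zero _ hp.out.ne_zero
  have hpq : p ∣ p ^ i := dvd_pow_self p hi0
  have hla : ∀ {f : Polynomial Ω}, v.Ge 1 (a - f.eval z) → LP p v K 0 (f.eval z) := by
    intro f hfa
    have h1 := h.lp.sub (TWN1.lp_of_ge (hfa.mono zero_le_one))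
    rwa [sub_sub_cancel] at h1
  have hl := hla hfa
  set γ : k := rsd k v (dw ((hasseDeriv (p ^ i) f).eval z)) with hγ
  have hγ0 : γ ≠ 0 := fun h0 => hi (gt_of_rsd h.c0
    (H.hw.ge_of_lp (jet_memK h hf _) (jet_lp h hf hl _)) h0)
  refine ⟨i, γ⁻¹, hi0, inv_ne_zero hγ0, ?_, ?_⟩
  · -- the classes of `B`
    intro y hy hly
    have hyF : y ∈ F := hBF hy
    have hlyK : LP p v K 0 y := TWN1.LP.of_le' (hBF.trans hFK) hly
    have h1 := hω (Polynomial.C y) (C_mem_PI hyF) (by rwa [eval_C]) (by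
      rw [eval_C, H.uB y hy]
      exact Gt.zero) (by
      rw [eval_C, H.zF y hyF]
      exact Gt.zero)
    rw [natDegree_C, Icc_eq_empty (by omega), sum_empty, eval_C] at h1
    have h2 : rsd k v (dw y) = 0 := by
      rcases mul_eq_zero.1 h1.symm with h3 | h3
      · exact absurd h3 hω0
      · exact h3
    obtain ⟨c, -, h3⟩ := H.cls h hB (hFK hyF) hlyK
      (gt_of_rsd h.c0 (H.hw.ge_of_lp (hFK hyF) hlyK) h2) (by
        rw [H.uB y hy]
        exact Gt.zero) (by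
        rw [H.zF y hyF]
        exact Gt.zero)
    refine ⟨c, ?_⟩
    have hm : y - algebraMap k Ω c * x ∈ B := sub_mem hy (mul_mem (B.algebraMap_mem c) hxB)
    rw [hKe] at h3
    have h4 := TWII.PG.down h.zt (hBF hm) h3
    rw [h.F_eq] at h4
    exact TWII.PG.down h.tu hm h4
  · intro f' hf' hfa'
    have hl' := hla hfa'
    set g : Polynomial Ω := hasseDeriv (p ^ i) f' with hg
    have hgF : g ∈ PI F := TWLM.hasseDeriv_mem_PI hf' _
    have hgK : g.eval z ∈ K := eval_memK h hgF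
    have hgl : LP p v K 0 (g.eval z) := jet_lp h hf' hl' _
    have hgu : Gt v 0 (du (g.eval z)) := du_jet h H.hu H.uB H.u1 hf' hl' hq0
    have hgz : Gt v 0 (dz (g.eval z)) := H.lz h hf' hl' hq0
    -- the residue is the same
    have hγ' : rsd k v (dw (g.eval z)) = γ := by
      have h1 : v.Ge 1 ((f' - f).eval z) := by
        have e1 : (f' - f).eval z = (a - f.eval z) - (a - f'.eval z) := by
          rw [eval_sub]
          ring
        rw [e1]
        exact hfa.sub hfa'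
      have h2 := TWII.TL.jet_ge h.zt (sub_mem hf' hf) h1 (p ^ i)
      rw [mul_zero, sub_zero, taylor_coeff, map_sub, eval_sub] at h2
      have h3 : Gt v 0 (g.eval z - (hasseDeriv (p ^ i) f).eval z) := Gt.of_ge h2 one_pos
      have h4 := drv_gt H.hw (sub_mem hgK (jet_memK h hf _)) h3
      rw [H.hw.map_sub hgK (jet_memK h hf _)] at h4
      have h5 := rsd_spec h.c0 (H.hw.ge_of_lp (jet_memK h hf (p ^ i)) (jet_lp h hf hl (p ^ i)))
      refine rsd_eq h.c0 ?_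
      have h6 := h4.add h5
      refine (congrArg _ ?_).mp h6
      rw [hγ]
      ring
    have hωg := hω g hgF hgl hgu hgz
    rw [hγ'] at hωg
    -- a `p`-jet is not null
    obtain ⟨m, hpm, hm0, hn⟩ : ∃ m : ℕ, p ∣ m ∧ m ≠ 0 ∧
        ¬ PG p v K 0 ((hasseDeriv m g).eval z) := by
      by_contra hcon
      push Not at hcon
      have h1 : ∀ l ∈ Icc 1 g.natDegree, s ^ l * rsd k v (D ((hasseDeriv l g).eval z)) = 0 := by
        intro l hl
        have hl0 : l ≠ 0 := by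
          have := (mem_Icc.1 hl).1
          omega
        have h2 : Gt v 0 (D ((hasseDeriv l g).eval z)) := by
          by_cases hpl : p ∣ l
          · exact drv_pg H.hD (jet_memK h hgF l) (hcon l hpl hl0)
          · exact drv_jet_prime h H H.hD hgF hgl hpl
        rw [rsd_zero h.c0 h2, mul_zero]
      rw [sum_eq_zero h1] at hωg
      rcases mul_eq_zero.1 hωg.symm with h2 | h2
      · exact hω0 h2
      · exact hγ0 h2
    have hH' := hb_jet h hf' hfa' hq0 hpq (inv_ne_zero hγ0) hm0 hpm hn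
    -- the tie
    set g' : Polynomial Ω := Polynomial.C (algebraMap k Ω γ⁻¹) * g with hg'
    have hg'F : g' ∈ PI F := mul_mem (C_mem_PI (F.algebraMap_mem _)) hgF
    have hg'e : g'.eval z = algebraMap k Ω γ⁻¹ * g.eval z := by rw [hg', eval_mul, eval_C]
    have hg'j : ∀ l, (hasseDeriv l g').eval z = algebraMap k Ω γ⁻¹ * (hasseDeriv l g).eval z := by
      intro l
      rw [hg', ← Polynomial.smul_eq_C_mul, map_smul, Polynomial.smul_eq_C_mul, eval_mul, eval_C]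
    have hg'l : LP p v K 0 (g'.eval z) := by
      rw [hg'e]
      exact lp_const h.c0 hgl _
    obtain ⟨κ, t, a₀, hT⟩ := tie_A H hH' hB hg'F hg'l (by
      rw [hg'e, sub_self]
      exact PG.of_gt Gt.zero) (fun l hl0 => by
      rw [hg'j, H.hw.map_smul _ (jet_memK h hgF l)]
      exact gt_smul h.c0 _ (H.lw h hgF hgl hgu hgz hl0)) (e := 0) (by
      rw [map_zero, sub_zero, hg'j, ← H.jet_one h hgF]
      exact gt_smul h.c0 _ hgz)
    exact ⟨κ, t, a₀, hH', hT⟩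

/-- **The trichotomy.** -/
theorem rowTri : RowTri (k := k) (Ω := Ω) p v := by
  classical
  intro L W B F K w x z a D₀ h hB
  obtain ⟨D, dw, du, dz, H⟩ := exists_DK h hB
  have haK := h.aK
  rw [h.K_eq] at haK
  obtain ⟨f, hf, hfa⟩ := h.zt.dense haK 1
  have hrel : PG p v K 0 (a - f.eval z) := PG.of_gt (Gt.of_ge hfa one_pos)
  have hl : LP p v K 0 (f.eval z) := by
    have h1 := h.lp.sub (LP.of_pg hrel)
    rwa [sub_sub_cancel] at h1
  by_cases hA : ∀ l, l ≠ 0 → Gt v 0 (dw ((hasseDeriv l f).eval z))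
  · obtain ⟨e, he⟩ := jet_one_const h H hf hl
    obtain ⟨κ, t, a₀, hT⟩ := tie_A H h hB hf hl hrel hA he
    exact Or.inl ⟨e, κ, t, a₀, hT⟩
  right
  push Not at hA
  obtain ⟨n, hn0, hn⟩ := hA
  -- `n` is a power of `p`
  obtain ⟨i, rfl⟩ : ∃ i, n = p ^ i := by
    by_contra hcon
    push Not at hcon
    exact hn (np_gt h H.hw hf hl (fun l hl0 m hm0 =>
      H.lw h (TWLM.hasseDeriv_mem_PI hf l) (jet_lp h hf hl l)
        (du_jet h H.hu H.uB H.u1 hf hl hl0) (H.lz h hf hl hl0) hm0) hn0 hcon)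
  have hi0 : i ≠ 0 := by
    rintro rfl
    rw [pow_zero] at hn
    exact hn (drv_jet_one h H H.hw hf hl)
  choose ω hω using H.ld h hB
  by_cases hω0 : ∀ s, ω s = 0
  · left
    obtain ⟨j, rfl⟩ := Nat.exists_eq_succ_of_ne_zero hi0
    refine row_B H h hB (fun g hg hgl su sz l hl0 => ?_) hf hl hrel (i := j) hn
    exact strict_of_sum h H.hD hg hgl (fun s => by rw [hω s g hg hgl su sz, hω0, zero_mul]) hl0
  · right
    push Not at hω0
    obtain ⟨s, hs⟩ := hω0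
    exact row_C H h hB hs (hω s) hf hfa hi0 hn

end Pool.Agent.TWRW
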