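import Pool.Agent.Lib.TWRB.Core
import Pool.Agent.Lib.TWFN.NFp

/-!
# RowR10, C4: the normal form over the chain, in both cases

* `tiP_of_zero`: `e = 0`, the tie by polynomials from the tie;
* `tiP_of_ne`: `e ≠ 0`, from `nf_pol`;
* `exists_nfb`: `NFB` for `x'` near `x`, over the chain.
-/

set_option autoImplicit false

open MvPolynomial

namespace Pool.Agent.TWRW

open Pool.Agent.H15JM (RVal)
open Pool.Agent.LU1 (VPos)
open Pool.Agent.D2 (Ctx0)
open Pool.Agent.D2P (clI mem_clI)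
open Pool.Agent.TWM
open Pool.Agent.TWII (PG LP)
open Pool.Agent.TWLY
open Pool.Agent.TWCY
open Pool.Agent.TWFN
open Pool.Agent.TWRB

universe u

variable {k Ω : Type u} [Field k] [Field Ω] [Algebra k Ω] {v : RVal Ω}
  {W K : IntermediateField k Ω} {w : Fin 2 → Ω} {p : ℕ}

/-- An element of `W` is near an element of the chain. -/
theorem exists_lvl {L : ℕ → IntermediateField k Ω} (hL : Monotone L)
    (hd : W ≤ clI v (⨆ J, L J)) {y : Ω} (hy : y ∈ W) (r : ℝ) :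
    ∃ J, ∃ y' ∈ L J, v.Ge r (y - y') := by
  obtain ⟨x₀, h2, h3⟩ := (mem_clI.1 (hd hy)) r
  have h2' : x₀ ∈ ((⨆ n, L n : IntermediateField k Ω) : Set Ω) := h2
  rw [IntermediateField.coe_iSup_of_directed hL.directed_le, Set.mem_iUnion] at h2'
  obtain ⟨J, h4⟩ := h2'
  exact ⟨J, x₀, h4, h3⟩

theorem lin_mem (A : IntermediateField k Ω) (l : Fin 2 → k) (g : Ex) :
    coeff g (lin l : MvPolynomial (Fin 2) Ω) ∈ A := by
  classical
  unfold lin
  rw [coeff_sum]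
  refine sum_mem fun i _ => ?_
  rw [coeff_C_mul, coeff_X]
  split_ifs
  · exact mul_mem (A.algebraMap_mem _) (one_mem _)
  · exact mul_mem (A.algebraMap_mem _) (zero_mem _)

/-- The polynomials over the chain are dense, the exponents which are not divisible by `p` kept. -/
theorem exists_poly_lvl {L : ℕ → IntermediateField k Ω} (hL : Monotone L)
    (hle : ∀ J, L J ≤ W) (hd : W ≤ clI v (⨆ J, L J)) {P : MvPolynomial (Fin 2) Ω}
    (hP : ∀ g, coeff g P ∈ W) {l : Fin 2 → k} (hPl : ∀ g, ¬ DvE p g → coeff g P = coeff g (lin l))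
    (r : ℝ) : ∃ P' : MvPolynomial (Fin 2) Ω, (∀ g, coeff g P' ∈ W) ∧
      (∀ g, ¬ DvE p g → coeff g P' = coeff g (lin l)) ∧ (∃ J, ∀ g, coeff g P' ∈ L J) ∧
      v.Ge r (eval w P - eval w P') := by
  classical
  have h1 : ∀ g : Ex, ∃ (J : ℕ) (b : Ω), b ∈ L J ∧
      v.Ge r ((coeff g P - b) * ∏ i, w i ^ g i) ∧ (¬ DvE p g → b = coeff g P) := by
    intro g
    by_cases hg : DvE p g
    · obtain ⟨J, b, hb, h2⟩ := exists_lvl hL hd (hP g) (r - v (∏ i, w i ^ g i))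
      exact ⟨J, b, hb, (h2.mul (RVal.ge_self _)).mono (by linarith), fun h => absurd hg h⟩
    · refine ⟨0, coeff g P, ?_, ?_, fun _ => rfl⟩
      · rw [hPl g hg]
        exact lin_mem _ _ _
      · rw [sub_self, zero_mul]
        exact RVal.Ge.zero
  choose J b hb h2 h3 using h1
  have hco : ∀ g, coeff g (∑ m ∈ P.support, monomial m (b m)) =
      if g ∈ P.support then b g else 0 := by
    intro g
    rw [coeff_sum]
    simp_rw [coeff_monomial]
    rw [Finset.sum_ite_eq' P.support g b]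
  refine ⟨∑ m ∈ P.support, monomial m (b m), fun g => ?_, fun g hg => ?_,
    ⟨P.support.sup J, fun g => ?_⟩, ?_⟩
  · rw [hco]
    split_ifs
    · exact hle _ (hb g)
    · exact zero_mem _
  · rw [hco, ← hPl g hg]
    split_ifs with h4
    · exact h3 g hg
    · exact (notMem_support_iff.1 h4).symm
  · rw [hco]
    split_ifs with h4
    · exact hL (Finset.le_sup h4) (hb g)
    · exact zero_mem _
  · rw [map_sum, eval_eq', ← Finset.sum_sub_distrib]
    refine RVal.Ge.sum _ _ fun m _ => ?_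
    have e : coeff m P * ∏ i, w i ^ m i - eval w (monomial m (b m)) =
        (coeff m P - b m) * ∏ i, w i ^ m i := by
      rw [eval_monomial, Finsupp.prod_fintype _ _ (fun i => pow_zero _), sub_mul]
    rw [e]
    exact h2 m

theorem eval_PP {κ : ℕ → k} {t : ℕ} (w : Fin 2 → Ω) (θ : MvPolynomial (Fin 2) Ω) :
    eval w (PP p κ t θ) = PP p κ t (eval w θ) := by
  unfold PP
  rw [map_sum]
  refine Finset.sum_congr rfl fun i _ => ?_
  rw [map_mul, map_pow, MvPolynomial.algebraMap_apply, eval_C]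

theorem eval_tie {κ : ℕ → k} {t : ℕ} {e : k} {x : Ω} (w : Fin 2 → Ω)
    (θ P h : MvPolynomial (Fin 2) Ω) :
    eval w (C (algebraMap k Ω e) * θ + C x * PP p κ t θ + P - h ^ p) =
      algebraMap k Ω e * eval w θ + x * PP p κ t (eval w θ) + eval w P - (eval w h) ^ p := by
  rw [map_sub, map_add, map_add, map_mul, map_mul, map_pow, eval_C, eval_C, eval_PP]

theorem PP_geS (hk : Ctx0 k v) {κ : ℕ → k} {t : ℕ} {y : Ω} {c : ℝ} (hp : p ≠ 0) (hc : 0 ≤ c)
    (hy : v.Ge c y) : v.Ge c (PP p κ t y) := by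
  unfold PP
  refine RVal.Ge.sum _ _ fun i _ => ?_
  refine ((hk.ge (κ i)).mul (ge_pow hy (p ^ (i + 1)))).mono ?_
  have h1 : (1 : ℝ) ≤ ((p ^ (i + 1) : ℕ) : ℝ) := by
    exact_mod_cast Nat.one_le_iff_ne_zero.2 (pow_ne_zero _ hp)
  nlinarith

theorem exists_ge_neg (z : Ω) : ∃ c : ℝ, 1 ≤ c ∧ v.Ge (-c) z :=
  ⟨max 1 (-(v z)), le_max_left _ _, fun _ => by
    have := le_max_right 1 (-(v z))
    linarith⟩

section near

variable [hp : Fact p.Prime]

/-- The tie for `x'`, `P'` near `x`, `P`. -/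
theorem TiP_near (hk : Ctx0 k v) {x z : Ω} {e : k} {κ : ℕ → k} {t : ℕ}
    {P : MvPolynomial (Fin 2) Ω} (h : TiP p v W w x z e κ t P) :
    ∃ r₀ : ℝ, ∀ (x' : Ω) (P' : MvPolynomial (Fin 2) Ω), v.Ge r₀ (x - x') →
      v.Ge 0 (eval w P - eval w P') → TiP p v W w x' z e κ t P' := by
  obtain ⟨c, hc, hzc⟩ := exists_ge_neg (v := v) z
  refine ⟨p ^ (t + 1) * c, fun x' P' hx hP ε hε => ?_⟩
  obtain ⟨θ, g, hθ, hg, h1, h2, h3⟩ := h (min ε 1) (lt_min hε one_pos)
  refine ⟨θ, g, hθ, hg, h1, h2.mono (neg_le_neg (min_le_left _ _)), ?_⟩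
  have h4 : v.Ge (-c) (eval w θ) := by
    have e1 : eval w θ = z - (z - eval w θ) := by ring
    rw [e1]
    exact hzc.sub (h2.mono (neg_le_neg ((min_le_right _ _).trans hc)))
  have h5 := hx.mul (PP_ge' (p := p) hk κ t (by linarith : (0 : ℝ) ≤ c) h4)
  rw [eval_tie] at h3 ⊢
  have e1 : algebraMap k Ω e * eval w θ + x' * PP p κ t (eval w θ) + eval w P' -
      (eval w g) ^ p = (algebraMap k Ω e * eval w θ + x * PP p κ t (eval w θ) + eval w P -
      (eval w g) ^ p) - (x - x') * PP p κ t (eval w θ) - (eval w P - eval w P') := by ring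
  rw [e1]
  refine ((h3.mono (neg_le_neg (min_le_left _ _))).sub (h5.mono ?_)).sub (hP.mono ?_)
  · linarith
  · linarith

/-- **The normal form over the chain.** -/
theorem exists_nfb [CharP Ω p] (hk : Ctx0 k v) {L : ℕ → IntermediateField k Ω} (hL : Monotone L)
    (hle : ∀ J, L J ≤ W) (hd : W ≤ clI v (⨆ J, L J)) {x z a : Ω} {U : Polynomial Ω} {e : k}
    {κ : ℕ → k} {t : ℕ} {l : Fin 2 → k} {P : MvPolynomial (Fin 2) Ω} (hkap : κ t ≠ 0)
    (hP : ∀ g, coeff g P ∈ W) (hPl : ∀ g, ¬ DvE p g → coeff g P = coeff g (lin l))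
    (hcas : e = 0 ∨ l = 0) (hUp : l 1 ≠ 0 → ∀ j, ¬ p ∣ j → U.coeff j = 0)
    (hrel : PG p v K 0 (a - (algebraMap k Ω e * z + x * PP p κ t z + eval w P)))
    (htie : TiP p v W w x z e κ t P) :
    ∃ r₀ : ℝ, ∀ x' : Ω, (∃ J, x' ∈ L J) → v.Ge r₀ (x - x') → ∃ P' : MvPolynomial (Fin 2) Ω,
      NFB p v L W K w x' z a U e κ t l P' := by
  obtain ⟨r₁, h1⟩ := TiP_near hk htie
  obtain ⟨c, hc, hzc⟩ := exists_ge_neg (v := v) z
  refine ⟨max r₁ (p ^ (t + 1) * c + 1), fun x' hxL hx => ?_⟩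
  obtain ⟨P', hP', hPl', hPL, h2⟩ := exists_poly_lvl (w := w) hL hle hd hP hPl (r := 1)
  refine ⟨P', ⟨hkap, hP', hPl', hcas, hUp, ?_,
    h1 x' P' (hx.mono (le_max_left _ _)) (h2.mono zero_le_one), hxL, hPL⟩⟩
  have h3 := ((hx.mono (le_max_right _ _)).mul (PP_ge' (p := p) hk κ t (by linarith : (0 : ℝ) ≤ c) hzc)).mono
    (show (1 : ℝ) ≤ p ^ (t + 1) * c + 1 + -(p ^ (t + 1) * c) by linarith)
  have h4 : Gt v 0 ((x - x') * PP p κ t z + (eval w P - eval w P')) :=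
    Gt.of_ge (h3.add h2) one_pos
  have e1 : a - (algebraMap k Ω e * z + x' * PP p κ t z + eval w P') =
      (a - (algebraMap k Ω e * z + x * PP p κ t z + eval w P)) +
        ((x - x') * PP p κ t z + (eval w P - eval w P')) := by ring
  rw [e1]
  exact hrel.add (PG.of_gt h4)

end near

section tie

variable [hp : Fact p.Prime] [CharP Ω p] [IsAlgClosed Ω]

/-- **`e = 0`**: the tie by polynomials. -/
theorem tiP_of_zero (hk : Ctx0 k v) (hw : TL v W (w 0) 0) (hu : TL v (cadj v W (w 0)) (w 1) 0)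
    {x z a₀ : Ω} {κ : ℕ → k} {t : ℕ} {P : MvPolynomial (Fin 2) Ω}
    (hP : v.Ge 0 (a₀ - eval w P))
    (htie : ∀ ε : ℝ, 0 < ε → ∃ θ ∈ cadj v (cadj v W (w 0)) (w 1), v.Ge (-ε) (z - θ) ∧
      ∃ h ∈ cadj v (cadj v W (w 0)) (w 1),
        v.Ge (-ε) (algebraMap k Ω 0 * θ + x * PP p κ t θ + a₀ - h ^ p)) :
    TiP p v W w x z 0 κ t P := by
  intro ε hε
  obtain ⟨M, hM, hx⟩ := exists_ge_neg (v := v) x
  obtain ⟨θ₀, hθ₀, h1, g₀, hg₀, h2⟩ := htie ε hε
  have hww : w = ![w 0, w 1] := by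
    funext i
    fin_cases i <;> rfl
  obtain ⟨_, ⟨θ, hθ, rfl⟩, h3⟩ := exists_PolW_near hw hu hθ₀ M
  obtain ⟨_, ⟨g, hg, rfl⟩, h4⟩ := exists_PolW_near hw hu hg₀ 0
  rw [← hww] at h3 h4
  refine ⟨θ, g, hθ, hg, fun h => absurd rfl h, ?_, ?_⟩
  · have e1 : z - eval w θ = (z - θ₀) + (θ₀ - eval w θ) := by ring
    rw [e1]
    exact h1.add (h3.mono (by linarith))
  · rw [eval_tie]
    have h5 : v.Ge 0 (x * (PP p κ t θ₀ - PP p κ t (eval w θ))) := by
      rw [← PP_sub]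
      exact (hx.mul (PP_geS hk hp.out.ne_zero (by linarith) h3)).mono (by linarith)
    have h6 : v.Ge 0 (g₀ ^ p - (eval w g) ^ p) := by
      rw [← sub_pow_char]
      have := ge_pow h4 p
      rwa [mul_zero] at this
    have e1 : algebraMap k Ω 0 * eval w θ + x * PP p κ t (eval w θ) + eval w P - (eval w g) ^ p =
        (algebraMap k Ω 0 * θ₀ + x * PP p κ t θ₀ + a₀ - g₀ ^ p) -
          x * (PP p κ t θ₀ - PP p κ t (eval w θ)) - (a₀ - eval w P) +
          (g₀ ^ p - (eval w g) ^ p) := by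
      rw [map_zero]
      ring
    rw [e1]
    exact ((h2.sub (h5.mono (by linarith))).sub (hP.mono (by linarith))).add (h6.mono (by linarith))

omit hp [CharP Ω p] [IsAlgClosed Ω] in
theorem coeff_lin_zero (g : Ex) : coeff g (lin (0 : Fin 2 → k) : MvPolynomial (Fin 2) Ω) = 0 := by
  unfold lin
  rw [coeff_sum]
  refine Finset.sum_eq_zero fun i _ => ?_
  rw [coeff_C_mul, Pi.zero_apply, map_zero, zero_mul]

/-- **`e ≠ 0`**: the tie by polynomials, after `z - φ`. -/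
theorem tiP_of_ne [IsAlgClosed k] (hk : Ctx0 k v) {κ : ℕ → k} {t : ℕ} {e : k} (he : e ≠ 0)
    (hw : TL v W (w 0) 0) (hu : TL v (cadj v W (w 0)) (w 1) 0) {x z a a₀ : Ω} (hxW : x ∈ W)
    (hx : LP p v W 0 x) (ha₀ : a₀ ∈ cadj v (cadj v W (w 0)) (w 1))
    (htie : ∀ ε : ℝ, 0 < ε → ∃ θ ∈ cadj v (cadj v W (w 0)) (w 1), v.Ge (-ε) (z - θ) ∧
      ∃ h ∈ cadj v (cadj v W (w 0)) (w 1),
        v.Ge (-ε) (algebraMap k Ω e * θ + x * PP p κ t θ + a₀ - h ^ p))
    (hrel : PG p v (cadj v (cadj v (cadj v W (w 0)) (w 1)) z) 0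
      (a - (algebraMap k Ω e * z + x * PP p κ t z + a₀))) :
    ∃ φ ∈ cadj v (cadj v W (w 0)) (w 1), ∃ P : MvPolynomial (Fin 2) Ω,
      (∀ g, coeff g P ∈ W) ∧ (∀ g, ¬ DvE p g → coeff g P = coeff g (lin (0 : Fin 2 → k))) ∧
      TiP p v W w x (z - φ) e κ t P ∧
      PG p v (cadj v (cadj v (cadj v W (w 0)) (w 1)) z) 0
        (a - (algebraMap k Ω e * (z - φ) + x * PP p κ t (z - φ) + eval w P)) := by
  have hww : ![w 0, w 1] = w := by
    funext i
    fin_cases i <;> rfl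
  obtain ⟨φ, hφ, P, hP, hP', h1, h2⟩ := nf_pol hk
    (fun a => IsAlgClosed.exists_pow_nat_eq a hp.out.pos) he hw hu hxW hx ha₀ htie hrel
  rw [hww] at h1 h2
  refine ⟨φ, hφ, P, hP, fun g hg => ?_, fun ε hε => ?_, h2⟩
  · rw [coeff_lin_zero]
    by_contra h3
    exact hg (hP' g h3)
  · obtain ⟨θ, g, hθ, hθ', hg, h3, h4⟩ := h1 ε hε
    refine ⟨θ, g, hθ, hg, fun _ m hm => ?_, h3, ?_⟩
    · by_contra h5
      exact hm (hθ' m h5)
    · rw [eval_tie]
      exact h4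

end tie

end Pool.Agent.TWRW
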