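import Pool.Agent.Lib.TWRB.Skel
import Pool.Agent.Lib.TWCT.FinY

/-!
# CT, j = 1, row B, the pair over `C`: both generators of finite shape

`RFl.exists_fin`: if `al ^ p` is an additive form over a pair `K / C`, there is such a form for a pair
of generators of finite shape.
-/

set_option autoImplicit false

open Polynomial Finset

namespace Pool.Agent.TWRW

open Pool.Agent.H15JM (RVal)
open Pool.Agent.D2P (clI)
open Pool.Agent.TWM
open Pool.Agent.TWS (IsoE TowR)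
open Pool.Agent.TWII (PG LP)
open Pool.Agent.TWN1
open Pool.Agent.TWNI (FinE ArcI)
open Pool.Agent.TWCT
open Pool.Agent.TWRB (RFl)

universe u

section Unh

variable {k Ω : Type u} [Field k] [Field Ω] [Algebra k Ω] {v : RVal Ω} {p : ℕ}
  {C K : IntermediateField k Ω} {ν : ℝ} {b b₀ z₁ z₂ : Ω} {r₁ r₂ : ℝ} {x y : ℕ → Ω} {T : ℕ}
  [hp : Fact p.Prime] [CharP Ω p]

/-- An additive form with an empty column: `b` is not hit by its variable. -/
theorem _root_.Pool.Agent.TWN1.AF.unh (h : AF p v C K ν b b₀ z₁ r₁ x 0 z₂ r₂ y T) :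
    Unh p v (cadj v C z₂) K z₁ r₁ ν b := by
  refine ⟨Polynomial.C (b₀ + col p y z₂ T) + Polynomial.C (x 0) * X, ?_, ?_, ?_⟩
  · have hcol : b₀ + col p y z₂ T ∈ cadj v C z₂ := by
      refine add_mem (le_cadj v C z₂ h.b0) (sum_mem fun j _ =>
        mul_mem (le_cadj v C z₂ (h.c2.mem j)) (pow_mem (self_mem_cadj v C z₂) _))
    exact add_mem (C_mem_PI hcol) (mul_mem (C_mem_PI (le_cadj v C z₂ (h.c1.mem 0)))
      X_mem_PI)
  · have h1 := h.rel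
    rw [col_zero] at h1
    have e : b - (Polynomial.C (b₀ + col p y z₂ T) +
        Polynomial.C (x 0) * X).eval z₁ = b - (b₀ + x 0 * z₁ + col p y z₂ T) := by
      simp only [eval_add, eval_C, eval_mul, eval_X]
      ring
    rw [e]
    exact h1
  · intro l hpl hl0
    have hl2 : 2 ≤ l := hp.out.two_le.trans (Nat.le_of_dvd (Nat.pos_of_ne_zero hl0) hpl)
    have e : (taylor z₁ (Polynomial.C (b₀ + col p y z₂ T) +
        Polynomial.C (x 0) * X)).coeff l = 0 := by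
      refine coeff_eq_zero_of_natDegree_lt (lt_of_le_of_lt ?_ hl2)
      rw [natDegree_taylor]
      refine (natDegree_add_le _ _).trans (max_le (by rw [natDegree_C]; omega) ?_)
      exact (natDegree_C_mul_le _ _).trans natDegree_X_le
    rw [e]
    exact .of_gt Gt.zero

end Unh

section

variable {k Ω₀ Ω : Type u} [Field k] [Field Ω₀] [Algebra k Ω₀] [Field Ω] [Algebra k Ω]
  {p : ℕ} {v₀ : RVal Ω₀} {v : RVal Ω} {ι : Ω₀ →ₐ[k] Ω} [hp : Fact p.Prime] [CharP Ω₀ p]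
  [CharP Ω p] [CharP k p] [IsAlgClosed k] [IsAlgClosed Ω₀] [IsAlgClosed Ω] {x₀ : Ω₀}
  {W₀ K₀ : IntermediateField k Ω₀} {al : Ω₀} {ν : ℝ} {C F : IntermediateField k Ω₀}
  {y u z : Ω₀} {r t s : ℝ}

omit [CharP k p] [IsAlgClosed k] [IsAlgClosed Ω₀] in
/-- `al ^ p` is hit by every generator of a pair over `C`. -/
theorem _root_.Pool.Agent.TWRB.RFl.not_af0 [CharP k p] [IsAlgClosed k] [IsAlgClosed Ω₀]
    (h : RFl p v₀ v ι x₀ W₀ K₀ al ν C F y u z r t s)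
    {b₀ z₁ z₂ : Ω₀} {r₁ r₂ : ℝ} {x Y : ℕ → Ω₀} {T : ℕ}
    (haf : AF p v₀ C (clI v₀ K₀) ν (al ^ p) b₀ z₁ r₁ x 0 z₂ r₂ Y T) : False := by
  have h1 := haf.unh
  have hP := haf.par
  have hC := h.C_eq
  subst hC
  exact h.j.not_unh h.ty hP.t2 hP.t12 hP.eq2 h1

/-- **A pair of generators of finite shape.** -/
theorem _root_.Pool.Agent.TWRB.RFl.exists_fin
    (h : RFl p v₀ v ι x₀ W₀ K₀ al ν C F y u z r t s) {Θ : ℕ → Ω₀ → Ω₀}
    (hΘ : HsY v₀ (clI v₀ W₀) y r Θ) {b₀ z₁ z₂ : Ω₀} {r₁ r₂ : ℝ} {x Y : ℕ → Ω₀} {S T : ℕ}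
    (haf : AF p v₀ C (clI v₀ K₀) ν (al ^ p) b₀ z₁ r₁ x S z₂ r₂ Y T) :
    ∃ (b₀' y₁ y₂ : Ω₀) (r₁' r₂' : ℝ) (x' Y' : ℕ → Ω₀) (S' T' : ℕ),
      AF p v₀ C (clI v₀ K₀) ν (al ^ p) b₀' y₁ r₁' x' S' y₂ r₂' Y' T' ∧
      FinE v₀ C r r₁' Θ y₁ ∧ FinE v₀ C r r₂' Θ y₂ := by
  induction T generalizing b₀ with
  | zero => exact (h.not_af0 haf.symm).elim
  | succ T ih =>
    by_cases hn : PG p v₀ C (ν - p ^ (T + 1) * r₂) (Y (T + 1))
    · obtain ⟨b₁, h1⟩ := haf.symm.drop hn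
      exact ih h1.symm
    obtain ⟨b₁, y₁, y₂, r₁', r₂', x', Y', S', T', h1, -, hT', hyT', hS⟩ :=
      haf.red (Nat.succ_ne_zero T) hn
    rcases hS with rfl | ⟨-, hind⟩
    · exact (h.not_af0 h1).elim
    have hJ := h.j
    have hT2 : TowR v₀ 2 (cadj v₀ (clI v₀ W₀) y) (clI v₀ K₀) := by
      rw [← h.C_eq]
      refine TowR.succ h1.par.t1 (TWS.towR_iff_one.2 ⟨y₂, r₂', h1.par.t21, h1.par.eq1⟩)
    have hu1 : TL v₀ (cadj v₀ (clI v₀ W₀) y) y₁ r₁' := by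
      rw [← h.C_eq]
      exact h1.par.t1
    have hArc := hΘ.arcI hJ.ctx.toCtx0 hJ.pd h.ty (hJ.h0s h.ty hT2) hu1
    rw [← h.C_eq] at hArc
    have h2 := TWNI.AF.fin2E h1 hJ.lp hArc hind
    exact ⟨b₁, y₁, y₂, r₁', r₂', x', Y', S', T', h1, h2.1, h2.2⟩

end

end Pool.Agent.TWRW
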