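import Pool.Agent.Lib.TWNI.EndE

/-!
# CT, j = 1, row B, the pair over `C`: finite shape and column steps

`FinE.step`: if `z₁`, `z₂` are of finite shape, so is `z₂ + s z₁ ^ p ^ d`.
-/

set_option autoImplicit false

open Polynomial Finset

namespace Pool.Agent.TWNI

open Pool.Agent.H15JM (RVal)
open Pool.Agent.TWM
open Pool.Agent.TWLM (HSd Oi Fbr)
open Pool.Agent.TWII (Nr)

universe u

variable {k Ω : Type u} [Field k] [Field Ω] [Algebra k Ω] {v : RVal Ω}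
  {F : IntermediateField k Ω} {Φ : ℕ → Ω → Ω} {σ r₁ r₂ : ℝ} {z₁ z₂ : Ω} {p : ℕ}
  [hp : Fact p.Prime] [CharP Ω p]

/-- **Finite shape and column steps.** -/
theorem FinE.step (hΦ : Fbr v F σ Φ) {s : Ω} {d : ℕ} (hs : s ∈ F)
    (hv : v.Ge (r₂ - p ^ d * r₁) s) (hl : Lim v F r₁ z₁) (h1 : FinE v F σ r₁ Φ z₁)
    (h2 : FinE v F σ r₂ Φ z₂) : FinE v F σ r₂ Φ (z₂ + s * z₁ ^ p ^ d) := by
  classical
  obtain ⟨L₁, h1⟩ := h1
  obtain ⟨L₂, h2⟩ := h2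
  have hpd : (0 : ℝ) < (p : ℝ) ^ d := by
    have := hp.out.pos
    positivity
  set B : ℝ := min (v z₁) (r₁ - 1) with hB
  obtain ⟨L₃, h3⟩ := hΦ.oi s hs (r₂ - p ^ d * B)
  refine ⟨max L₂ (p ^ d * L₁ + L₃), fun l hlL ε hε => ?_⟩
  have hl2 : L₂ < l := lt_of_le_of_lt (le_max_left _ _) hlL
  have hl3 : p ^ d * L₁ + L₃ < l := lt_of_le_of_lt (le_max_right _ _) hlL
  -- the points near `z₁`
  obtain ⟨δ₁, hδ₁, h4⟩ := Nr.all (v := v) (F := F) (ρ := r₁) (u := z₁)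
    ((range (l + 1)).filter fun m => L₁ < m)
    (P := fun m θ => v.Ge (r₁ - m * σ - ε / p ^ d) (Φ m θ))
    fun m hm => h1 m (mem_filter.1 hm).2 (ε / p ^ d) (by positivity)
  obtain ⟨δ₂, hδ₂, h5⟩ := h2 l hl2 ε hε
  have hδ : 0 < min (min δ₁ 1) (δ₂ / p ^ d) := by
    refine lt_min (lt_min hδ₁ one_pos) (by positivity)
  obtain ⟨θ₁, hθ₁, h6⟩ := hl _ hδ
  have h6a : v.Ge (r₁ - δ₁) (z₁ - θ₁) := h6.mono (by
    linarith [min_le_left (min δ₁ 1) (δ₂ / p ^ d), min_le_left δ₁ 1])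
  have h6b : v.Ge (r₁ - 1) (z₁ - θ₁) := h6.mono (by
    linarith [min_le_left (min δ₁ 1) (δ₂ / p ^ d), min_le_right δ₁ 1])
  have h6c : v.Ge (r₁ - δ₂ / p ^ d) (z₁ - θ₁) := h6.mono (by
    linarith [min_le_right (min δ₁ 1) (δ₂ / p ^ d)])
  have hBθ : v.Ge B θ₁ := by
    have e1 : θ₁ = z₁ - (z₁ - θ₁) := by ring
    rw [e1]
    refine RVal.Ge.sub ?_ (h6b.mono (min_le_right _ _))
    exact fun _ => min_le_left _ _
  have h7 := h4 θ₁ hθ₁ h6a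
  refine ⟨δ₂, hδ₂, fun θ hθ h8 => ?_⟩
  have hsθ : s * θ₁ ^ p ^ d ∈ F := mul_mem hs (pow_mem hθ₁ _)
  have hθ₂ : θ - s * θ₁ ^ p ^ d ∈ F := sub_mem hθ hsθ
  have h9 : v.Ge (r₂ - δ₂) (z₂ - (θ - s * θ₁ ^ p ^ d)) := by
    have e1 : z₂ - (θ - s * θ₁ ^ p ^ d) =
        (z₂ + s * z₁ ^ p ^ d - θ) - s * (z₁ - θ₁) ^ p ^ d := by
      rw [sub_pow_char_pow]
      ring
    rw [e1]
    refine h8.sub ((hv.mul (TWII.ge_pow' h6c (p ^ d))).mono ?_)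
    push_cast
    rw [mul_sub, mul_div_cancel₀ _ hpd.ne']
    linarith
  have h10 := h5 _ hθ₂ h9
  have e2 : Φ l θ = Φ l (θ - s * θ₁ ^ p ^ d) + Φ l (s * θ₁ ^ p ^ d) := by
    rw [← hΦ.add l _ hθ₂ _ hsθ, sub_add_cancel]
  beta_reduce
  rw [e2]
  refine h10.add ?_
  rw [hΦ.mul l s hs _ (pow_mem hθ₁ _)]
  refine RVal.Ge.sum _ _ fun i hi => ?_
  have hi' : i.1 + i.2 = l := by simpa using hi
  have hiR : (l : ℝ) = i.1 + i.2 := by exact_mod_cast hi'.symm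
  by_cases hdiv : p ^ d ∣ i.2
  swap
  · rw [hΦ.pow_zero p hθ₁ d i.2 hdiv, mul_zero]
    exact RVal.Ge.zero
  obtain ⟨m, hm⟩ := hdiv
  rw [hm, hΦ.pow_mul p hθ₁ d m]
  have hmR : (i.2 : ℝ) = p ^ d * m := by rw [hm]; push_cast; ring
  by_cases hmL : L₁ < m
  · -- the jets of `z₁` of large index
    have hml : m ≤ l := by
      have h11 : m ≤ p ^ d * m := Nat.le_mul_of_pos_left _ (pow_pos hp.out.pos _)
      omega
    have h11 := h7 m (mem_filter.2 ⟨mem_range.2 (by omega), hmL⟩)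
    have h12 := TWII.ge_pow' h11 (p ^ d)
    have h13 := hΦ.norm i.1 hs hv
    refine (h13.mul h12).mono ?_
    push_cast
    rw [hiR, hmR]
    have e3 : (p : ℝ) ^ d * (ε / p ^ d) = ε := by field_simp
    nlinarith [e3]
  · -- the jets of `s` of large index
    have h11 : v.Ge (r₂ - p ^ d * B - i.1 * σ) (Φ i.1 s) := by
      refine h3 i.1 ?_
      have h12 : p ^ d * m ≤ p ^ d * L₁ := Nat.mul_le_mul_left _ (by omega)
      omega
    have h12 := TWII.ge_pow' (hΦ.norm m hθ₁ hBθ) (p ^ d)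
    refine (h11.mul h12).mono ?_
    push_cast
    rw [hiR, hmR]
    nlinarith

end Pool.Agent.TWNI
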