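import Pool.Agent.Lib.TWRR.G1

/-!
# CT, j = 1, row B, R16, step (4): the division step for two columns

An additive form `b = b₀ + col p x z₁ S + col p y z₂ T` over `C`; `OC`: the coefficients in the class
of `X₀`.
* `AF.trunc`: the columns vanish beyond their length;
* `AF.div_oc`: one step, `x j`, `j > M` and `y j`, `j > N` in the class: the pair
  `(z₁, z₂ + s z₁ ^ p ^ (M - N))` puts `x M` into the class, if `x M - y N s ^ p ^ N` is in it;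
* `AF.euclid`: the column of the last letter is in the class;
* `root_of_D`: the root `s`, from a derivation `D` of `C` such that the class is `D` strict.
-/

set_option autoImplicit false

open Polynomial Finset

namespace Pool.Agent.TWRW

open Pool.Agent.H15JM (RVal)
open Pool.Agent.TWM
open Pool.Agent.TWN1
open Pool.Agent.TWII (PG LP)
open Pool.Agent.TWRR (GP OC)

universe u

variable {k Ω : Type u} [Field k] [Field Ω] [Algebra k Ω] {v : RVal Ω}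
  {C K : IntermediateField k Ω} {p : ℕ} {ν ρ : ℝ} {b b₀ z₁ z₂ X₀ : Ω} {r₁ r₂ : ℝ} {x y : ℕ → Ω}
  {S T : ℕ} {D : Ω → Ω}

/-- The truncation. -/
def trn (x : ℕ → Ω) (S : ℕ) : ℕ → Ω := fun j => if j ≤ S then x j else 0

theorem trn_of_le {j : ℕ} (h : j ≤ S) : trn x S j = x j := if_pos h

theorem trn_of_lt {j : ℕ} (h : S < j) : trn x S j = 0 := if_neg (not_le.2 h)

theorem col_trn (z : Ω) : col p (trn x S) z S = col p x z S := by
  rw [col, col]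
  exact sum_congr rfl fun j hj => by rw [trn_of_le (Nat.lt_succ_iff.1 (mem_range.1 hj))]

/-- A column which vanishes beyond `S`. -/
theorem col_ext (hx : ∀ j, S < j → x j = 0) (z : Ω) {S' : ℕ} (h : S ≤ S') :
    col p x z S' = col p x z S := by
  induction S', h using Nat.le_induction with
  | base => rfl
  | succ n hn ih =>
    rw [← ih, col, col, sum_range_succ, hx (n + 1) (by omega), zero_mul, add_zero]

variable [hp : Fact p.Prime] [CharP Ω p]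

omit [CharP Ω p] in
theorem Col.trn {r : ℝ} (h : Col p v C ν r x) (S : ℕ) : Col p v C ν r (trn x S) := by
  refine ⟨fun j => ?_, ?_, fun j hj => ?_⟩
  · rw [TWRW.trn]
    split_ifs
    exacts [h.mem j, zero_mem _]
  · rw [trn_of_le (Nat.zero_le _)]
    exact h.lin
  · rw [TWRW.trn]
    split_ifs
    · exact h.lev j hj
    · exact TWII.LP.of_pg (.of_gt Gt.zero)

omit [CharP Ω p] in
/-- **Truncation.** -/
theorem AF.trunc (h : AF p v C K ν b b₀ z₁ r₁ x S z₂ r₂ y T) :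
    AF p v C K ν b b₀ z₁ r₁ (trn x S) S z₂ r₂ (trn y T) T :=
  ⟨h.par, Col.trn h.c1 S, Col.trn h.c2 T, h.b0, by rw [col_trn, col_trn]; exact h.rel⟩

omit hp [CharP Ω p] in
theorem AF.symm (h : AF p v C K ν b b₀ z₁ r₁ x S z₂ r₂ y T) :
    AF p v C K ν b b₀ z₂ r₂ y T z₁ r₁ x S := by
  refine ⟨h.par.symm, h.c2, h.c1, h.b0, ?_⟩
  rw [add_right_comm]
  exact h.rel

/-- **One step.** -/
theorem AF.div_oc [IsAlgClosed Ω] (h : AF p v C K ν b b₀ z₁ r₁ x S z₂ r₂ y T)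
    (hx0 : ∀ j, S < j → x j = 0) (hy0 : ∀ j, T < j → y j = 0) {M N : ℕ} (hN : N ≠ 0)
    (hNM : N ≤ M) (hy : ∀ j, N < j → OC p v C C X₀ (ν - p ^ j * r₂) (y j))
    (hx : ∀ j, M < j → OC p v C C X₀ (ν - p ^ j * r₁) (x j)) {s : Ω} (hs : s ∈ C)
    (hv : v.Ge (r₂ - p ^ (M - N) * r₁) s)
    (hroot : OC p v C C X₀ (ν - p ^ M * r₁) (x M - y N * s ^ p ^ N)) :
    AF p v C K ν b b₀ z₁ r₁ (colS p x y s (M - N)) (max S (T + (M - N)))
      (z₂ + s * z₁ ^ p ^ (M - N)) r₂ y T ∧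
    (∀ j, max S (T + (M - N)) < j → colS p x y s (M - N) j = 0) ∧
    ∀ j, M ≤ j → OC p v C C X₀ (ν - p ^ j * r₁) (colS p x y s (M - N) j) := by
  set d := M - N with hd
  set S' := max S (T + d) with hS'
  have hSS : S ≤ S' := le_max_left _ _
  have hTd : T + d ≤ S' := le_max_right _ _
  set T' := S' - d with hT'
  have hTT : T ≤ T' := by omega
  have hTS : T' ≤ S' := Nat.sub_le _ _
  have hdd : S' - T' = d := by omega
  refine ⟨⟨h.par.step hs hv, h.c1.step h.c2 hs hv, h.c2, h.b0, ?_⟩, fun j hj => ?_,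
    fun j hj => ?_⟩
  · have e3 := col_step (p := p) (x := x) (y := y) (z₁ := z₁) (z₂ := z₂) hTS s
    rw [hdd, col_ext hx0 z₁ hSS, col_ext hy0 z₂ hTT,
      col_ext hy0 (z₂ + s * z₁ ^ p ^ d) hTT] at e3
    rw [add_assoc, ← e3, ← add_assoc]
    exact h.rel
  · rw [colS, hx0 j (by omega), if_pos (by omega), hy0 (j - d) (by omega), zero_mul, sub_zero]
  · have hdj : d ≤ j := by omega
    have hjd : j - d ≠ 0 := by omega
    rw [colS, if_pos hdj]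
    rcases hj.eq_or_lt with rfl | hj
    · have e4 : M - d = N := by omega
      rw [e4]
      exact hroot
    · refine (hx j hj).sub ?_
      have h12 := OC.mul_pow (F := C) le_rfl (hy (j - d) (by omega)) hs hjd hv
      have e5 : (p : ℝ) ^ (j - d) * p ^ d = p ^ j := by
        rw [← pow_add, Nat.sub_add_cancel hdj]
      have e6 : ν - p ^ (j - d) * r₂ + p ^ (j - d) * (r₂ - p ^ d * r₁) = ν - p ^ j * r₁ := by
        rw [mul_sub, ← mul_assoc, e5]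
        ring
      rwa [e6] at h12

/-- Zero is in the class. -/
theorem OC.zero' (c : ℝ) : OC p v C C X₀ c 0 :=
  ⟨0, zero_mem _, by
    rw [zero_pow hp.out.ne_zero, zero_mul, sub_zero]
    exact .of_gt Gt.zero⟩

/-- **Euclid, real level**: one of the letters has its column in the class. -/
theorem AF.euclid' [IsAlgClosed Ω]
    (hroot : ∀ (r₁ r₂ : ℝ) (M N : ℕ) (a c : Ω), N ≠ 0 → N ≤ M → a ∈ C → c ∈ C →
      LP p v C (ν - p ^ M * r₁) a → LP p v C (ν - p ^ N * r₂) c →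
      ¬ OC p v C C X₀ (ν - p ^ N * r₂) c → ∃ s ∈ C, v.Ge (r₂ - p ^ (M - N) * r₁) s ∧
        OC p v C C X₀ (ν - p ^ M * r₁) (a - c * s ^ p ^ N))
    (P : Ω → ℝ → Prop) (hP : ∀ (z₁ z₂ s : Ω) (r₁ r₂ : ℝ) (d : ℕ), P z₁ r₁ → P z₂ r₂ → s ∈ C →
      v.Ge (r₂ - p ^ d * r₁) s → P (z₂ + s * z₁ ^ p ^ d) r₂) (n : ℕ) :
    ∀ (M N : ℕ) (z₁ z₂ : Ω) (r₁ r₂ : ℝ) (x y : ℕ → Ω) (S T : ℕ), M + N < n →
      AF p v C K ν b b₀ z₁ r₁ x S z₂ r₂ y T → P z₁ r₁ → P z₂ r₂ →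
      (∀ j, S < j → x j = 0) → (∀ j, T < j → y j = 0) →
      (∀ j, M < j → OC p v C C X₀ (ν - p ^ j * r₁) (x j)) →
      (∀ j, N < j → OC p v C C X₀ (ν - p ^ j * r₂) (y j)) →
      ∃ (y₁ y₂ : Ω) (t₁ t₂ : ℝ) (x' y' : ℕ → Ω) (S' T' : ℕ),
        AF p v C K ν b b₀ y₁ t₁ x' S' y₂ t₂ y' T' ∧ P y₁ t₁ ∧ P y₂ t₂ ∧
        (∀ j, S' < j → x' j = 0) ∧ (∀ j, T' < j → y' j = 0) ∧
        ∀ j, j ≠ 0 → OC p v C C X₀ (ν - p ^ j * t₂) (y' j) := by
  induction n with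
  | zero =>
    intro M N z₁ z₂ r₁ r₂ x y S T hMN
    exact absurd hMN (by omega)
  | succ n ih =>
    -- the main step
    have key : ∀ (M N : ℕ) (z₁ z₂ : Ω) (r₁ r₂ : ℝ) (x y : ℕ → Ω) (S T : ℕ), M + N < n + 1 →
        N ≠ 0 → N ≤ M → AF p v C K ν b b₀ z₁ r₁ x S z₂ r₂ y T → P z₁ r₁ → P z₂ r₂ →
        (∀ j, S < j → x j = 0) → (∀ j, T < j → y j = 0) →
        (∀ j, M < j → OC p v C C X₀ (ν - p ^ j * r₁) (x j)) →
        (∀ j, N < j → OC p v C C X₀ (ν - p ^ j * r₂) (y j)) →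
        ¬ OC p v C C X₀ (ν - p ^ N * r₂) (y N) →
        ∃ (y₁ y₂ : Ω) (t₁ t₂ : ℝ) (x' y' : ℕ → Ω) (S' T' : ℕ),
          AF p v C K ν b b₀ y₁ t₁ x' S' y₂ t₂ y' T' ∧ P y₁ t₁ ∧ P y₂ t₂ ∧
          (∀ j, S' < j → x' j = 0) ∧ (∀ j, T' < j → y' j = 0) ∧
          ∀ j, j ≠ 0 → OC p v C C X₀ (ν - p ^ j * t₂) (y' j) := by
      intro M N z₁ z₂ r₁ r₂ x y S T hMN hN hNM h h1 h2 hx0 hy0 hx hy hyN
      obtain ⟨s, hs, hv, hs2⟩ := hroot r₁ r₂ M N (x M) (y N) hN hNM (h.c1.mem M) (h.c2.mem N)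
        (h.c1.lev M (by omega)) (h.c2.lev N hN) hyN
      obtain ⟨h3, h4, h5⟩ := AF.div_oc h hx0 hy0 hN hNM hy hx hs hv hs2
      exact ih (M - 1) N _ _ _ _ _ _ _ _ (by omega) h3 h1 (hP _ _ _ _ _ _ h1 h2 hs hv) h4 hy0
        (fun j hj => h5 j (by omega)) hy
    intro M N z₁ z₂ r₁ r₂ x y S T hMN h h1 h2 hx0 hy0 hx hy
    by_cases hN : N = 0
    · subst hN
      exact ⟨z₁, z₂, r₁, r₂, x, y, S, T, h, h1, h2, hx0, hy0, fun j hj => hy j (by omega)⟩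
    by_cases hM : M = 0
    · subst hM
      exact ⟨z₂, z₁, r₂, r₁, y, x, T, S, AF.symm h, h2, h1, hy0, hx0, fun j hj => hx j (by omega)⟩
    by_cases hyN : OC p v C C X₀ (ν - p ^ N * r₂) (y N)
    · refine ih M (N - 1) z₁ z₂ r₁ r₂ x y S T (by omega) h h1 h2 hx0 hy0 hx fun j hj => ?_
      rcases eq_or_ne j N with rfl | hj2
      · exact hyN
      · exact hy j (by omega)
    by_cases hxM : OC p v C C X₀ (ν - p ^ M * r₁) (x M)
    · refine ih (M - 1) N z₁ z₂ r₁ r₂ x y S T (by omega) h h1 h2 hx0 hy0 (fun j hj => ?_) hy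
      rcases eq_or_ne j M with rfl | hj2
      · exact hxM
      · exact hx j (by omega)
    rcases le_total N M with h3 | h3
    · exact key M N z₁ z₂ r₁ r₂ x y S T hMN hN h3 h h1 h2 hx0 hy0 hx hy hyN
    · exact key N M z₂ z₁ r₂ r₁ y x T S (by omega) hM h3 (AF.symm h) h2 h1 hy0 hx0 hy hx hxM

/-- **Euclid, real level.** -/
theorem AF.euclid [IsAlgClosed Ω]
    (hroot : ∀ (r₁ r₂ : ℝ) (M N : ℕ) (a c : Ω), N ≠ 0 → N ≤ M → a ∈ C → c ∈ C →
      LP p v C (ν - p ^ M * r₁) a → LP p v C (ν - p ^ N * r₂) c →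
      ¬ OC p v C C X₀ (ν - p ^ N * r₂) c → ∃ s ∈ C, v.Ge (r₂ - p ^ (M - N) * r₁) s ∧
        OC p v C C X₀ (ν - p ^ M * r₁) (a - c * s ^ p ^ N))
    (P : Ω → ℝ → Prop) (hP : ∀ (z₁ z₂ s : Ω) (r₁ r₂ : ℝ) (d : ℕ), P z₁ r₁ → P z₂ r₂ → s ∈ C →
      v.Ge (r₂ - p ^ d * r₁) s → P (z₂ + s * z₁ ^ p ^ d) r₂)
    (h : AF p v C K ν b b₀ z₁ r₁ x S z₂ r₂ y T) (h1 : P z₁ r₁) (h2 : P z₂ r₂) :
    ∃ (y₁ y₂ : Ω) (t₁ t₂ : ℝ) (x' y' : ℕ → Ω) (S' T' : ℕ),
      AF p v C K ν b b₀ y₁ t₁ x' S' y₂ t₂ y' T' ∧ P y₁ t₁ ∧ P y₂ t₂ ∧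
      (∀ j, S' < j → x' j = 0) ∧ (∀ j, T' < j → y' j = 0) ∧
      ∀ j, j ≠ 0 → OC p v C C X₀ (ν - p ^ j * t₂) (y' j) :=
  AF.euclid' hroot P hP (S + T + 1) S T z₁ z₂ r₁ r₂ (trn x S) (trn y T) S T
    (Nat.lt_succ_self _) (AF.trunc h) h1 h2 (fun j hj => trn_of_lt hj) (fun j hj => trn_of_lt hj)
    (fun j hj => by rw [trn_of_lt hj]; exact OC.zero' _)
    fun j hj => by rw [trn_of_lt hj]; exact OC.zero' _

omit [CharP Ω p] in
theorem D_pow (hmul : ∀ f ∈ C, ∀ g ∈ C, D (f * g ^ p) = D f * g ^ p) {f g : Ω} (hf : f ∈ C)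
    (hg : g ∈ C) {i : ℕ} (hi : i ≠ 0) : D (f * g ^ p ^ i) = D f * g ^ p ^ i := by
  obtain ⟨i, rfl⟩ := Nat.exists_eq_succ_of_ne_zero hi
  have e : g ^ p ^ (i + 1) = (g ^ p ^ i) ^ p := by rw [← pow_mul, pow_succ]
  rw [Nat.succ_eq_add_one, e]
  exact hmul f hf _ (pow_mem hg _)

/-- **The root**, from a derivation `D` of `C`: the class is `D` strict. -/
theorem root_of_D (hGP : GP p v C) (hC : ∀ f ∈ C, D f ∈ C)
    (hsub : ∀ f ∈ C, ∀ g ∈ C, D (f - g) = D f - D g)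
    (hmul : ∀ f ∈ C, ∀ g ∈ C, D (f * g ^ p) = D f * g ^ p)
    (hnorm : ∀ (c : ℝ), ∀ f ∈ C, LP p v C c f → v.Ge (c - ρ) (D f))
    (hoc : ∀ (c : ℝ), ∀ f ∈ C, LP p v C c f → (OC p v C C X₀ c f ↔ Gt v (c - ρ) (D f)))
    (r₁ r₂ : ℝ) (M N : ℕ) (a c : Ω) (hN : N ≠ 0) (hNM : N ≤ M) (ha : a ∈ C) (hc : c ∈ C)
    (hla : LP p v C (ν - p ^ M * r₁) a) (hlc : LP p v C (ν - p ^ N * r₂) c)
    (hno : ¬ OC p v C C X₀ (ν - p ^ N * r₂) c) : ∃ s ∈ C, v.Ge (r₂ - p ^ (M - N) * r₁) s ∧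
      OC p v C C X₀ (ν - p ^ M * r₁) (a - c * s ^ p ^ N) := by
  have hppos : ∀ i : ℕ, (0 : ℝ) < (p : ℝ) ^ i := fun i => by
    have := hp.out.pos
    positivity
  rw [hoc _ _ hc hlc] at hno
  have hyne : D c ≠ 0 := fun h1 => hno fun h2 => absurd h1 h2
  have hyv : v (D c) = ν - p ^ N * r₂ - ρ := by
    refine le_antisymm ?_ (hnorm _ _ hc hlc hyne)
    by_contra h1
    exact hno fun _ => not_le.1 h1
  obtain ⟨g, hg, hgv, hgt⟩ : ∃ g ∈ C, v.Ge (r₂ - p ^ (M - N) * r₁) g ∧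
      Gt v (ν - p ^ M * r₁ - ρ) (D a - D c * g ^ p ^ N) := by
    by_cases hxM : D a = 0
    · refine ⟨0, zero_mem _, RVal.Ge.zero, ?_⟩
      rw [hxM, zero_pow (Nat.pow_pos hp.out.pos).ne', mul_zero, sub_zero]
      exact Gt.zero
    · have hxv : ν - p ^ M * r₁ - ρ ≤ v (D a) := hnorm _ _ ha hla hxM
      have ht0 : D a / D c ≠ 0 := div_ne_zero hxM hyne
      have htC : D a / D c ∈ C := div_mem (hC _ ha) (hC _ hc)
      obtain ⟨g, hg, h1⟩ := hGP.root N htC ht0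
      have h2 : D a = D a / D c * D c := (div_mul_cancel₀ _ hyne).symm
      have h3 : v (D a) = v (D a / D c) + v (D c) := by
        conv_lhs => rw [h2]
        exact v.map_mul ht0 hyne
      obtain ⟨h4, h5⟩ := Gt.val_eq ht0 h1
      have hg0 : g ≠ 0 := by
        rintro rfl
        exact h4 (zero_pow (Nat.pow_pos hp.out.pos).ne')
      have h6 : v (g ^ p ^ N) = p ^ N * v g := by
        rw [v.map_pow hg0]
        push_cast
        ring
      refine ⟨g, hg, fun _ => ?_, ?_⟩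
      · have h7 : (p : ℝ) ^ N * (r₂ - p ^ (M - N) * r₁) ≤ p ^ N * v g := by
          have e1 : (p : ℝ) ^ N * p ^ (M - N) = p ^ M := by
            rw [← pow_add, Nat.add_sub_of_le hNM]
          rw [← h6, h5, mul_sub, ← mul_assoc, e1]
          linarith
        exact le_of_mul_le_mul_left h7 (hppos N)
      · have e2 : D a - D c * g ^ p ^ N = (D a / D c - g ^ p ^ N) * D c := by
          rw [sub_mul, ← h2]
          ring
        rw [e2]
        have h8 : Gt v (v (D a / D c) + v (D c)) ((D a / D c - g ^ p ^ N) * D c) := by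
          intro h9
          have h10 := left_ne_zero_of_mul h9
          rw [v.map_mul h10 hyne]
          have := h1 h10
          linarith
        exact h8.mono (by linarith)
  have hpN : v.Ge (p ^ N * (r₂ - p ^ (M - N) * r₁)) (g ^ p ^ N) := by
    have h2 := TWII.ge_pow' hgv (p ^ N)
    push_cast at h2
    exact h2
  have hlc' : LP p v C (ν - p ^ M * r₁) (c * g ^ p ^ N) := by
    obtain ⟨N, rfl⟩ := Nat.exists_eq_succ_of_ne_zero hN
    have e3 : g ^ p ^ (N + 1) = (g ^ p ^ N) ^ p := by rw [← pow_mul, ← pow_succ]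
    have h3 := hlc.mul_pow (pow_mem hg (p ^ N)) (by rw [← e3]; exact hpN)
    rw [← e3] at h3
    refine h3.mono (le_of_eq ?_)
    have e4 : (p : ℝ) ^ (N + 1) * p ^ (M - (N + 1)) = p ^ M := by
      rw [← pow_add, Nat.add_sub_of_le hNM]
    rw [Nat.succ_eq_add_one, mul_sub, ← mul_assoc, e4]
    ring
  have hm : c * g ^ p ^ N ∈ C := mul_mem hc (pow_mem hg _)
  refine ⟨g, hg, hgv, (hoc _ _ (sub_mem ha hm) (hla.sub hlc')).2 ?_⟩
  rw [hsub _ ha _ hm, D_pow hmul hc hg hN]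
  exact hgt

end Pool.Agent.TWRW
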