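import Pool.Agent.Lib.TWRW.AfA
import Pool.Agent.Lib.TWRW.AfB
import Pool.Agent.Lib.TWRW.Div
import Pool.Agent.Lib.TWRR.J1G

/-!
# CT, j = 1, row B, the pair over `C`: the contradiction

`RFl.false_of_af`: if `al ^ p` is an additive form over a pair `K / C`: a presentation with the tie.
-/

set_option autoImplicit false

open Polynomial Finset

namespace Pool.Agent.TWRW

open Pool.Agent.H15JM (RVal)
open Pool.Agent.D2P (clI)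
open Pool.Agent.TWM
open Pool.Agent.TWS (IsoE TowR PM)
open Pool.Agent.TWII (PG LP)
open Pool.Agent.TWN1
open Pool.Agent.TWNI (FinE ArcI)
open Pool.Agent.TWCT
open Pool.Agent.TWRR (OC OCol GP)
open Pool.Agent.TWCY
open Pool.Agent.TWRB (RFl GLB RowTopB TieF)

universe u

variable {k Ω₀ Ω : Type u} [Field k] [Field Ω₀] [Algebra k Ω₀] [Field Ω] [Algebra k Ω]
  {p : ℕ} {v₀ : RVal Ω₀} {v : RVal Ω} {ι : Ω₀ →ₐ[k] Ω} [hp : Fact p.Prime] [CharP Ω₀ p]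
  [CharP Ω p] [CharP k p] [IsAlgClosed k] [IsAlgClosed Ω₀] [IsAlgClosed Ω] {x₀ : Ω₀}
  {W₀ K₀ : IntermediateField k Ω₀} {al : Ω₀} {ν : ℝ} {C F : IntermediateField k Ω₀}
  {y u z : Ω₀} {r t s : ℝ}

/-- **A pair over `C`, with an additive form: a contradiction.** -/
theorem _root_.Pool.Agent.TWRB.RFl.false_of_af (hTop : RowTopB (k := k) p v)
    (hA : RowA p v₀ v ι x₀ W₀ K₀ al) (h : RFl p v₀ v ι x₀ W₀ K₀ al ν C F y u z r t s)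
    (hTie : ∀ (y₁ y₂ X₁ b₀ : Ω₀) (r₁ r₂ : ℝ) (F₁ : IntermediateField k Ω₀) (x Y : ℕ → Ω₀)
      (S T : ℕ), RFl p v₀ v ι x₀ W₀ K₀ al ν C F₁ y y₁ y₂ r r₁ r₂ →
      AF p v₀ C (clI v₀ K₀) ν (al ^ p) b₀ y₁ r₁ x S y₂ r₂ Y T → OCol p v₀ C ν r₂ X₁ Y →
      X₁ ∈ clI v₀ W₀ → ∀ (G : AddSubgroup ℝ) (M : ℝ → Ω) (L : ℕ → IntermediateField k Ω)
      (X₀ c₁ c₂ d m cx : Ω) (D : Ω → Ω),
      GLB p v₀ v ι x₀ W₀ K₀ al ν C F₁ y y₁ y₂ r r₁ r₂ G M L X₀ c₁ c₂ d m cx D →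
      ∃ (e : k) (κ : ℕ → k) (n : ℕ) (a₀ : Ω), TieF p v (PM v (tH p v₀ ι x₀ F₁) G M)
        (PM v (tH p v₀ ι x₀ (clI v₀ K₀)) G M) (X₀ / cx ^ p) (ι y₂ / d) (ι (al ^ p) / m ^ p) e κ n
        a₀)
    (hOC : ∀ (Θ : ℕ → Ω₀ → Ω₀), HsY v₀ (clI v₀ W₀) y r Θ → ∃ X₁ ∈ clI v₀ W₀,
      ∀ (c : ℝ), ∀ f ∈ C, LP p v₀ C c f → (OC p v₀ C C X₁ c f ↔ Gt v₀ (c - r) (Θ 1 f)))
    {b₀ z₁ z₂ : Ω₀} {r₁ r₂ : ℝ} {x Y : ℕ → Ω₀} {S T : ℕ}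
    (haf : AF p v₀ C (clI v₀ K₀) ν (al ^ p) b₀ z₁ r₁ x S z₂ r₂ Y T) : False := by
  have hJ := h.j
  obtain ⟨Θ, hΘ⟩ := exists_hsY hJ.cpl h.ty
  obtain ⟨b₁, z₁', z₂', r₁', r₂', x', Y', S', T', haf', hf1, hf2⟩ := h.exists_fin hΘ haf
  obtain ⟨X₁, hX₁, hoc⟩ := hOC Θ hΘ
  have hfbr : TWLM.Fbr v₀ C r Θ := by
    rw [h.C_eq]
    exact hΘ.fbr
  have hmul : ∀ f ∈ C, ∀ g ∈ C, Θ 1 (f * g ^ p) = Θ 1 f * g ^ p := by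
    intro f hf g hg
    rw [hfbr.mul 1 f hf _ (pow_mem hg p)]
    have e : (Finset.HasAntidiagonal.antidiagonal 1 : Finset (ℕ × ℕ)) = {(0, 1), (1, 0)} := rfl
    rw [e, sum_pair (by simp), hfbr.c0 _ (pow_mem hg p), TWN1.phi_pow hfbr.toHSd hg 1,
      if_neg (by simpa using hp.out.ne_one), mul_zero, zero_add]
  have hGP : GP p v₀ C := by
    rw [h.C_eq]
    exact TWRR.gp_of_pdiv hJ.ctx.toCtx0 (pdiv_cadj hJ.pd h.ty)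
  have hnorm : ∀ (c : ℝ), ∀ f ∈ C, LP p v₀ C c f → v₀.Ge (c - r) (Θ 1 f) := by
    intro c f hf hl h0
    refine le_of_forall_pos_le_add fun ε hε => ?_
    obtain ⟨g, hg, h2⟩ := hl ε hε
    have hgp : g ^ p ∈ C := pow_mem hg _
    have h3 := hfbr.norm 1 (sub_mem hf hgp) h2
    rw [hfbr.toHSd.sub 1 hf hgp, TWN1.phi_pow hfbr.toHSd hg 1,
      if_neg (by simpa using hp.out.ne_one), sub_zero] at h3
    have h4 := h3 h0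
    push_cast at h4
    linarith
  obtain ⟨y₁, y₂, t₁, t₂, x'', Y'', S'', T'', haf'', ⟨hf1', -⟩, -, -, -, hocol⟩ :=
    AF.euclid (X₀ := X₁) (root_of_D hGP (fun f hf => hfbr.mem 1 f hf)
      (fun f hf g hg => hfbr.toHSd.sub 1 hf hg) hmul hnorm hoc)
      (fun z r₁ => FinE v₀ C r r₁ Θ z ∧ Lim v₀ C r₁ z)
      (fun z₁ z₂ s r₁ r₂ d h1 h2 hs hv => ⟨h1.1.step hfbr hs hv h1.2 h2.1,
        lim_step h1.2 h2.2 hs hv⟩) haf' ⟨hf1, haf'.par.t1.lim⟩ ⟨hf2, haf'.par.t2.lim⟩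
  have hR : RFl p v₀ v ι x₀ W₀ K₀ al ν C (cadj v₀ C y₁) y y₁ y₂ r t₁ t₂ :=
    ⟨hJ, h.ty, h.C_eq, haf''.par.t1, rfl, haf''.par.t21, haf''.par.eq1⟩
  have e1 : C = cadj v₀ (clI v₀ W₀) y := h.C_eq
  obtain ⟨hnl, hnh⟩ := rowB_step hA hJ h.ty (u := y₁) (t := t₁) (z := y₂) (s := t₂)
    (by rw [← e1]; exact haf''.par.t1) (by rw [← e1]; exact haf''.par.t21)
    (by rw [← e1]; exact haf''.par.eq1)
  rw [← e1] at hnl hnh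
  exact hR.false_of_tie hTop hnl hnh hΘ (by rw [← e1]; exact hf1') fun G M L X₀ c₁ c₂ d m cx D hG =>
    hTie y₁ y₂ X₁ b₁ t₁ t₂ _ x'' Y'' S'' T'' hR haf'' hocol hX₁ G M L X₀ c₁ c₂ d m cx D hG

end Pool.Agent.TWRW
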