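import Pool.Agent.Lib.TWRR.G1
import Pool.Agent.Lib.TWRR.R1
import Pool.Agent.Lib.TWCT.FinY

/-!
# TANK W, row B, R16: critical elements of `C = W⟨w⟩` modulo one class

* `exists_dec`: `b = e w + b₀` + null, `e`, `b₀` in `W`;
* `oc_of_strict`: if `e` is strict, `b` has the class of `W`;
* `oc_iff_of_dec`: the converse;
* `exists_div`: two critical elements `x`, `y`, `y` not of the class: `x - y s ^ p ^ n` is of the
  class, for some `s` in `W`.
-/

set_option autoImplicit false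

open Polynomial Finset

namespace Pool.Agent.TWRW

open Pool.Agent.H15JM (RVal)
open Pool.Agent.D2 (Ctx0)
open Pool.Agent.TWM
open Pool.Agent.TWII (PG LP)
open Pool.Agent.TWN1
open Pool.Agent.TWRR

universe u

variable {k Ω : Type u} [Field k] [Field Ω] [Algebra k Ω] {v : RVal Ω}
  {W : IntermediateField k Ω} {w X₀ : Ω} {ρ : ℝ} {p : ℕ} [hp : Fact p.Prime] [CharP Ω p]

/-- **The shape of a critical element** of `W⟨w⟩`. -/
theorem exists_dec [IsAlgClosed Ω] (hw : TL v W w ρ) (h : H0w p v W w ρ) {b : Ω} {c : ℝ}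
    (hb : b ∈ cadj v W w) (hlp : LP p v (cadj v W w) c b) :
    ∃ e ∈ W, ∃ b₀ ∈ W, v.Ge (c - ρ) e ∧ PG p v (cadj v W w) c (b - (e * w + b₀)) := by
  obtain ⟨f, hf, h1⟩ := hw.dense hb (c + 1)
  have hbf : Gt v c (b - f.eval w) := Gt.of_ge h1 (by linarith)
  have hν : LP p v (cadj v W w) c (f.eval w) := by
    have h2 := hlp.sub (lp_of_ge hbf.ge)
    rwa [sub_sub_cancel] at h2
  have h2 := lp_jet_one hw hf hν
  obtain ⟨e, he, hev, h3⟩ := exists_lead hw.imm (TWLM.eval_mem_cadj (w := w)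
    (hasse_mem_PI hf 1)) h2
  obtain ⟨η, hη, h4⟩ := TWLM.exists_ge_of_gt h3
  have hge : v.Ge (c - ρ) e := by
    have e1 : e = (hasseDeriv 1 f).eval w - ((hasseDeriv 1 f).eval w - e) := by ring
    rw [e1]
    exact h2.sub h3.ge
  set g : Polynomial Ω := derivative f - Polynomial.C e with hg
  have hgP : g ∈ PI W := by
    rw [hg]
    refine sub_mem ?_ (C_mem_PI he)
    rw [← hasseDeriv_one']
    exact hasse_mem_PI hf 1
  have hgd : derivative^[p - 1] g = 0 := by
    have h5 : derivative^[p - 1] (Polynomial.C e) = 0 := by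
      obtain ⟨m, hm⟩ : ∃ m, p - 1 = m + 1 := ⟨p - 2, by have := hp.out.two_le; omega⟩
      rw [hm, Function.iterate_succ_apply, derivative_C, iterate_derivative_zero]
    rw [hg, iterate_derivative_sub, iterate_derivative_pred, h5, sub_zero]
  have hgw : v.Ge (c - ρ + η) (g.eval w) := by
    rw [hg, eval_sub, eval_C, ← hasseDeriv_one']
    exact h4
  obtain ⟨G, hG, hGd, hGs⟩ := exists_anti p hw hgP hgd hgw (half_pos hη)
  have hGs' : Gt v c (G.eval w) := Gt.of_ge hGs (by linarith)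
  have hd : derivative (f - G) = Polynomial.C e := by
    rw [derivative_sub, hGd, hg]
    ring
  have hX : ∀ l, 2 ≤ l → ¬ p ∣ l → hasseDeriv l (f - G) = 0 := by
    intro l hl hpl
    have h5 : derivative (f - G - Polynomial.C e * X) = 0 := by
      rw [derivative_sub, hd, derivative_C_mul, derivative_X, mul_one, sub_self]
    have h6 := hasse_zero_of_derivative p h5 hpl
    rw [map_sub, sub_eq_zero] at h6
    rw [h6]
    refine hasseDeriv_eq_zero_of_lt_natDegree _ _ ?_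
    exact lt_of_le_of_lt ((natDegree_C_mul_le _ _).trans natDegree_X_le) (by omega)
  have hlp' : LP p v (cadj v W w) c ((f - G).eval w) := by
    rw [eval_sub]
    exact hν.sub (lp_of_ge hGs'.ge)
  obtain ⟨b₀, hb₀, h5⟩ := h.top hw (sub_mem hf hG) hX hlp' (e₂ := e) (by
    rw [hasseDeriv_one', hd])
  refine ⟨e, he, b₀, hb₀, hge, ?_⟩
  have e1 : b - (e * w + b₀) = (b - f.eval w) + G.eval w + ((f - G).eval w - e * w - b₀) := by
    rw [eval_sub]
    ring
  rw [e1]
  exact (PG.add (PG.of_gt hbf) (PG.of_gt hGs')).add h5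

/-- **The class of a critical element with a strict coefficient.** -/
theorem oc_of_strict [IsAlgClosed Ω] (hw : TL v W w ρ)
    (hcls : ∀ (c : ℝ) (b : Ω), b ∈ W → LP p v W c b → OC p v (cadj v W w) (cadj v W w) X₀ c b)
    {e b₀ : Ω} {c : ℝ} (he : e ∈ W) (hb₀ : b₀ ∈ W) (hs : Gt v (c - ρ) e)
    (hlp : LP p v (cadj v W w) c (e * w + b₀)) :
    OC p v (cadj v W w) (cadj v W w) X₀ c (e * w + b₀) := by
  obtain ⟨η, hη, h1⟩ := TWLM.exists_ge_of_gt hs
  obtain ⟨θ, hθ, h2⟩ := hw.lim (η / 2) (half_pos hη)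
  have h3 : Gt v c (e * (w - θ)) := Gt.of_ge (h1.mul h2) (by linarith)
  have e1 : e * w + b₀ = e * (w - θ) + (e * θ + b₀) := by ring
  have h4 : LP p v (cadj v W w) c (e * θ + b₀) := by
    have h5 := hlp.sub (lp_of_ge h3.ge)
    have e2 : e * w + b₀ - e * (w - θ) = e * θ + b₀ := by ring
    rwa [e2] at h5
  have h5 : e * θ + b₀ ∈ W := add_mem (mul_mem he hθ) hb₀
  rw [e1]
  exact (OC.of_pg (PG.of_gt h3)).add (hcls c _ h5 (h4.down hw h5))

/-- **The division step**: the element `x` modulo the multiples of `y` by `p`-powers. -/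
theorem exists_div [IsAlgClosed Ω] (hw : TL v W w ρ) (h : H0w p v W w ρ) (hgp : GP p v W)
    (hcls : ∀ (c : ℝ) (b : Ω), b ∈ W → LP p v W c b → OC p v (cadj v W w) (cadj v W w) X₀ c b)
    {x y : Ω} {a c d : ℝ} {n : ℕ} (hn : n ≠ 0) (hd : a - c = p ^ n * d) (hx : x ∈ cadj v W w)
    (hy : y ∈ cadj v W w) (hlx : LP p v (cadj v W w) a x) (hly : LP p v (cadj v W w) c y)
    (hny : ¬ OC p v (cadj v W w) (cadj v W w) X₀ c y) :
    ∃ s ∈ W, v.Ge d s ∧ OC p v (cadj v W w) (cadj v W w) X₀ a (x - y * s ^ p ^ n) := by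
  have hp0 : (0 : ℝ) < (p : ℝ) ^ n := pow_pos (by exact_mod_cast hp.out.pos) n
  have hWC : W ≤ cadj v W w := le_cadj v W w
  obtain ⟨e, he, b, hb, hev, h1⟩ := exists_dec hw h hx hlx
  obtain ⟨e', he', b', hb', hev', h2⟩ := exists_dec hw h hy hly
  have hlx' : LP p v (cadj v W w) a (e * w + b) := by
    have h3 := hlx.sub (LP.of_pg h1)
    rwa [sub_sub_cancel] at h3
  have hly' : LP p v (cadj v W w) c (e' * w + b') := by
    have h3 := hly.sub (LP.of_pg h2)
    rwa [sub_sub_cancel] at h3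
  have hns : ¬ Gt v (c - ρ) e' := by
    intro h3
    apply hny
    have h4 := (OC.of_pg h2).add (oc_of_strict hw hcls he' hb' h3 hly')
    rwa [sub_add_cancel] at h4
  obtain ⟨he'0, hve'⟩ : e' ≠ 0 ∧ v e' = c - ρ := by
    unfold Gt at hns
    push Not at hns
    exact ⟨hns.1, le_antisymm hns.2 (hev' hns.1)⟩
  -- the general step
  have key : ∀ s ∈ W, v.Ge d s → Gt v (a - ρ) (e - e' * s ^ p ^ n) →
      OC p v (cadj v W w) (cadj v W w) X₀ a (x - y * s ^ p ^ n) := by
    intro s hs hsd hgt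
    obtain ⟨m, rfl⟩ : ∃ m, n = m + 1 := ⟨n - 1, by omega⟩
    have hsp : v.Ge (a - c) ((s ^ p ^ m) ^ p) := by
      rw [← pow_mul, ← pow_succ, hd]
      refine (ge_pow hsd _).mono ?_
      push_cast
      exact le_rfl
    have es : s ^ p ^ (m + 1) = (s ^ p ^ m) ^ p := by rw [← pow_mul, ← pow_succ]
    have hsC : s ^ p ^ m ∈ cadj v W w := pow_mem (hWC hs) _
    have h3 : PG p v (cadj v W w) a ((y - (e' * w + b')) * (s ^ p ^ m) ^ p) :=
      (h2.mul_pow hsC hsp).mono (by linarith)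
    have h4 : LP p v (cadj v W w) a ((e' * w + b') * (s ^ p ^ m) ^ p) := by
      have h5 := hly'.mul_pow hsC hsp
      have e1 : c + (a - c) = a := by ring
      rwa [e1] at h5
    have h5 : OC p v (cadj v W w) (cadj v W w) X₀ a
        ((e - e' * s ^ p ^ (m + 1)) * w + (b - b' * s ^ p ^ (m + 1))) := by
      refine oc_of_strict hw hcls (sub_mem he (mul_mem he' (pow_mem hs _)))
        (sub_mem hb (mul_mem hb' (pow_mem hs _))) hgt ?_
      have h6 := hlx'.sub h4
      refine (congrArg _ ?_).mp h6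
      rw [es]
      ring
    have e1 : x - y * s ^ p ^ (m + 1) = ((x - (e * w + b)) -
        (y - (e' * w + b')) * (s ^ p ^ m) ^ p) +
        ((e - e' * s ^ p ^ (m + 1)) * w + (b - b' * s ^ p ^ (m + 1))) := by
      rw [es]
      ring
    rw [e1]
    exact ((OC.of_pg h1).sub (OC.of_pg h3)).add h5
  by_cases he0 : e = 0
  · refine ⟨0, zero_mem _, RVal.Ge.zero, key 0 (zero_mem _) RVal.Ge.zero ?_⟩
    rw [he0, zero_pow (Nat.pow_pos hp.out.pos).ne', mul_zero, sub_zero]
    exact Gt.zero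
  · have hq0 : e / e' ≠ 0 := div_ne_zero he0 he'0
    obtain ⟨s, hs, h3⟩ := hgp.root n (div_mem he he') hq0
    obtain ⟨h4, h5⟩ := h3.val_eq hq0
    have hs0 : s ≠ 0 := fun h6 => h4 (by rw [h6, zero_pow (Nat.pow_pos hp.out.pos).ne'])
    have hvs : (p : ℝ) ^ n * v s = v e - v e' := by
      rw [v.map_pow hs0, v.map_div he0 he'0] at h5
      push_cast at h5
      exact h5
    have hve := hev he0
    have hsd : v.Ge d s := fun _ => by
      have h6 : (p : ℝ) ^ n * d ≤ p ^ n * v s := by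
        rw [hvs, hve', ← hd]
        linarith
      exact le_of_mul_le_mul_left h6 hp0
    refine ⟨s, hs, hsd, key s hs hsd ?_⟩
    have e1 : e - e' * s ^ p ^ n = (e / e' - s ^ p ^ n) * e' := by
      field_simp
    rw [e1]
    refine (h3.mul_ge (RVal.ge_self (v := v) e')).mono ?_
    rw [v.map_div he0 he'0]
    linarith

/-- The hypothesis of the division of the columns. -/
theorem hroot_of [IsAlgClosed Ω] (hw : TL v W w ρ) (h : H0w p v W w ρ) (hgp : GP p v W)
    (hcls : ∀ (c : ℝ) (b : Ω), b ∈ W → LP p v W c b → OC p v (cadj v W w) (cadj v W w) X₀ c b)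
    (ν : ℝ) : ∀ (r₁ r₂ : ℝ) (M N : ℕ) (a c : Ω), N ≠ 0 → N ≤ M → a ∈ cadj v W w →
      c ∈ cadj v W w → LP p v (cadj v W w) (ν - p ^ M * r₁) a →
      LP p v (cadj v W w) (ν - p ^ N * r₂) c →
      ¬ OC p v (cadj v W w) (cadj v W w) X₀ (ν - p ^ N * r₂) c →
      ∃ s ∈ cadj v W w, v.Ge (r₂ - p ^ (M - N) * r₁) s ∧
        OC p v (cadj v W w) (cadj v W w) X₀ (ν - p ^ M * r₁) (a - c * s ^ p ^ N) := by
  intro r₁ r₂ M N a c hN hNM ha hc hla hlc hnc
  obtain ⟨m, rfl⟩ := Nat.exists_eq_add_of_le hNM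
  obtain ⟨s, hs, h1, h2⟩ := exists_div hw h hgp hcls (d := r₂ - p ^ (N + m - N) * r₁) hN (by
    rw [Nat.add_sub_cancel_left, pow_add]
    ring) ha hc hla hlc hnc
  exact ⟨s, le_cadj v W w hs, h1, h2⟩

end Pool.Agent.TWRW
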