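import Pool.Agent.Lib.TWRW.AfA
import Pool.Agent.Lib.TWRW.AfB
import Pool.Agent.Lib.TWRW.OCw
import Pool.Agent.Lib.TWRW.Div
import Pool.Agent.Lib.TWRR.J1G
import Pool.Agent.Lib.TWRB.TieAF

/-!
# CT, j = 1, row B, the pair over `C`: the contradiction, second form

`RFl.false_of_afc`: if `al ^ p` is an additive form over a pair `K / C`: a contradiction, from the
class of `W`.
-/

set_option autoImplicit false

open Polynomial Finset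

namespace Pool.Agent.TWRW

open Pool.Agent.H15JM (RVal)
open Pool.Agent.D2P (clI)
open Pool.Agent.TWM
open Pool.Agent.TWS (IsoE TowR PM)
open Pool.Agent.TWII (PG LP)
open Pool.Agent.TWN1
open Pool.Agent.TWNI (FinE ArcI)
open Pool.Agent.TWCT
open Pool.Agent.TWRR (OC OCol GP)
open Pool.Agent.TWCY
open Pool.Agent.TWRB (RFl GLB RowTopB TieF)

universe u

variable {k Ω₀ Ω : Type u} [Field k] [Field Ω₀] [Algebra k Ω₀] [Field Ω] [Algebra k Ω]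
  {p : ℕ} {v₀ : RVal Ω₀} {v : RVal Ω} {ι : Ω₀ →ₐ[k] Ω} [hp : Fact p.Prime] [CharP Ω₀ p]
  [CharP Ω p] [CharP k p] [IsAlgClosed k] [IsAlgClosed Ω₀] [IsAlgClosed Ω] {x₀ : Ω₀}
  {W₀ K₀ : IntermediateField k Ω₀} {al : Ω₀} {ν : ℝ} {C F : IntermediateField k Ω₀}
  {y u z : Ω₀} {r t s : ℝ}

/-- **A pair over `C`, with an additive form: a contradiction.** -/
theorem _root_.Pool.Agent.TWRB.RFl.false_of_afc (hTop : RowTopB (k := k) p v)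
    (hA : RowA p v₀ v ι x₀ W₀ K₀ al) (h : RFl p v₀ v ι x₀ W₀ K₀ al ν C F y u z r t s)
    (hcls : ∃ X₁ ∈ clI v₀ W₀, ∀ (c : ℝ) (b : Ω₀), b ∈ clI v₀ W₀ → LP p v₀ (clI v₀ W₀) c b →
      OC p v₀ C C X₁ c b)
    {b₀ z₁ z₂ : Ω₀} {r₁ r₂ : ℝ} {x Y : ℕ → Ω₀} {S T : ℕ}
    (haf : AF p v₀ C (clI v₀ K₀) ν (al ^ p) b₀ z₁ r₁ x S z₂ r₂ Y T) : False := by
  have hJ := h.j
  obtain ⟨Θ, hΘ⟩ := exists_hsY hJ.cpl h.ty
  obtain ⟨b₁, z₁', z₂', r₁', r₂', x', Y', S', T', haf', hf1, hf2⟩ := h.exists_fin hΘ haf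
  obtain ⟨X₁, hX₁, hcls⟩ := hcls
  have e1 : C = cadj v₀ (clI v₀ W₀) y := h.C_eq
  have hfbr : TWLM.Fbr v₀ C r Θ := by
    rw [e1]
    exact hΘ.fbr
  have hT2 : TowR v₀ 2 (cadj v₀ (clI v₀ W₀) y) (clI v₀ K₀) := by
    rw [← e1]
    exact TowR.succ haf'.par.t1 (TWS.towR_iff_one.2 ⟨z₂', r₂', haf'.par.t21, haf'.par.eq1⟩)
  have hroot := hroot_of h.ty (hJ.h0w_ratH h.ty hT2).1
    (TWRR.gp_of_pdiv hJ.ctx.toCtx0 hJ.pd) (X₀ := X₁) (by rw [← e1]; exact hcls) ν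
  rw [← e1] at hroot
  obtain ⟨y₁, y₂, t₁, t₂, x'', Y'', S'', T'', haf'', ⟨hf1', -⟩, -, -, -, hocol⟩ :=
    AF.euclid (X₀ := X₁) hroot (fun z r₁ => FinE v₀ C r r₁ Θ z ∧ Lim v₀ C r₁ z)
      (fun z₁ z₂ s r₁ r₂ d h1 h2 hs hv => ⟨h1.1.step hfbr hs hv h1.2 h2.1,
        lim_step h1.2 h2.2 hs hv⟩) haf' ⟨hf1, haf'.par.t1.lim⟩ ⟨hf2, haf'.par.t2.lim⟩
  have hR : RFl p v₀ v ι x₀ W₀ K₀ al ν C (cadj v₀ C y₁) y y₁ y₂ r t₁ t₂ :=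
    ⟨hJ, h.ty, h.C_eq, haf''.par.t1, rfl, haf''.par.t21, haf''.par.eq1⟩
  obtain ⟨hnl, hnh⟩ := rowB_step hA hJ h.ty (u := y₁) (t := t₁) (z := y₂) (s := t₂)
    (by rw [← e1]; exact haf''.par.t1) (by rw [← e1]; exact haf''.par.t21)
    (by rw [← e1]; exact haf''.par.eq1)
  rw [← e1] at hnl hnh
  exact hR.false_of_tie hTop hnl hnh hΘ (by rw [← e1]; exact hf1') fun G M L X₀ c₁ c₂ d m cx D hG =>
    hG.tieF_of_af hR haf'' hX₁ hocol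

end Pool.Agent.TWRW
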