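import Pool.Agent.Lib.TWRW.Div
import Pool.Agent.Lib.TWRB.PairS
import Pool.Agent.Lib.TWRB.Glob
import Pool.Agent.Lib.TWRR.R5

/-!
# TANK W, RowB, the bad case: the additive form comes down to the real fields

* `af_step`, `af_cols`, `af_small`, `af_change`: the additive form for the pair `(z₁, z₂ + δ)`, where
  `δ` is a limit of `C` in `C⟨z₁⟩`;
* `af_down`: the projection of an additive form;
* `RFl.real_af`: from an additive form in the big field and a real pair over `C` to a real additive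
  form.
-/

set_option autoImplicit false

open Polynomial Finset

namespace Pool.Agent.TWRW

open Pool.Agent.H15JM (RVal)
open Pool.Agent.D2 (Ctx0)
open Pool.Agent.TWM
open Pool.Agent.TWII (PG LP)
open Pool.Agent.TWN1
open Pool.Agent.TWRB (KC exists_germ col_succ col_at_zero)
open Pool.Agent.TWRR (Prj)

universe u

section core

variable {k Ω : Type u} [Field k] [Field Ω] [Algebra k Ω] {v : RVal Ω}
  {C K : IntermediateField k Ω} {p : ℕ} [hp : Fact p.Prime] [CharP Ω p]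
  {ν : ℝ} {b b₀ z₁ z₂ : Ω} {r₁ r₂ : ℝ} {x y : ℕ → Ω} {S T : ℕ}

/-- The column step, in all degrees. -/
theorem af_step [IsAlgClosed Ω] (h : AF p v C K ν b b₀ z₁ r₁ x S z₂ r₂ y T)
    (hx0 : ∀ j, S < j → x j = 0) (hy0 : ∀ j, T < j → y j = 0) {s : Ω} (hs : s ∈ C) {d : ℕ}
    (hv : v.Ge (r₂ - p ^ d * r₁) s) :
    AF p v C K ν b b₀ z₁ r₁ (colS p x y s d) (max S (T + d)) (z₂ + s * z₁ ^ p ^ d) r₂ y T ∧
    ∀ j, max S (T + d) < j → colS p x y s d j = 0 := by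
  set S' := max S (T + d) with hS'
  have hSS : S ≤ S' := le_max_left _ _
  have hTd : T + d ≤ S' := le_max_right _ _
  set T' := S' - d with hT'
  have hTT : T ≤ T' := by omega
  have hTS : T' ≤ S' := Nat.sub_le _ _
  have hdd : S' - T' = d := by omega
  refine ⟨⟨h.par.step hs hv, h.c1.step h.c2 hs hv, h.c2, h.b0, ?_⟩, fun j hj => ?_⟩
  · have e3 := col_step (p := p) (x := x) (y := y) (z₁ := z₁) (z₂ := z₂) hTS s
    rw [hdd, col_ext hx0 z₁ hSS, col_ext hy0 z₂ hTT,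
      col_ext hy0 (z₂ + s * z₁ ^ p ^ d) hTT] at e3
    rw [add_assoc, ← e3, ← add_assoc]
    exact h.rel
  · rw [colS, hx0 j (by omega), if_pos (by omega), hy0 (j - d) (by omega), zero_mul, sub_zero]

/-- Constant columns may be added to the second generator. -/
theorem af_cols [IsAlgClosed Ω] (h0 : Ctx0 k v) (h : AF p v C K ν b b₀ z₁ 0 x S z₂ 0 y T)
    (hx0 : ∀ j, S < j → x j = 0) (hy0 : ∀ j, T < j → y j = 0) {κ : ℕ → Ω} (hκ : KC k κ) (N : ℕ) :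
    ∃ (x' : ℕ → Ω) (S' : ℕ), AF p v C K ν b b₀ z₁ 0 x' S' (z₂ + col p κ z₁ N) 0 y T ∧
      ∀ j, S' < j → x' j = 0 := by
  induction N with
  | zero =>
    obtain ⟨h1, h2⟩ := af_step h hx0 hy0 (hκ.mem C 0) (d := 0)
      (by rw [mul_zero, sub_zero]; exact hκ.ge h0 0)
    rw [pow_zero, pow_one] at h1
    rw [col_at_zero]
    exact ⟨_, _, h1, h2⟩
  | succ N ih =>
    obtain ⟨x', S', h1, h2⟩ := ih
    obtain ⟨h3, h4⟩ := af_step h1 h2 hy0 (hκ.mem C (N + 1)) (d := N + 1)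
      (by rw [mul_zero, sub_zero]; exact hκ.ge h0 _)
    rw [col_succ, ← add_assoc]
    exact ⟨_, _, h3, h4⟩

theorem col_add' (y : ℕ → Ω) (a c : Ω) (T : ℕ) : col p y (a + c) T = col p y a T + col p y c T := by
  rw [col, col, col, ← sum_add_distrib]
  exact sum_congr rfl fun j _ => by rw [add_pow_char_pow]; ring

/-- A coefficient of a column times a small `p ^ j`-th power is null. -/
theorem null_small {r : ℝ} (hy : Col p v C ν r y) (hCK : C ≤ K) {o : Ω} (ho : o ∈ K)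
    (hov : Gt v r o) (j : ℕ) : PG p v K ν (y j * o ^ p ^ j) := by
  obtain ⟨μ, hμ, h1⟩ := TWLM.exists_ge_of_gt hov
  have hp0 : 0 < p := hp.out.pos
  have hpj : (0 : ℝ) < (p : ℝ) ^ j := by positivity
  obtain ⟨w, hw, hw0, h2⟩ := hy.hlev j ((p : ℝ) ^ j * μ / 2) (by positivity)
  have h3 : v.Ge ((p : ℝ) ^ j * (r + μ)) (o ^ p ^ j) := by
    have h4 := TWII.ge_pow' h1 (p ^ j)
    push_cast at h4
    exact h4
  have e : y j * o ^ p ^ j = (y j - w ^ p) * o ^ p ^ j + w ^ p * o ^ p ^ j := by ring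
  rw [e]
  refine PG.add (.of_gt (Gt.of_ge (h2.mul h3) (by nlinarith))) ?_
  rcases Nat.eq_zero_or_pos j with hj0 | hj0
  · rw [hw0 hj0, zero_pow hp.out.ne_zero, zero_mul]
    exact .of_gt Gt.zero
  · have e5 : w ^ p * o ^ p ^ j = (w * o ^ p ^ (j - 1)) ^ p := by
      rw [_root_.mul_pow, ← pow_mul, ← pow_succ, Nat.sub_add_cancel hj0]
    rw [e5]
    exact .of_pow (mul_mem (hCK hw) (pow_mem ho _))

/-- Elements of `C` and small elements may be added to the second generator. -/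
theorem af_small [IsAlgClosed Ω] (h : AF p v C K ν b b₀ z₁ r₁ x S z₂ r₂ y T) {f o : Ω}
    (hf : f ∈ C) (ho : o ∈ cadj v C z₁) (hov : Gt v r₂ o) :
    ∃ b₀' : Ω, AF p v C K ν b b₀' z₁ r₁ x S (z₂ + (f + o)) r₂ y T := by
  have hm : -(f + o) ∈ cadj v C z₁ := neg_mem (add_mem (le_cadj v C z₁ hf) ho)
  have e0 : z₂ + (f + o) = z₂ - -(f + o) := by ring
  have hCK : cadj v C z₁ ≤ K := by
    rw [h.par.eq1]
    exact le_cadj _ _ _
  have hP : Par v C K z₁ r₁ (z₂ + (f + o)) r₂ := by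
    refine Par.mk' h.par.t1 ?_ ?_ ?_
    · rw [e0]
      exact h.par.t21.sub_mem hm
    · intro ε hε
      obtain ⟨c, hc, h1⟩ := h.par.t2.lim ε hε
      refine ⟨c + f, add_mem hc hf, ?_⟩
      have e : z₂ + (f + o) - (c + f) = (z₂ - c) + o := by ring
      rw [e]
      exact h1.add (hov.ge.mono (by linarith))
    · rw [e0, cadj_sub_mem hm]
      exact h.par.eq1
  refine ⟨b₀ - col p y f T, hP, h.c1, h.c2,
    sub_mem h.b0 (sum_mem fun j _ => mul_mem (h.c2.mem j) (pow_mem hf _)), ?_⟩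
  have e : b - (b₀ - col p y f T + col p x z₁ S + col p y (z₂ + (f + o)) T) =
      (b - (b₀ + col p x z₁ S + col p y z₂ T)) - col p y o T := by
    rw [col_add', col_add']
    ring
  rw [e]
  exact h.rel.sub (PG.sum _ _ fun j _ => null_small h.c2 h.par.le (hCK ho) hov j)

/-- **The additive form for another second generator.** -/
theorem af_change [IsAlgClosed Ω] (h0 : Ctx0 k v) (h : AF p v C K ν b b₀ z₁ 0 x S z₂ 0 y T)
    {δ : Ω} (hδ : δ ∈ cadj v C z₁) (hl : Lim v C 0 δ) :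
    ∃ (b₀' : Ω) (x' : ℕ → Ω) (S' : ℕ),
      AF p v C K ν b b₀' z₁ 0 x' S' (z₂ + δ) 0 (trn y T) T := by
  obtain ⟨f, hf, κ, N, hκ, h1⟩ := exists_germ (p := p) h0 h.par.t1 hδ hl
  obtain ⟨x', S', h2, -⟩ := af_cols h0 (AF.trunc h) (fun j hj => trn_of_lt hj)
    (fun j hj => trn_of_lt hj) hκ N
  have ho : δ - (f + col p κ z₁ N) ∈ cadj v C z₁ := sub_mem hδ (add_mem (le_cadj v C z₁ hf)
    (sum_mem fun j _ => mul_mem (hκ.mem _ j) (pow_mem (self_mem_cadj v C z₁) _)))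
  obtain ⟨b₀', h3⟩ := af_small h2 hf ho h1
  refine ⟨b₀', x', S', ?_⟩
  have e : z₂ + col p κ z₁ N + (f + (δ - (f + col p κ z₁ N))) = z₂ + δ := by ring
  rwa [e] at h3

end core

/-! ### The projection -/

section down

variable {k Ω : Type u} [Field k] [Field Ω] [Algebra k Ω] {v : RVal Ω}
  {Cr Kr C' K' : IntermediateField k Ω} {p : ℕ} [hp : Fact p.Prime] {π : Ω → Ω}

omit hp in
theorem prj_col (h : Prj p v Kr K' π) {A : ℕ → Ω} (hA : ∀ j, A j ∈ K') {z : Ω} (hz : z ∈ Kr)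
    (S : ℕ) : π (col p A z S) = col p (fun j => π (A j)) z S := by
  rw [col, h.sum _ _ (fun j _ => mul_mem (hA j) (h.le (pow_mem hz _))), col]
  refine sum_congr rfl fun j _ => ?_
  rw [mul_comm, h.mul _ (pow_mem hz _) _ (hA j), mul_comm]

omit hp in
theorem col_scale (X : ℕ → Ω) (U c M : Ω) (S : ℕ) :
    M * col p X (U / c) S = col p (fun j => M * X j * (c⁻¹) ^ p ^ j) U S := by
  rw [col, col, mul_sum]
  refine sum_congr rfl fun j _ => ?_
  rw [div_eq_mul_inv, _root_.mul_pow]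
  ring

omit hp in
/-- The column of the projection. -/
theorem col_prj (hπ : Prj p v Kr K' π) (hC : ∀ g ∈ C', π g ∈ Cr) (hCr : Cr ≤ Kr) (hCC : Cr ≤ C')
    (hCK : C' ≤ K') {ν t : ℝ} {m c : Ω} {x : ℕ → Ω} (hx : Col p v C' 0 0 x) (hm : m ∈ C')
    (hm0 : m ≠ 0) (hmv : p * v m = ν) (hc : c ∈ C') (hc0 : c ≠ 0) (hcv : v c = t) :
    Col p v Cr ν t fun j => π (m ^ p * x j * (c⁻¹) ^ p ^ j) := by
  have hA : ∀ j, m ^ p * x j * (c⁻¹) ^ p ^ j ∈ C' := fun j =>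
    mul_mem (mul_mem (pow_mem hm p) (hx.mem j)) (pow_mem (inv_mem hc) _)
  have hmp : v.Ge ν (m ^ p) := by
    intro _
    rw [v.map_pow hm0, hmv]
  have hci : v.Ge (-t) c⁻¹ := by
    intro _
    rw [v.map_inv hc0, hcv]
  have hB : Prj p v Cr C' π :=
    { le := hCC
      mem := hC
      add := fun g hg g' hg' => hπ.add g (hCK hg) g' (hCK hg')
      mul := fun a ha g hg => hπ.mul a (hCr ha) g (hCK hg)
      self := fun a ha => hπ.self a (hCr ha)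
      pow := fun g hg => hπ.pow g (hCK hg)
      ge := fun g hg r hr => hπ.ge g (hCK hg) r hr }
  refine ⟨fun j => hC _ (hA j), ?_, fun j hj => ?_⟩
  · refine hπ.ge _ (hCK (hA 0)) _ ?_
    rw [pow_zero, pow_one]
    exact ((hmp.mul hx.lin).mul hci).mono (by linarith)
  · refine hB.lp_pr (hA j) ?_
    have e : m ^ p * x j * (c⁻¹) ^ p ^ j = x j * (m * (c⁻¹) ^ p ^ (j - 1)) ^ p := by
      rw [_root_.mul_pow, ← pow_mul, ← pow_succ, Nat.sub_add_cancel (Nat.one_le_iff_ne_zero.2 hj)]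
      ring
    have hg : m * (c⁻¹) ^ p ^ (j - 1) ∈ C' := mul_mem hm (pow_mem (inv_mem hc) _)
    have hgv : v.Ge (ν - p ^ j * t) ((m * (c⁻¹) ^ p ^ (j - 1)) ^ p) := by
      rw [_root_.mul_pow, ← pow_mul, ← pow_succ, Nat.sub_add_cancel (Nat.one_le_iff_ne_zero.2 hj)]
      have h1 := TWII.ge_pow' hci (p ^ j)
      push_cast at h1
      exact (hmp.mul h1).mono (by linarith)
    rw [e]
    refine ((hx.lev j hj).mul_pow hg hgv).mono ?_
    linarith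

variable [CharP Ω p]

/-- **The projection of an additive form.** -/
theorem af_down [IsAlgClosed Ω] (hπ : Prj p v Kr K' π) (hC : ∀ g ∈ C', π g ∈ Cr) (hCr : Cr ≤ Kr)
    (hCC : Cr ≤ C') {ν t s : ℝ} {a u z m c d b₀ : Ω} {x y : ℕ → Ω} {S T : ℕ}
    (h : AF p v C' K' 0 (a / m ^ p) b₀ (u / c) 0 x S (z / d) 0 y T) (hm : m ∈ C') (hm0 : m ≠ 0)
    (hmv : p * v m = ν) (hc : c ∈ C') (hc0 : c ≠ 0) (hcv : v c = t) (hd : d ∈ C') (hd0 : d ≠ 0)
    (hdv : v d = s) (ha : a ∈ Kr) (hu : u ∈ Kr) (hz : z ∈ Kr) :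
    ∃ (b₀' : Ω) (x' y' : ℕ → Ω), b₀' ∈ Cr ∧ Col p v Cr ν t x' ∧ Col p v Cr ν s y' ∧
      PG p v Kr ν (a - (b₀' + col p x' u S + col p y' z T)) ∧
      (T ≠ 0 → ¬ PG p v C' 0 (y T) → ¬ PG p v Cr (ν - p ^ T * s) (y' T)) := by
  have hCK : C' ≤ K' := h.par.le
  have hKK : Kr ≤ K' := hπ.le
  have hmp0 : m ^ p ≠ 0 := pow_ne_zero _ hm0
  have hmp : v.Ge ν (m ^ p) := by
    intro _
    rw [v.map_pow hm0, hmv]
  set A : ℕ → Ω := fun j => m ^ p * x j * (c⁻¹) ^ p ^ j with hA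
  set B : ℕ → Ω := fun j => m ^ p * y j * (d⁻¹) ^ p ^ j with hB
  have hAC : ∀ j, A j ∈ C' := fun j =>
    mul_mem (mul_mem (pow_mem hm p) (h.c1.mem j)) (pow_mem (inv_mem hc) _)
  have hBC : ∀ j, B j ∈ C' := fun j =>
    mul_mem (mul_mem (pow_mem hm p) (h.c2.mem j)) (pow_mem (inv_mem hd) _)
  have hb : m ^ p * b₀ ∈ C' := mul_mem (pow_mem hm p) h.b0
  -- the relation
  have h1 : PG p v K' ν (a - (m ^ p * b₀ + col p A u S + col p B z T)) := by
    have h2 := h.rel.mul_pow (hCK hm) hmp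
    rw [zero_add] at h2
    have e : (a / m ^ p - (b₀ + col p x (u / c) S + col p y (z / d) T)) * m ^ p =
        a - (m ^ p * b₀ + col p A u S + col p B z T) := by
      rw [hA, hB, ← col_scale, ← col_scale, sub_mul, div_mul_cancel₀ _ hmp0]
      ring
    rwa [e] at h2
  have hcA : col p A u S ∈ K' := sum_mem fun j _ => mul_mem (hCK (hAC j)) (pow_mem (hKK hu) _)
  have hcB : col p B z T ∈ K' := sum_mem fun j _ => mul_mem (hCK (hBC j)) (pow_mem (hKK hz) _)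
  have h2 : PG p v Kr ν (a - (π (m ^ p * b₀) + col p (fun j => π (A j)) u S +
      col p (fun j => π (B j)) z T)) := by
    have h3 := hπ.pg_pr (sub_mem (hKK ha) (add_mem (add_mem (hCK hb) hcA) hcB)) h1
    rwa [hπ.sub (hKK ha) (add_mem (add_mem (hCK hb) hcA) hcB), hπ.self a ha,
      hπ.add _ (add_mem (hCK hb) hcA) _ hcB, hπ.add _ (hCK hb) _ hcA,
      prj_col hπ (fun j => hCK (hAC j)) hu, prj_col hπ (fun j => hCK (hBC j)) hz] at h3
  have hc1 := col_prj hπ hC hCr hCC hCK h.c1 hm hm0 hmv hc hc0 hcv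
  have hc2 := col_prj hπ hC hCr hCC hCK h.c2 hm hm0 hmv hd hd0 hdv
  refine ⟨_, _, _, hC _ hb, hc1, hc2, h2, fun hT hY hn => hY ?_⟩
  -- the top is not null
  set x' : ℕ → Ω := fun j => π (A j) with hx'
  set y' : ℕ → Ω := fun j => π (B j) with hy'
  have hn' : PG p v Cr (ν - p ^ T * s) (y' T) := hn
  set b₂ : Ω := (m ^ p * b₀ - π (m ^ p * b₀)) + (col p A u S - col p x' u S) with hb₂
  have hF : C' ≤ cadj v C' (u / c) := le_cadj _ _ _
  have huF : u ∈ cadj v C' (u / c) := by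
    have h3 := mul_mem (hF hc) (self_mem_cadj v C' (u / c))
    rwa [mul_div_cancel₀ _ hc0] at h3
  have hx'C : ∀ j, x' j ∈ C' := fun j => hCC (hC _ (hAC j))
  have hy'C : ∀ j, y' j ∈ C' := fun j => hCC (hC _ (hBC j))
  have hb₂F : b₂ ∈ cadj v C' (u / c) := by
    refine add_mem (sub_mem (hF hb) (hF (hCC (hC _ hb)))) (sub_mem ?_ ?_)
    · exact sum_mem fun j _ => mul_mem (hF (hAC j)) (pow_mem huF _)
    · exact sum_mem fun j _ => mul_mem (hF (hx'C j)) (pow_mem huF _)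
  have hQ : ∀ j, (B j - y' j) * d ^ p ^ j ∈ cadj v C' (u / c) := fun j =>
    mul_mem (sub_mem (hF (hBC j)) (hF (hy'C j))) (pow_mem (hF hd) _)
  have h4 : PG p v K' ν ((TWCT.cpoly p b₂ (fun j => (B j - y' j) * d ^ p ^ j) T).eval (z / d)) := by
    have h5 := (PG.of_le' hKK h2).sub h1
    have e : a - (π (m ^ p * b₀) + col p x' u S + col p y' z T) -
        (a - (m ^ p * b₀ + col p A u S + col p B z T)) =
        (TWCT.cpoly p b₂ (fun j => (B j - y' j) * d ^ p ^ j) T).eval (z / d) := by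
      rw [TWCT.cpoly_eval]
      have e2 : col p (fun j => (B j - y' j) * d ^ p ^ j) (z / d) T =
          col p B z T - col p y' z T := by
        rw [col, col, col, ← sum_sub_distrib]
        refine sum_congr rfl fun j _ => ?_
        rw [mul_assoc, ← _root_.mul_pow, mul_div_cancel₀ _ hd0]
        ring
      rw [e2, hb₂]
      ring
    rwa [e] at h5
  rw [h.par.eq1] at h4
  have h5 := TWRR.pg_jet h.par.t21 (TWCT.cpoly_mem hb₂F hQ) h4
    (j := p ^ T) (Nat.pow_pos hp.out.pos).ne'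
  rw [TWCT.cpoly_jet _ _ le_rfl, eval_C, mul_zero, sub_zero] at h5
  have h6 : PG p v C' ν ((B T - y' T) * d ^ p ^ T) :=
    TWII.PG.down h.par.t1 (mul_mem (sub_mem (hBC T) (hy'C T)) (pow_mem hd _))
      (TWII.PG.down h.par.t21 (hQ T) h5)
  have hT1 : T - 1 + 1 = T := Nat.sub_add_cancel (Nat.one_le_iff_ne_zero.2 hT)
  have h7 : PG p v C' ν (y' T * d ^ p ^ T) := by
    have e : d ^ p ^ T = (d ^ p ^ (T - 1)) ^ p := by
      rw [← pow_mul, ← pow_succ, hT1]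
    have h8 : v.Ge (p ^ T * s) ((d ^ p ^ (T - 1)) ^ p) := by
      intro _
      rw [← e, v.map_pow hd0, hdv]
      push_cast
      exact le_rfl
    rw [e]
    exact ((PG.of_le' hCC hn').mul_pow (pow_mem hd _) h8).mono (by linarith)
  have h8 : PG p v C' ν (m ^ p * y T) := by
    have e : m ^ p * y T = (B T - y' T) * d ^ p ^ T + y' T * d ^ p ^ T := by
      rw [← add_mul, sub_add_cancel, hB]
      dsimp only
      rw [mul_assoc, ← _root_.mul_pow, inv_mul_cancel₀ hd0, one_pow, mul_one]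
    rw [e]
    exact h6.add h7
  have h9 : v.Ge (-ν) ((m⁻¹) ^ p) := by
    intro _
    rw [v.map_pow (inv_ne_zero hm0), v.map_inv hm0, ← hmv]
    linarith
  have h10 := h8.mul_pow (inv_mem hm) h9
  rw [add_neg_cancel] at h10
  have e : m ^ p * y T * m⁻¹ ^ p = y T := by
    rw [mul_comm (m ^ p), mul_assoc, ← _root_.mul_pow, mul_inv_cancel₀ hm0, one_pow, mul_one]
  rwa [e] at h10

end down

end Pool.Agent.TWRW

/-! ### The real floors -/

namespace Pool.Agent.TWRB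

open Pool.Agent.H15JM (RVal)
open Pool.Agent.D2 (Ctx0)
open Pool.Agent.D2P (clI)
open Pool.Agent.TWM
open Pool.Agent.TWS (IsoE SphC PM VG)
open Pool.Agent.TWII (PG LP)
open Pool.Agent.TWN1 (Par Col col AF)
open Pool.Agent.TWCT (tH)

universe u

variable {k Ω₀ Ω : Type u} [Field k] [Field Ω₀] [Algebra k Ω₀] [Field Ω] [Algebra k Ω]
  {p : ℕ} {v₀ : RVal Ω₀} {v : RVal Ω} {ι : Ω₀ →ₐ[k] Ω} [hp : Fact p.Prime] [CharP Ω₀ p]
  [CharP Ω p] [CharP k p] [IsAlgClosed k] [IsAlgClosed Ω₀] [IsAlgClosed Ω] {x₀ : Ω₀}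
  {W₀ K₀ : IntermediateField k Ω₀} {al : Ω₀} {ν : ℝ} {C F : IntermediateField k Ω₀}
  {y u z : Ω₀} {r t s : ℝ} {G : AddSubgroup ℝ} {M : ℝ → Ω} {L : ℕ → IntermediateField k Ω}
  {X₀ c₁ c₂ d m cx : Ω} {D : Ω → Ω}

omit hp [CharP Ω₀ p] [CharP Ω p] [CharP k p] [IsAlgClosed k] [IsAlgClosed Ω₀] [IsAlgClosed Ω] in
/-- A column over the image of a field is the image of a column. -/
theorem colI_of_map (hI : IsoE v₀ v ι) {A : IntermediateField k Ω₀} {μ ρ : ℝ} {x : ℕ → Ω}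
    (h : Col p v (A.map ι) μ ρ x) : ∃ x' : ℕ → Ω₀, Col p v₀ A μ ρ x' ∧ ∀ j, ι (x' j) = x j := by
  have h1 : ∀ j, ∃ b ∈ A, ι b = x j := fun j => h.mem j
  choose x' hx' hxx using h1
  refine ⟨x', ⟨hx', ?_, fun j hj => ?_⟩, hxx⟩
  · refine hI.ge_iff.1 ?_
    rw [hxx]
    exact h.lin
  · refine (TWCT.lp_iff' hI).1 ?_
    rw [hxx]
    exact h.lev j hj

omit hp [CharP Ω₀ p] [CharP Ω p] [CharP k p] [IsAlgClosed k] [IsAlgClosed Ω₀] [IsAlgClosed Ω] in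
theorem colI_map (x : ℕ → Ω₀) (z : Ω₀) (S : ℕ) :
    ι (col p x z S) = col p (fun j => ι (x j)) (ι z) S := by
  rw [col, col, map_sum]
  exact Finset.sum_congr rfl fun j _ => by rw [map_mul, map_pow]

/-- **The additive form comes down to the real fields.** -/
theorem RFl.real_af (h : RFl p v₀ v ι x₀ W₀ K₀ al ν C F y u z r t s)
    (hG : GLB p v₀ v ι x₀ W₀ K₀ al ν C F y u z r t s G M L X₀ c₁ c₂ d m cx D) {φ₀ : Ω₀}
    (hφ₀ : φ₀ ∈ F) (hpar : Par v₀ C (clI v₀ K₀) u t (z - φ₀) s) {g b₁ : Ω} {X Y : ℕ → Ω}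
    {S T : ℕ} (hg : g ∈ PM v (tH p v₀ ι x₀ F) G M)
    (haf : AF p v (PM v (tH p v₀ ι x₀ C) G M) (PM v (tH p v₀ ι x₀ (clI v₀ K₀)) G M) 0
      (ι (al ^ p) / m ^ p) b₁ (ι u / c₂) 0 X S (ι z / d - g) 0 Y T) (hT : T ≠ 0)
    (hY : ¬ PG p v (PM v (tH p v₀ ι x₀ C) G M) 0 (Y T)) :
    ∃ (b₀ : Ω₀) (x : ℕ → Ω₀) (S' : ℕ) (y' : ℕ → Ω₀),
      AF p v₀ C (clI v₀ K₀) ν (al ^ p) b₀ u t x S' (z - φ₀) s y' T ∧
      ¬ PG p v₀ C (ν - p ^ T * s) (y' T) := by
  obtain ⟨πF, hgF⟩ := hG.grF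
  obtain ⟨π, hgC⟩ := hG.grC
  have hI := h.j.iso
  have htz : TL v (PM v (tH p v₀ ι x₀ F) G M) (ι z / d) 0 := hG.hb.zt
  have hFe : PM v (tH p v₀ ι x₀ F) G M = cadj v (PM v (tH p v₀ ι x₀ C) G M) (ι u / c₂) :=
    hG.hb.F_eq
  have hd0 : d ≠ 0 := hgC.ne _ hG.dS
  have hc0 : c₂ ≠ 0 := hgC.ne _ hG.c2S
  have hm0 : m ≠ 0 := hgC.ne _ hG.mS
  have hdC := hgC.WF' (hgC.sub _ hG.dS)
  have hcC := hgC.WF' (hgC.sub _ hG.c2S)
  have hmC := hgC.WF' (hgC.sub _ hG.mS)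
  have hCF : PM v (tH p v₀ ι x₀ C) G M ≤ PM v (tH p v₀ ι x₀ F) G M := by
    rw [hFe]
    exact le_cadj _ _ _
  -- the other generator
  have hδ : g - ι φ₀ / d ∈ PM v (tH p v₀ ι x₀ F) G M :=
    sub_mem hg (div_mem (hgF.FF' ⟨φ₀, hφ₀, rfl⟩) (hCF hdC))
  have e1 : ι z / d - g + (g - ι φ₀ / d) = ι (z - φ₀) / d := by
    rw [map_sub, sub_div]
    ring
  have hl1 : Lim v (PM v (tH p v₀ ι x₀ C) G M) 0 (ι (z - φ₀) / d) := by
    intro ε hε
    obtain ⟨c, hc, h1⟩ := hpar.t2.lim ε hε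
    refine ⟨ι c / d, div_mem (hgC.FF' ⟨c, hc, rfl⟩) hdC, ?_⟩
    have e : ι (z - φ₀) / d - ι c / d = ι (z - φ₀ - c) * d⁻¹ := by
      rw [map_sub ι (z - φ₀) c, div_eq_mul_inv, div_eq_mul_inv]
      ring
    have h2 : v.Ge (-s) d⁻¹ := by
      intro _
      rw [v.map_inv hd0, hG.dv]
    rw [e]
    exact ((hI.ge_iff.2 h1).mul h2).mono (by linarith)
  have hl2 : Lim v (PM v (tH p v₀ ι x₀ C) G M) 0 (g - ι φ₀ / d) := by
    intro ε hε
    obtain ⟨c, hc, h1⟩ := hl1 ε hε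
    obtain ⟨c', hc', h2⟩ := haf.par.t2.lim ε hε
    refine ⟨c - c', sub_mem hc hc', ?_⟩
    have e : g - ι φ₀ / d - (c - c') = (ι (z - φ₀) / d - c) - (ι z / d - g - c') := by
      rw [map_sub, sub_div]
      ring
    rw [e]
    exact h1.sub h2
  rw [hFe] at hδ
  obtain ⟨b₁', X', S', haf'⟩ := TWRW.af_change hG.hb.c0 haf hδ hl2
  rw [e1] at haf'
  have hY' : ¬ PG p v (PM v (tH p v₀ ι x₀ C) G M) 0 (TWRW.trn Y T T) := by
    rwa [TWRW.trn_of_le le_rfl]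
  have huK : ι u ∈ (clI v₀ K₀).map ι := ⟨u, hpar.mem1, rfl⟩
  have hzK : ι (z - φ₀) ∈ (clI v₀ K₀).map ι := ⟨z - φ₀, hpar.mem2, rfl⟩
  have haK : ι (al ^ p) ∈ (clI v₀ K₀).map ι := ⟨al ^ p, le_clI _ h.j.mem, rfl⟩
  obtain ⟨b₂, x₂, y₂, hb₂, hx₂, hy₂, hrel, htop⟩ := TWRW.af_down hgC.prj hgC.prF hgC.FK hgC.FF'
    haf' hmC hm0 hG.mv hcC hc0 hG.c2v hdC hd0 hG.dv haK huK hzK
  obtain ⟨x', hx', hxx⟩ := colI_of_map hI hx₂
  obtain ⟨y', hy', hyy⟩ := colI_of_map hI hy₂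
  obtain ⟨b₀, hb₀, hbb⟩ := hb₂
  have hbb' : ι b₀ = b₂ := hbb
  refine ⟨b₀, x', S', y', ⟨hpar, hx', hy', hb₀, ?_⟩, fun hn => htop hT hY' ?_⟩
  · refine (TWCT.pg_iff' hI).1 ?_
    rw [map_sub, map_add, map_add, colI_map, colI_map, hbb']
    simp only [hxx, hyy]
    exact hrel
  · rw [← hyy T]
    exact (TWCT.pg_iff' hI).2 hn

end Pool.Agent.TWRB
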