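import Pool.Agent.Lib.TWRW.AfDown

/-!
# TANK W, RowB, the bad case: the descent of an additive form, for a general element

`RFl.real_afC`, `RFl.real_afW`: an additive form of `ι b / m' ^ p` in the big field (`b` a real
element, `m'` any scalar of `C'`, resp. of `W'`) and a real pair over `C` give a real additive form
of `b`.
-/

set_option autoImplicit false

open Polynomial Finset

namespace Pool.Agent.TWRB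

open Pool.Agent.H15JM (RVal)
open Pool.Agent.D2 (Ctx0)
open Pool.Agent.D2P (clI)
open Pool.Agent.TWM
open Pool.Agent.TWS (IsoE SphC PM VG)
open Pool.Agent.TWII (PG LP)
open Pool.Agent.TWN1 (Par Col col AF)
open Pool.Agent.TWCT (tH)

universe u

variable {k Ω₀ Ω : Type u} [Field k] [Field Ω₀] [Algebra k Ω₀] [Field Ω] [Algebra k Ω]
  {p : ℕ} {v₀ : RVal Ω₀} {v : RVal Ω} {ι : Ω₀ →ₐ[k] Ω} [hp : Fact p.Prime] [CharP Ω₀ p]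
  [CharP Ω p] [CharP k p] [IsAlgClosed k] [IsAlgClosed Ω₀] [IsAlgClosed Ω] {x₀ : Ω₀}
  {W₀ K₀ : IntermediateField k Ω₀} {al : Ω₀} {ν : ℝ} {C F : IntermediateField k Ω₀}
  {y u z : Ω₀} {r t s : ℝ} {G : AddSubgroup ℝ} {M : ℝ → Ω} {L : ℕ → IntermediateField k Ω}
  {X₀ c₁ c₂ d m cx : Ω} {D : Ω → Ω}

/-- **The additive form of a general real element comes down** (scalar in `C'`). -/
theorem RFl.real_afC (h : RFl p v₀ v ι x₀ W₀ K₀ al ν C F y u z r t s)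
    (hG : GLB p v₀ v ι x₀ W₀ K₀ al ν C F y u z r t s G M L X₀ c₁ c₂ d m cx D) {φ₀ : Ω₀}
    (hφ₀ : φ₀ ∈ F) (hpar : Par v₀ C (clI v₀ K₀) u t (z - φ₀) s) {g b₁ : Ω} {X Y : ℕ → Ω}
    {S T : ℕ} (hg : g ∈ PM v (tH p v₀ ι x₀ F) G M) {b : Ω₀} (hb : b ∈ clI v₀ K₀) {m' : Ω}
    (hm' : m' ∈ PM v (tH p v₀ ι x₀ C) G M) (hm0 : m' ≠ 0) {lam : ℝ} (hmv : p * v m' = lam)
    (haf : AF p v (PM v (tH p v₀ ι x₀ C) G M) (PM v (tH p v₀ ι x₀ (clI v₀ K₀)) G M) 0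
      (ι b / m' ^ p) b₁ (ι u / c₂) 0 X S (ι z / d - g) 0 Y T) :
    ∃ (b₀ : Ω₀) (x : ℕ → Ω₀) (S' : ℕ) (y' : ℕ → Ω₀),
      AF p v₀ C (clI v₀ K₀) lam b b₀ u t x S' (z - φ₀) s y' T ∧
      (T ≠ 0 → ¬ PG p v (PM v (tH p v₀ ι x₀ C) G M) 0 (Y T) →
        ¬ PG p v₀ C (lam - p ^ T * s) (y' T)) := by
  obtain ⟨πF, hgF⟩ := hG.grF
  obtain ⟨π, hgC⟩ := hG.grC
  have hI := h.j.iso
  have hFe : PM v (tH p v₀ ι x₀ F) G M = cadj v (PM v (tH p v₀ ι x₀ C) G M) (ι u / c₂) :=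
    hG.hb.F_eq
  have hd0 : d ≠ 0 := hgC.ne _ hG.dS
  have hc0 : c₂ ≠ 0 := hgC.ne _ hG.c2S
  have hdC := hgC.WF' (hgC.sub _ hG.dS)
  have hcC := hgC.WF' (hgC.sub _ hG.c2S)
  have hCF : PM v (tH p v₀ ι x₀ C) G M ≤ PM v (tH p v₀ ι x₀ F) G M := by
    rw [hFe]
    exact le_cadj _ _ _
  -- the other generator
  have hδ : g - ι φ₀ / d ∈ PM v (tH p v₀ ι x₀ F) G M :=
    sub_mem hg (div_mem (hgF.FF' ⟨φ₀, hφ₀, rfl⟩) (hCF hdC))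
  have e1 : ι z / d - g + (g - ι φ₀ / d) = ι (z - φ₀) / d := by
    rw [map_sub, sub_div]
    ring
  have hl1 : Lim v (PM v (tH p v₀ ι x₀ C) G M) 0 (ι (z - φ₀) / d) := by
    intro ε hε
    obtain ⟨c, hc, h1⟩ := hpar.t2.lim ε hε
    refine ⟨ι c / d, div_mem (hgC.FF' ⟨c, hc, rfl⟩) hdC, ?_⟩
    have e : ι (z - φ₀) / d - ι c / d = ι (z - φ₀ - c) * d⁻¹ := by
      rw [map_sub ι (z - φ₀) c, div_eq_mul_inv, div_eq_mul_inv]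
      ring
    have h2 : v.Ge (-s) d⁻¹ := by
      intro _
      rw [v.map_inv hd0, hG.dv]
    rw [e]
    exact ((hI.ge_iff.2 h1).mul h2).mono (by linarith)
  have hl2 : Lim v (PM v (tH p v₀ ι x₀ C) G M) 0 (g - ι φ₀ / d) := by
    intro ε hε
    obtain ⟨c, hc, h1⟩ := hl1 ε hε
    obtain ⟨c', hc', h2⟩ := haf.par.t2.lim ε hε
    refine ⟨c - c', sub_mem hc hc', ?_⟩
    have e : g - ι φ₀ / d - (c - c') = (ι (z - φ₀) / d - c) - (ι z / d - g - c') := by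
      rw [map_sub, sub_div]
      ring
    rw [e]
    exact h1.sub h2
  rw [hFe] at hδ
  obtain ⟨b₁', X', S', haf'⟩ := TWRW.af_change hG.hb.c0 haf hδ hl2
  rw [e1] at haf'
  have huK : ι u ∈ (clI v₀ K₀).map ι := ⟨u, hpar.mem1, rfl⟩
  have hzK : ι (z - φ₀) ∈ (clI v₀ K₀).map ι := ⟨z - φ₀, hpar.mem2, rfl⟩
  have haK : ι b ∈ (clI v₀ K₀).map ι := ⟨b, hb, rfl⟩
  obtain ⟨b₂, x₂, y₂, hb₂, hx₂, hy₂, hrel, htop⟩ := TWRW.af_down hgC.prj hgC.prF hgC.FK hgC.FF'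
    haf' hm' hm0 hmv hcC hc0 hG.c2v hdC hd0 hG.dv haK huK hzK
  obtain ⟨x', hx', hxx⟩ := colI_of_map hI hx₂
  obtain ⟨y', hy', hyy⟩ := colI_of_map hI hy₂
  obtain ⟨b₀, hb₀, hbb⟩ := hb₂
  have hbb' : ι b₀ = b₂ := hbb
  refine ⟨b₀, x', S', y', ⟨hpar, hx', hy', hb₀, ?_⟩, fun hT hY hn => htop hT ?_ ?_⟩
  · refine (TWCT.pg_iff' hI).1 ?_
    rw [map_sub, map_add, map_add, colI_map, colI_map, hbb']
    simp only [hxx, hyy]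
    exact hrel
  · rwa [TWRW.trn_of_le le_rfl]
  · rw [← hyy T]
    exact (TWCT.pg_iff' hI).2 hn

/-- **The additive form of a general real element comes down** (scalar in `W'`). -/
theorem RFl.real_afW (h : RFl p v₀ v ι x₀ W₀ K₀ al ν C F y u z r t s)
    (hG : GLB p v₀ v ι x₀ W₀ K₀ al ν C F y u z r t s G M L X₀ c₁ c₂ d m cx D) {φ₀ : Ω₀}
    (hφ₀ : φ₀ ∈ F) (hpar : Par v₀ C (clI v₀ K₀) u t (z - φ₀) s) {g b₁ : Ω} {X Y : ℕ → Ω}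
    {S T : ℕ} (hg : g ∈ PM v (tH p v₀ ι x₀ F) G M) {b : Ω₀} (hb : b ∈ clI v₀ K₀) {m' : Ω}
    (hm' : m' ∈ PM v (tH p v₀ ι x₀ (clI v₀ W₀)) G M) (hm0 : m' ≠ 0) {lam : ℝ}
    (hmv : p * v m' = lam)
    (haf : AF p v (PM v (tH p v₀ ι x₀ C) G M) (PM v (tH p v₀ ι x₀ (clI v₀ K₀)) G M) 0
      (ι b / m' ^ p) b₁ (ι u / c₂) 0 X S (ι z / d - g) 0 Y T) (hT : T ≠ 0)
    (hY : ¬ PG p v (PM v (tH p v₀ ι x₀ C) G M) 0 (Y T)) :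
    ∃ (b₀ : Ω₀) (x : ℕ → Ω₀) (S' : ℕ) (y' : ℕ → Ω₀),
      AF p v₀ C (clI v₀ K₀) lam b b₀ u t x S' (z - φ₀) s y' T ∧
      ¬ PG p v₀ C (lam - p ^ T * s) (y' T) := by
  obtain ⟨π, hgC⟩ := hG.grC
  obtain ⟨b₀, x, S', y', h1, h2⟩ := h.real_afC hG hφ₀ hpar hg hb (hgC.WF' hm') hm0 hmv haf
  exact ⟨b₀, x, S', y', h1, h2 hT hY⟩

/-- **The additive form of a general real element comes down** (monomial scalar). -/
theorem RFl.real_afb (h : RFl p v₀ v ι x₀ W₀ K₀ al ν C F y u z r t s)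
    (hG : GLB p v₀ v ι x₀ W₀ K₀ al ν C F y u z r t s G M L X₀ c₁ c₂ d m cx D) {φ₀ : Ω₀}
    (hφ₀ : φ₀ ∈ F) (hpar : Par v₀ C (clI v₀ K₀) u t (z - φ₀) s) {lam : ℝ} {b : Ω₀} {m' : Ω}
    (hb : b ∈ clI v₀ K₀) (hm' : m' ∈ TWRA.Mn p (ι x₀) ((clI v₀ W₀).map ι) G M)
    (hmv : p * v m' = lam) {g b₁ : Ω} {X Y : ℕ → Ω} {S T : ℕ}
    (hg : g ∈ PM v (tH p v₀ ι x₀ F) G M)
    (haf : AF p v (PM v (tH p v₀ ι x₀ C) G M) (PM v (tH p v₀ ι x₀ (clI v₀ K₀)) G M) 0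
      (ι b / m' ^ p) b₁ (ι u / c₂) 0 X S (ι z / d - g) 0 Y T) (hT : T ≠ 0)
    (hY : ¬ PG p v (PM v (tH p v₀ ι x₀ C) G M) 0 (Y T)) :
    ∃ (b₀ : Ω₀) (x : ℕ → Ω₀) (S' : ℕ) (y' : ℕ → Ω₀),
      AF p v₀ C (clI v₀ K₀) lam b b₀ u t x S' (z - φ₀) s y' T ∧
      ¬ PG p v₀ C (lam - p ^ T * s) (y' T) := by
  obtain ⟨π, hgC⟩ := hG.grC
  exact h.real_afW hG hφ₀ hpar hg hb (hgC.sub _ hm') (hgC.ne _ hm') hmv haf hT hY

end Pool.Agent.TWRB
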