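import Pool.Agent.Lib.TWRW.OCw
import Pool.Agent.Lib.TWRB.Fin
import Pool.Agent.Lib.TWRB.Glob

/-!
# TANK W, row B, R16: the class of `W` in the real field

* `exists_class`: the critical elements of `W` have one class, at all levels;
* `exists_hroot`: the hypothesis of the division of the columns (`AF.euclid`).
-/

set_option autoImplicit false

open Polynomial Finset

namespace Pool.Agent.TWRW

open Pool.Agent.H15JM (RVal)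
open Pool.Agent.LU1 (VPos)
open Pool.Agent.D2 (Ctx0)
open Pool.Agent.D2P (clI)
open Pool.Agent.TWM
open Pool.Agent.TWS (IsoE SphC PM VG TowR MonG)
open Pool.Agent.TWII (PG LP)
open Pool.Agent.TWN1
open Pool.Agent.TWTam
open Pool.Agent.TWCY (Drv BaseD)
open Pool.Agent.TWRR
open Pool.Agent.TWCT (tH J1D GsM)

universe u

variable {k Ω₀ Ω : Type u} [Field k] [Field Ω₀] [Algebra k Ω₀] [Field Ω] [Algebra k Ω] {p : ℕ}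
  {v₀ : RVal Ω₀} {v : RVal Ω} {ι : Ω₀ →ₐ[k] Ω} {x₀ : Ω₀} {W₀ K₀ : IntermediateField k Ω₀}
  {al : Ω₀} {ν : ℝ} [hp : Fact p.Prime] [CharP Ω₀ p] [CharP Ω p] [CharP k p] [IsAlgClosed k]
  [IsAlgClosed Ω₀] [IsAlgClosed Ω]

/-- **From the big field**: if the critical elements of `E'` at the level `0` are `k x` + null,
those of `E` have one class, at all levels. -/
theorem oc_of_big (hJ : J1D p v₀ v ι x₀ W₀ K₀ al ν) {E : IntermediateField k Ω₀}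
    (hWE : clI v₀ W₀ ≤ E) (hE : Cld v₀ E)
    (hiE : Imm v (tH p v₀ ι x₀ (clI v₀ W₀)) (tH p v₀ ι x₀ E)) {G : AddSubgroup ℝ} {M : ℝ → Ω}
    (hG : GsM v (tH p v₀ ι x₀ (clI v₀ W₀)) G M) {X₁ : Ω₀} (hX : X₁ ∈ E) {cx : Ω}
    (hcx : cx ∈ PM v (tH p v₀ ι x₀ E) G M)
    (hall : ∀ r : ℝ, ∃ y ∈ PM v (tH p v₀ ι x₀ E) G M, y ≠ 0 ∧ v y = r)
    (hB : ∀ y ∈ PM v (tH p v₀ ι x₀ E) G M, LP p v (PM v (tH p v₀ ι x₀ E) G M) 0 y →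
      ∃ c : k, PG p v (PM v (tH p v₀ ι x₀ E) G M) 0 (y - algebraMap k Ω c * (ι X₁ / cx ^ p)))
    (c : ℝ) (b : Ω₀) (hb : b ∈ E) (hlp : LP p v₀ E c b) : OC p v₀ E E X₁ c b := by
  have hp0 : (p : ℝ) ≠ 0 := by exact_mod_cast hp.out.ne_zero
  have hk : Ctx0 k v₀ := hJ.ctx.toCtx0
  obtain ⟨m, hm, hm0, hmv⟩ := hall (c / p)
  have hmp : p * v m = c := by
    rw [hmv]
    field_simp
  have h1 : LP p v (PM v (tH p v₀ ι x₀ E) G M) c (ι b) := by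
    intro ε hε
    obtain ⟨g, hg, h2⟩ := hlp ε hε
    refine ⟨ι g, PM.le (TWCT.mem_tH hg), ?_⟩
    rw [← map_pow, ← map_sub]
    exact (IsoE.ge_iff hJ.iso).2 h2
  have h2 : LP p v (PM v (tH p v₀ ι x₀ E) G M) 0 (ι b / m ^ p) := by
    have h3 := h1.mul_pow (inv_mem hm) (RVal.ge_self (v := v) ((m⁻¹) ^ p))
    have e1 : c + v ((m⁻¹) ^ p) = 0 := by
      rw [v.map_pow (inv_ne_zero hm0), v.map_inv hm0, ← hmp]
      ring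
    rw [e1, inv_pow, ← div_eq_mul_inv] at h3
    exact h3
  have hbW : ι b / m ^ p ∈ PM v (tH p v₀ ι x₀ E) G M :=
    div_mem (PM.le (TWCT.mem_tH hb)) (pow_mem hm p)
  obtain ⟨q, h3⟩ := hB _ hbW h2
  obtain ⟨q', hq'⟩ : ∃ q' : k, q' ^ p = q := IsAlgClosed.exists_pow_nat_eq _ hp.out.pos
  have h4 : OC p v (PM v (tH p v₀ ι x₀ E) G M)
      (PM v (tH p v₀ ι x₀ E) G M) (ι X₁) c (ι b) := by
    refine ⟨algebraMap k Ω q' * m / cx, div_mem (mul_mem (IntermediateField.algebraMap_mem _ _) hm)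
      hcx, ?_⟩
    have h5 := TWRR.pg_scale (p := p) hm hm0 h3
    rw [zero_add, hmp] at h5
    refine (congrArg _ ?_).mp h5
    rw [div_pow, mul_pow, ← map_pow, hq', mul_sub, mul_div_cancel₀ _ (pow_ne_zero p hm0)]
    ring
  exact TWRR.oc_real hJ.iso hJ.cpl hJ.cw hk hJ.x0 (hWE hJ.xW) hE le_rfl hE
    (fun a ha _ => ha) hG.monG (TWRB.vg_div hJ) hiE hiE hX hb h4

/-- **One class**: the critical elements of `W`, at all levels. -/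
theorem exists_class (hJ : J1D p v₀ v ι x₀ W₀ K₀ al ν) :
    ∃ X₁ ∈ clI v₀ W₀, ∀ (c : ℝ) (b : Ω₀), b ∈ clI v₀ W₀ → LP p v₀ (clI v₀ W₀) c b →
      OC p v₀ (clI v₀ W₀) (clI v₀ W₀) X₁ c b := by
  obtain ⟨M, hM⟩ := TWC.exists_ms hJ.val
  obtain ⟨G, hG, hdiv, htop⟩ := TWCT.exists_gsm hJ.ctx hJ.iso hJ.xW hJ.x0 hJ.xv hJ.pd hM
  obtain ⟨X', ⟨X₁, hX, hX'⟩, hBX⟩ := hJ.exists_bx_pm hG hdiv
  obtain rfl : X' = ι X₁ := hX'.symm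
  have hall : ∀ r : ℝ, ∃ y ∈ PM v (tH p v₀ ι x₀ (clI v₀ W₀)) G M, y ≠ 0 ∧ v y = r :=
    TWCY.full_pm htop hG.ms le_rfl
  have hgp : GP p v (PM v (tH p v₀ ι x₀ (clI v₀ W₀)) G M) := TWCT.gp_of_div hJ.c0 fun g hg => by
    obtain ⟨c, hc, hc0, hcv⟩ := hall (g / p)
    exact ⟨c, hc, hc0, hcv⟩
  obtain ⟨cx, hcx, D, hD⟩ := hBX.exists_base_of hJ.c0 TWS.PM.cld hgp
    (S := {c | c ∈ PM v (tH p v₀ ι x₀ (clI v₀ W₀)) G M ∧ c ≠ 0}) (fun c hc => hc.1)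
    (fun c hc => hc.2) (fun r => by
      obtain ⟨c, hc, hc0, hcv⟩ := hall r
      exact ⟨c, ⟨hc, hc0⟩, hcv⟩)
  exact ⟨X₁, hX, oc_of_big hJ le_rfl (cld_clI v₀ W₀) (Imm.refl _) hG hX hcx.1 hall hD.cls⟩

omit [CharP Ω₀ p] [CharP Ω p] [CharP k p] [IsAlgClosed Ω₀] [IsAlgClosed Ω] in
/-- `gr W` is perfect. -/
theorem gp_w (hJ : J1D p v₀ v ι x₀ W₀ K₀ al ν) : GP p v₀ (clI v₀ W₀) :=
  TWCT.gp_of_div hJ.ctx.toCtx0 fun a ha => by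
    obtain ⟨b, hb, hb0, rfl⟩ := ha
    obtain ⟨b', hb', hb0', h1⟩ := hJ.pd b hb hb0
    have hp0 : (p : ℝ) ≠ 0 := by exact_mod_cast hp.out.ne_zero
    refine ⟨b', hb', hb0', ?_⟩
    rw [h1]
    field_simp

/-- **The division of the columns**: its hypothesis holds over `C = W⟨y⟩`. -/
theorem exists_hroot (hJ : J1D p v₀ v ι x₀ W₀ K₀ al ν) {y : Ω₀} {r : ℝ}
    (hy : TL v₀ (clI v₀ W₀) y r) (hT : TowR v₀ 2 (cadj v₀ (clI v₀ W₀) y) (clI v₀ K₀))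
    {C : IntermediateField k Ω₀} (hC : C = cadj v₀ (clI v₀ W₀) y) :
    ∃ X₁ ∈ clI v₀ W₀, ∀ (μ r₁ r₂ : ℝ) (M N : ℕ) (a c : Ω₀), N ≠ 0 → N ≤ M → a ∈ C → c ∈ C →
      LP p v₀ C (μ - p ^ M * r₁) a → LP p v₀ C (μ - p ^ N * r₂) c →
      ¬ OC p v₀ C C X₁ (μ - p ^ N * r₂) c →
      ∃ s ∈ C, v₀.Ge (r₂ - p ^ (M - N) * r₁) s ∧
        OC p v₀ C C X₁ (μ - p ^ M * r₁) (a - c * s ^ p ^ N) := by
  subst hC
  obtain ⟨X₁, hX, h1⟩ := exists_class hJ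
  refine ⟨X₁, hX, fun μ => hroot_of hy (hJ.h0w_ratH hy hT).1 (gp_w hJ) (fun c b hb hlp => ?_) μ⟩
  obtain ⟨g, hg, h2⟩ := h1 c b hb hlp
  exact ⟨g, le_cadj _ _ _ hg, PG.of_le' (le_cadj _ _ _) h2⟩

/-- **The class of `W`**, over `C`. -/
theorem _root_.Pool.Agent.TWRB.RFl.exists_cls {C F : IntermediateField k Ω₀} {y u z : Ω₀}
    {r t s : ℝ} (h : TWRB.RFl p v₀ v ι x₀ W₀ K₀ al ν C F y u z r t s) :
    ∃ X₁ ∈ clI v₀ W₀, ∀ (c : ℝ) (b : Ω₀), b ∈ clI v₀ W₀ → LP p v₀ (clI v₀ W₀) c b →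
      OC p v₀ C C X₁ c b := by
  obtain ⟨X₁, hX, h1⟩ := exists_class h.j
  refine ⟨X₁, hX, fun c b hb hlp => ?_⟩
  obtain ⟨g, hg, h2⟩ := h1 c b hb hlp
  have hWC : clI v₀ W₀ ≤ C := by
    rw [h.C_eq]
    exact le_cadj _ _ _
  exact ⟨g, hWC hg, PG.of_le' hWC h2⟩

/-- **One class in `C`**: if the critical elements of `C'` are `k x` + null, those of `C` have one
class, at all levels. -/
theorem _root_.Pool.Agent.TWRB.GLB.exists_cls {C F : IntermediateField k Ω₀} {y u z : Ω₀}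
    {r t s : ℝ} {G : AddSubgroup ℝ} {M : ℝ → Ω} {L : ℕ → IntermediateField k Ω}
    {X₀ c₁ c₂ d m cx : Ω} {D : Ω → Ω}
    (hg : TWRB.GLB p v₀ v ι x₀ W₀ K₀ al ν C F y u z r t s G M L X₀ c₁ c₂ d m cx D)
    (h : TWRB.RFl p v₀ v ι x₀ W₀ K₀ al ν C F y u z r t s)
    (hB : ∀ b ∈ PM v (tH p v₀ ι x₀ C) G M, LP p v (PM v (tH p v₀ ι x₀ C) G M) 0 b →
      ∃ c : k, PG p v (PM v (tH p v₀ ι x₀ C) G M) 0 (b - algebraMap k Ω c * (X₀ / cx ^ p))) :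
    ∃ X₁ ∈ clI v₀ W₀, X₀ = ι X₁ ∧ ∀ (c : ℝ) (b : Ω₀), b ∈ C → LP p v₀ C c b →
      OC p v₀ C C X₁ c b := by
  obtain ⟨X₁, hX, hX'⟩ := hg.XW
  obtain rfl : X₀ = ι X₁ := hX'.symm
  have hWC : clI v₀ W₀ ≤ C := by
    rw [h.C_eq]
    exact le_cadj _ _ _
  obtain ⟨π, hgrd⟩ := hg.grC
  refine ⟨X₁, hX, rfl, oc_of_big h.j hWC (by rw [h.C_eq]; exact cld_cadj _ _ _) ?_ ⟨hg.ms, hg.dj⟩
    (hWC hX) (PM.mono (TWCT.tH_mono hWC) (hgrd.sub cx hg.cxS))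
    (TWCY.full_pm hg.top hg.ms hWC) hB⟩
  rw [h.C_eq, TWCT.tH_cadj h.j.iso h.j.cpl]
  exact (TWCT.tl_tH (p := p) (x := x₀) h.j.iso h.j.xW h.ty).imm

end Pool.Agent.TWRW
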