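import Pool.Agent.Lib.TWRW.AfD
import Pool.Agent.Lib.TWRW.OCwR

/-!
# CT, j = 1, row B, the pair over `C`: the contradiction, final form

`RFl.false_of_pair`: if `al ^ p` is an additive form over a pair `K / C`: a contradiction.
-/

set_option autoImplicit false

open Polynomial Finset

namespace Pool.Agent.TWRW

open Pool.Agent.H15JM (RVal)
open Pool.Agent.D2P (clI)
open Pool.Agent.TWN1
open Pool.Agent.TWCT
open Pool.Agent.TWRR (OC)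
open Pool.Agent.TWII (PG LP)
open Pool.Agent.TWRB (RFl RowTopB)

universe u

variable {k Ω₀ Ω : Type u} [Field k] [Field Ω₀] [Algebra k Ω₀] [Field Ω] [Algebra k Ω]
  {p : ℕ} {v₀ : RVal Ω₀} {v : RVal Ω} {ι : Ω₀ →ₐ[k] Ω} [hp : Fact p.Prime] [CharP Ω₀ p]
  [CharP Ω p] [CharP k p] [IsAlgClosed k] [IsAlgClosed Ω₀] [IsAlgClosed Ω] {x₀ : Ω₀}
  {W₀ K₀ : IntermediateField k Ω₀} {al : Ω₀} {ν : ℝ} {C F : IntermediateField k Ω₀}
  {y u z : Ω₀} {r t s : ℝ}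

/-- **A pair over `C`, with an additive form: a contradiction.** -/
theorem _root_.Pool.Agent.TWRB.RFl.false_of_pair (hTop : RowTopB (k := k) p v)
    (hA : RowA p v₀ v ι x₀ W₀ K₀ al) (h : RFl p v₀ v ι x₀ W₀ K₀ al ν C F y u z r t s)
    {b₀ z₁ z₂ : Ω₀} {r₁ r₂ : ℝ} {x Y : ℕ → Ω₀} {S T : ℕ}
    (haf : AF p v₀ C (clI v₀ K₀) ν (al ^ p) b₀ z₁ r₁ x S z₂ r₂ Y T) : False := by
  obtain ⟨X₁, hX₁, hcls⟩ := exists_class h.j
  have hWC : clI v₀ W₀ ≤ C := by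
    rw [h.C_eq]
    exact TWM.le_cadj _ _ _
  refine h.false_of_afc hTop hA ⟨X₁, hX₁, fun c b hb hl => ?_⟩ haf
  obtain ⟨g, hg, g', hg', h1⟩ := hcls c b hb hl
  exact ⟨g, hWC hg, g', hWC hg', h1⟩

end Pool.Agent.TWRW
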