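import Pool.Agent.Lib.TWRR.J1G

/-!
# TANK W, contact, row (j = 1, B): the third case, the end over the real field

`C = W⟨y⟩`, `K = C⟨u⟩⟨z⟩` a pair over `C`; some jet of a critical element (of index `≠ 0`) is
critical and additive over the pair, with one class. Then there is a contradiction with the row
(j = 1, A).

* `AF.red_ocs`: column reduction to an empty column, the linear coefficients stay strict;
* `AF.hit2`: an additive form with an empty strict column: `z₂` is hit over `C`;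
* `false_of_par_hit`: no pair over `W⟨y⟩` has a hit generator;
* `false_of_one_class`, `false_of_jet`: the end.
-/

set_option autoImplicit false
set_option linter.unusedSectionVars false

open Polynomial Finset

namespace Pool.Agent.TWRW

open Pool.Agent.H15JM (RVal)
open Pool.Agent.LU1 (VPos adj)
open Pool.Agent.D2 (Ctx0)
open Pool.Agent.D2P (clI mem_clI mem_adj_self adj_le)
open Pool.Agent.TWM
open Pool.Agent.TWS (TowR towR_iff_one)
open Pool.Agent.TWII (PG LP)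
open Pool.Agent.TWN1
open Pool.Agent.TWRR
open Pool.Agent.TWCT (Ind Hit J1D RowA)

universe u

variable {k Ω : Type u} [Field k] [Field Ω] [Algebra k Ω] {v : RVal Ω}
  {C F K : IntermediateField k Ω} {p : ℕ} [hp : Fact p.Prime] [CharP Ω p]
  {ν : ℝ} {b b₀ z₁ z₂ : Ω} {r₁ r₂ r : ℝ} {x y : ℕ → Ω} {S T : ℕ} {X₀ : Ω}

/-- The linear coefficient of a column operation stays strict. -/
theorem colS_lin (hx : Gt v (ν - r₁) (x 0)) (hy : Gt v (ν - r₂) (y 0)) {s : Ω} {d : ℕ}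
    (hv : v.Ge (r₂ - p ^ d * r₁) s) : Gt v (ν - r₁) (colS p x y s d 0) := by
  rw [colS]
  refine hx.sub ?_
  split_ifs with hd
  · obtain rfl : d = 0 := by omega
    rw [Nat.sub_zero, pow_zero, pow_one]
    rw [pow_zero, one_mul] at hv
    have h1 := hy.mul_ge hv
    refine h1.mono (le_of_eq ?_)
    ring
  · exact Gt.zero

/-- **Column reduction to an empty column; the linear coefficients stay strict.** -/
theorem AF.red_ocs [IsAlgClosed Ω] (hgp : GP p v C)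
    (h : AF p v C K ν b b₀ z₁ r₁ x S z₂ r₂ y T) (hT : T ≠ 0)
    (hyT : ¬ PG p v C (ν - p ^ T * r₂) (y T)) (hx : OCol p v C ν r₁ X₀ x)
    (hy : OCol p v C ν r₂ X₀ y) (hlx : Gt v (ν - r₁) (x 0)) (hly : Gt v (ν - r₂) (y 0)) :
    ∃ (b₀' z₁' z₂' : Ω) (r₁' r₂' : ℝ) (x' y' : ℕ → Ω) (T' : ℕ),
      AF p v C K ν b b₀' z₁' r₁' x' 0 z₂' r₂' y' T' ∧
      T' ≠ 0 ∧ ¬ PG p v C (ν - p ^ T' * r₂') (y' T') ∧ Gt v (ν - r₁') (x' 0) := by
  obtain ⟨n, hn⟩ : ∃ n, n = S + T := ⟨_, rfl⟩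
  induction n using Nat.strong_induction_on generalizing b₀ z₁ z₂ r₁ r₂ x y S T with
  | _ n ih =>
    rcases Nat.eq_zero_or_pos S with hS | hS
    · subst hS
      exact ⟨b₀, z₁, z₂, r₁, r₂, x, y, T, h, hT, hyT, hlx⟩
    by_cases hxS : PG p v C (ν - p ^ S * r₁) (x S)
    · -- drop
      obtain ⟨S, rfl⟩ : ∃ i, S = i + 1 := ⟨S - 1, by omega⟩
      obtain ⟨b₀', h'⟩ := h.drop hxS
      exact ih (S + T) (by omega) h' hT hyT hx hy hlx hly rfl
    have hind : ¬ Ind p v C ν r₁ S r₂ T (x S) (y T) :=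
      not_ind_oc hgp hS.ne' (hx S hS.ne') (hy T hT) (h.c1.lev S hS.ne') (h.c2.lev T hT) hxS hyT
    have hind' : ¬ Ind p v C ν r₂ T r₁ S (y T) (x S) :=
      not_ind_oc hgp hT (hy T hT) (hx S hS.ne') (h.c2.lev T hT) (h.c1.lev S hS.ne') hyT hxS
    rcases le_total T S with hTS | hTS
    · obtain ⟨s, hs, hv, hn'⟩ := exists_factor h.c1 h.c2 hTS hT hyT hind
      have h' : AF p v C K ν b b₀ z₁ r₁ (colS p x y s (S - T)) S
          (z₂ + s * z₁ ^ p ^ (S - T)) r₂ y T :=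
        ⟨h.par.step hs hv, h.c1.step h.c2 hs hv, h.c2, h.b0, by
          rw [add_assoc, ← col_step hTS s, ← add_assoc]
          exact h.rel⟩
      have hn'' : PG p v C (ν - p ^ S * r₁) (colS p x y s (S - T) S) := by
        rw [colS, if_pos (Nat.sub_le S T), Nat.sub_sub_self hTS]
        exact hn'
      obtain ⟨S, rfl⟩ : ∃ i, S = i + 1 := ⟨S - 1, by omega⟩
      obtain ⟨b₀', h''⟩ := h'.drop hn''
      exact ih (S + T) (by omega) h'' hT hyT (hx.step hgp hy h.c2 hs hv) hy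
        (colS_lin hlx hly hv) hly rfl
    · obtain ⟨s, hs, hv, hn'⟩ := exists_factor h.c2 h.c1 hTS hS.ne' hxS hind'
      have h₀ := h.symm
      have h' : AF p v C K ν b b₀ z₂ r₂ (colS p y x s (T - S)) T
          (z₁ + s * z₂ ^ p ^ (T - S)) r₁ x S :=
        ⟨h₀.par.step hs hv, h₀.c1.step h₀.c2 hs hv, h₀.c2, h₀.b0, by
          rw [add_assoc, ← col_step hTS s, ← add_assoc]
          exact h₀.rel⟩
      have hn'' : PG p v C (ν - p ^ T * r₂) (colS p y x s (T - S) T) := by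
        rw [colS, if_pos (Nat.sub_le T S), Nat.sub_sub_self hTS]
        exact hn'
      obtain ⟨T, rfl⟩ : ∃ i, T = i + 1 := ⟨T - 1, by omega⟩
      obtain ⟨b₀', h''⟩ := h'.drop hn''
      exact ih (T + S) (by omega) h'' hS.ne' hxS (hy.step hgp hx h.c1 hs hv) hx
        (colS_lin hly hlx hv) hlx rfl

/-- **An additive form with an empty strict column**: `z₂` is hit over `C`. -/
theorem AF.hit2 [IsAlgClosed Ω] (h : AF p v C K ν b b₀ z₁ r₁ x 0 z₂ r₂ y T) (hlp : LP p v K ν b) (hT : T ≠ 0)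
    (hyT : ¬ PG p v C (ν - p ^ T * r₂) (y T)) (hx0 : Gt v (ν - r₁) (x 0)) :
    Hit p v C z₂ r₂ := by
  obtain ⟨μ, hμ, h5⟩ := TWLM.exists_ge_of_gt hx0
  obtain ⟨c, hc, hzc⟩ := h.par.t1.lim (μ / 2) (half_pos hμ)
  have h6 : Gt v ν (x 0 * (z₁ - c)) := Gt.of_ge (h5.mul hzc) (by linarith)
  have hlp' : LP p v K ν (b₀ + col p x z₁ 0 + col p y z₂ T) := by
    have h1 := hlp.sub (TWII.LP.of_pg h.rel)
    rwa [sub_sub_cancel] at h1
  refine ⟨ν, b₀ + x 0 * c, y, T, T, add_mem h.b0 (mul_mem (h.c1.mem 0) hc), h.c2, ?_, hT, le_rfl,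
    hyT⟩
  have h7 : LP p v K ν (b₀ + x 0 * c + col p y z₂ T) := by
    have h8 := hlp'.sub (TWII.LP.of_pg (PG.of_gt (p := p) (F := K) h6))
    refine (congrArg _ ?_).mp h8
    rw [TWN1.col_zero]
    ring
  rw [h.par.eq2] at h7
  refine TWII.LP.down h.par.t12 ?_ h7
  exact add_mem (le_cadj v C z₂ (add_mem h.b0 (mul_mem (h.c1.mem 0) hc)))
    (sum_mem fun j _ => mul_mem (le_cadj v C z₂ (h.c2.mem j)) (pow_mem (self_mem_cadj v C z₂) _))

section Real

variable {H : Type u} [Field H] [Algebra k H] {w : RVal H} {ι : Ω →ₐ[k] H} {x₀ : Ω}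
  {W₀ K₀ : IntermediateField k Ω} {al y₀ : Ω} {μ t s : ℝ} {u z : Ω}

variable [CharP H p] [CharP k p] [IsAlgClosed k] [IsAlgClosed Ω] [IsAlgClosed H]

/-- **No pair over `W⟨y⟩` has a hit generator.** -/
theorem false_of_par_hit (hA : RowA p v w ι x₀ W₀ K₀ al) (hJ : J1D p v w ι x₀ W₀ K₀ al μ)
    (hy : TL v (clI v W₀) y₀ r)
    (hP : Par v (cadj v (clI v W₀) y₀) (clI v K₀) z₁ r₁ z₂ r₂)
    (hh : Hit p v (cadj v (clI v W₀) y₀) z₂ r₂) : False := by
  have hT1 : TowR v 2 (cadj v (clI v W₀) y₀) (clI v K₀) :=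
    TowR.succ hP.t2 (towR_iff_one.2 ⟨z₁, r₁, hP.t12, hP.eq2⟩)
  obtain ⟨h0, hrat⟩ := hJ.h0w_ratH hy hT1
  obtain ⟨g, hg, hPg⟩ := TWCT.exists_par_of_hit hJ.cpl hy h0 hrat hP.t2 hh
  exact hA μ _ y₀ (z₂ - g) z₁ r r₂ r₁ hJ hPg hP.t12 hP.eq2

/-- **The end, for an additive form with one class.** -/
theorem false_of_one_class (hA : RowA p v w ι x₀ W₀ K₀ al) (hJ : J1D p v w ι x₀ W₀ K₀ al μ)
    (hy : TL v (clI v W₀) y₀ r)
    (h : AF p v (cadj v (clI v W₀) y₀) (clI v K₀) ν b b₀ z₁ r₁ x S z₂ r₂ y T)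
    (hlp : LP p v (clI v K₀) ν b) (hT : T ≠ 0)
    (hyT : ¬ PG p v (cadj v (clI v W₀) y₀) (ν - p ^ T * r₂) (y T))
    (hx : OCol p v (cadj v (clI v W₀) y₀) ν r₁ X₀ x)
    (hy' : OCol p v (cadj v (clI v W₀) y₀) ν r₂ X₀ y)
    (hlx : Gt v (ν - r₁) (x 0)) (hly : Gt v (ν - r₂) (y 0)) : False := by
  obtain ⟨b₀', z₁', z₂', r₁', r₂', x', y', T', h', hT', hyT', hx'⟩ :=
    AF.red_ocs (gp_imm hy.imm (gp_of_pdiv hJ.ctx.toCtx0 hJ.pd)) h hT hyT hx hy' hlx hly
  exact false_of_par_hit hA hJ hy h'.par (AF.hit2 h' hlp hT' hyT' hx')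

/-- **The end, for a jet of a critical element**: a pair `z₁, z₂`, the jet of index `m ≠ 0` is
additive, with one class. -/
theorem false_of_jet (hA : RowA p v w ι x₀ W₀ K₀ al) (hJ : J1D p v w ι x₀ W₀ K₀ al μ)
    (hy : TL v (clI v W₀) y₀ r)
    (hP : Par v (cadj v (clI v W₀) y₀) (clI v K₀) z₁ r₁ z₂ r₂) {f : Polynomial Ω}
    (hf : f ∈ PI (cadj v (cadj v (clI v W₀) y₀) z₁)) (hlp : LP p v (clI v K₀) ν (f.eval z₂))
    {m : ℕ} (hm : m ≠ 0)
    (h : AF p v (cadj v (clI v W₀) y₀) (clI v K₀) (ν - m * r₂) ((hasseDeriv m f).eval z₂) b₀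
      z₁ r₁ x S z₂ r₂ y T) (hT : T ≠ 0)
    (hyT : ¬ PG p v (cadj v (clI v W₀) y₀) (ν - m * r₂ - p ^ T * r₂) (y T))
    (hx : OCol p v (cadj v (clI v W₀) y₀) (ν - m * r₂) r₁ X₀ x)
    (hy' : OCol p v (cadj v (clI v W₀) y₀) (ν - m * r₂) r₂ X₀ y) : False := by
  obtain ⟨hlx, hly⟩ := TWN1.lin_null hP hf hlp hm h
  refine false_of_one_class hA hJ hy h ?_ hT hyT hx hy' hlx hly
  have h9 := hlp
  rw [hP.eq1] at h9 ⊢
  exact h9.hjet hP.t21 hf m

/-- The form with a shift: `f` is a polynomial in `z`, the pair is `u, z - g`. -/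
theorem false_of_jet_shift (hA : RowA p v w ι x₀ W₀ K₀ al) (hJ : J1D p v w ι x₀ W₀ K₀ al μ)
    (hy : TL v (clI v W₀) y₀ r) {g : Ω} (hg : g ∈ cadj v (cadj v (clI v W₀) y₀) u)
    {f : Polynomial Ω} (hf : f ∈ PI (cadj v (cadj v (clI v W₀) y₀) u)) {a : Ω}
    (hlp : LP p v (clI v K₀) ν a) (haf : PG p v (clI v K₀) ν (a - f.eval z))
    {m : ℕ} (hm : m ≠ 0)
    (h : AF p v (cadj v (clI v W₀) y₀) (clI v K₀) (ν - m * s) ((hasseDeriv m f).eval z) b₀
      u t x S (z - g) s y T) (hT : T ≠ 0)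
    (hyT : ¬ PG p v (cadj v (clI v W₀) y₀) (ν - m * s - p ^ T * s) (y T))
    (hx : OCol p v (cadj v (clI v W₀) y₀) (ν - m * s) t X₀ x)
    (hy' : OCol p v (cadj v (clI v W₀) y₀) (ν - m * s) s X₀ y) : False := by
  have e1 : (taylor g f).eval (z - g) = f.eval z := by
    rw [taylor_eval, sub_add_cancel]
  have e2 : (hasseDeriv m (taylor g f)).eval (z - g) = (hasseDeriv m f).eval z := by
    rw [← taylor_coeff, ← taylor_coeff, taylor_taylor, sub_add_cancel]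
  have hf' : taylor g f ∈ PI (cadj v (cadj v (clI v W₀) y₀) u) := fun i => by
    rw [taylor_coeff]
    exact eval_mem (hasse_mem_PI hf i) hg
  have hfl : LP p v (clI v K₀) ν ((taylor g f).eval (z - g)) := by
    have h8 := hlp.sub (TWII.LP.of_pg haf)
    rwa [sub_sub_cancel, ← e1] at h8
  rw [← e2] at h
  exact false_of_jet hA hJ hy h.par hf' hfl hm h hT hyT hx hy'

end Real

/-- If all the critical elements of `C` are in one class, the columns are in one class. -/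
theorem Col.ocol (hx : Col p v C ν r x)
    (hoc : ∀ a ∈ C, ∀ c : ℝ, LP p v C c a → OC p v C C X₀ c a) : OCol p v C ν r X₀ x :=
  fun j hj => hoc _ (hx.mem j) _ (hx.lev j hj)

end Pool.Agent.TWRW
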