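import Pool.Agent.Lib.TWRB.Skel
import Pool.Agent.Lib.TWRW.AfE
import Pool.Agent.Lib.TWRW.Third

/-!
# CT, j = 1, row B: the last wiring

* `BadA`, `BadB`, `BadC`: the three outcomes of the trichotomy for the real floors;
* `RowBad`: one of them holds; `rowBF_of`: the row, from `RowBad`.
-/

set_option autoImplicit false

open Polynomial

namespace Pool.Agent.TWRW

open Pool.Agent.H15JM (RVal)
open Pool.Agent.D2P (clI)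
open Pool.Agent.TWM
open Pool.Agent.TWS (IsoE PM)
open Pool.Agent.TWII (PG LP)
open Pool.Agent.TWN1
open Pool.Agent.TWNI (FinE)
open Pool.Agent.TWCT
open Pool.Agent.TWRR (OC OCol GP)
open Pool.Agent.TWCY
open Pool.Agent.TWRB (RFl GLB RowTopB TieF)

universe u

section

variable {k Ω₀ Ω : Type u} [Field k] [Field Ω₀] [Algebra k Ω₀] [Field Ω] [Algebra k Ω]

/-- (A) The tie over every `GLB`. -/
def BadA (p : ℕ) (v₀ : RVal Ω₀) (v : RVal Ω) (ι : Ω₀ →ₐ[k] Ω) (x₀ : Ω₀)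
    (W₀ K₀ : IntermediateField k Ω₀) (al : Ω₀) (ν : ℝ) (C F : IntermediateField k Ω₀)
    (y u z : Ω₀) (r t s : ℝ) : Prop :=
  ∀ (G : AddSubgroup ℝ) (M : ℝ → Ω) (L : ℕ → IntermediateField k Ω)
    (X₀ c₁ c₂ d m cx : Ω) (D : Ω → Ω),
    GLB p v₀ v ι x₀ W₀ K₀ al ν C F y u z r t s G M L X₀ c₁ c₂ d m cx D →
    ∃ (e : k) (κ : ℕ → k) (n : ℕ) (a₀ : Ω), TieF p v (PM v (tH p v₀ ι x₀ F) G M)
      (PM v (tH p v₀ ι x₀ (clI v₀ K₀)) G M) (X₀ / cx ^ p) (ι z / d) (ι (al ^ p) / m ^ p) e κ n a₀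

/-- (B) A pair over `C`, with an additive form of `al ^ p`. -/
def BadB (p : ℕ) (v₀ : RVal Ω₀) (K₀ : IntermediateField k Ω₀) (al : Ω₀) (ν : ℝ)
    (C F : IntermediateField k Ω₀) (u z : Ω₀) (t s : ℝ) : Prop :=
  ∃ φ₀ ∈ F, ∃ (b₀ : Ω₀) (X : ℕ → Ω₀) (S : ℕ) (Y : ℕ → Ω₀) (T : ℕ),
    AF p v₀ C (clI v₀ K₀) ν (al ^ p) b₀ u t X S (z - φ₀) s Y T

/-- (C) A pair over `C`, with an additive form of one class, with strict linear coefficients. -/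
def BadC (p : ℕ) (v₀ : RVal Ω₀) (K₀ : IntermediateField k Ω₀)
    (C F : IntermediateField k Ω₀) (u z : Ω₀) (t s : ℝ) : Prop :=
  ∃ φ₀ ∈ F, ∃ (lam : ℝ) (b b₀ : Ω₀) (X : ℕ → Ω₀) (S : ℕ) (Y : ℕ → Ω₀) (T : ℕ) (X₁ : Ω₀),
    b ∈ clI v₀ K₀ ∧ LP p v₀ (clI v₀ K₀) lam b ∧
    AF p v₀ C (clI v₀ K₀) lam b b₀ u t X S (z - φ₀) s Y T ∧
    OCol p v₀ C lam t X₁ X ∧ OCol p v₀ C lam s X₁ Y ∧
    Gt v₀ (lam - t) (X 0) ∧ Gt v₀ (lam - s) (Y 0) ∧ T ≠ 0 ∧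
    ¬ PG p v₀ C (lam - p ^ T * s) (Y T)

/-- **The trichotomy** for the real floors, for all data. -/
def RowBad (p : ℕ) (v₀ : RVal Ω₀) (v : RVal Ω) (ι : Ω₀ →ₐ[k] Ω) (x₀ : Ω₀)
    (W₀ K₀ : IntermediateField k Ω₀) (al : Ω₀) : Prop :=
  ∀ (ν : ℝ) (C F : IntermediateField k Ω₀) (y u z : Ω₀) (r t s : ℝ) (Θ : ℕ → Ω₀ → Ω₀),
    RFl p v₀ v ι x₀ W₀ K₀ al ν C F y u z r t s →
    (∀ g ∈ C, ¬ Lim v₀ (clI v₀ W₀) t (u - g)) → ¬ Hit p v₀ C u t →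
    HsY v₀ (clI v₀ W₀) y r Θ → FinE v₀ (cadj v₀ (clI v₀ W₀) y) r t Θ u →
    BadA p v₀ v ι x₀ W₀ K₀ al ν C F y u z r t s ∨ BadB p v₀ K₀ al ν C F u z t s ∨
      BadC p v₀ K₀ C F u z t s

end

section

variable {k Ω₀ Ω : Type u} [Field k] [Field Ω₀] [Algebra k Ω₀] [Field Ω] [Algebra k Ω]
  {p : ℕ} {v₀ : RVal Ω₀} {v : RVal Ω} {ι : Ω₀ →ₐ[k] Ω} [hp : Fact p.Prime] [CharP Ω₀ p]
  [CharP Ω p] [CharP k p] [IsAlgClosed k] [IsAlgClosed Ω₀] [IsAlgClosed Ω] {x₀ : Ω₀}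
  {W₀ K₀ : IntermediateField k Ω₀} {al : Ω₀}

/-- **Row (j = 1, B), finite shape**, from the trichotomy. -/
theorem rowBF_of (hTop : RowTopB (k := k) p v) (hA : RowA p v₀ v ι x₀ W₀ K₀ al)
    (hBad : RowBad p v₀ v ι x₀ W₀ K₀ al) : RowBF p v₀ v ι x₀ W₀ K₀ al := by
  intro ν y u z r t s Θ hJ hy hΘ hu hfin hz hK hnl hnh
  have hR : RFl p v₀ v ι x₀ W₀ K₀ al ν (cadj v₀ (clI v₀ W₀) y)
      (cadj v₀ (cadj v₀ (clI v₀ W₀) y) u) y u z r t s := ⟨hJ, hy, rfl, hu, rfl, hz, hK⟩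
  rcases hBad ν _ _ y u z r t s Θ hR hnl hnh hΘ hfin with h1 | ⟨φ₀, -, b₀, X, S, Y, T, h1⟩ |
    ⟨φ₀, -, lam, b, b₀, X, S, Y, T, X₁, hb, hlp, haf, hX, hY, hlx, hly, hT, hYT⟩
  · exact hR.false_of_tie hTop hnl hnh hΘ hfin h1
  · exact hR.false_of_pair hTop hA h1
  · exact false_of_one_class hA hJ hy haf hlp hT hYT hX hY hlx hly

end

end Pool.Agent.TWRW
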