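import Pool.Agent.Lib.TWRB.FinA
import Pool.Agent.Lib.TWRR.G0
import Pool.Agent.Lib.TWN1.RadU
import Pool.Agent.Lib.TWCT.Exit

/-!
# Row B, the bad case: an additive form over `C`

`F = C⟨u⟩`, `K = F⟨z⟩`, radii and level `0`; `u` is not hit over `C`; the jets of `z - φ` along `u`
are attained, the `u`-derivatives of the effects are strict.

* `exists_jl_eff`: the limits of the jets and the derivatives of the effects, for any normal form;
* `cls_of_not_hit`: a critical element of `F` with strict `u`-derivative is in `C` + null;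
* `af_of_noc`: an additive form of `a` over `C` for the pair `u`, `z - g`.
-/

set_option autoImplicit false

open Polynomial Finset

namespace Pool.Agent.TWRW

open Pool.Agent.H15JM (RVal)
open Pool.Agent.LU1 (VPos)
open Pool.Agent.D2 (Ctx0)
open Pool.Agent.D2P (mem_clI)
open Pool.Agent.TWM
open Pool.Agent.TWS (IsoE SphC)
open Pool.Agent.TWII (PG LP)
open Pool.Agent.TWN1
open Pool.Agent.TWLY
open Pool.Agent.TWCY (Drv)
open Pool.Agent.TWRR (Att JL OClsJ ClsJ ef)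
open Pool.Agent.TWCT (Hit)
open Pool.Agent.TWRB (frm2 frm2_eval frm2_mem frm2_der gtM mem_gtM att_mem att_sub drv_zero drv_gt)

universe u

variable {k Ω : Type u} [Field k] [Field Ω] [Algebra k Ω] {v : RVal Ω}
  {W C F K : IntermediateField k Ω} {x : Ω} {p : ℕ} {T : k → Ω →ₐ[k] Ω} {D : ℕ} {f : ℕ → Ω}
  [hp : Fact p.Prime] [CharP Ω p] [IsAlgClosed Ω] [IsAlgClosed k]

/-- **The limits of the jets and the derivatives of the effects**, for any normal form of `a`. -/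
theorem exists_jl_eff (hk : Ctx0 k v) (hWC : W ≤ C) {u z a φ : Ω} {I : Type*} {dd : I → Ω → Ω}
    (hu : TL v C u 0) (hz : TL v (cadj v C u) z 0)
    (hatt : Att v C (cadj v C u) u (z - φ) T D f) (hφ : φ ∈ cadj v C u)
    (hdd : ∀ i, Drv v (cadj v C u) (dd i)) (hdW : ∀ i, ∀ b ∈ W, dd i b = 0)
    {e₁ a₁ : Ω} {A₁ : ℕ → Ω} {N₁ : ℕ} (he₁ : e₁ ∈ W) (hA₁ : ∀ m ∈ Icc 1 N₁, A₁ m ∈ W)
    (ha₁ : a₁ ∈ cadj v C u)
    (hrel₁ : PG p v (cadj v (cadj v C u) z) 0
      (a - (e₁ * (z - φ) + ∑ i ∈ Icc 1 N₁, A₁ i * (z - φ) ^ p ^ i + a₁)))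
    (heff : ∀ (c : k) (i : I), Gt v 0 (dd i (e₁ * ∑ j ∈ Icc 1 D, algebraMap k Ω c ^ j * f j +
      (T c a₁ - a₁))))
    {c' : Ω} (hc' : c' ∈ cadj v C u) {e' : Ω}
    {A : ℕ → Ω} {N J : ℕ} {B : Polynomial Ω} (hN : Nrm p v C u (z - c') 0 0 0 e' A N B J 0)
    (he' : e' ∈ W) (hA : ∀ m ∈ Icc 1 N, A m ∈ W)
    (hrel : PG p v (cadj v (cadj v C u) z) 0
      (a - (e' * (z - c') + ∑ i ∈ Icc 1 N, A i * (z - c') ^ p ^ i + B.eval u))) :
    ∃ (ψ : ℕ → Polynomial Ω) (D' : ℕ) (f' : ℕ → Ω), JL p v C u (z - c') 0 0 e' J ψ D' ∧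
      (∀ l, f' l ∈ cadj v C u) ∧ (∀ l, l ≠ 0 → p ∣ l → v.Ge 1 (f' l - (ψ l).eval u)) ∧
      ∀ l, l ≠ 0 → ∀ i, Gt v 0 (e' * dd i (f' l) + dd i ((hasseDeriv l B).eval u)) := by
  classical
  have hCF : C ≤ cadj v C u := le_cadj v C u
  have hFK : cadj v C u ≤ cadj v (cadj v C u) z := le_cadj _ _ _
  have hBF : ∀ l, (hasseDeriv l B).eval u ∈ cadj v C u := fun l =>
    TWLM.eval_mem_cadj (hasse_mem_PI hN.BC l)
  have hBF0 : B.eval u ∈ cadj v C u := TWLM.eval_mem_cadj hN.BC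
  have he'F : e' ∈ cadj v C u := hCF (hWC he')
  have hAF : ∀ m ∈ Icc 1 N, A m ∈ cadj v C u := fun m hm => hCF (hWC (hA m hm))
  have he₁F : e₁ ∈ cadj v C u := hCF (hWC he₁)
  have hA₁F : ∀ m ∈ Icc 1 N₁, A₁ m ∈ cadj v C u := fun m hm => hCF (hWC (hA₁ m hm))
  -- the difference of the two forms
  set P : Polynomial Ω := frm2 p φ e₁ A₁ N₁ a₁ - frm2 p c' e' A N (B.eval u) with hP
  have hPF : P ∈ PI (cadj v C u) := sub_mem (frm2_mem hφ he₁F hA₁F ha₁)
    (frm2_mem hc' he'F hAF hBF0)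
  have hPG : PG p v (cadj v (cadj v C u) z) 0 (P.eval z) := by
    rw [hP, eval_sub, frm2_eval, frm2_eval]
    have h1 := hrel.sub hrel₁
    refine (congrArg _ ?_).mp h1
    ring
  obtain ⟨Q, hQ, hgt⟩ := PG.exists_poly hz hPG
  have hRF : P - Q ^ p ∈ PI (cadj v C u) := sub_mem hPF (pow_mem hQ p)
  -- the linear coefficients
  have hee : Gt v 0 (e₁ - e') := by
    have h1 := TWII.TL.jet_gt hz hRF hgt.ge (l := 1) le_rfl
    rw [taylor_coeff, hasseDeriv_one', map_sub, hP, map_sub, frm2_der, frm2_der, derivative_pow,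
      CharP.cast_eq_zero Ω p, map_zero, zero_mul, zero_mul, sub_zero, eval_sub, eval_C,
      eval_C] at h1
    simpa using h1
  obtain ⟨μ, hμ, hee'⟩ := TWLM.exists_ge_of_gt hee
  obtain ⟨δ, hδ, hdeep⟩ := TL.deep hz {P - Q ^ p} (fun g hg => by
    rw [mem_singleton.1 hg]
    exact hRF)
  set ε := min δ (μ / 2) with hε
  have hε0 : 0 < ε := lt_min hδ (by linarith)
  obtain ⟨θ, hθ, hzθ⟩ := hz.lim ε hε0
  have hθgt : Gt v 0 ((P - Q ^ p).eval θ) := by
    refine ((hdeep θ (hzθ.mono ?_) _ (mem_singleton_self _)).2 0).1 hgt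
    have := min_le_left δ (μ / 2)
    linarith
  -- the jets of `z - c'`
  have hφc : φ - c' ∈ cadj v C u := sub_mem hφ hc'
  obtain ⟨D', f', hatt', hf'0, hf'⟩ := att_sub hu hatt hφc
  have e0 : z - φ + (φ - c') = z - c' := by ring
  rw [e0] at hatt'
  have hTF : ∀ (c : k) {g : Ω}, g ∈ cadj v C u → T c g ∈ cadj v C u := fun c g hg =>
    att_mem hu hatt c hg
  have hSF : ∀ c : k, ∑ j ∈ Icc 1 D, algebraMap k Ω c ^ j * f j ∈ cadj v C u := fun c =>
    sum_mem fun j _ => mul_mem (pow_mem ((cadj v C u).algebraMap_mem c) j) (hatt.fF j)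
  have hSF' : ∀ c : k, ∑ j ∈ Icc 1 D', algebraMap k Ω c ^ j * f' j ∈ cadj v C u := fun c =>
    sum_mem fun j _ => mul_mem (pow_mem ((cadj v C u).algebraMap_mem c) j) (hatt'.fF j)
  -- the point values
  have hpt : ∀ (c : k) (i : I), Gt v 0 (dd i (e' * ∑ j ∈ Icc 1 D', algebraMap k Ω c ^ j * f' j +
      (T c (B.eval u) - B.eval u))) := by
    intro c i
    set S := ∑ j ∈ Icc 1 D, algebraMap k Ω c ^ j * f j with hS
    set S' := ∑ j ∈ Icc 1 D', algebraMap k Ω c ^ j * f' j with hS'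
    have hSm : S ∈ cadj v C u := hSF c
    have hSm' : S' ∈ cadj v C u := hSF' c
    set y₁ := T c (θ - φ) - (θ - φ) with hy₁
    set y₂ := T c (θ - c') - (θ - c') with hy₂
    have hy₁F : y₁ ∈ cadj v C u := sub_mem (hTF c (sub_mem hθ hφ)) (sub_mem hθ hφ)
    have hy₂F : y₂ ∈ cadj v C u := sub_mem (hTF c (sub_mem hθ hc')) (sub_mem hθ hc')
    -- the difference of `P`
    set g := T c (Q.eval θ) - Q.eval θ with hg
    have hQθ : Q.eval θ ∈ cadj v C u := eval_mem hQ hθ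
    have hgF : g ∈ cadj v C u := sub_mem (hTF c hQθ) hQθ
    set r := T c ((P - Q ^ p).eval θ) - (P - Q ^ p).eval θ with hr
    have hRθ : (P - Q ^ p).eval θ ∈ cadj v C u := eval_mem hRF hθ
    have hrF : r ∈ cadj v C u := sub_mem (hTF c hRθ) hRθ
    have hrgt : Gt v 0 r := (IsoE.gt_iff (hatt.iso c) |>.2 hθgt).sub hθgt
    have eP : T c (P.eval θ) - P.eval θ = r + g ^ p := by
      have e2 : (P - Q ^ p).eval θ = P.eval θ - Q.eval θ ^ p := (eval_sub _ _ _).trans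
        (congrArg _ (eval_pow p))
      rw [hr, hg, sub_pow_char, e2, map_sub, map_pow]
      ring
    -- the expansion
    have hform : ∀ (c₀ E : Ω) (A₀ : ℕ → Ω) (N₀ : ℕ) (b : Ω), E ∈ W → (∀ m ∈ Icc 1 N₀, A₀ m ∈ W) →
        T c (E * (θ - c₀) + ∑ i ∈ Icc 1 N₀, A₀ i * (θ - c₀) ^ p ^ i + b) -
        (E * (θ - c₀) + ∑ i ∈ Icc 1 N₀, A₀ i * (θ - c₀) ^ p ^ i + b) =
        E * (T c (θ - c₀) - (θ - c₀)) +
          ∑ i ∈ Icc 1 N₀, A₀ i * (T c (θ - c₀) - (θ - c₀)) ^ p ^ i + (T c b - b) := by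
      intro c₀ E A₀ N₀ b hE hA₀
      have hs2 : ∑ i ∈ Icc 1 N₀, A₀ i * (T c (θ - c₀) - (θ - c₀)) ^ p ^ i =
          ∑ i ∈ Icc 1 N₀, A₀ i * T c (θ - c₀) ^ p ^ i -
            ∑ i ∈ Icc 1 N₀, A₀ i * (θ - c₀) ^ p ^ i := by
        rw [← sum_sub_distrib]
        refine sum_congr rfl fun i _ => ?_
        rw [sub_pow_char_pow]
        ring
      have hs3 : T c (∑ i ∈ Icc 1 N₀, A₀ i * (θ - c₀) ^ p ^ i) =
          ∑ i ∈ Icc 1 N₀, A₀ i * T c (θ - c₀) ^ p ^ i := by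
        rw [map_sum]
        refine sum_congr rfl fun i hi => ?_
        rw [map_mul, map_pow, hatt.fix c _ (hWC (hA₀ i hi))]
      rw [hs2, map_add, map_add, map_mul, hs3, hatt.fix c _ (hWC hE)]
      ring
    have eP' : T c (P.eval θ) - P.eval θ =
        (e₁ * y₁ + ∑ i ∈ Icc 1 N₁, A₁ i * y₁ ^ p ^ i + (T c a₁ - a₁)) -
        (e' * y₂ + ∑ i ∈ Icc 1 N, A i * y₂ ^ p ^ i + (T c (B.eval u) - B.eval u)) := by
      have e2 : P.eval θ = (frm2 p φ e₁ A₁ N₁ a₁).eval θ - (frm2 p c' e' A N (B.eval u)).eval θ :=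
        eval_sub _ _ _
      rw [e2, frm2_eval, frm2_eval, hy₁, hy₂, ← hform φ e₁ A₁ N₁ a₁ he₁ hA₁,
        ← hform c' e' A N (B.eval u) he' hA, map_sub]
      ring
    -- the derivatives
    have hd := hdd i
    have hsm : ∀ (A₀ : ℕ → Ω) (N₀ : ℕ) (y₀ : Ω), (∀ m ∈ Icc 1 N₀, A₀ m ∈ W) →
        y₀ ∈ cadj v C u → ∑ i ∈ Icc 1 N₀, A₀ i * y₀ ^ p ^ i ∈ cadj v C u := fun A₀ N₀ y₀ h1 h2 =>
      sum_mem fun i hi => mul_mem (hCF (hWC (h1 i hi))) (pow_mem h2 _)
    have hds : ∀ (A₀ : ℕ → Ω) (N₀ : ℕ) (y₀ : Ω), (∀ m ∈ Icc 1 N₀, A₀ m ∈ W) →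
        y₀ ∈ cadj v C u → dd i (∑ i ∈ Icc 1 N₀, A₀ i * y₀ ^ p ^ i) = 0 := by
      intro A₀ N₀ y₀ h1 h2
      rw [TWRR.drv_sum hd _ _ fun j hj => mul_mem (hCF (hWC (h1 j hj))) (pow_mem h2 _)]
      refine sum_eq_zero fun j hj => ?_
      rw [TWRR.drv_mul hd (hCF (hWC (h1 j hj))) (pow_mem h2 _) (hdW i _ (h1 j hj)),
        TWRR.drv_powq hd h2 (mem_Icc.1 hj).1, mul_zero]
    have hsx := hsm A₁ N₁ y₁ hA₁ hy₁F
    have hsA := hsm A N y₂ hA hy₂F
    have hdsx := hds A₁ N₁ y₁ hA₁ hy₁F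
    have hdsA := hds A N y₂ hA hy₂F
    have hdg : dd i (g ^ p) = 0 := TWRR.drv_pow hd hgF
    have hdr : Gt v 0 (dd i r) := drv_gt hd hrF hrgt
    -- the rest
    have h1 : Gt v 0 (e₁ * (y₁ - S) - e' * (y₂ - S')) := by
      have h2 : v.Ge (-ε) (y₁ - S) := by
        have e1 : y₁ - S = (T c (z - φ) - (z - φ) - S) - (T c (z - θ) - (z - θ)) := by
          rw [hy₁]
          simp only [map_sub]
          ring
        rw [e1]
        have h3 : v.Ge (-ε) (z - θ) := hzθ.mono (by linarith)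
        exact ((hatt.jet c).mono (by linarith)).sub (((hatt.iso c).ge_iff.2 h3).sub h3)
      have h3 : Gt v 0 (y₁ - S - (y₂ - S')) := by
        have e1 : y₁ - S - (y₂ - S') = -(T c (φ - c') - (φ - c') - (S' - S)) := by
          rw [hy₁, hy₂]
          simp only [map_sub]
          ring
        rw [e1]
        exact (hf' c).neg
      have e1 : e₁ * (y₁ - S) - e' * (y₂ - S') =
          (e₁ - e') * (y₁ - S) + (y₁ - S - (y₂ - S')) * e' := by ring
      rw [e1]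
      have h4 : v.Ge 0 e' := by
        have := hN.ege
        rwa [sub_zero] at this
      have h5 := h3.mul_ge h4
      rw [add_zero] at h5
      refine Gt.add (Gt.of_ge (hee'.mul h2) ?_) h5
      have := min_le_right δ (μ / 2)
      linarith
    have h1F : e₁ * (y₁ - S) - e' * (y₂ - S') ∈ cadj v C u :=
      sub_mem (mul_mem he₁F (sub_mem hy₁F hSm)) (mul_mem he'F (sub_mem hy₂F hSm'))
    have hX := heff c i
    rw [← hS] at hX
    set Xc := e₁ * S + (T c a₁ - a₁) with hXc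
    have hTa : T c a₁ - a₁ ∈ cadj v C u := sub_mem (hTF c ha₁) ha₁
    have hXF : Xc ∈ cadj v C u := add_mem (mul_mem he₁F hSm) hTa
    have eX : e' * S' + (T c (B.eval u) - B.eval u) = (Xc + (e₁ * (y₁ - S) - e' * (y₂ - S'))) +
        ((∑ i ∈ Icc 1 N₁, A₁ i * y₁ ^ p ^ i) - ∑ i ∈ Icc 1 N, A i * y₂ ^ p ^ i) -
        (r + g ^ p) := by
      rw [← eP, eP', hXc]
      ring
    rw [eX, TWRR.drv_sub hd (add_mem (add_mem hXF h1F) (sub_mem hsx hsA))
      (add_mem hrF (pow_mem hgF p)), hd.add _ (add_mem hXF h1F) _ (sub_mem hsx hsA),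
      hd.add _ hXF _ h1F, TWRR.drv_sub hd hsx hsA, hdsx, hdsA, sub_zero, add_zero,
      hd.add _ hrF _ (pow_mem hgF p), hdg, add_zero]
    exact (Gt.add hX (drv_gt hd h1F h1)).sub hdr
  -- the coefficients
  obtain ⟨ψ, hjl, hψ⟩ := hatt'.exists_jl hk hu p e' J (r := 1) (by norm_num)
  refine ⟨ψ, D', f', hjl, hatt'.fF, fun l hl hpl => ?_, ?_⟩
  · by_cases hlD : l ≤ D'
    · exact hψ l hl hlD fun _ => hpl
    · push Not at hlD
      rw [hf'0 l hlD, hjl.deg l hlD, eval_zero, sub_zero]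
      exact RVal.Ge.zero
  intro l hl i
  have hd := hdd i
  have hcoef : Gt v 0 (dd i (e' * f' l + (hasseDeriv l B).eval u)) := by
    set M := max D' B.natDegree with hM
    by_cases hlM : M < l
    · have h1 : B.natDegree < l := (le_max_right _ _).trans_lt hlM
      have h2 : D' < l := (le_max_left _ _).trans_lt hlM
      rw [hf'0 l h2, hasseDeriv_eq_zero_of_lt_natDegree B l h1, eval_zero, mul_zero, add_zero,
        drv_zero hd]
      exact Gt.zero
    push Not at hlM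
    set G : ℕ → Ω := fun j => if j = 0 then 0 else e' * f' j + (hasseDeriv j B).eval u with hG
    have hGF : ∀ j, G j ∈ cadj v C u := by
      intro j
      simp only [hG]
      split_ifs
      · exact zero_mem _
      · exact add_mem (mul_mem he'F (hatt'.fF j)) (hBF j)
    have hsum : ∀ c : k, ∑ j ∈ range (M + 1), c ^ j • dd i (G j) ∈ gtM hk := by
      intro c
      rw [mem_gtM]
      have e1 : ∑ j ∈ range (M + 1), c ^ j • dd i (G j) =
          dd i (e' * ∑ j ∈ Icc 1 D', algebraMap k Ω c ^ j * f' j +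
            (T c (B.eval u) - B.eval u)) := by
        have e2 : e' * ∑ j ∈ Icc 1 D', algebraMap k Ω c ^ j * f' j +
            (T c (B.eval u) - B.eval u) = ∑ j ∈ range (M + 1), algebraMap k Ω c ^ j * G j := by
          rw [hatt'.eval hN.BC c, TWN1.rt_taylor (le_max_right D' B.natDegree) u
            (u + algebraMap k Ω c), ← hM, sum_range_succ', hasseDeriv_zero', pow_zero, mul_one,
            add_sub_cancel_right, sum_range_succ' (fun j => algebraMap k Ω c ^ j * G j)]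
          have h0 : algebraMap k Ω c ^ 0 * G 0 = 0 := by simp [hG]
          rw [h0, add_zero, mul_sum]
          have h2 : ∑ j ∈ Icc 1 D', e' * (algebraMap k Ω c ^ j * f' j) =
              ∑ j ∈ range M, e' * (algebraMap k Ω c ^ (j + 1) * f' (j + 1)) := by
            rw [range_eq_Ico, sum_Ico_add' (fun j => e' * (algebraMap k Ω c ^ j * f' j)) 0 M 1,
              zero_add]
            have e4 : Ico 1 (M + 1) = Icc 1 M := by
              ext j
              simp only [mem_Ico, mem_Icc]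
              omega
            rw [e4]
            refine sum_subset (Icc_subset_Icc le_rfl (le_max_left _ _)) fun j hj hj' => ?_
            have h3 : D' < j := by
              by_contra h4
              exact hj' (mem_Icc.2 ⟨(mem_Icc.1 hj).1, by omega⟩)
            rw [hf'0 j h3, mul_zero, mul_zero]
          rw [h2, ← sum_add_distrib]
          refine sum_congr rfl fun j _ => ?_
          simp only [hG, Nat.succ_ne_zero, if_false]
          rw [add_sub_cancel_left]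
          ring
        rw [e2, TWRR.drv_sum hd _ _ fun j _ => mul_mem
          (pow_mem ((cadj v C u).algebraMap_mem c) j) (hGF j)]
        refine sum_congr rfl fun j _ => ?_
        rw [TWRR.drv_mul hd (pow_mem ((cadj v C u).algebraMap_mem c) j) (hGF j) (by
          rw [← map_pow]
          exact hd.alg _), Algebra.smul_def, map_pow]
      rw [e1]
      exact hpt c i
    have h1 := TWD.mem_of_vdm (gtM hk) (Set.infinite_univ) (fun c _ => hsum c) l
      (Nat.lt_succ_of_le hlM)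
    simp only [hG, if_neg hl] at h1
    exact h1
  rw [hd.add _ (mul_mem he'F (hatt'.fF l)) _ (hBF l),
    TWRR.drv_mul hd he'F (hatt'.fF l) (hdW i _ he')] at hcoef
  exact hcoef

omit [IsAlgClosed k] in
/-- **A critical element with strict `u`-derivative is in `C` + null**, if `u` is not hit. -/
theorem cls_of_not_hit {u : Ω} {d : Ω → Ω} (hu : TL v C u 0)
    (hnh : ¬ Hit p v C u 0) (hd : Drv v (cadj v C u) d) (hd0 : ∀ b ∈ C, d b = 0) (hdu : d u = 1)
    {b : Ω} (hb : b ∈ cadj v C u) (hlp : LP p v (cadj v C u) 0 b) (hdb : Gt v 0 (d b)) :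
    ∃ c ∈ C, PG p v (cadj v C u) 0 (b - c) := by
  have hCF : C ≤ cadj v C u := le_cadj v C u
  have huF : u ∈ cadj v C u := self_mem_cadj v C u
  obtain ⟨e, he, hev, c, hc, h1⟩ := TWN1.radu hu hb hlp (TWCT.unh_of_not_hit hu hb hlp hnh)
  have h0 : e = 0 := by
    by_contra h0
    obtain ⟨g, hg, h2⟩ := h1
    have hm : b - e * u - c ∈ cadj v C u := sub_mem (sub_mem hb (mul_mem (hCF he) huF)) (hCF hc)
    have h3 := drv_gt hd (sub_mem hm (pow_mem hg p)) h2
    rw [TWRR.drv_sub hd hm (pow_mem hg p), TWRR.drv_pow hd hg,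
      TWRR.drv_sub hd (sub_mem hb (mul_mem (hCF he) huF)) (hCF hc),
      TWRR.drv_sub hd hb (mul_mem (hCF he) huF), TWRR.drv_mul hd (hCF he) huF (hd0 e he),
      hd0 c hc, hdu, mul_one, sub_zero, sub_zero] at h3
    have h4 : Gt v 0 e := by
      have h5 := hdb.sub h3
      rwa [sub_sub_cancel] at h5
    have h5 := h4 h0
    rw [hev h0, sub_zero] at h5
    exact lt_irrefl _ h5
  refine ⟨c, hc, ?_⟩
  rwa [h0, zero_mul, sub_zero] at h1

omit [IsAlgClosed k] in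
/-- **The classes of the effects are in `C`**, from the derivation. -/
theorem clsJ_of_drv {u y e : Ω} {d : Ω → Ω} {A : ℕ → Ω} {N J : ℕ} {B : Polynomial Ω}
    {ψ : ℕ → Polynomial Ω} (hu : TL v C u 0) (hN : Nrm p v C u y 0 0 0 e A N B J 0)
    (hjl : JL p v C u y 0 0 e J ψ D) (hd : Drv v (cadj v C u) d) (hd0 : ∀ b ∈ C, d b = 0)
    (hcls : ∀ b ∈ cadj v C u, LP p v (cadj v C u) 0 b → Gt v 0 (d b) →
      ∃ c ∈ C, PG p v (cadj v C u) 0 (b - c)) (hf : ∀ l, f l ∈ cadj v C u)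
    (hfψ : ∀ l, l ≠ 0 → p ∣ l → v.Ge 1 (f l - (ψ l).eval u))
    (hG : ∀ l, l ≠ 0 → p ∣ l → Gt v 0 (e * d (f l) + d ((hasseDeriv l B).eval u))) :
    ClsJ p v C u 0 0 e A N B ψ := by
  intro l hl hpl
  have hCF : C ≤ cadj v C u := le_cadj v C u
  have heF := hCF hN.eC
  have hAF : ∀ m ∈ Icc 1 N, A m ∈ cadj v C u := fun m hm => hCF (hN.AC m hm)
  have hψF : ∀ j, (ψ j).eval u ∈ cadj v C u := fun j => TWLM.eval_mem_cadj (hjl.mem j)
  have hBF : (hasseDeriv l B).eval u ∈ cadj v C u :=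
    TWLM.eval_mem_cadj (hasse_mem_PI hN.BC l)
  have hlp := hjl.ef_lp hu hN hl
  rw [mul_zero, sub_zero] at hlp ⊢
  have hmem : ∀ m ∈ Icc 1 N, (if p ^ m ∣ l then
      A m * ((ψ (l / p ^ m)).eval u) ^ p ^ m else 0) ∈ cadj v C u := fun m hm => by
    split_ifs
    · exact mul_mem (hAF m hm) (pow_mem (hψF _) _)
    · exact zero_mem _
  have hef : (ef p e A N B ψ l).eval u ∈ cadj v C u := by
    rw [TWRR.ef_eval]
    exact add_mem (add_mem (mul_mem heF (hψF l)) (sum_mem hmem)) hBF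
  have hder : d ((ef p e A N B ψ l).eval u) =
      e * d ((ψ l).eval u) + d ((hasseDeriv l B).eval u) := by
    rw [TWRR.ef_eval, hd.add _ (add_mem (mul_mem heF (hψF l)) (sum_mem hmem)) _ hBF,
      hd.add _ (mul_mem heF (hψF l)) _ (sum_mem hmem), TWRR.drv_mul hd heF (hψF l) (hd0 _ hN.eC),
      TWRR.drv_sum hd _ _ hmem]
    have h1 : ∑ m ∈ Icc 1 N, d (if p ^ m ∣ l then
        A m * ((ψ (l / p ^ m)).eval u) ^ p ^ m else 0) = 0 := by
      refine sum_eq_zero fun m hm => ?_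
      split_ifs
      · rw [TWRR.drv_mul hd (hAF m hm) (pow_mem (hψF _) _) (hd0 _ (hN.AC m hm)),
          TWRR.drv_powq hd (hψF _) (mem_Icc.1 hm).1, mul_zero]
      · exact drv_zero hd
    rw [h1, add_zero]
  refine hcls _ hef hlp ?_
  rw [hder]
  have h1 := hd.norm _ (sub_mem (hf l) (hψF l)) 1 (hfψ l hl hpl)
  rw [TWRR.drv_sub hd (hf l) (hψF l)] at h1
  have h2 : v.Ge 0 e := hN.ege.mono (by norm_num)
  have h3 : Gt v 0 (e * (d (f l) - d ((ψ l).eval u))) := Gt.of_ge (h2.mul h1) (by norm_num)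
  have e1 : e * d ((ψ l).eval u) + d ((hasseDeriv l B).eval u) =
      (e * d (f l) + d ((hasseDeriv l B).eval u)) - e * (d (f l) - d ((ψ l).eval u)) := by ring
  rw [e1]
  exact Gt.sub (hG l hl hpl) h3

/-- **An additive form over `C`**: the jets of `z - φ` along `u` are attained (NoC), the
`u`-derivatives of the effects are strict (NoG), `u` is not hit over `C`. -/
theorem af_of_noc (hk : Ctx0 k v) {u z a φ e a₀ : Ω} {A : ℕ → Ω} {N : ℕ} {d : Ω → Ω}
    (hu : TL v C u 0) (hz : TL v (cadj v C u) z 0) (hnh : ¬ Hit p v C u 0)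
    (hlp : LP p v (cadj v (cadj v C u) z) 0 a) (hN1 : 1 ≤ N) (he : e ∈ C)
    (hev : e ≠ 0 → v e = 0) (hA : ∀ i ∈ Icc 1 N, A i ∈ C)
    (hlo : ∀ i ∈ Icc 1 N, LP p v (cadj v C u) 0 (A i)) (htop : ¬ PG p v (cadj v C u) 0 (A N))
    (hφ : φ ∈ cadj v C u) (ha₀ : a₀ ∈ cadj v C u)
    (hrel : PG p v (cadj v (cadj v C u) z) 0
      (a - (e * (z - φ) + ∑ i ∈ Icc 1 N, A i * (z - φ) ^ p ^ i + a₀)))
    (hatt : Att v C (cadj v C u) u (z - φ) T D f) (hd : Drv v (cadj v C u) d)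
    (hd0 : ∀ b ∈ C, d b = 0) (hdu : d u = 1)
    (heff : ∀ c : k, Gt v 0 (d (e * ∑ j ∈ Icc 1 D, algebraMap k Ω c ^ j * f j +
      (T c a₀ - a₀)))) :
    ∃ g ∈ cadj v C u, ∃ (b₀ : Ω) (x : ℕ → Ω) (S : ℕ) (y' : ℕ → Ω),
      AF p v C (cadj v (cadj v C u) z) 0 a b₀ u 0 x S (z - g) 0 y' N ∧
      (∀ i ∈ Icc 1 N, y' i = A i) ∧ ¬ PG p v C 0 (y' N) ∧ ∀ i, N < i → y' i = 0 := by
  have hCF : C ≤ cadj v C u := le_cadj v C u
  have hFK : cadj v C u ≤ cadj v (cadj v C u) z := le_cadj _ _ _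
  have hzK : z - φ ∈ cadj v (cadj v C u) z := sub_mem (self_mem_cadj _ _ _) (hFK hφ)
  have hy : TL v (cadj v C u) (z - φ) 0 := hz.sub_mem hφ
  have heg : v.Ge 0 e := fun h => (hev h).ge
  have eK : cadj v (cadj v C u) (z - φ) = cadj v (cadj v C u) z := cadj_sub_mem hφ
  have ez : ∀ i : ℕ, (0 : ℝ) - p ^ i * 0 = 0 := fun i => by ring
  -- the data
  have hD : Dat p v (cadj v C u) (cadj v (cadj v C u) z) (z - φ) 0 0 a N e A a₀ := by
    refine ⟨hN1, hCF he, by rwa [sub_zero], fun i hi => hCF (hA i hi), fun i hi => ?_, ?_, ha₀,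
      fun ε hε => ?_, hrel⟩
    · rw [ez]
      exact hlo i hi
    · rw [ez]
      exact htop
    · set q : Polynomial Ω := frm2 p φ e A N a₀ with hq
      have hqF : q ∈ PI (cadj v C u) := frm2_mem hφ (hCF he) (fun i hi => hCF (hA i hi)) ha₀
      have hql : LP p v (cadj v (cadj v C u) z) 0 (q.eval z) := by
        rw [hq, frm2_eval]
        have h1 := hlp.sub (TWII.LP.of_pg hrel)
        rwa [sub_sub_cancel] at h1
      obtain ⟨G, hG, h1⟩ := LP.exists_poly hz hql hε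
      obtain ⟨δ, hδ, h2⟩ := TL.deep hz {q - G ^ p} fun g hg => by
        rw [mem_singleton.1 hg]
        exact sub_mem hqF (pow_mem hG p)
      refine ⟨δ, hδ, fun θ hθ hθz => ?_⟩
      have h3 := ((h2 (θ + φ) (by
        have e1 : z - (θ + φ) = z - φ - θ := by ring
        rw [e1]
        exact hθz) _ (mem_singleton_self _)).1 _).1 h1
      refine ⟨G.eval (θ + φ), eval_mem hG (add_mem hθ hφ), ?_⟩
      have e2 : (q - G ^ p).eval (θ + φ) = q.eval (θ + φ) - G.eval (θ + φ) ^ p :=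
        (eval_sub _ _ _).trans (congrArg _ (eval_pow p))
      rw [e2, hq, frm2_eval, add_sub_cancel_right] at h3
      exact h3
  obtain ⟨c₂, hc₂, e₂, he₂, B, hB, hBd, hBX, hee, he₂v, hD₂⟩ := hD.toX hu hy he
    (fun h => by rw [hev h, sub_zero]) hA
  have hy₂ : TL v (cadj v C u) (z - (φ + c₂)) 0 := hz.sub_mem (add_mem hφ hc₂)
  have e1 : z - φ - c₂ = z - (φ + c₂) := by ring
  rw [e1] at hD₂
  have hN := hD₂.nrm hu hy₂ hB he (fun h => by rw [hev h, sub_zero]) hA hBd hee he₂v hBX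
  obtain ⟨ψ, D', f', hjl, hf', hfψ, hG⟩ := exists_jl_eff (I := Unit) (dd := fun _ => d) hk le_rfl
    hu hz hatt hφ (fun _ => hd) (fun _ => hd0) he hA ha₀ hrel (fun c _ => heff c)
    (add_mem hφ hc₂) hN he hA hD₂.rel
  have hcls : ClsJ p v C u 0 0 e A N B ψ := clsJ_of_drv hu hN hjl hd hd0
    (fun b hb hlpb hdb => cls_of_not_hit hu hnh hd hd0 hdu hb hlpb hdb) hf' hfψ
    fun l hl _ => hG l hl ()
  have eK₂ : cadj v (cadj v C u) (z - (φ + c₂)) = cadj v (cadj v C u) z :=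
    cadj_sub_mem (add_mem hφ hc₂)
  obtain ⟨g, hg, b₀, x, S, y', haf, h1, h2, h3, -⟩ := hjl.af hu hy₂ hN hcls
    (e₂ := e₂) (by rw [hasseDeriv_one', hBd]) (b := a) (by rw [eK₂]; exact hD₂.rel)
  rw [eK₂] at haf
  refine ⟨φ + c₂ + g.eval u, add_mem (add_mem hφ hc₂) (TWLM.eval_mem_cadj hg), b₀, x, S, y', ?_,
    h1, ?_, h3⟩
  · rw [show z - (φ + c₂ + g.eval u) = z - (φ + c₂) - g.eval u by ring]
    exact haf
  · rwa [ez] at h2

omit hp [CharP Ω p] [IsAlgClosed Ω] [IsAlgClosed k] in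
/-- Two classes, as one sum. -/
theorem pp_sum (x x' z : Ω) (κ γ : ℕ → k) (t : ℕ) :
    x * PP p κ t z + x' * PP p γ t z = ∑ i ∈ Icc 1 (t + 1),
      (x * algebraMap k Ω (κ (i - 1)) + x' * algebraMap k Ω (γ (i - 1))) * z ^ p ^ i := by
  have e1 : Icc 1 (t + 1) = Ico 1 (t + 1 + 1) := by
    ext i
    simp only [mem_Icc, mem_Ico]
    omega
  rw [e1, sum_Ico_eq_sum_range, PP, PP, mul_sum, mul_sum, ← sum_add_distrib]
  refine sum_congr rfl fun i _ => ?_
  rw [add_comm 1 i, Nat.add_sub_cancel]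
  ring

/-- **The same, for a form with two classes.** -/
theorem af_of_noc₂ (hk : Ctx0 k v) {u z a a₀ x x' : Ω} {e : k} {κ γ : ℕ → k} {t : ℕ} {d : Ω → Ω}
    (hu : TL v C u 0) (hz : TL v (cadj v C u) z 0) (hnh : ¬ Hit p v C u 0)
    (hlp : LP p v (cadj v (cadj v C u) z) 0 a) (hx : x ∈ C) (hx' : x' ∈ C) (hlx : LP p v C 0 x)
    (hlx' : LP p v C 0 x')
    (htop : ¬ PG p v (cadj v C u) 0 (x * algebraMap k Ω (κ t) + x' * algebraMap k Ω (γ t)))
    (ha₀ : a₀ ∈ cadj v C u)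
    (hrel : PG p v (cadj v (cadj v C u) z) 0
      (a - (algebraMap k Ω e * z + x * PP p κ t z + x' * PP p γ t z + a₀)))
    (hatt : Att v C (cadj v C u) u z T D f) (hd : Drv v (cadj v C u) d)
    (hd0 : ∀ b ∈ C, d b = 0) (hdu : d u = 1)
    (heff : ∀ c : k, Gt v 0 (d (algebraMap k Ω e * ∑ j ∈ Icc 1 D, algebraMap k Ω c ^ j * f j +
      (T c a₀ - a₀)))) :
    ∃ g ∈ cadj v C u, ∃ (b₀ : Ω) (X : ℕ → Ω) (S : ℕ) (y' : ℕ → Ω),
      AF p v C (cadj v (cadj v C u) z) 0 a b₀ u 0 X S (z - g) 0 y' (t + 1) ∧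
      (∀ i ∈ Icc 1 (t + 1), y' i = x * algebraMap k Ω (κ (i - 1)) +
        x' * algebraMap k Ω (γ (i - 1))) ∧ ¬ PG p v C 0 (y' (t + 1)) ∧
      ∀ i, t + 1 < i → y' i = 0 := by
  have hCF : C ≤ cadj v C u := le_cadj v C u
  have hlk : ∀ {b : Ω}, LP p v C 0 b → ∀ c : k, LP p v C 0 (b * algebraMap k Ω c) := by
    intro b hb c
    obtain ⟨q, hq⟩ : ∃ q : k, q ^ p = c := IsAlgClosed.exists_pow_nat_eq _ hp.out.pos
    intro ε hε
    obtain ⟨g, hg, h1⟩ := hb ε hε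
    refine ⟨g * algebraMap k Ω q, mul_mem hg (C.algebraMap_mem q), ?_⟩
    rw [mul_pow, ← map_pow, hq, ← sub_mul]
    have h2 : v.Ge 0 (algebraMap k Ω c) := fun h0 => by
      have hc : c ≠ 0 := by
        rintro rfl
        exact h0 (map_zero _)
      exact (hk.triv c hc).ge
    exact (h1.mul h2).mono (by linarith)
  refine af_of_noc (φ := 0) (e := algebraMap k Ω e) (N := t + 1)
    (A := fun i => x * algebraMap k Ω (κ (i - 1)) + x' * algebraMap k Ω (γ (i - 1))) hk hu hz hnh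
    hlp (by omega) (C.algebraMap_mem e) (fun h0 => hk.triv e fun h => h0 (by rw [h, map_zero]))
    (fun i _ => add_mem (mul_mem hx (C.algebraMap_mem _)) (mul_mem hx' (C.algebraMap_mem _)))
    (fun i _ => TWRR.lp_mono_field hCF ((hlk hlx _).add (hlk hlx' _))) ?_ (zero_mem _) ha₀ ?_
    (by rw [sub_zero]; exact hatt) hd hd0 hdu heff
  · rw [Nat.add_sub_cancel]
    exact htop
  · rw [sub_zero, ← pp_sum]
    have e1 : algebraMap k Ω e * z + (x * PP p κ t z + x' * PP p γ t z) + a₀ =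
        algebraMap k Ω e * z + x * PP p κ t z + x' * PP p γ t z + a₀ := by ring
    rw [e1]
    exact hrel

end Pool.Agent.TWRW
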