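import Pool.Agent.Lib.TWCY.V0R
import Pool.Agent.Lib.TWCT.Exit
import Pool.Agent.Lib.TWN1.RadU
import Pool.Agent.Lib.TWFN.D

/-!
# RowB, the tie: the classes of the field `W⟨w⟩` of a floor which is not hit

* `class_one`: a critical element of `W⟨w⟩` is `e w + b` + null, `e ∈ k`, `b ∈ W`;
* `exists_classes`: finitely many critical elements are `κ x + γ (w + b)` + null;
* `rel_classes`: the same for the coefficients of the additive form.
-/

set_option autoImplicit false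

open Finset

namespace Pool.Agent.TWRW

open Pool.Agent.H15JM (RVal)
open Pool.Agent.LU1 (VPos)
open Pool.Agent.D2 (Ctx0)
open Pool.Agent.TWM
open Pool.Agent.TWII (PG LP)
open Pool.Agent.TWN1 (PC)
open Pool.Agent.TWCT (Hit)
open Pool.Agent.TWLY
open Pool.Agent.TWCY

universe u

variable {k Ω : Type u} [Field k] [Field Ω] [Algebra k Ω] {v : RVal Ω}
  {W F K : IntermediateField k Ω} {w x : Ω} {D : Ω → Ω} {p : ℕ} [hp : Fact p.Prime] [CharP Ω p]

omit [CharP Ω p] in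
/-- Multiplication of a critical element by a constant. -/
theorem lp_const [IsAlgClosed k] (hk : Ctx0 k v) {y : Ω} (h : LP p v F 0 y) (c : k) :
    LP p v F 0 (algebraMap k Ω c * y) := by
  obtain ⟨d, hd⟩ := IsAlgClosed.exists_pow_nat_eq c hp.out.pos
  have h1 : v.Ge 0 ((algebraMap k Ω d) ^ p) := by
    rw [← map_pow]
    exact hk.ge _
  have h2 := h.mul_pow (F.algebraMap_mem d) h1
  rwa [add_zero, ← map_pow, hd, mul_comm] at h2

omit [CharP Ω p] in
theorem pg_constL [IsAlgClosed k] (hk : Ctx0 k v) {y : Ω} (h : PG p v F 0 y) (c : k) :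
    PG p v F 0 (algebraMap k Ω c * y) := by
  rw [mul_comm]
  exact TWCT.pg_const hp.out.ne_zero hk c h

variable [IsAlgClosed Ω]

/-- **A critical element of `W⟨w⟩`.** -/
theorem class_one (hk : Ctx0 k v) (hw : TL v W w 0) (hnh : ¬ Hit p v W w 0) {c : Ω}
    (hc : c ∈ cadj v W w) (hlp : LP p v (cadj v W w) 0 c) :
    ∃ (e : k) (b : Ω), b ∈ W ∧ PG p v (cadj v W w) 0 (c - algebraMap k Ω e * w - b) := by
  obtain ⟨e', he', hev, b', hb', h1⟩ := TWN1.radu hw hc hlp (TWCT.unh_of_not_hit hw hc hlp hnh)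
  have h2 : v.Ge 0 e' := fun h => by rw [hev h, sub_zero]
  obtain ⟨e, he⟩ := hk.residue h2
  obtain ⟨μ, hμ, h3⟩ := VPos.ge_iff he
  obtain ⟨ψ, hψ, h4⟩ := hw.lim (μ / 2) (half_pos hμ)
  have hm : e' - algebraMap k Ω e ∈ W := sub_mem he' (W.algebraMap_mem e)
  refine ⟨e, b' + (e' - algebraMap k Ω e) * ψ, add_mem hb' (mul_mem hm hψ), ?_⟩
  have e1 : c - algebraMap k Ω e * w - (b' + (e' - algebraMap k Ω e) * ψ) =
      (c - e' * w - b') + (e' - algebraMap k Ω e) * (w - ψ) := by ring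
  rw [e1]
  refine h1.add (PG.of_gt (Gt.of_ge (h3.mul h4) ?_))
  linarith

/-- A critical element of `W⟨w⟩` which is in `W`. -/
theorem class_W (hw : TL v W w 0) (hB : BaseD p v W x D) {c : Ω}
    (hc : c ∈ W) (hlp : LP p v (cadj v W w) 0 c) :
    ∃ κ : k, PG p v W 0 (c - algebraMap k Ω κ * x) :=
  hB.cls c hc fun ε hε => PC.down hw hc (hlp ε hε)

/-- **The classes of finitely many critical elements.** -/
theorem exists_classes [IsAlgClosed k] (hk : Ctx0 k v) (hw : TL v W w 0)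
    (hnh : ¬ Hit p v W w 0) (hB : BaseD p v W x D) (S : Finset ℕ) {c : ℕ → Ω}
    (hc : ∀ j ∈ S, c j ∈ cadj v W w) (hlp : ∀ j ∈ S, LP p v (cadj v W w) 0 (c j)) :
    ∃ (b : Ω) (κ γ : ℕ → k), b ∈ W ∧
      (∀ j ∈ S, PG p v (cadj v W w) 0
        (c j - (algebraMap k Ω (κ j) * x + algebraMap k Ω (γ j) * (w + b)))) ∧
      ((∃ j ∈ S, γ j ≠ 0) → LP p v (cadj v W w) 0 (w + b)) := by
  classical
  have h1 : ∀ j, ∃ (e : k) (b : Ω), j ∈ S → b ∈ W ∧
      PG p v (cadj v W w) 0 (c j - algebraMap k Ω e * w - b) := by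
    intro j
    by_cases hj : j ∈ S
    · obtain ⟨e, b, hb, h2⟩ := class_one hk hw hnh (hc j hj) (hlp j hj)
      exact ⟨e, b, fun _ => ⟨hb, h2⟩⟩
    · exact ⟨0, 0, fun h => absurd h hj⟩
  choose e b hb using h1
  obtain ⟨β, hβ, h2⟩ : ∃ β ∈ W, (∃ j ∈ S, e j ≠ 0) → LP p v (cadj v W w) 0 (w + β) := by
    by_cases h : ∃ j ∈ S, e j ≠ 0
    · obtain ⟨j, hj, hej⟩ := h
      obtain ⟨hbj, h3⟩ := hb j hj
      refine ⟨algebraMap k Ω (e j)⁻¹ * b j, mul_mem (W.algebraMap_mem _) hbj, fun _ => ?_⟩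
      have h4 := lp_const hk ((hlp j hj).sub (LP.of_pg h3)) (e j)⁻¹
      have e1 : algebraMap k Ω (e j)⁻¹ * (c j - (c j - algebraMap k Ω (e j) * w - b j)) =
          w + algebraMap k Ω (e j)⁻¹ * b j := by
        have e2 : algebraMap k Ω (e j)⁻¹ * algebraMap k Ω (e j) = 1 := by
          rw [← map_mul, inv_mul_cancel₀ hej, map_one]
        linear_combination w * e2
      rwa [e1] at h4
    · exact ⟨0, zero_mem _, fun h' => absurd h' h⟩
  have h3 : ∀ j, ∃ κ : k, j ∈ S → PG p v (cadj v W w) 0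
      (c j - (algebraMap k Ω κ * x + algebraMap k Ω (e j) * (w + β))) := by
    intro j
    by_cases hj : j ∈ S
    · obtain ⟨hbj, h4⟩ := hb j hj
      have h5 : LP p v (cadj v W w) 0 (algebraMap k Ω (e j) * (w + β)) := by
        by_cases h0 : e j = 0
        · rw [h0, map_zero, zero_mul]
          exact LP.of_pg (PG.of_gt Gt.zero)
        · exact lp_const hk (h2 ⟨j, hj, h0⟩) (e j)
      have h6 : LP p v (cadj v W w) 0 (b j - algebraMap k Ω (e j) * β) := by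
        have h7 := ((hlp j hj).sub (LP.of_pg h4)).sub h5
        have e1 : c j - (c j - algebraMap k Ω (e j) * w - b j) - algebraMap k Ω (e j) * (w + β) =
            b j - algebraMap k Ω (e j) * β := by ring
        rwa [e1] at h7
      obtain ⟨κ, hκ⟩ := class_W hw hB
        (sub_mem hbj (mul_mem (W.algebraMap_mem _) hβ)) h6
      refine ⟨κ, fun _ => ?_⟩
      have e1 : c j - (algebraMap k Ω κ * x + algebraMap k Ω (e j) * (w + β)) =
          (c j - algebraMap k Ω (e j) * w - b j) +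
            (b j - algebraMap k Ω (e j) * β - algebraMap k Ω κ * x) := by ring
      rw [e1]
      exact h4.add (TWII.PG.of_le (le_cadj v W w) hκ)
    · exact ⟨0, fun h => absurd h hj⟩
  choose κ hκ using h3
  exact ⟨β, κ, e, hβ, hκ, h2⟩

omit [IsAlgClosed Ω] in
/-- Null coefficients are absorbed. -/
theorem rel_null {z a a₀ : Ω} {e : k} {c c' : ℕ → Ω} {t : ℕ} (hz : TL v F z 0)
    (hFK : F ≤ K) (hzK : z ∈ K) (ha₀ : a₀ ∈ F)
    (hcF : ∀ j ∈ range (t + 1), c j ∈ F) (hcF' : ∀ j ∈ range (t + 1), c' j ∈ F)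
    (hn : ∀ j ∈ range (t + 1), PG p v F 0 (c j - c' j))
    (hrel : PG p v K 0 (a - (algebraMap k Ω e * z + ∑ j ∈ range (t + 1), c j * z ^ p ^ (j + 1) +
      a₀))) :
    ∃ a₁ ∈ F, PG p v K 0 (a - (algebraMap k Ω e * z +
      ∑ j ∈ range (t + 1), c' j * z ^ p ^ (j + 1) + a₁)) := by
  classical
  have h1 : ∀ j, ∃ δ : ℝ, 0 < δ ∧ (j ∈ range (t + 1) → ∀ θ ∈ F, v.Ge (0 - δ) (z - θ) →
      PG p v K 0 ((c j - c' j) * (z - θ) ^ p ^ (j + 1))) := by
    intro j
    by_cases hj : j ∈ range (t + 1)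
    · obtain ⟨δ, hδ, h2⟩ := TWN1.null_term (K := K) (ν := 0) (r := 0)
        (sub_mem (hcF j hj) (hcF' j hj)) (Nat.succ_ne_zero j) (by
          rw [mul_zero, sub_zero]
          exact hn j hj) hFK hzK
      exact ⟨δ, hδ, fun _ => h2⟩
    · exact ⟨1, one_pos, fun h => absurd h hj⟩
  choose δ hδ h2 using h1
  obtain ⟨δ', hδ', h3⟩ : ∃ δ' : ℝ, 0 < δ' ∧ ∀ j ∈ range (t + 1), δ' ≤ δ j :=
    ⟨(range (t + 1)).inf' ⟨0, mem_range.2 (Nat.succ_pos t)⟩ δ,
      (Finset.lt_inf'_iff _).2 fun j _ => hδ j, fun j hj => Finset.inf'_le _ hj⟩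
  obtain ⟨θ, hθ, h4⟩ := hz.lim δ' hδ'
  refine ⟨a₀ + ∑ j ∈ range (t + 1), (c j - c' j) * θ ^ p ^ (j + 1), add_mem ha₀
    (sum_mem fun j hj => mul_mem (sub_mem (hcF j hj) (hcF' j hj)) (pow_mem hθ _)), ?_⟩
  have e1 : a - (algebraMap k Ω e * z + ∑ j ∈ range (t + 1), c' j * z ^ p ^ (j + 1) +
      (a₀ + ∑ j ∈ range (t + 1), (c j - c' j) * θ ^ p ^ (j + 1))) =
      (a - (algebraMap k Ω e * z + ∑ j ∈ range (t + 1), c j * z ^ p ^ (j + 1) + a₀)) +
        ∑ j ∈ range (t + 1), (c j - c' j) * (z - θ) ^ p ^ (j + 1) := by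
    have e2 : ∑ j ∈ range (t + 1), (c j - c' j) * (z - θ) ^ p ^ (j + 1) =
        ∑ j ∈ range (t + 1), c j * z ^ p ^ (j + 1) - ∑ j ∈ range (t + 1), c' j * z ^ p ^ (j + 1) -
          ∑ j ∈ range (t + 1), (c j - c' j) * θ ^ p ^ (j + 1) := by
      rw [← sum_sub_distrib, ← sum_sub_distrib]
      refine sum_congr rfl fun j _ => ?_
      rw [sub_pow_char_pow]
      ring
    rw [e2]
    ring
  rw [e1]
  exact hrel.add (PG.sum _ _ fun j hj => h2 j hj θ hθ (h4.mono (by linarith [h3 j hj])))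

/-- **The additive form with critical coefficients in `W⟨w⟩`**, by the classes. -/
theorem rel_classes [IsAlgClosed k] (hk : Ctx0 k v) (hw : TL v W w 0)
    (hnh : ¬ Hit p v W w 0) (hB : BaseD p v W x D) (hWF : cadj v W w ≤ F) {z a a₀ : Ω} {e : k}
    {c : ℕ → Ω} {t : ℕ} (hz : TL v F z 0) (hK : K = cadj v F z) (ha₀ : a₀ ∈ F) (hxW : x ∈ W)
    (hc : ∀ j ∈ range (t + 1), c j ∈ cadj v W w)
    (hlp : ∀ j ∈ range (t + 1), LP p v (cadj v W w) 0 (c j))
    (hrel : PG p v K 0 (a - (algebraMap k Ω e * z + ∑ j ∈ range (t + 1), c j * z ^ p ^ (j + 1) +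
      a₀))) :
    ∃ (b : Ω) (κ γ : ℕ → k) (a₁ : Ω), b ∈ W ∧ a₁ ∈ F ∧
      ((∃ j ∈ range (t + 1), γ j ≠ 0) → LP p v (cadj v W w) 0 (w + b)) ∧
      (∀ j ∈ range (t + 1), PG p v (cadj v W w) 0
        (c j - (algebraMap k Ω (κ j) * x + algebraMap k Ω (γ j) * (w + b)))) ∧
      PG p v K 0 (a - (algebraMap k Ω e * z + x * PP p κ t z + (w + b) * PP p γ t z + a₁)) := by
  classical
  obtain ⟨b, κ, γ, hb, h1, h2⟩ := exists_classes hk hw hnh hB (range (t + 1)) hc hlp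
  have hWB : W ≤ F := (le_cadj v W w).trans hWF
  have hwF : w ∈ F := hWF (self_mem_cadj v W w)
  obtain ⟨a₁, ha₁, h3⟩ := rel_null (K := K) (c' := fun j => algebraMap k Ω (κ j) * x +
    algebraMap k Ω (γ j) * (w + b)) hz (by rw [hK]; exact le_cadj v F z)
    (by rw [hK]; exact self_mem_cadj v F z) ha₀ (fun j hj => hWF (hc j hj))
    (fun j _ => add_mem (mul_mem (F.algebraMap_mem _) (hWB hxW))
      (mul_mem (F.algebraMap_mem _) (add_mem hwF (hWB hb))))
    (fun j hj => TWII.PG.of_le hWF (h1 j hj)) hrel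
  refine ⟨b, κ, γ, a₁, hb, ha₁, h2, h1, ?_⟩
  have e1 : ∑ j ∈ range (t + 1), (algebraMap k Ω (κ j) * x +
      algebraMap k Ω (γ j) * (w + b)) * z ^ p ^ (j + 1) =
      x * PP p κ t z + (w + b) * PP p γ t z := by
    unfold PP
    rw [mul_sum, mul_sum, ← sum_add_distrib]
    exact sum_congr rfl fun j _ => by ring
  rw [e1] at h3
  have e2 : algebraMap k Ω e * z + x * PP p κ t z + (w + b) * PP p γ t z + a₁ =
      algebraMap k Ω e * z + (x * PP p κ t z + (w + b) * PP p γ t z) + a₁ := by ring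
  rw [e2]
  exact h3

end Pool.Agent.TWRW
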