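import Pool.Agent.Lib.TWRB.Skel
import Pool.Agent.Lib.TWRB.ParD
import Pool.Agent.Lib.TWRW.C3
import Pool.Agent.Lib.TWRW.Cl
import Pool.Agent.Lib.TWCY.TieT
import Pool.Agent.Lib.TWN1.GabD
import Pool.Agent.Lib.TWRW.Third
import Pool.Agent.Lib.TWRW.AfE

/-!
# RowB, the tie: the three cases in the real field

* `af_top`, `af_bad`: additive forms over `B`, in the big field;
* `row_bad`: the tie in all the big fields, or an additive form of `al ^ p` over `C`, or an additive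
  form over `C` of a jet of `al ^ p`.
-/

set_option autoImplicit false

open Finset Polynomial

namespace Pool.Agent.TWRW

open Pool.Agent.H15JM (RVal)
open Pool.Agent.LU1 (VPos)
open Pool.Agent.D2 (Ctx0)
open Pool.Agent.D2P (clI)
open Pool.Agent.TWM
open Pool.Agent.TWS (IsoE SphC PM VG PM.le PM.mono)
open Pool.Agent.TWII (PG LP)
open Pool.Agent.TWN1 (PC Par AF Col)
open Pool.Agent.TWNI (FinE)
open Pool.Agent.TWRR (OC OCol Att)
open Pool.Agent.TWCT (HsY Hit J1D tH GsM)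
open Pool.Agent.TWLY
open Pool.Agent.TWCY
open Pool.Agent.TWRB

universe u

/-! ### The rows -/

section rows

variable {k Ω : Type u} [Field k] [Field Ω] [Algebra k Ω]

/-- `RowTopB`, with the derivation along `w 1`. -/
def RowTopB1 (p : ℕ) (v : RVal Ω) : Prop := ∀ (L : ℕ → IntermediateField k Ω)
  (W B F K : IntermediateField k Ω) (w : Fin 2 → Ω) (x z a : Ω) (D : Ω → Ω) (U₀ : Polynomial Ω)
  (e₀ : k) (κ₀ : ℕ → k) (t₀ : ℕ) (a₀ : Ω), HB p v L W B F K w x z a → BaseD p v W x D →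
  ShU v W w U₀ → TieF p v F K x z a e₀ κ₀ t₀ a₀ →
  ∃ (φ : Ω) (e : k) (κ : ℕ → k) (t : ℕ) (a₁ : Ω) (T : k → Ω →ₐ[k] Ω) (n : ℕ) (f : ℕ → Ω)
    (dd : Fin 2 → Ω → Ω), OutE p v B F K (w 1) x z a φ e κ t a₁ T n f dd ∧
    (∀ b ∈ B, dd 1 b = 0) ∧ dd 1 (w 1) = 1

/-- The relation with two classes. -/
def Rel2 (p : ℕ) (v : RVal Ω) (K : IntermediateField k Ω) (w₀ x z a : Ω) (e : k) (κ γ : ℕ → k)
    (t : ℕ) (a₀ b : Ω) : Prop :=
  PG p v K 0 (a - (algebraMap k Ω e * z + x * PP p κ t z + (w₀ + b) * PP p γ t z + a₀))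

/-- **The jets along `w 1` in the bad case.** -/
def RowAttBad (p : ℕ) (v : RVal Ω) : Prop := ∀ (L : ℕ → IntermediateField k Ω)
  (W B F K : IntermediateField k Ω) (w : Fin 2 → Ω) (x z a : Ω) (D : Ω → Ω) (U₀ : Polynomial Ω)
  (e : k) (κ γ : ℕ → k) (t : ℕ) (a₀ b : Ω), HB p v L W B F K w x z a → BaseD p v W x D →
  ShU v W w U₀ → b ∈ W → LP p v B 0 (w 0 + b) → a₀ ∈ F → Rel2 p v K (w 0) x z a e κ γ t a₀ b →
  (∃ j ∈ range (t + 1), γ j ≠ 0) →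
  ∃ (T : k → Ω →ₐ[k] Ω) (n : ℕ) (f : ℕ → Ω) (d : Ω → Ω), Att v B F (w 1) z T n f ∧ Drv v F d ∧
    (∀ b ∈ B, d b = 0) ∧ d (w 1) = 1 ∧ ∀ c : k, VPos v (d (algebraMap k Ω e *
      ∑ j ∈ Icc 1 n, algebraMap k Ω c ^ j * f j + (T c a₀ - a₀)))

/-- **The trichotomy.** -/
def RowTri (p : ℕ) (v : RVal Ω) : Prop := ∀ (L : ℕ → IntermediateField k Ω)
  (W B F K : IntermediateField k Ω) (w : Fin 2 → Ω) (x z a : Ω) (D : Ω → Ω),
  HB p v L W B F K w x z a → BaseD p v W x D →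
  (∃ (e : k) (κ : ℕ → k) (t : ℕ) (a₀ : Ω), TieF p v F K x z a e κ t a₀) ∨
  (∃ (e : k) (κ γ : ℕ → k) (t : ℕ) (a₀ b : Ω), b ∈ W ∧ LP p v B 0 (w 0 + b) ∧ a₀ ∈ F ∧
    Rel2 p v K (w 0) x z a e κ γ t a₀ b ∧ ∃ j ∈ range (t + 1), γ j ≠ 0) ∨
  ∃ (i : ℕ) (c : k), i ≠ 0 ∧ c ≠ 0 ∧
    (∀ y ∈ B, LP p v B 0 y → ∃ c' : k, PG p v B 0 (y - algebraMap k Ω c' * x)) ∧
    ∀ f ∈ PI F, v.Ge 1 (a - f.eval z) → ∃ (κ : ℕ → k) (t : ℕ) (a₀ : Ω),
      HB p v L W B F K w x z (algebraMap k Ω c * (hasseDeriv (p ^ i) f).eval z) ∧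
      TieF p v F K x z (algebraMap k Ω c * (hasseDeriv (p ^ i) f).eval z) 0 κ t a₀

end rows

/-! ### The big field -/

section big

variable {k Ω : Type u} [Field k] [Field Ω] [Algebra k Ω] {v : RVal Ω}
  {L : ℕ → IntermediateField k Ω} {W B F K : IntermediateField k Ω} {w : Fin 2 → Ω}
  {x z a : Ω} {D : Ω → Ω} {U₀ : Polynomial Ω} {p : ℕ} [hp : Fact p.Prime] [CharP Ω p]

omit hp [CharP Ω p] in
theorem PP_trim {κ : ℕ → k} {t t' : ℕ} (ht : t' ≤ t) (h : ∀ j, t' < j → j ≤ t → κ j = 0) (y : Ω) :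
    PP p κ t y = PP p κ t' y := by
  unfold PP
  symm
  refine sum_subset (range_subset_range.2 (by omega)) fun j hj hj2 => ?_
  rw [mem_range] at hj hj2
  rw [h j (by omega) (by omega), map_zero, zero_mul]

omit hp [CharP Ω p] in
/-- The last index of a property. -/
theorem exists_last {P : ℕ → Prop} {t : ℕ} (h : ∃ j ≤ t, P j) :
    ∃ t' ≤ t, P t' ∧ ∀ j, t' < j → j ≤ t → ¬ P j := by
  classical
  obtain ⟨j, hj, hPj⟩ := h
  have hne : ((range (t + 1)).filter P).Nonempty :=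
    ⟨j, mem_filter.2 ⟨mem_range.2 (by omega), hPj⟩⟩
  refine ⟨((range (t + 1)).filter P).max' hne, ?_, ?_, fun i hi hit hPi => ?_⟩
  · have := mem_range.1 (mem_filter.1 (max'_mem _ hne)).1
    omega
  · exact (mem_filter.1 (max'_mem _ hne)).2
  · have := le_max' ((range (t + 1)).filter P) i (mem_filter.2 ⟨mem_range.2 (by omega), hPi⟩)
    omega

section

variable [IsAlgClosed Ω] [IsAlgClosed k]

/-- The class of `x` is not null over `B`. -/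
theorem not_pg_x (h : HB p v L W B F K w x z a) (hD : BaseD p v W x D) {c : k} (hc : c ≠ 0) :
    ¬ PG p v B 0 (x * algebraMap k Ω c) := by
  intro h1
  rw [h.B_eq] at h1
  have h2 := TWII.PG.down h.tw (mul_mem h.xW (W.algebraMap_mem c)) h1
  have h3 := pg_constL h.c0 h2 c⁻¹
  have e1 : algebraMap k Ω c⁻¹ * (x * algebraMap k Ω c) = x := by
    have e2 : algebraMap k Ω c⁻¹ * algebraMap k Ω c = 1 := by
      rw [← map_mul, inv_mul_cancel₀ hc, map_one]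
    linear_combination x * e2
  rw [e1] at h3
  exact base_not_pg h.xW hD h3

/-- Two classes are not null over `B`. -/
theorem not_pg_two (h : HB p v L W B F K w x z a) (hD : BaseD p v W x D) {b : Ω} (hb : b ∈ W)
    {c c' : k} (hc : c ≠ 0 ∨ c' ≠ 0) :
    ¬ PG p v B 0 (x * algebraMap k Ω c + (w 0 + b) * algebraMap k Ω c') := by
  intro h1
  by_cases h0 : c' = 0
  · rw [h0, map_zero, mul_zero, add_zero] at h1
    exact not_pg_x h hD (hc.resolve_right (not_not.2 h0)) h1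
  · obtain ⟨f, hf⟩ : ∃ f : Polynomial Ω, f = Polynomial.C (x * algebraMap k Ω c +
      b * algebraMap k Ω c') + Polynomial.C (algebraMap k Ω c') * Polynomial.X := ⟨_, rfl⟩
    have hfW : f ∈ PI W := by
      rw [hf]
      exact add_mem (C_mem_PI (add_mem (mul_mem h.xW (W.algebraMap_mem c))
        (mul_mem hb (W.algebraMap_mem c')))) (mul_mem (C_mem_PI (W.algebraMap_mem c')) X_mem_PI)
    have hfe : f.eval (w 0) = x * algebraMap k Ω c + (w 0 + b) * algebraMap k Ω c' := by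
      rw [hf, eval_add, eval_mul, eval_C, eval_C, eval_X]
      ring
    rw [← hfe, h.B_eq] at h1
    have h2 : ¬ p ∣ 1 := hp.out.one_lt.not_ge ∘ Nat.le_of_dvd one_pos
    have h3 := TWN1.PC.jet_gt h.tw hfW h1.pc h2
    have e1 : (hasseDeriv 1 f).eval (w 0) = algebraMap k Ω c' := by
      rw [hasseDeriv_one', hf, derivative_add, derivative_C, derivative_mul, derivative_C,
        derivative_X, zero_mul, zero_add, zero_add, mul_one, eval_C]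
    rw [e1, Nat.cast_one, mul_zero, sub_zero] at h3
    have h4 : algebraMap k Ω c' ≠ 0 := (_root_.map_ne_zero _).2 h0
    have h5 := h3 h4
    rw [h.c0.triv c' h0] at h5
    exact lt_irrefl _ h5

/-- **The additive form over `B`**, from the tie. -/
theorem af_top (hTop : RowTopB1 (k := k) p v) (h : HB p v L W B F K w x z a)
    (hD : BaseD p v W x D) (hU : ShU v W w U₀) {e₀ : k} {κ₀ : ℕ → k} {t₀ : ℕ} {a₀ : Ω}
    (hT : TieF p v F K x z a e₀ κ₀ t₀ a₀) :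
    ∃ g ∈ F, ∃ (b₀ : Ω) (X : ℕ → Ω) (S : ℕ) (Y : ℕ → Ω) (T : ℕ),
      AF p v B K 0 a b₀ (w 1) 0 X S (z - g) 0 Y T ∧ T ≠ 0 ∧ ¬ PG p v B 0 (Y T) := by
  obtain ⟨φ, e, κ, t, a₁, T, n, f, dd, hO, hB0, hw1⟩ :=
    hTop L W B F K w x z a D U₀ e₀ κ₀ t₀ a₀ h hD hU hT
  have eF := h.F_eq
  have eK := h.K_eq
  have hWB : W ≤ B := by
    rw [h.B_eq]
    exact le_cadj _ _ _
  have hBF : B ≤ F := by
    rw [eF]
    exact le_cadj _ _ _
  have hlx : LP p v F 0 x := TWN1.LP.of_le' (hWB.trans hBF) hD.lp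
  have e1 := pp_sum (p := p) x 0 (z - φ) κ (0 : ℕ → k) t
  simp only [zero_mul, add_zero] at e1
  have hrel := hO.rel
  rw [e1] at hrel
  have hatt := hO.att
  have hdr := hO.drv 1
  have heff := fun c => hO.eff c 1
  have hφ := hO.φF
  have ha₁ := hO.aF
  have hxF : x ∈ B := hWB h.xW
  have hz := h.zt
  have hlp := h.lp
  subst eF
  subst eK
  obtain ⟨g, hg, b₀, X, S, y', h1, h2, h3, h4⟩ := af_of_noc (A := fun i => x * algebraMap k Ω (κ (i - 1)))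
    (N := t + 1) h.c0 h.tu hz h.nh hlp (by omega) (B.algebraMap_mem e) (fun he => by
      exact h.c0.triv e fun h0 => he (by rw [h0, map_zero]))
    (fun i _ => mul_mem hxF (B.algebraMap_mem _)) (fun i _ => by
      rw [mul_comm]
      exact lp_const h.c0 hlx _) (fun hn => by
      have h5 : PG p v (cadj v B (w 1)) 0 (x * algebraMap k Ω (κ t)) := by
        simpa using hn
      exact not_pg_x h hD hO.kap (TWII.PG.down h.tu (mul_mem hxF (B.algebraMap_mem _)) h5))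
    hφ ha₁ hrel hatt hdr hB0 hw1 heff
  exact ⟨g, hg, b₀, X, S, y', t + 1, h1, by omega, h3⟩

/-- **The additive form over `B`**, in the bad case. -/
theorem af_bad (hAtt : RowAttBad (k := k) p v) (h : HB p v L W B F K w x z a)
    (hD : BaseD p v W x D) (hU : ShU v W w U₀) {e : k} {κ γ : ℕ → k} {t : ℕ} {a₀ b : Ω}
    (hb : b ∈ W) (hlw : LP p v B 0 (w 0 + b)) (ha₀ : a₀ ∈ F)
    (hrel : Rel2 p v K (w 0) x z a e κ γ t a₀ b) (hγ : ∃ j ∈ range (t + 1), γ j ≠ 0) :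
    ∃ g ∈ F, ∃ (b₀ : Ω) (X : ℕ → Ω) (S : ℕ) (Y : ℕ → Ω) (T : ℕ),
      AF p v B K 0 a b₀ (w 1) 0 X S (z - g) 0 Y T ∧ T ≠ 0 ∧ ¬ PG p v B 0 (Y T) := by
  obtain ⟨j, hj, hγj⟩ := hγ
  have hjt : j ≤ t := by
    have := mem_range.1 hj
    omega
  obtain ⟨t', ht', hP, hlast⟩ := exists_last (P := fun j => κ j ≠ 0 ∨ γ j ≠ 0)
    ⟨j, hjt, Or.inr hγj⟩
  have hk0 : ∀ i, t' < i → i ≤ t → κ i = 0 := fun i h1 h2 => by
    by_contra h3
    exact hlast i h1 h2 (Or.inl h3)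
  have hg0 : ∀ i, t' < i → i ≤ t → γ i = 0 := fun i h1 h2 => by
    by_contra h3
    exact hlast i h1 h2 (Or.inr h3)
  have hjt' : j ≤ t' := by
    by_contra h1
    exact hγj (hg0 j (by omega) hjt)
  have hrel' : Rel2 p v K (w 0) x z a e κ γ t' a₀ b := by
    unfold Rel2 at hrel ⊢
    rwa [PP_trim ht' hk0, PP_trim ht' hg0] at hrel
  obtain ⟨T, n, f, d, hatt, hd, hd0, hdu, heff⟩ := hAtt L W B F K w x z a D U₀ e κ γ t' a₀ b h hD hU
    hb hlw ha₀ hrel' ⟨j, mem_range.2 (by omega), hγj⟩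
  have eF := h.F_eq
  have eK := h.K_eq
  have hWB : W ≤ B := by
    rw [h.B_eq]
    exact le_cadj _ _ _
  have hlx : LP p v B 0 x := TWN1.LP.of_le' hWB hD.lp
  have hxB : x ∈ B := hWB h.xW
  have hw0 : w 0 ∈ B := by
    rw [h.B_eq]
    exact self_mem_cadj _ _ _
  have hwB : w 0 + b ∈ B := add_mem hw0 (hWB hb)
  have hz := h.zt
  have hlp := h.lp
  have htu := h.tu
  have hnp : ¬ PG p v F 0 (x * algebraMap k Ω (κ t') + (w 0 + b) * algebraMap k Ω (γ t')) := by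
    intro h1
    rw [eF] at h1
    exact not_pg_two h hD hb hP (TWII.PG.down htu (add_mem (mul_mem hxB (B.algebraMap_mem _))
      (mul_mem hwB (B.algebraMap_mem _))) h1)
  subst eF
  subst eK
  obtain ⟨g, hg, b₀, X, S, y', h1, h2, h3, h4⟩ := af_of_noc₂ h.c0 htu hz h.nh hlp hxB hwB hlx hlw
    hnp ha₀ hrel' hatt hd hd0 hdu heff
  exact ⟨g, hg, b₀, X, S, y', t' + 1, h1, by omega, h3⟩

end

end big

/-! ### The real field -/

section scale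

variable {k Ω : Type u} [Field k] [Field Ω] [Algebra k Ω]

/-- The jets of `f(d X)`. -/
theorem hasse_scale (f : Polynomial Ω) {d : Ω} (hd : d ≠ 0) (y : Ω) (n : ℕ) :
    (hasseDeriv n (f.comp (Polynomial.C d * Polynomial.X))).eval (y / d) =
      d ^ n * (hasseDeriv n f).eval y := by
  rw [← taylor_coeff, ← taylor_coeff]
  have e1 : taylor (y / d) (f.comp (Polynomial.C d * Polynomial.X)) =
      (taylor y f).comp (Polynomial.C d * Polynomial.X) := by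
    rw [taylor_apply, taylor_apply, comp_assoc, comp_assoc]
    congr 1
    rw [mul_comp, C_comp, X_comp, add_comp, X_comp, C_comp, mul_add, ← C_mul,
      mul_div_cancel₀ _ hd]
  rw [e1, comp_C_mul_X_coeff, mul_comm]

theorem comp_scale_mem {F : IntermediateField k Ω} {f : Polynomial Ω} (hf : f ∈ PI F) {d : Ω}
    (hd : d ∈ F) : f.comp (Polynomial.C d * Polynomial.X) ∈ PI F := fun n => by
  rw [comp_C_mul_X_coeff]
  exact mul_mem (hf n) (pow_mem hd n)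

end scale

section real

variable {k Ω₀ Ω : Type u} [Field k] [Field Ω₀] [Algebra k Ω₀] [Field Ω] [Algebra k Ω]

/-- Additive forms come down to the real fields. -/
def RowDown (p : ℕ) (v₀ : RVal Ω₀) (v : RVal Ω) (ι : Ω₀ →ₐ[k] Ω) (x₀ : Ω₀)
    (W₀ K₀ : IntermediateField k Ω₀) (al : Ω₀) (ν : ℝ) (C F : IntermediateField k Ω₀)
    (y u z : Ω₀) (r t s : ℝ) : Prop :=
  ∀ (G : AddSubgroup ℝ) (M : ℝ → Ω) (L : ℕ → IntermediateField k Ω) (X₀ c₁ c₂ d m cx : Ω)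
    (D : Ω → Ω), GLB p v₀ v ι x₀ W₀ K₀ al ν C F y u z r t s G M L X₀ c₁ c₂ d m cx D →
  ∀ φ₀ ∈ F, Par v₀ C (clI v₀ K₀) u t (z - φ₀) s → ∀ (lam : ℝ) (b : Ω₀) (m' : Ω),
  b ∈ clI v₀ K₀ → m' ∈ TWRA.Mn p (ι x₀) ((clI v₀ W₀).map ι) G M → p * v m' = lam →
  ∀ (g b₁ : Ω) (X : ℕ → Ω) (S : ℕ) (Y : ℕ → Ω) (T : ℕ), g ∈ PM v (tH p v₀ ι x₀ F) G M →
  AF p v (PM v (tH p v₀ ι x₀ C) G M) (PM v (tH p v₀ ι x₀ (clI v₀ K₀)) G M) 0 (ι b / m' ^ p) b₁
    (ι u / c₂) 0 X S (ι z / d - g) 0 Y T → T ≠ 0 → ¬ PG p v (PM v (tH p v₀ ι x₀ C) G M) 0 (Y T) →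
  ∃ (b₀ : Ω₀) (x : ℕ → Ω₀) (S' : ℕ) (y' : ℕ → Ω₀) (T' : ℕ),
    AF p v₀ C (clI v₀ K₀) lam b b₀ u t x S' (z - φ₀) s y' T' ∧ T' ≠ 0 ∧
    ¬ PG p v₀ C (lam - p ^ T' * s) (y' T')

variable {p : ℕ} {v₀ : RVal Ω₀} {v : RVal Ω} {ι : Ω₀ →ₐ[k] Ω} [hp : Fact p.Prime] [CharP Ω₀ p]
  [CharP Ω p] [CharP k p] [IsAlgClosed k] [IsAlgClosed Ω₀] [IsAlgClosed Ω] {x₀ : Ω₀}
  {W₀ K₀ : IntermediateField k Ω₀} {al : Ω₀} {ν : ℝ} {C F : IntermediateField k Ω₀}
  {y u z : Ω₀} {r t s : ℝ} {G : AddSubgroup ℝ} {M : ℝ → Ω} {L : ℕ → IntermediateField k Ω}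
  {X₀ c₁ c₂ d m cx : Ω} {D : Ω → Ω}

/-- **The real pair.** -/
theorem par_of_big (h : RFl p v₀ v ι x₀ W₀ K₀ al ν C F y u z r t s)
    (hG : GLB p v₀ v ι x₀ W₀ K₀ al ν C F y u z r t s G M L X₀ c₁ c₂ d m cx D) {g : Ω}
    (hg : g ∈ PM v (tH p v₀ ι x₀ F) G M)
    (hl : Lim v (PM v (tH p v₀ ι x₀ C) G M) 0 (ι z / d - g)) :
    ∃ φ₀ ∈ F, Par v₀ C (clI v₀ K₀) u t (z - φ₀) s := by
  obtain ⟨π, hgr⟩ := hG.grF
  have hzK : z ∈ clI v₀ K₀ := by
    rw [h.K_eq]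
    exact self_mem_cadj _ _ _
  obtain ⟨φ₀, hφ₀, h1⟩ := h.lim_down hG.ms hG.dj (hgr.sub _ hG.dS) (hgr.ne _ hG.dS) hzK hg
    (c := s) (by rwa [hG.dv, sub_self])
  refine ⟨φ₀, hφ₀, Par.mk' h.tu ?_ h1 ?_⟩
  · rw [← h.F_eq]
    exact h.tz.sub_mem hφ₀
  · rw [← h.F_eq, cadj_sub_mem hφ₀]
    exact h.K_eq

/-- **The tie in all the big fields.** -/
theorem tie_all (hTop : RowTopB (k := k) p v) (hTop1 : RowTopB1 (k := k) p v)
    (hAtt : RowAttBad (k := k) p v) (hTri : RowTri (k := k) p v)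
    (hA : TWCT.RowA p v₀ v ι x₀ W₀ K₀ al)
    (h : RFl p v₀ v ι x₀ W₀ K₀ al ν C F y u z r t s)
    (hDown : RowDown p v₀ v ι x₀ W₀ K₀ al ν C F y u z r t s) {Θ : ℕ → Ω₀ → Ω₀}
    (hΘ : HsY v₀ (clI v₀ W₀) y r Θ) (hfin : FinE v₀ (cadj v₀ (clI v₀ W₀) y) r t Θ u)
    (hG : GLB p v₀ v ι x₀ W₀ K₀ al ν C F y u z r t s G M L X₀ c₁ c₂ d m cx D) :
    ∃ (e : k) (κ : ℕ → k) (n : ℕ) (a₀ : Ω), TieF p v (PM v (tH p v₀ ι x₀ F) G M)
      (PM v (tH p v₀ ι x₀ (clI v₀ K₀)) G M) (X₀ / cx ^ p) (ι z / d) (ι (al ^ p) / m ^ p) e κ n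
      a₀ := by
  obtain ⟨U, hU⟩ := hG.exists_shU h hΘ hfin
  obtain ⟨π, hgr⟩ := hG.grF
  have halK : al ^ p ∈ clI v₀ K₀ := le_clI _ h.j.mem
  have hd0 : d ≠ 0 := hgr.ne _ hG.dS
  have hm0 : m ≠ 0 := hgr.ne _ hG.mS
  rcases hTri _ _ _ _ _ _ _ _ _ D hG.hb hG.base with h1 | h2 | h3
  · exact h1
  · exfalso
    obtain ⟨e, κ, γ, n, a₀, b, hb, hlw, ha₀, hrel, hγ⟩ := h2
    obtain ⟨g, hg, b₁, X, S, Y, T, haf, hT, hY⟩ := af_bad hAtt hG.hb hG.base hU hb hlw ha₀ hrel hγ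
    obtain ⟨φ₀, hφ₀, hpar⟩ := par_of_big h hG hg haf.par.t2.lim
    obtain ⟨b₀, x', S', y', T', haf', -, -⟩ := hDown G M L X₀ c₁ c₂ d m cx D hG φ₀ hφ₀ hpar ν
      (al ^ p) m halK hG.mS hG.mv g b₁ X S Y T hg haf hT hY
    exact h.false_of_pair hTop hA haf'
  · exfalso
    obtain ⟨i, c, hi, hc, hcls, hjet⟩ := h3
    have halz := halK
    rw [h.K_eq] at halz
    obtain ⟨f₀, hf₀, hff⟩ := h.tz.dense halz (ν + 1)
    have hιF : ∀ {a : Ω₀}, a ∈ F → ι a ∈ PM v (tH p v₀ ι x₀ F) G M := fun {a} ha =>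
      hgr.FF' ⟨a, ha, rfl⟩
    have hf1 : (f₀.map ι.toRingHom) ∈ PI (PM v (tH p v₀ ι x₀ F) G M) := fun n => by
      rw [coeff_map]
      exact hιF (hf₀ n)
    have hdF : d ∈ PM v (tH p v₀ ι x₀ F) G M := hgr.WF' (hgr.sub _ hG.dS)
    have hmF : m ∈ PM v (tH p v₀ ι x₀ F) G M := hgr.WF' (hgr.sub _ hG.mS)
    obtain ⟨f, hf⟩ : ∃ f : Polynomial Ω, f = Polynomial.C ((m ^ p)⁻¹) *
        (f₀.map ι.toRingHom).comp (Polynomial.C d * Polynomial.X) := ⟨_, rfl⟩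
    have hfm : f ∈ PI (PM v (tH p v₀ ι x₀ F) G M) := by
      rw [hf]
      exact mul_mem (C_mem_PI (inv_mem (pow_mem hmF p))) (comp_scale_mem hf1 hdF)
    have hfj : ∀ n : ℕ, (hasseDeriv n f).eval (ι z / d) =
        d ^ n * ι ((hasseDeriv n f₀).eval z) / m ^ p := by
      intro n
      have e1 : hasseDeriv n f = Polynomial.C ((m ^ p)⁻¹) *
          hasseDeriv n ((f₀.map ι.toRingHom).comp (Polynomial.C d * Polynomial.X)) := by
        rw [hf, TWN1.hasse_C_mul]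
      rw [e1, eval_mul, eval_C, hasse_scale _ hd0, TWRR.hasse_map, TWCT.eval_map_ι]
      ring
    have hf00 : f.eval (ι z / d) = ι (f₀.eval z) / m ^ p := by
      have e1 := hfj 0
      rwa [hasseDeriv_zero', hasseDeriv_zero', pow_zero, one_mul] at e1
    have hge : v.Ge 1 (ι (al ^ p) / m ^ p - f.eval (ι z / d)) := by
      rw [hf00, ← sub_div, ← map_sub]
      have h1 := (h.j.iso.ge_iff.2 hff).mul (RVal.ge_self (v := v) (m ^ p)⁻¹)
      rw [v.map_inv (pow_ne_zero p hm0), v.map_pow hm0, hG.mv] at h1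
      rw [div_eq_mul_inv]
      exact h1.mono (by linarith)
    obtain ⟨κ, n, a₀, hHB, hT⟩ := hjet f hfm hge
    obtain ⟨c', hc'⟩ := IsAlgClosed.exists_pow_nat_eq c hp.out.pos
    have hc0 : c' ≠ 0 := by
      rintro rfl
      rw [zero_pow hp.out.ne_zero] at hc'
      exact hc hc'.symm
    have hcι : algebraMap k Ω c' ≠ 0 := (_root_.map_ne_zero _).2 hc0
    obtain ⟨b, hb⟩ : ∃ b, b = (hasseDeriv (p ^ i) f₀).eval z := ⟨_, rfl⟩
    obtain ⟨m', hm'⟩ : ∃ m', m' = m * (d ^ p ^ (i - 1) * algebraMap k Ω c')⁻¹ := ⟨_, rfl⟩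
    have hdp : d ^ p ^ (i - 1) ≠ 0 := pow_ne_zero _ hd0
    have hpi : p ^ (i - 1) * p = p ^ i := by
      rw [← pow_succ, Nat.sub_add_cancel (Nat.one_le_iff_ne_zero.2 hi)]
    have ha' : algebraMap k Ω c * (hasseDeriv (p ^ i) f).eval (ι z / d) = ι b / m' ^ p := by
      rw [hfj, hm', mul_pow, inv_pow, mul_pow, ← pow_mul, hpi, ← map_pow, hc', hb]
      have h1 : algebraMap k Ω c ≠ 0 := (_root_.map_ne_zero _).2 hc
      field_simp
    have hSpow : ∀ n : ℕ, n ≠ 0 → d ^ n ∈ TWRA.Mn p (ι x₀) ((clI v₀ W₀).map ι) G M := by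
      intro n hn
      induction n with
      | zero => exact absurd rfl hn
      | succ n ih =>
        rcases Nat.eq_zero_or_pos n with h0 | h0
        · rw [h0, zero_add, pow_one]
          exact hG.dS
        · rw [pow_succ]
          exact hgr.mul _ (ih h0.ne') _ hG.dS
    have hm'S : m' ∈ TWRA.Mn p (ι x₀) ((clI v₀ W₀).map ι) G M := by
      rw [hm']
      exact hgr.mul _ hG.mS _ (hgr.inv _ (hgr.mul _ (hSpow _ (Nat.pow_pos hp.out.pos).ne') _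
        (hgr.bas _ (IntermediateField.algebraMap_mem _ c') hcι)))
    have hm'v : p * v m' = ν - ((p ^ i : ℕ) : ℝ) * s := by
      rw [hm', v.map_mul hm0 (inv_ne_zero (mul_ne_zero hdp hcι)),
        v.map_inv (mul_ne_zero hdp hcι), v.map_mul hdp hcι, v.map_pow hd0, hG.dv,
        h.j.c0.triv c' hc0, mul_add, hG.mv, ← hpi]
      push_cast
      ring
    rw [ha'] at hHB hT
    obtain ⟨g, hg, b₁, X, S, Y, T, haf, hT0, hY⟩ := af_top hTop1 hHB hG.base hU hT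
    obtain ⟨φ₀, hφ₀, hpar⟩ := par_of_big h hG hg haf.par.t2.lim
    have hbK : b ∈ clI v₀ K₀ := by
      rw [hb, h.K_eq]
      exact TWLM.eval_mem_cadj (hasse_mem_PI hf₀ _)
    obtain ⟨b₀, x', S', y', T', haf', hT', hy'⟩ := hDown G M L X₀ c₁ c₂ d m cx D hG φ₀ hφ₀ hpar _ b
      m' hbK hm'S hm'v g b₁ X S Y T hg haf hT0 hY
    obtain ⟨X₁, -, -, hoc⟩ := hG.exists_cls h hcls
    have hocx : OCol p v₀ C (ν - ((p ^ i : ℕ) : ℝ) * s) t X₁ x' :=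
      Col.ocol haf'.c1 fun a ha c => hoc c a ha
    have hocy : OCol p v₀ C (ν - ((p ^ i : ℕ) : ℝ) * s) s X₁ y' :=
      Col.ocol haf'.c2 fun a ha c => hoc c a ha
    have hFe : F = cadj v₀ (cadj v₀ (clI v₀ W₀) y) u := by
      rw [← h.C_eq]
      exact h.F_eq
    rw [hb, h.C_eq] at haf'
    rw [h.C_eq] at hocx hocy hy'
    exact false_of_jet_shift hA h.j h.ty (hFe ▸ hφ₀) (hFe ▸ hf₀) h.j.lp
      (PG.of_gt (Gt.of_ge hff (by linarith))) (Nat.pow_pos hp.out.pos).ne' haf' hT' hy' hocx hocy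

end real

end Pool.Agent.TWRW
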