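import Pool.Agent.Lib.TWRB.Core
import Pool.Agent.Lib.TWRB.R7zA
import Pool.Agent.Lib.TWM0.H
import Pool.Agent.Lib.TWCY.V0R

/-!
# RowB, the bad case: the derivation along `w 1` of the jets of a critical element

* `drv_evalJ`: the value of a derivation at `g(z)`;
* `du_jet`: the proper jets along `z` of a critical element of `K = F⟨z⟩` have strict derivatives along
  `w 1`, `F = B⟨w 1⟩`.
-/

set_option autoImplicit false

open Polynomial Finset

namespace Pool.Agent.TWRW

open Pool.Agent.H15JM (RVal)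
open Pool.Agent.D2 (Ctx0)
open Pool.Agent.TWM
open Pool.Agent.TWII (PG LP)
open Pool.Agent.TWRB (HB)
open Pool.Agent.TWCY
open Pool.Agent.TWM0 (Dir Vl SD DH dp NDer)

universe u

variable {k Ω : Type u} [Field k] [Field Ω] [Algebra k Ω] {p : ℕ} {v : RVal Ω}
  {L : ℕ → IntermediateField k Ω} {W B F K : IntermediateField k Ω} {w : Fin 2 → Ω} {x z a : Ω}

/-- The value of a derivation at `g(z)`. -/
theorem drv_evalJ {d D : Ω → Ω} (hd : Drv v K d) (hFK : F ≤ K) (hz : z ∈ K)
    (hD : ∀ y ∈ F, d y = D y) {g : Polynomial Ω} (hg : g ∈ PI F) :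
    d (g.eval z) = (dp D g).eval z + d z * (derivative g).eval z := by
  have e1 : (derivative g).eval z = ∑ i ∈ range (g.natDegree + 1), g.coeff i * (i * z ^ (i - 1)) := by
    rw [derivative_eval, sum_over_range _ (fun n => by simp)]
    exact sum_congr rfl fun i _ => by ring
  have e2 : (dp D g).eval z = ∑ i ∈ range (g.natDegree + 1), D (g.coeff i) * z ^ i := by
    rw [dp, eval_finsetSum]
    simp only [eval_monomial]
  have hm : ∀ i : ℕ, g.coeff i * z ^ i ∈ K := fun i => mul_mem (hFK (hg i)) (pow_mem hz i)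
  rw [e1, e2, eval_eq_sum_range, hd.map_sum _ fun i _ => hm i, mul_sum, ← sum_add_distrib]
  refine sum_congr rfl fun i _ => ?_
  rw [hd.mul _ (hFK (hg i)) _ (pow_mem hz i), hd.map_npow hz, hD _ (hg i)]
  ring

/-- **The proper jets of a critical element have strict derivatives along `w 1`.** -/
theorem du_jet [hp : Fact p.Prime] [CharP Ω p] [IsAlgClosed Ω] (h : HB p v L W B F K w x z a)
    {d : Ω → Ω} (hd : Drv v K d) (hdB : ∀ y ∈ B, d y = 0) (hd1 : d (w 1) = 1) {f : Polynomial Ω}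
    (hf : f ∈ PI F) (hlp : LP p v K 0 (f.eval z)) {l : ℕ} (hl : l ≠ 0) :
    Gt v 0 (d ((hasseDeriv l f).eval z)) := by
  have hBF : B ≤ F := by
    rw [h.F_eq]
    exact le_cadj v _ _
  have hFK : F ≤ K := by
    rw [h.K_eq]
    exact le_cadj v _ _
  have hzK : z ∈ K := by
    rw [h.K_eq]
    exact self_mem_cadj v _ _
  have h1F : w 1 ∈ F := by
    rw [h.F_eq]
    exact self_mem_cadj v _ _
  obtain ⟨D, hD, hD0, hD1⟩ := TWM0.exists_dir h.cv h.tu (W := B) le_rfl
  rw [← h.F_eq] at hD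
  have hn := hD.nder
  -- `d = D 1` on `F`
  have hdD : ∀ y ∈ F, d y = D 1 y := by
    have hδ : Drv v F (fun y => d y - D 1 y) :=
      { add := fun f hf g hg => by
          show d (f + g) - D 1 (f + g) = d f - D 1 f + (d g - D 1 g)
          rw [hd.add _ (hFK hf) _ (hFK hg), hn.add _ hf _ hg]
          ring
        mul := fun f hf g hg => by
          show d (f * g) - D 1 (f * g) = f * (d g - D 1 g) + g * (d f - D 1 f)
          rw [hd.mul _ (hFK hf) _ (hFK hg), hn.mul _ hf _ hg]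
          ring
        alg := fun c => by
          show d (algebraMap k Ω c) - D 1 (algebraMap k Ω c) = 0
          rw [hd.alg, hD0 _ (B.algebraMap_mem c), sub_zero]
        norm := fun f hf r hr => by
          have h2 := hn.norm f hf r hr
          rw [sub_zero] at h2
          exact (hd.norm f (hFK hf) r hr).sub h2 }
    intro y hy
    rw [h.F_eq] at hy
    exact sub_eq_zero.1 (hδ.zero_cadj hBF (fun a ha => by
      show d a - D 1 a = 0
      rw [hdB a ha, hD0 a ha, sub_zero]) h.tu (by rw [← h.F_eq]) (by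
      show d (w 1) - D 1 (w 1) = 0
      rw [hd1, hD1, sub_self]) hy)
  -- the strict derivative
  have hlp' : LP p v (cadj v F z) 0 (f.eval z) := by rwa [← h.K_eq]
  obtain ⟨r, hr, hsd⟩ := hD.jets_sd p h.zt hBF (fun c _ hc0 => h.imm c hc0) hf hlp' hl
  have hgt : Gt v 0 ((derivative (hasseDeriv l f)).eval z) := by
    have h2 := TWM0.jets_dz h.zt hf (TWM0.crit_dz p h.zt hf hlp') hl
    rwa [sub_zero, mul_zero, sub_zero] at h2
  obtain ⟨μ, hμ, hge⟩ := TWLM.exists_ge_of_gt hgt
  rw [zero_add] at hge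
  set ε : ℝ := min (-r) (μ / 2) with hε
  have hr' : r < 0 := by linarith
  have hε0 : 0 < ε := lt_min (by linarith) (half_pos hμ)
  obtain ⟨θ, hθ, h3⟩ := h.zt.lim ε hε0
  rw [zero_sub] at h3
  have hvl : Vl v F 0 z (D 1) r (D 1 θ) := by
    refine ⟨ε, hε0, fun θ' hθ' h4 => ?_⟩
    show v.Ge r (D 1 θ' - D 1 θ)
    rw [← hn.toDer.sub hθ' hθ]
    have e : θ' - θ = (z - θ) - (z - θ') := by ring
    have h5 : v.Ge (-ε) (θ' - θ) := by
      rw [e]
      exact h3.sub (by rwa [zero_sub] at h4)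
    have h6 := hn.norm _ (sub_mem hθ' hθ) _ h5
    exact h6.mono (by linarith [min_le_left (-r) (μ / 2)])
  have h4 := hsd _ (hn.mem _ hθ) hvl
  rw [mul_zero, sub_zero, sub_zero] at h4
  have hg : hasseDeriv l f ∈ PI F := TWM.hasse_mem_PI hf l
  have h5 : v.Ge (-ε) (d z - D 1 θ) := by
    rw [← hdD θ hθ, ← hd.map_sub hzK (hFK hθ)]
    exact hd.norm _ (sub_mem hzK (hFK hθ)) _ h3
  have e : d ((hasseDeriv l f).eval z) = (DH (D 1) (D 1 θ) (hasseDeriv l f)).eval z +
      (d z - D 1 θ) * (derivative (hasseDeriv l f)).eval z := by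
    rw [drv_evalJ hd hFK hzK hdD hg, DH, eval_add, eval_mul, eval_C]
    ring
  rw [e]
  refine h4.add (Gt.of_ge (h5.mul hge) ?_)
  linarith [min_le_right (-r) (μ / 2)]

end Pool.Agent.TWRW
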