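import Pool.Agent.Lib.TWNI.EndE

/-!
# TANK W, RowB, the bad case: the second generator has a finite shape

* `finE_rel`: growth in one variable, from the relation in large degree;
* `rel_large`: the relation in large degree for the second column, if the first generator has a
  finite shape;
* `finE_of_af`: an additive form of a critical element, the first generator of finite shape, a
  coefficient of positive index of the second column not null: the second generator has a finite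
  shape.
-/

set_option autoImplicit false

open Polynomial Finset

namespace Pool.Agent.TWRW

open Pool.Agent.H15JM (RVal)
open Pool.Agent.TWM
open Pool.Agent.TWII (PG LP Nr Wn ge_pow')
open Pool.Agent.TWLM (HSd Oi)
open Pool.Agent.TWN1
open Pool.Agent.TWNI (ArcI FinE)

universe u

variable {k Ω : Type u} [Field k] [Field Ω] [Algebra k Ω] {v : RVal Ω}
  {F C K : IntermediateField k Ω} {Φ : ℕ → Ω → Ω}

section rel

variable (p : ℕ) [hp : Fact p.Prime] [CharP Ω p] {σ ρ ν : ℝ} {u : Ω}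

/-- **Growth in one variable**, from the relation in large degree. -/
theorem finE_rel (hΦ : HSd F Φ) (hn : Wn v F σ Φ) (ho : Oi v F σ Φ) (hu : Lim v F ρ u)
    {S : ℕ} (hS : S ≠ 0) {X : ℕ → Ω}
    (hlow : ∀ j < S, ∀ ε : ℝ, 0 < ε → ∃ w ∈ F, (j = 0 → w = 0) ∧
      v.Ge (ν - (p : ℝ) ^ j * ρ - ε) (X j - w ^ p))
    (htop : ¬ PG p v F (ν - (p : ℝ) ^ S * ρ) (X S)) {LR : ℕ}
    (hR : ∀ l : ℕ, LR ≤ l → ∀ ε : ℝ, 0 < ε → Nr v F ρ u fun θ => PG p v F (ν - l * σ - ε)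
      (∑ j ∈ range (S + 1), if p ^ j ∣ l then X j * (Φ (l / p ^ j) θ) ^ p ^ j else 0)) :
    FinE v F σ ρ Φ u := by
  classical
  have hp0 : 0 < p := hp.out.pos
  have hp1 : 1 < p := hp.out.one_lt
  obtain ⟨g, hg0, hgb, hgc, hglim⟩ := TWII.exists_gap hΦ hn ho hu
  by_contra hcon
  simp only [FinE, not_exists, not_forall] at hcon
  set φ : ℕ → ℝ := fun l => if p ^ S ∣ l then (p : ℝ) ^ S * g (l / p ^ S) else 0 with hφ
  have hφm : ∀ m, φ (p ^ S * m) = (p : ℝ) ^ S * g m := by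
    intro m
    rw [hφ]
    dsimp only
    rw [if_pos (dvd_mul_right _ _), Nat.mul_div_cancel_left _ (Nat.pow_pos hp0)]
  have hφ0 : ∀ l, ¬ p ^ S ∣ l → φ l = 0 := by
    intro l h1
    rw [hφ]
    dsimp only
    rw [if_neg h1]
  obtain ⟨m₁, hm₁, hg₁⟩ : ∃ m, LR < m ∧ 0 < g m := by
    obtain ⟨l, hl, ε, hε, h1⟩ := hcon LR
    refine ⟨l, hl, ?_⟩
    by_contra h2
    have h3 : g l = 0 := le_antisymm (not_lt.1 h2) (hg0 l)
    apply h1
    have := hgb l ε hε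
    rwa [h3, sub_zero] at this
  set l₁ := p ^ S * m₁ with hl₁
  have hl₁R : LR ≤ l₁ := hm₁.le.trans (Nat.le_mul_of_pos_left _ (Nat.pow_pos hp0))
  have hφ₁ : 0 < φ l₁ := by
    rw [hl₁, hφm]
    positivity
  obtain ⟨N, hN⟩ : ∃ N : ℕ, ∀ l, N ≤ l → φ l ≤ φ l₁ := by
    obtain ⟨L, hL⟩ := hglim (φ l₁ / (p : ℝ) ^ S) (by positivity)
    refine ⟨p ^ S * L, fun l hl => ?_⟩
    by_cases h1 : p ^ S ∣ l
    · obtain ⟨m, rfl⟩ := h1
      have h3 : L ≤ m := Nat.le_of_mul_le_mul_left hl (Nat.pow_pos hp0)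
      have h4 := hL m h3
      rw [hφm]
      have hq : (0 : ℝ) < (p : ℝ) ^ S := by positivity
      rw [le_div_iff₀ hq] at h4
      linarith
    · rw [hφ0 l h1]
      exact hφ₁.le
  obtain ⟨l, hlR, hG, hmax⟩ : ∃ l, LR ≤ l ∧ 0 < φ l ∧ ∀ l', LR ≤ l' → φ l' ≤ φ l := by
    have hne : l₁ ∈ Finset.Icc LR (max l₁ N) := Finset.mem_Icc.2 ⟨hl₁R, le_max_left _ _⟩
    obtain ⟨l, hm, h1⟩ := Finset.exists_max_image _ φ ⟨_, hne⟩
    have h2 := h1 _ hne
    refine ⟨l, (Finset.mem_Icc.1 hm).1, hφ₁.trans_le h2, fun l' hl' => ?_⟩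
    rcases le_or_gt l' (max l₁ N) with h3 | h3
    · exact h1 l' (Finset.mem_Icc.2 ⟨hl', h3⟩)
    · exact (hN l' ((le_max_right _ _).trans h3.le)).trans h2
  set G := φ l with hGd
  obtain ⟨m₀, rfl⟩ : p ^ S ∣ l := by
    by_contra h1
    rw [hGd, hφ0 l h1] at hG
    exact lt_irrefl _ hG
  have hGm : G = (p : ℝ) ^ S * g m₀ := hφm m₀
  have hgm₀ : 0 < g m₀ := by
    by_contra h1
    have h2 : g m₀ = 0 := le_antisymm (not_lt.1 h1) (hg0 m₀)
    rw [hGm, h2, mul_zero] at hG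
    exact lt_irrefl _ hG
  set l := p ^ S * m₀ with hl
  -- the point
  have h1 : Nr v F ρ u fun θ => ∀ j ∈ range S, ∀ m ∈ range (l + 1),
      v.Ge (ρ - m * σ - g m - G / (8 * (p : ℝ) ^ j)) (Φ m θ) :=
    Nr.all _ fun j _ => Nr.all _ fun m _ => hgb m (G / (8 * (p : ℝ) ^ j)) (by positivity)
  obtain ⟨θ, hθ, ⟨h1, h2⟩, h3, h4⟩ := ((h1.and (hR l hlR G hG)).and (hgc m₀ hgm₀)).exists hu
  -- the low terms
  have h5 : ∀ j ∈ range S, PG p v F (ν - l * σ - G)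
      (if p ^ j ∣ l then X j * (Φ (l / p ^ j) θ) ^ p ^ j else 0) := by
    intro j hj
    have hjS : j < S := mem_range.1 hj
    split_ifs with h6
    swap
    · exact .of_gt Gt.zero
    obtain ⟨m, hm⟩ := h6
    have hq0 : 0 < p ^ j := Nat.pow_pos hp0
    have hqr : (0 : ℝ) < (p : ℝ) ^ j := by positivity
    have hlm : (l : ℝ) = (p : ℝ) ^ j * m := by exact_mod_cast hm
    rw [hm, Nat.mul_div_cancel_left _ hq0]
    have hml : m ∈ range (l + 1) := by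
      rw [mem_range]
      have : m ≤ p ^ j * m := Nat.le_mul_of_pos_left m hq0
      omega
    have h7 : (p : ℝ) ^ j * g m ≤ G / 2 := by
      have h8 : φ (p ^ S * m) ≤ G := by
        refine hmax _ (hlR.trans ?_)
        rw [hm]
        exact Nat.mul_le_mul_right _ (Nat.pow_le_pow_right hp0 hjS.le)
      rw [hφm] at h8
      have h9 : (p : ℝ) ^ j * 2 ≤ (p : ℝ) ^ S := by
        have h10 : p ^ j * 2 ≤ p ^ S := by
          calc p ^ j * 2 ≤ p ^ j * p := Nat.mul_le_mul_left _ hp1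
            _ = p ^ (j + 1) := (pow_succ p j).symm
            _ ≤ p ^ S := Nat.pow_le_pow_right hp0 hjS
        exact_mod_cast h10
      nlinarith [hg0 m]
    have h8 : v.Ge ((p : ℝ) ^ j * (ρ - m * σ) - G / 2 - G / 8) ((Φ m θ) ^ p ^ j) := by
      refine (ge_pow' (h1 j hj m hml) (p ^ j)).mono ?_
      push_cast
      have e1 : (p : ℝ) ^ j * (ρ - m * σ - g m - G / (8 * (p : ℝ) ^ j)) =
          (p : ℝ) ^ j * (ρ - m * σ) - (p : ℝ) ^ j * g m - G / 8 := by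
        field_simp
      rw [e1]
      linarith
    obtain ⟨w, hw, hw0, h9⟩ := hlow j hjS (G / 8) (by positivity)
    have e2 : X j * (Φ m θ) ^ p ^ j =
        (X j - w ^ p) * (Φ m θ) ^ p ^ j + w ^ p * (Φ m θ) ^ p ^ j := by ring
    rw [e2]
    refine PG.add (.of_gt ?_) ?_
    · refine Gt.of_ge (h9.mul h8) ?_
      push_cast
      linarith
    · rcases Nat.eq_zero_or_pos j with hj0 | hj0
      · rw [hw0 hj0, zero_pow hp.out.ne_zero, zero_mul]
        exact .of_gt Gt.zero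
      · have e5 : w ^ p * (Φ m θ) ^ p ^ j = (w * (Φ m θ) ^ p ^ (j - 1)) ^ p := by
          rw [_root_.mul_pow, ← pow_mul, ← pow_succ, Nat.sub_add_cancel hj0]
        rw [e5]
        exact .of_pow (F.mul_mem hw (pow_mem (hΦ.mem _ _ hθ) _))
  -- the top
  have h6 : PG p v F (ν - l * σ - G) (X S * (Φ m₀ θ) ^ p ^ S) := by
    rw [Finset.sum_range_succ, hl, if_pos (dvd_mul_right _ _),
      Nat.mul_div_cancel_left _ (Nat.pow_pos hp0), ← hl] at h2
    have h7 := h2.sub (PG.sum _ _ h5)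
    rwa [add_sub_cancel_left] at h7
  have h8 := TWII.ind_of_not_pg p hS htop (hΦ.mem _ _ hθ) h6
  have h10 := h8 (pow_ne_zero _ h3)
  rw [v.map_pow h3, h4] at h10
  have h11 : (l : ℝ) = (p : ℝ) ^ S * m₀ := by
    rw [hl]
    push_cast
    ring
  rw [hGm, h11] at h10
  push_cast at h10
  linarith

/-- The terms of a column in large degree, for a generator of finite shape. -/
theorem term_fin (hΦ : HSd F Φ) (hn : Wn v F σ Φ) (ho : Oi v F σ Φ) (hu : Lim v F ρ u)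
    (hfin : FinE v F σ ρ Φ u) {X : Ω} (hX : X ∈ F) (j : ℕ)
    (hd : ∀ n : ℕ, n ≠ 0 → ∃ w ∈ F, (j = 0 → w = 0) ∧
      Gt v (ν - (p : ℝ) ^ j * ρ - n * σ) (Φ n X - w ^ p))
    (hlev : ∀ ε : ℝ, 0 < ε → ∃ w ∈ F, (j = 0 → w = 0) ∧
      v.Ge (ν - (p : ℝ) ^ j * ρ - ε) (X - w ^ p)) :
    ∃ L : ℕ, ∀ l : ℕ, L ≤ l → ∀ ε : ℝ, 0 < ε → Nr v F ρ u fun θ =>
      PG p v F (ν - l * σ - ε) (Φ l (X * θ ^ p ^ j)) := by
  obtain ⟨L₁, hL₁⟩ := TWII.term_err p hΦ hn ho hu hX j hd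
  obtain ⟨L₂, hL₂⟩ := hfin
  have hp0 : 0 < p := hp.out.pos
  have hq0 : 0 < p ^ j := Nat.pow_pos hp0
  have hqr : (0 : ℝ) < (p : ℝ) ^ j := by positivity
  refine ⟨max L₁ (p ^ j * (L₂ + 1)), fun l hl ε hε => ?_⟩
  by_cases h6 : p ^ j ∣ l
  swap
  · refine (hL₁ l ((le_max_left _ _).trans hl)).mono fun θ _ h1 => ?_
    rw [if_neg h6, sub_zero] at h1
    exact h1.mono (by linarith)
  obtain ⟨m, rfl⟩ := h6
  have hm : L₂ < m := by
    have h7 : p ^ j * (L₂ + 1) ≤ p ^ j * m := (le_max_right _ _).trans hl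
    have h8 := Nat.le_of_mul_le_mul_left h7 hq0
    omega
  refine ((hL₁ _ ((le_max_left _ _).trans hl)).and (hL₂ m hm (ε / (4 * (p : ℝ) ^ j))
    (by positivity))).mono fun θ hθ h1 => ?_
  obtain ⟨h1, h2⟩ := h1
  rw [if_pos (dvd_mul_right _ _), Nat.mul_div_cancel_left _ hq0] at h1
  have h3 : v.Ge ((p : ℝ) ^ j * (ρ - m * σ) - ε / 4) ((Φ m θ) ^ p ^ j) := by
    refine (ge_pow' h2 (p ^ j)).mono (le_of_eq ?_)
    push_cast
    field_simp
  have h4 : PG p v F (ν - (p ^ j * m : ℕ) * σ - ε) (X * (Φ m θ) ^ p ^ j) := by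
    obtain ⟨w, hw, hw0, h9⟩ := hlev (ε / 4) (by positivity)
    have e2 : X * (Φ m θ) ^ p ^ j =
        (X - w ^ p) * (Φ m θ) ^ p ^ j + w ^ p * (Φ m θ) ^ p ^ j := by ring
    rw [e2]
    refine PG.add (.of_gt ?_) ?_
    · refine Gt.of_ge (h9.mul h3) ?_
      push_cast
      linarith
    · rcases Nat.eq_zero_or_pos j with hj0 | hj0
      · rw [hw0 hj0, zero_pow hp.out.ne_zero, zero_mul]
        exact .of_gt Gt.zero
      · have e5 : w ^ p * (Φ m θ) ^ p ^ j = (w * (Φ m θ) ^ p ^ (j - 1)) ^ p := by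
          rw [_root_.mul_pow, ← pow_mul, ← pow_succ, Nat.sub_add_cancel hj0]
        rw [e5]
        exact .of_pow (F.mul_mem hw (pow_mem (hΦ.mem _ _ hθ) _))
  have e : Φ (p ^ j * m) (X * θ ^ p ^ j) = (Φ (p ^ j * m) (X * θ ^ p ^ j) -
      X * (Φ m θ) ^ p ^ j) + X * (Φ m θ) ^ p ^ j := by ring
  rw [e]
  exact (h1.mono (by linarith)).add h4

end rel

section af

variable {p : ℕ} [hp : Fact p.Prime] [CharP Ω p] {ρ σ ν r₁ r₂ : ℝ} {w b b₀ z₁ z₂ : Ω}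
  {x y : ℕ → Ω} {S T : ℕ}

/-- **The second generator has a finite shape** (the top of the second column is not null). -/
theorem finE_of_af_top [IsAlgClosed Ω] (h : AF p v C K ν b b₀ z₁ r₁ x S z₂ r₂ y T)
    (hb : LP p v K ν b) (hA : ArcI p v C Φ w ρ σ) (hf : FinE v C σ r₁ Φ z₁) (hT : T ≠ 0)
    (hyT : ¬ PG p v C (ν - (p : ℝ) ^ T * r₂) (y T)) : FinE v C σ r₂ Φ z₂ := by
  classical
  have hΦ := hA.hsd
  have hn : Wn v C σ Φ := hA.iso
  have ho := hA.oi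
  have hu1 := h.par.t1.lim
  have hu2 := h.par.t2.lim
  -- the thresholds
  have ht1 := fun j : ℕ => term_fin p hΦ hn ho hu1 hf (h.c1.mem j) j
    (fun n hn0 => hA.hd h.c1 j n hn0) (fun ε hε => h.c1.hlev j ε hε)
  have ht2 := fun j : ℕ => TWII.term_err p hΦ hn ho hu2 (h.c2.mem j) j
    (fun n hn0 => hA.hd h.c2 j n hn0)
  choose L₁ hL₁ using ht1
  choose L₂ hL₂ using ht2
  obtain ⟨L₀, hL₀⟩ := ho b₀ h.b0 (ν + 1)
  refine finE_rel p hΦ hn ho hu2 hT (fun j _ ε hε => h.c2.hlev j ε hε) hyT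
    (LR := max L₀ (max ((range (S + 1)).sup L₁) ((range (T + 1)).sup L₂))) fun l hl ε hε => ?_
  have hl0 : L₀ ≤ l := (le_max_left _ _).trans hl
  have hl1 : ∀ j ∈ range (S + 1), L₁ j ≤ l := fun j hj =>
    (Finset.le_sup (f := L₁) hj).trans ((le_max_left _ _).trans ((le_max_right _ _).trans hl))
  have hl2 : ∀ j ∈ range (T + 1), L₂ j ≤ l := fun j hj =>
    (Finset.le_sup (f := L₂) hj).trans ((le_max_right _ _).trans ((le_max_right _ _).trans hl))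
  obtain ⟨δ, hδ, hst⟩ := h.stab hb (half_pos hε)
  -- the point for `z₁`
  obtain ⟨θ₁, hθ₁, h1, h2⟩ := ((Nr.all (range (S + 1)) fun j hj => hL₁ j l (hl1 j hj) ε hε).and
    (Nr.near (v := v) (F := C) (ρ := r₁) (u := z₁) hδ)).exists hu1
  refine ((Nr.all (range (T + 1)) fun j hj => hL₂ j l (hl2 j hj)).and
    (Nr.near (v := v) (F := C) (ρ := r₂) (u := z₂) hδ)).mono fun θ hθ h3 => ?_
  obtain ⟨h3, h4⟩ := h3
  obtain ⟨g, hg, h5⟩ := hst θ₁ hθ₁ θ hθ h2 h4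
  set B := b₀ + col p x θ₁ S + col p y θ T with hB
  have hm1 : ∀ j ∈ range (S + 1), x j * θ₁ ^ p ^ j ∈ C := fun j _ =>
    mul_mem (h.c1.mem j) (pow_mem hθ₁ _)
  have hm2 : ∀ j ∈ range (T + 1), y j * θ ^ p ^ j ∈ C := fun j _ =>
    mul_mem (h.c2.mem j) (pow_mem hθ _)
  have hc1 : col p x θ₁ S ∈ C := sum_mem hm1
  have hc2 : col p y θ T ∈ C := sum_mem hm2
  have hBC : B ∈ C := add_mem (add_mem h.b0 hc1) hc2
  have h6 : PG p v C (ν - l * σ - ε) (Φ l B) := by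
    have e1 : Φ l B = Φ l (B - g ^ p) + Φ l (g ^ p) := by
      rw [hΦ.sub l hBC (pow_mem hg p)]
      ring
    rw [e1]
    refine PG.add (.of_gt ?_) ?_
    · exact Gt.of_ge (hn l _ (sub_mem hBC (pow_mem hg p)) _ h5) (by linarith)
    · by_cases h5 : p ^ 1 ∣ l
      · obtain ⟨m, rfl⟩ := h5
        have := hΦ.pow_mul p hg 1 m
        rw [pow_one] at this ⊢
        rw [this]
        exact .of_pow (hΦ.mem _ _ hg)
      · have := hΦ.pow_zero p hg 1 l h5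
        rw [pow_one] at this
        rw [this]
        exact .of_gt Gt.zero
  have h7 : Φ l B = Φ l b₀ + ∑ j ∈ range (S + 1), Φ l (x j * θ₁ ^ p ^ j) +
      ∑ j ∈ range (T + 1), Φ l (y j * θ ^ p ^ j) := by
    rw [hB, hΦ.add l _ (add_mem h.b0 hc1) _ hc2, hΦ.add l _ h.b0 _ hc1, col, col,
      hΦ.sum l _ _ hm1, hΦ.sum l _ _ hm2]
  have h8 : PG p v C (ν - l * σ - ε) (Φ l b₀) :=
    .of_gt (Gt.of_ge (hL₀ l hl0) (by linarith))
  have h9 : PG p v C (ν - l * σ - ε) (∑ j ∈ range (S + 1), Φ l (x j * θ₁ ^ p ^ j)) :=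
    PG.sum _ _ h1
  have h10 : PG p v C (ν - l * σ - ε) (∑ j ∈ range (T + 1), (Φ l (y j * θ ^ p ^ j) -
      if p ^ j ∣ l then y j * (Φ (l / p ^ j) θ) ^ p ^ j else 0)) :=
    PG.sum _ _ fun j hj => (h3 j hj).mono (by linarith)
  have e2 : ∑ j ∈ range (T + 1), (if p ^ j ∣ l then y j * (Φ (l / p ^ j) θ) ^ p ^ j else 0) =
      Φ l B - Φ l b₀ - ∑ j ∈ range (S + 1), Φ l (x j * θ₁ ^ p ^ j) -
      ∑ j ∈ range (T + 1), (Φ l (y j * θ ^ p ^ j) -
        if p ^ j ∣ l then y j * (Φ (l / p ^ j) θ) ^ p ^ j else 0) := by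
    rw [h7, Finset.sum_sub_distrib]
    ring
  rw [e2]
  exact ((h6.sub h8).sub h9).sub h10

/-- The null tops of the second column may be dropped. -/
theorem exists_top (h : AF p v C K ν b b₀ z₁ r₁ x S z₂ r₂ y T) {j : ℕ} (hj : j ≠ 0) (hjT : j ≤ T)
    (hyj : ¬ PG p v C (ν - (p : ℝ) ^ j * r₂) (y j)) :
    ∃ (T' : ℕ) (b₀' : Ω), T' ≠ 0 ∧ j ≤ T' ∧ T' ≤ T ∧
      ¬ PG p v C (ν - (p : ℝ) ^ T' * r₂) (y T') ∧
      AF p v C K ν b b₀' z₁ r₁ x S z₂ r₂ y T' := by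
  induction T generalizing b₀ with
  | zero => omega
  | succ T ih =>
    by_cases hy : PG p v C (ν - (p : ℝ) ^ (T + 1) * r₂) (y (T + 1))
    · have hjT' : j ≤ T := by
        rcases hjT.lt_or_eq with h1 | h1
        · omega
        · exact absurd (h1 ▸ hy) hyj
      obtain ⟨b₀', h1⟩ := h.symm.drop hy
      obtain ⟨T', b₁, h2, h3, h4, h5, h6⟩ := ih h1.symm hjT'
      exact ⟨T', b₁, h2, h3, h4.trans (Nat.le_succ T), h5, h6⟩
    · exact ⟨T + 1, b₀, Nat.succ_ne_zero T, hjT, le_rfl, hy, h⟩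

/-- **The second generator has a finite shape.** -/
theorem finE_of_af [IsAlgClosed Ω] (h : AF p v C K ν b b₀ z₁ r₁ x S z₂ r₂ y T)
    (hb : LP p v K ν b) (hA : ArcI p v C Φ w ρ σ) (hf : FinE v C σ r₁ Φ z₁) {j : ℕ} (hj : j ≠ 0)
    (hjT : j ≤ T) (hyj : ¬ PG p v C (ν - (p : ℝ) ^ j * r₂) (y j)) : FinE v C σ r₂ Φ z₂ := by
  obtain ⟨T', b₀', h1, -, -, h2, h3⟩ := exists_top h hj hjT hyj
  exact finE_of_af_top h3 hb hA hf h1 h2

end af

end Pool.Agent.TWRW
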