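import Pool.Agent.Lib.TWRW.FinZ
import Pool.Agent.Lib.TWRB.Glob
import Pool.Agent.Lib.TWCT.FinY

/-!
# TANK W, RowB, the bad case: the second generator has a finite shape (real floors)

`RFl.arcI`: the Hasse derivatives along the first floor are an exact arc for every floor over `C`;
`RFl.finE_af`: the additive form over `C`, one coefficient of positive index not null.
-/

set_option autoImplicit false

namespace Pool.Agent.TWRB

open Pool.Agent.H15JM (RVal)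
open Pool.Agent.D2P (clI)
open Pool.Agent.TWM
open Pool.Agent.TWS (TowR)
open Pool.Agent.TWII (PG LP)
open Pool.Agent.TWN1 (AF)
open Pool.Agent.TWNI (ArcI FinE)
open Pool.Agent.TWCT (HsY)

universe u

variable {k Ω₀ Ω : Type u} [Field k] [Field Ω₀] [Algebra k Ω₀] [Field Ω] [Algebra k Ω]
  {p : ℕ} {v₀ : RVal Ω₀} {v : RVal Ω} {ι : Ω₀ →ₐ[k] Ω} [hp : Fact p.Prime] [CharP Ω₀ p]
  [CharP Ω p] [CharP k p] [IsAlgClosed k] [IsAlgClosed Ω₀] [IsAlgClosed Ω] {x₀ : Ω₀}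
  {W₀ K₀ : IntermediateField k Ω₀} {al : Ω₀} {ν : ℝ} {C F : IntermediateField k Ω₀}
  {y u z : Ω₀} {r t s : ℝ} {Φ : ℕ → Ω₀ → Ω₀}

/-- The Hasse derivatives along the first floor, for every floor `w` over `C`. -/
theorem RFl.arcI (h : RFl p v₀ v ι x₀ W₀ K₀ al ν C F y u z r t s)
    (hΦ : HsY v₀ (clI v₀ W₀) y r Φ) {w : Ω₀} {ρ : ℝ} (hw : TL v₀ C w ρ) :
    ArcI p v₀ C Φ w ρ r := by
  have hJ := h.j
  have hT : TowR v₀ 2 (cadj v₀ (clI v₀ W₀) y) (clI v₀ K₀) := by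
    rw [h.K_eq, ← h.C_eq]
    refine TowR.succ h.tu ?_
    rw [← h.F_eq]
    exact TowR.succ h.tz (TowR.zero (cld_cadj _ _ _))
  have h1 := hJ.h0s h.ty hT
  have hC := h.C_eq
  subst hC
  exact hΦ.arcI hJ.ctx.toCtx0 hJ.pd h.ty h1 hw

/-- **The second generator has a finite shape**: the additive form over `C`, `u` of finite shape, a
coefficient of positive index of the column of `z₁` is not null. -/
theorem RFl.finE_af (h : RFl p v₀ v ι x₀ W₀ K₀ al ν C F y u z r t s)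
    (hΦ : HsY v₀ (clI v₀ W₀) y r Φ) {u₁ z₁ b₀ : Ω₀} {t₁ s₁ : ℝ} {X Y : ℕ → Ω₀} {S T : ℕ}
    (haf : AF p v₀ C (clI v₀ K₀) ν (al ^ p) b₀ u₁ t₁ X S z₁ s₁ Y T)
    (hf : FinE v₀ C r t₁ Φ u₁) {j : ℕ} (hj : j ≠ 0) (hjT : j ≤ T)
    (hY : ¬ PG p v₀ C (ν - (p : ℝ) ^ j * s₁) (Y j)) : FinE v₀ C r s₁ Φ z₁ :=
  TWRW.finE_of_af haf h.j.lp (h.arcI hΦ haf.par.t1) hf hj hjT hY

end Pool.Agent.TWRB
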