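import Pool.Agent.Lib.TWRB.Fin
import Pool.Agent.Lib.TWRB.Core
import Pool.Agent.Lib.TWFN.NF
import Pool.Agent.Lib.TWM.D1

/-!
# CT, j = 1, row B: the base change `ω ^ p = w 0 + b + c x`

`B = W⟨w 0⟩`, `F = B⟨w 1⟩`, `K = F⟨z⟩`; the class of `a` in `z` is
`e z + x P(z) + (w 0 + b) R(z) + a₀`, `b ∈ W`. With `ω ^ p = w 0 + b + c x` and
`B' = W⟨ω⟩`, `F' = B'⟨w 1⟩`, `K' = F'⟨z⟩`: over `K'` it is `e z + x (P - c R)(z) + a₀`.

* `BCh`: the data of the base change;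
* `BCh.tw`, `BCh.tu`, `BCh.zt`: the floors; `BCh.tieF`: the tie over `F'`;
* `BCh.crit`, `BCh.hit`; `BCh.hb`: the data `HB` over `W⟨ω⟩`.
-/

set_option autoImplicit false
set_option linter.unusedSectionVars false

open Polynomial

namespace Pool.Agent.TWRW

open Pool.Agent.H15JM (RVal)
open Pool.Agent.LU1 (VPos)
open Pool.Agent.D2 (Ctx0)
open Pool.Agent.D2P (clI mem_clI rootF)
open Pool.Agent.TWM
open Pool.Agent.TWII (PG LP)
open Pool.Agent.TWN1 (Unh)
open Pool.Agent.TWRR (GP)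
open Pool.Agent.TWCT (MovV MovR Hit)
open Pool.Agent.TWLY
open Pool.Agent.TWCY
open Pool.Agent.TWRB

universe u

variable {k Ω : Type u} [Field k] [Field Ω] [Algebra k Ω] {p : ℕ} {v : RVal Ω}
  {L : ℕ → IntermediateField k Ω} {W B F K : IntermediateField k Ω} {w : Fin 2 → Ω} {x z a : Ω}

/-- The linearity of `P` in the coefficients. -/
theorem PP_lin (p : ℕ) (κ γ : ℕ → k) (c : k) (t : ℕ) (y : Ω) :
    PP p (fun i => κ i - c * γ i) t y = PP p κ t y - algebraMap k Ω c * PP p γ t y := by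
  unfold PP
  rw [Finset.mul_sum, ← Finset.sum_sub_distrib]
  refine Finset.sum_congr rfl fun i _ => ?_
  rw [map_sub, map_mul]
  ring

/-- A `p`-th root of `R(y)`. -/
theorem exists_PP_root [IsAlgClosed k] [hp : Fact p.Prime] [CharP Ω p] (M : IntermediateField k Ω)
    (γ : ℕ → k) (t : ℕ) {y : Ω} (hy : y ∈ M) : ∃ q ∈ M, PP p γ t y = q ^ p := by
  have h1 := TWFN.exists_PP_eq (R := M.toSubalgebra) (p := p)
    (fun a : k => IsAlgClosed.exists_pow_nat_eq a hp.out.pos) γ t (y := y) hy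
  exact h1

/-- The data of the base change. -/
structure BCh (p : ℕ) (v : RVal Ω) (L : ℕ → IntermediateField k Ω) (W B F K : IntermediateField k Ω)
    (w : Fin 2 → Ω) (x z a : Ω) (D₀ : Ω → Ω) (b : Ω) (e : k) (κ γ : ℕ → k) (t : ℕ) (a₀ : Ω)
    (c : k) (ω : Ω) : Prop where
  hb : HB p v L W B F K w x z a
  base : BaseD p v W x D₀
  bW : b ∈ W
  lpw : LP p v W 0 (w 0 + b)
  aF : a₀ ∈ F
  rel : PG p v K 0 (a - (algebraMap k Ω e * z + x * PP p κ t z + (w 0 + b) * PP p γ t z + a₀))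
  tie : ∀ ε : ℝ, 0 < ε → ∃ θ ∈ F, v.Ge (-ε) (z - θ) ∧ ∃ h ∈ F,
    v.Ge (-ε) (algebraMap k Ω e * θ + x * PP p κ t θ + (w 0 + b) * PP p γ t θ + a₀ - h ^ p)
  top : κ t - c * γ t ≠ 0
  om : ω ^ p = w 0 + b + algebraMap k Ω c * x

namespace BCh

variable {D₀ : Ω → Ω} {b : Ω} {e : k} {κ γ : ℕ → k} {t : ℕ} {a₀ : Ω} {c : k} {ω : Ω}

section gen

variable (h : BCh p v L W B F K w x z a D₀ b e κ γ t a₀ c ω)

include h

theorem WB : W ≤ B := by
  rw [h.hb.B_eq]
  exact le_cadj _ _ _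

theorem BF : B ≤ F := by
  rw [h.hb.F_eq]
  exact le_cadj _ _ _

theorem FK : F ≤ K := by
  rw [h.hb.K_eq]
  exact le_cadj _ _ _

theorem w0B : w 0 ∈ B := by
  rw [h.hb.B_eq]
  exact self_mem_cadj _ _ _

theorem w1F : w 1 ∈ F := by
  rw [h.hb.F_eq]
  exact self_mem_cadj _ _ _

theorem zK : z ∈ K := by
  rw [h.hb.K_eq]
  exact self_mem_cadj _ _ _

theorem omB : ω ^ p ∈ B := by
  rw [h.om]
  exact add_mem (add_mem h.w0B (h.WB h.bW)) (mul_mem (B.algebraMap_mem c) (h.WB h.hb.xW))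

/-- `B` is in the closure of `W(ω)`. -/
theorem leB : B ≤ cadj v W ω := by
  rw [h.hb.B_eq]
  refine cadj_le (cld_cadj _ _ _) (le_cadj _ _ _) ?_
  have h1 := pow_mem (self_mem_cadj v W ω) p
  rw [h.om] at h1
  have h2 := sub_mem (sub_mem h1 (mul_mem ((cadj v W ω).algebraMap_mem c)
    (le_cadj v W ω h.hb.xW))) (le_cadj v W ω h.bW)
  have e1 : w 0 + b + algebraMap k Ω c * x - algebraMap k Ω c * x - b = w 0 := by ring
  rwa [e1] at h2

theorem leF : F ≤ cadj v (cadj v W ω) (w 1) := by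
  rw [h.hb.F_eq]
  exact cadj_mono h.leB _

theorem leK : K ≤ cadj v (cadj v (cadj v W ω) (w 1)) z := by
  rw [h.hb.K_eq]
  exact cadj_mono h.leF _

theorem xF : x ∈ F := h.BF (h.WB h.hb.xW)

theorem omF' : ω ∈ cadj v (cadj v W ω) (w 1) := le_cadj _ _ _ (self_mem_cadj _ _ _)

end gen

section root

variable [IsAlgClosed Ω] [hp : Fact p.Prime] [CharP Ω p]
  (h : BCh p v L W B F K w x z a D₀ b e κ γ t a₀ c ω)

include h

/-- The `p`-th powers of the elements of `W⟨ω⟩` are in `B`. -/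
theorem leRB : cadj v W ω ≤ rootF p 1 B := by
  refine cadj_le (cld_rootF p ?_) (h.WB.trans (le_rootF p B)) ((mem_rootF1 p).2 h.omB)
  rw [h.hb.B_eq]
  exact cld_cadj _ _ _

theorem leRF : cadj v (cadj v W ω) (w 1) ≤ rootF p 1 F := by
  refine cadj_le (cld_rootF p ?_) (h.leRB.trans (rootF_mono p h.BF)) (le_rootF p F h.w1F)
  rw [h.hb.F_eq]
  exact cld_cadj _ _ _

theorem leRK : cadj v (cadj v (cadj v W ω) (w 1)) z ≤ rootF p 1 K := by
  refine cadj_le (cld_rootF p ?_) (h.leRF.trans (rootF_mono p h.FK)) (le_rootF p K h.zK)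
  rw [h.hb.K_eq]
  exact cld_cadj _ _ _

/-- `w 0 + b + c x` is a limit of `p`-th powers. -/
theorem lpom [IsAlgClosed k] : LP p v W 0 (ω ^ p) := by
  rw [h.om]
  refine TWN1.lp_add h.lpw ?_
  intro ε hε
  obtain ⟨g, hg, h2⟩ := h.base.lp ε hε
  obtain ⟨r, hr⟩ := IsAlgClosed.exists_pow_nat_eq c hp.out.pos
  refine ⟨algebraMap k Ω r * g, mul_mem (W.algebraMap_mem r) hg, ?_⟩
  have e1 : algebraMap k Ω c * x - (algebraMap k Ω r * g) ^ p =
      algebraMap k Ω c * (x - g ^ p) := by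
    rw [mul_pow, ← map_pow, hr]
    ring
  rw [e1]
  have h3 := (h.hb.c0.ge c).mul h2
  rwa [zero_add] at h3

/-- `ω` is of transcendental type over `W`. -/
theorem tw [IsAlgClosed k] : TL v W ω 0 := by
  have hp0 : (0 : ℝ) < p := by exact_mod_cast hp.out.pos
  have h1 : TL v W (ω ^ p) 0 := by
    rw [h.om, add_assoc]
    have h2 := h.hb.tw.sub_mem (neg_mem (add_mem h.bW (mul_mem (W.algebraMap_mem c) h.hb.xW)))
    rwa [sub_neg_eq_add] at h2
  have h3 := TL.root p h1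
  rw [zero_div] at h3
  refine ⟨fun ε hε => ?_, fun θ hθ => h3.far θ (D2P.isAlgebraic_mono (le_rootF p W) hθ)⟩
  obtain ⟨g, hg, h4⟩ := h.lpom (p * ε) (mul_pos hp0 hε)
  refine ⟨g, hg, ge_of_pow (p := p) ?_⟩
  rw [sub_pow_p]
  refine h4.mono ?_
  ring_nf
  exact le_rfl

theorem tu : TL v (cadj v W ω) (w 1) 0 :=
  h.hb.tu.mono h.leB (h.leRB.trans (rootF_le_algc p B))

theorem zt : TL v (cadj v (cadj v W ω) (w 1)) z 0 :=
  h.hb.zt.mono h.leF (h.leRF.trans (rootF_le_algc p F))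

/-- `x` is not null over the floors. -/
theorem x_not [IsAlgClosed k] : ¬ PG p v (cadj v (cadj v (cadj v W ω) (w 1)) z) 0 x := fun h1 => by
  have hxW := h.hb.xW
  have hx1 : x ∈ cadj v W ω := le_cadj _ _ _ hxW
  have hx2 : x ∈ cadj v (cadj v W ω) (w 1) := le_cadj _ _ _ hx1
  exact base_not_pg hxW h.base (TWII.PG.down h.tw hxW (TWII.PG.down h.tu hx1
    (TWII.PG.down h.zt hx2 h1)))

/-- The class of `a` over `K'`. -/
theorem rel' [IsAlgClosed k] : PG p v (cadj v (cadj v (cadj v W ω) (w 1)) z) 0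
    (a - (algebraMap k Ω e * z + x * PP p (fun i => κ i - c * γ i) t z + a₀)) := by
  obtain ⟨q, hq, hq'⟩ := exists_PP_root (p := p) K γ t h.zK
  obtain ⟨g, hg, h1⟩ := h.rel
  have hom : ω ∈ cadj v (cadj v (cadj v W ω) (w 1)) z := le_cadj v _ _ h.omF'
  refine ⟨g + ω * q, add_mem (h.leK hg) (mul_mem hom (h.leK hq)), ?_⟩
  have e1 : a - (algebraMap k Ω e * z + x * PP p (fun i => κ i - c * γ i) t z + a₀) -
      (g + ω * q) ^ p = a - (algebraMap k Ω e * z + x * PP p κ t z + (w 0 + b) * PP p γ t z + a₀) -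
      g ^ p := by
    rw [add_pow_char, mul_pow, ← hq', h.om, PP_lin]
    ring
  rwa [e1]

/-- **The tie over `F'`.** -/
theorem tieF [IsAlgClosed k] : TieF p v (cadj v (cadj v W ω) (w 1))
    (cadj v (cadj v (cadj v W ω) (w 1)) z) x z a e (fun i => κ i - c * γ i) t a₀ where
  kap := h.top
  aF := h.leF h.aF
  rel := h.rel'
  tie ε hε := by
    obtain ⟨θ, hθ, h1, g, hg, h2⟩ := h.tie ε hε
    obtain ⟨q, hq, hq'⟩ := exists_PP_root (p := p) F γ t hθ
    refine ⟨θ, h.leF hθ, h1, g - ω * q, sub_mem (h.leF hg) (mul_mem h.omF' (h.leF hq)), ?_⟩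
    have e1 : algebraMap k Ω e * θ + x * PP p (fun i => κ i - c * γ i) t θ + a₀ -
        (g - ω * q) ^ p = algebraMap k Ω e * θ + x * PP p κ t θ + (w 0 + b) * PP p γ t θ + a₀ -
        g ^ p := by
      rw [sub_pow_p, mul_pow, ← hq', h.om, PP_lin]
      ring
    rwa [e1]

/-- The polynomial of the class. -/
theorem exists_poly : ∃ f : Polynomial Ω, f ∈ PI (cadj v (cadj v W ω) (w 1)) ∧
    f.eval z = algebraMap k Ω e * z + x * PP p (fun i => κ i - c * γ i) t z + a₀ ∧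
    hasseDeriv (p ^ (t + 1)) f = C (x * algebraMap k Ω (κ t - c * γ t)) := by
  classical
  set y : ℕ → Ω := fun j => if j = 0 then algebraMap k Ω e else
    x * algebraMap k Ω (κ (j - 1) - c * γ (j - 1)) with hy
  have hyF : ∀ j, y j ∈ cadj v (cadj v W ω) (w 1) := by
    intro j
    simp only [hy]
    split_ifs
    · exact IntermediateField.algebraMap_mem _ _
    · exact mul_mem (h.leF h.xF) (IntermediateField.algebraMap_mem _ _)
  refine ⟨C a₀ + ∑ j ∈ Finset.range (t + 1 + 1), C (y j) * X ^ p ^ j,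
    add_mem (C_mem_PI (h.leF h.aF)) (sum_mem fun j _ => mul_mem (C_mem_PI (hyF j))
      (pow_mem X_mem_PI _)), ?_, ?_⟩
  · rw [eval_add, eval_C, eval_finsetSum, Finset.sum_range_succ']
    have h0 : y 0 = algebraMap k Ω e := by simp [hy]
    have h1 : ∑ i ∈ Finset.range (t + 1), (C (y (i + 1)) * X ^ p ^ (i + 1)).eval z =
        x * PP p (fun i => κ i - c * γ i) t z := by
      rw [PP, Finset.mul_sum]
      refine Finset.sum_congr rfl fun i _ => ?_
      rw [eval_mul, eval_C, eval_pow, eval_X]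
      simp only [hy, Nat.succ_ne_zero, if_false, Nat.add_sub_cancel]
      ring
    rw [h1, eval_mul, eval_C, eval_pow, eval_X, h0, pow_zero, pow_one]
    ring
  · have hl : p ^ (t + 1) ≠ 0 := pow_ne_zero _ hp.out.ne_zero
    rw [map_add, TWN1.hasse_add_poly y (t + 1) hl,
      hasseDeriv_eq_zero_of_lt_natDegree (C a₀) (p ^ (t + 1)) (by
        rw [natDegree_C]
        exact Nat.pos_of_ne_zero hl), zero_add,
      Finset.sum_eq_single_of_mem (t + 1) (Finset.mem_range.2 (by omega))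
        (fun i _ hij => if_neg fun h3 => hij
          (Nat.pow_right_injective hp.out.two_le h3.symm)), if_pos rfl]
    simp [hy]

/-- A polynomial with the class of `a` has a `p`-jet which is not null. -/
theorem jet_not [IsAlgClosed k] {g : Polynomial Ω} (hg : g ∈ PI (cadj v (cadj v W ω) (w 1)))
    (h1 : PG p v (cadj v (cadj v (cadj v W ω) (w 1)) z) 0 (a - g.eval z)) :
    ¬ PG p v (cadj v (cadj v (cadj v W ω) (w 1)) z) 0 ((hasseDeriv (p ^ (t + 1)) g).eval z) := by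
  intro h2
  obtain ⟨f, hf, hfe, hfj⟩ := h.exists_poly
  have hl : p ^ (t + 1) ≠ 0 := pow_ne_zero _ hp.out.ne_zero
  have h3 := PG.sub h1 h.rel'
  rw [← hfe] at h3
  have e1 : a - g.eval z - (a - f.eval z) = (f - g).eval z := by
    rw [eval_sub]
    ring
  rw [e1] at h3
  have h4 := TWRR.pg_jet h.zt (sub_mem hf hg) h3 hl
  rw [mul_zero, sub_zero, map_sub, eval_sub, hfj, eval_C] at h4
  have h5 := h4.add h2
  rw [sub_add_cancel] at h5
  obtain ⟨r, hr⟩ := IsAlgClosed.exists_pow_nat_eq (κ t - c * γ t) hp.out.pos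
  have hr0 : r ≠ 0 := by
    rintro rfl
    rw [zero_pow hp.out.ne_zero] at hr
    exact h.top hr.symm
  have hr1 : algebraMap k Ω r ≠ 0 := by
    rwa [Ne, map_eq_zero]
  refine h.x_not ?_
  have h6 := TWRR.pg_scale (p := p) (t := (algebraMap k Ω r)⁻¹)
    (inv_mem (IntermediateField.algebraMap_mem _ r)) (inv_ne_zero hr1) h5
  have e2 : (algebraMap k Ω r)⁻¹ ^ p * (x * algebraMap k Ω (κ t - c * γ t)) = x := by
    rw [← hr, map_pow, inv_pow]
    field_simp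
  have e3 : (0 : ℝ) + p * v (algebraMap k Ω r)⁻¹ = 0 := by
    rw [v.map_inv hr1, h.hb.c0.triv _ hr0]
    ring
  rwa [e2, e3] at h6

theorem crit [IsAlgClosed k] : ∀ g ∈ cadj v (cadj v (cadj v W ω) (w 1)) z,
    ¬ Gt v 0 (a - g ^ p) := by
  intro g hg h1
  obtain ⟨f, hf, hfe, hfj⟩ := h.exists_poly
  have hl : p ^ (t + 1) ≠ 0 := pow_ne_zero _ hp.out.ne_zero
  have h2 : PG p v (cadj v (cadj v (cadj v W ω) (w 1)) z) 0 a := ⟨g, hg, h1⟩
  refine h.jet_not (g := 0) (zero_mem _) (by rwa [eval_zero, sub_zero]) ?_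
  rw [map_zero, eval_zero]
  exact PG.of_gt Gt.zero

theorem hit [IsAlgClosed k] : ¬ Unh p v (cadj v (cadj v W ω) (w 1))
    (cadj v (cadj v (cadj v W ω) (w 1)) z) z 0 0 a := by
  rintro ⟨g, hg, h1, h2⟩
  refine h.jet_not hg h1 ?_
  have h3 := h2 (p ^ (t + 1)) (dvd_pow_self p (Nat.succ_ne_zero t)) (pow_ne_zero _ hp.out.ne_zero)
  rwa [mul_zero, sub_zero, taylor_coeff] at h3

/-- **The data over `W⟨ω⟩`.** -/
theorem hb' [IsAlgClosed k] (hnh : ¬ Hit p v (cadj v W ω) (w 1) 0)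
    (hnpar : ∀ g ∈ cadj v W ω, ¬ Lim v W 0 (w 1 - g))
    (hmv : MovV v L W ω 0 ∨ MovR v L W ω 0) :
    HB p v L W (cadj v W ω) (cadj v (cadj v W ω) (w 1))
      (cadj v (cadj v (cadj v W ω) (w 1)) z) ![ω, w 1] x z a where
  c0 := h.hb.c0
  cv := h.hb.cv
  sph := h.hb.sph
  hval := h.hb.hval
  cld := h.hb.cld
  full := h.hb.full
  gp := h.hb.gp
  xW := h.hb.xW
  mono := h.hb.mono
  le := h.hb.le
  dense := h.hb.dense
  tw := h.tw
  B_eq := rfl
  tu := h.tu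
  F_eq := rfl
  nh := hnh
  npar := hnpar
  zt := h.zt
  K_eq := rfl
  aK := h.leK h.hb.aK
  lp := fun ε hε => by
    obtain ⟨g, hg, h1⟩ := h.hb.lp ε hε
    exact ⟨g, h.leK hg, h1⟩
  crit := h.crit
  hit := h.hit
  mv := hmv

end root

end BCh

end Pool.Agent.TWRW
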