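import Pool.Agent.Lib.TWRB.Core
import Pool.Agent.Lib.TWRR.R5
import Pool.Agent.Lib.TWRW.Cl

/-!
# RowB, the trichotomy: the data `HB` for a jet

* `hb_poly`: `HB` for a critical element `g(z)` with a `p`-jet which is not null;
* `hb_jet`: `HB` for `c * (hasseDeriv q f)(z)`.
-/

set_option autoImplicit false

open Polynomial Finset

namespace Pool.Agent.TWRW

open Pool.Agent.H15JM (RVal)
open Pool.Agent.D2 (Ctx0)
open Pool.Agent.TWM
open Pool.Agent.TWII (PG LP)
open Pool.Agent.TWN1 (Unh)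
open Pool.Agent.TWRB (HB)

universe u

variable {k Ω : Type u} [Field k] [Field Ω] [Algebra k Ω] {v : RVal Ω}
  {L : ℕ → IntermediateField k Ω} {W B F K : IntermediateField k Ω} {w : Fin 2 → Ω}
  {x z a : Ω} {p : ℕ} [hp : Fact p.Prime] [CharP Ω p] [IsAlgClosed Ω]

/-- **The data for another critical element** of `K`, with a `p`-jet which is not null. -/
theorem hb_poly (h : HB p v L W B F K w x z a) {g : Polynomial Ω} (hg : g ∈ PI F)
    (hlp : LP p v K 0 (g.eval z)) {m : ℕ} (hm : m ≠ 0) (hpm : p ∣ m)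
    (hn : ¬ PG p v K 0 ((hasseDeriv m g).eval z)) : HB p v L W B F K w x z (g.eval z) := by
  have hFK : F ≤ K := by
    rw [h.K_eq]
    exact le_cadj _ _ _
  have hzK : z ∈ K := by
    rw [h.K_eq]
    exact self_mem_cadj _ _ _
  have hgK : g.eval z ∈ K := eval_mem (PI_mono hFK hg) hzK
  have key : ∀ f ∈ PI F, PG p v K 0 (g.eval z - f.eval z) →
      ¬ PG p v K 0 ((hasseDeriv m f).eval z) := by
    intro f hf h1 h2
    apply hn
    have h3 : PG p v (cadj v F z) 0 ((g - f).eval z) := by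
      rw [← h.K_eq, eval_sub]
      exact h1
    have h4 := TWRR.pg_jet h.zt (sub_mem hg hf) h3 hm
    rw [mul_zero, sub_zero, ← h.K_eq, map_sub, eval_sub] at h4
    have h5 := h4.add h2
    rwa [sub_add_cancel] at h5
  refine ⟨h.c0, h.cv, h.sph, h.hval, h.cld, h.full, h.gp, h.xW, h.mono, h.le, h.dense, h.tw, h.B_eq,
    h.tu, h.F_eq, h.nh, h.npar, h.zt, h.K_eq, hgK, hlp, fun y hy h1 => ?_, ?_, h.mv⟩
  · refine key 0 (zero_mem _) ?_ ?_
    · rw [eval_zero, sub_zero]
      exact ⟨y, hy, h1⟩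
    · rw [map_zero, eval_zero]
      exact PG.of_gt Gt.zero
  · rintro ⟨f, hf, h1, h2⟩
    refine key f hf h1 ?_
    have h3 := h2 m hpm hm
    rwa [mul_zero, sub_zero, taylor_coeff] at h3

/-- **The data for a jet.** -/
theorem hb_jet [IsAlgClosed k] (h : HB p v L W B F K w x z a) {f : Polynomial Ω} (hf : f ∈ PI F)
    (hfa : v.Ge 1 (a - f.eval z)) {q : ℕ} (hq : q ≠ 0) (hpq : p ∣ q) {c : k} (hc : c ≠ 0) {m : ℕ}
    (hm : m ≠ 0) (hpm : p ∣ m)
    (hn : ¬ PG p v K 0 ((hasseDeriv m (hasseDeriv q f)).eval z)) :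
    HB p v L W B F K w x z (algebraMap k Ω c * (hasseDeriv q f).eval z) := by
  have hlf : LP p v (cadj v F z) 0 (f.eval z) := by
    rw [← h.K_eq]
    have h1 := h.lp.sub (TWN1.lp_of_ge (hfa.mono zero_le_one))
    rwa [sub_sub_cancel] at h1
  have hlq : LP p v K 0 ((hasseDeriv q f).eval z) := by
    have h1 := TWII.LP.jet p h.zt hf hlf hpq
    rw [mul_zero, sub_zero, ← h.K_eq, taylor_coeff] at h1
    exact h1
  have e1 : (Polynomial.C (algebraMap k Ω c) * hasseDeriv q f).eval z =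
      algebraMap k Ω c * (hasseDeriv q f).eval z := by
    rw [eval_mul, eval_C]
  have e2 : hasseDeriv m (Polynomial.C (algebraMap k Ω c) * hasseDeriv q f) =
      Polynomial.C (algebraMap k Ω c) * hasseDeriv m (hasseDeriv q f) := by
    rw [← smul_eq_C_mul, map_smul, smul_eq_C_mul]
  rw [← e1]
  refine hb_poly h (mul_mem (C_mem_PI (F.algebraMap_mem c)) (hasse_mem_PI hf q)) ?_ hm hpm ?_
  · rw [e1]
    exact lp_const h.c0 hlq c
  · intro h1
    apply hn
    rw [e2, eval_mul, eval_C] at h1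
    have h2 := pg_constL h.c0 h1 c⁻¹
    rw [← mul_assoc, ← map_mul, inv_mul_cancel₀ hc, map_one, one_mul] at h2
    exact h2

end Pool.Agent.TWRW
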