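import Pool.Agent.Lib.TWCT.ConS

/-!
# RowB, the base change: the motions of a `p`-th root of a critical element

`w = ω ^ p + b`, `b ∈ W`, `ω` is a limit over `W`: if `w` moves over `W`, then `ω` moves over `W`
(`mov_root`).
-/

set_option autoImplicit false

open Finset

namespace Pool.Agent.TWRW

open Pool.Agent.H15JM (RVal)
open Pool.Agent.LU1 (VPos)
open Pool.Agent.D2 (Ctx0)
open Pool.Agent.D2P (clI mem_clI)
open Pool.Agent.TWM
open Pool.Agent.TWS (IsoE SphC)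
open Pool.Agent.TWCT

universe u

variable {k Ω : Type u} [Field k] [Field Ω] [Algebra k Ω] {v : RVal Ω} {p : ℕ}
  {A W : IntermediateField k Ω} {L : ℕ → IntermediateField k Ω} {w ω b : Ω}

/-- If a power is small, then the element is. -/
theorem gt_of_pow {p : ℕ} (hp : 0 < p) {x : Ω} (h : Gt v 0 (x ^ p)) : Gt v 0 x := by
  intro h0
  have h1 := h (pow_ne_zero p h0)
  rw [v.map_pow h0] at h1
  have hp' : (0 : ℝ) < p := by exact_mod_cast hp
  by_contra h2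
  have h3 : (p : ℝ) * v x ≤ 0 := mul_nonpos_of_nonneg_of_nonpos hp'.le (not_lt.1 h2)
  linarith

/-- **The displacement of the root**: `Z` is near to the `p`-th power of `Φ h - h`. -/
theorem disp_root [hp : Fact p.Prime] [CharP Ω p] (hw : w = ω ^ p + b) (hb : b ∈ W)
    {Φ : Ω →ₐ[k] Ω} {η : ℝ} {Z : Ω} (h2 : SMo v A (cadj v W w) Φ η) (hZ : Φ w = w + Z)
    (hbΦ : Gt v 0 (Φ b - b)) {h : Ω} (hh : h ∈ W)
    (h3 : v.Ge (-(η / (2 * p))) (ω - h)) : Gt v 0 (Z - (Φ h - h) ^ p) := by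
  have hp0 : (0 : ℝ) < p := by exact_mod_cast hp.out.pos
  have hη := h2.pos
  have hWc : W ≤ cadj v W w := le_cadj v W w
  have hmem : w - b - h ^ p ∈ cadj v W w :=
    sub_mem (sub_mem (self_mem_cadj v W w) (hWc hb)) (pow_mem (hWc hh) p)
  have e1 : w - b - h ^ p = (ω - h) ^ p := by
    rw [sub_pow_char, hw]
    ring
  have h4 : v.Ge (-(η / 2)) (w - b - h ^ p) := by
    rw [e1]
    refine (ge_pow h3 p).mono ?_
    have : (p : ℝ) * -(η / (2 * p)) = -(η / 2) := by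
      field_simp
    rw [this]
  have h5 := h2.str _ hmem _ h4
  have e2 : Z - (Φ h - h) ^ p = (Φ (w - b - h ^ p) - (w - b - h ^ p)) + (Φ b - b) := by
    rw [sub_pow_char, map_sub, map_sub, map_pow, hZ]
    ring
  rw [e2]
  refine Gt.add (Gt.of_ge h5 ?_) hbΦ
  linarith

/-- **Visible motions of the root.** -/
theorem movV_root [hp : Fact p.Prime] [CharP Ω p] [IsAlgClosed Ω] (hk : Ctx0 k v) (hsp : SphC v)
    (hval : ∀ ρ : ℝ, ∃ x : Ω, x ≠ 0 ∧ v x = ρ) (hcv : CompleteV v) (hL : Monotone L)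
    (hLW : ∀ J, L J ≤ W) (hd : W ≤ clI v (⨆ J, L J)) (hω : TL v W ω 0) (hw : w = ω ^ p + b)
    (hb : b ∈ W) (h : MovV v L W w 0) : MovV v L W ω 0 := by
  intro J ε hε
  have hp0 : (0 : ℝ) < p := by exact_mod_cast hp.out.pos
  have hp1 : (1 : ℝ) ≤ p := by exact_mod_cast hp.out.one_lt.le
  obtain ⟨J₁, hJ₁⟩ := exists_level hL hd {b} (fun y hy => by
    rw [mem_singleton.1 hy]
    exact hb) 1
  obtain ⟨Φ, η, Z, h1, h2, h3, h4, h5, h6, h7⟩ := h (max J J₁) ε hε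
  have hη := h1.pos
  have h8 := hJ₁ _ (le_max_right J J₁) Φ h1.iso h1.fix b (mem_singleton_self b)
  obtain ⟨g, hg, hg1⟩ := hω.lim (η / (2 * p)) (by positivity)
  rw [zero_sub] at hg1
  have h9 := disp_root hw hb h2 h3 (Gt.of_ge h8 one_pos) hg hg1
  have h10 : v ((Φ g - g) ^ p) = v Z ∧ (Φ g - g) ^ p ≠ 0 := by
    obtain ⟨h11, h12⟩ := Gt.val_eq h5 (h9.mono h7.le)
    exact ⟨h12, h11⟩
  have h11 : Φ g - g ≠ 0 := fun h0 => h10.2 (by rw [h0, zero_pow hp.out.ne_zero])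
  have h12 : (p : ℝ) * v (Φ g - g) = v Z := by rw [← v.map_pow h11, h10.1]
  have hdiv : η / (2 * p) ≤ η / 2 := by
    apply div_le_div_of_nonneg_left hη.le (by norm_num)
    linarith
  obtain ⟨Φ', η', -, h13, h14, -, h15⟩ := h1.ext hk hsp hval hcv (hLW _) hω hg
    (hg1.mono (by linarith)) (sub_mem (h1.mem hg) hg) (by rw [sub_self]; exact Gt.zero)
  refine ⟨Φ', η', Φ g - g, h13.mono (hL (le_max_left _ _)) h13.pos le_rfl,
    h14.mono (hL (le_max_left _ _)) h14.pos le_rfl, h15, sub_mem (h1.mem hg) hg, h11, ?_, ?_⟩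
  · by_contra h16
    have h17 : (p : ℝ) * v (Φ g - g) ≤ p * (0 - ε) := mul_le_mul_of_nonneg_left (not_lt.1 h16) hp0.le
    nlinarith
  · by_contra h16
    have h17 : (0 : ℝ) ≤ p * v (Φ g - g) := mul_nonneg hp0.le (not_lt.1 h16)
    linarith

/-- **The residues of the displacements of the root.** -/
theorem movR_root [hp : Fact p.Prime] [CharP Ω p] [CharP k p] [IsAlgClosed k] [IsAlgClosed Ω]
    (hk : Ctx0 k v) (hsp : SphC v)
    (hval : ∀ ρ : ℝ, ∃ x : Ω, x ≠ 0 ∧ v x = ρ) (hcv : CompleteV v) (hL : Monotone L)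
    (hLW : ∀ J, L J ≤ W) (hd : W ≤ clI v (⨆ J, L J)) (hω : TL v W ω 0) (hw : w = ω ^ p + b)
    (hb : b ∈ W) (h : MovR v L W w 0) : MovR v L W ω 0 := by
  classical
  have hp0 : (0 : ℝ) < p := by exact_mod_cast hp.out.pos
  have hp1 : (1 : ℝ) ≤ p := by exact_mod_cast hp.out.one_lt.le
  obtain ⟨t, ht, ht0, hvt, hm⟩ := h
  obtain ⟨τ, hτ, hτ1⟩ := hk.res t ht0 hvt
  refine ⟨1, one_mem W, one_ne_zero, v.map_one, fun J R => ?_⟩
  obtain ⟨J₁, hJ₁⟩ := exists_level hL hd {b} (fun y hy => by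
    rw [mem_singleton.1 hy]
    exact hb) 1
  obtain ⟨Φ, η, c, hc, h1, h2, h3⟩ := hm (max J J₁) (R.image fun r => r ^ p / τ)
  have hη := h1.pos
  have h8 := hJ₁ _ (le_max_right J J₁) Φ h1.iso h1.fix b (mem_singleton_self b)
  obtain ⟨g, hg, hg1⟩ := hω.lim (η / (2 * p)) (by positivity)
  rw [zero_sub] at hg1
  have h9 := disp_root hw hb h2 h3 (Gt.of_ge h8 one_pos) hg hg1
  obtain ⟨r, hr⟩ := IsAlgClosed.exists_pow_nat_eq (c * τ) hp.out.pos
  have hdiv : η / (2 * p) ≤ η / 2 := by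
    apply div_le_div_of_nonneg_left hη.le (by norm_num)
    linarith
  have h10 : Gt v 0 (algebraMap k Ω r - (Φ g - g)) := by
    refine gt_of_pow hp.out.pos ?_
    rw [sub_pow_char, ← map_pow, hr]
    have e : algebraMap k Ω (c * τ) - (Φ g - g) ^ p =
        (algebraMap k Ω c * t - (Φ g - g) ^ p) - (t - algebraMap k Ω τ) * algebraMap k Ω c := by
      rw [map_mul]
      ring
    rw [e]
    refine h9.sub ?_
    have h11 : Gt v 0 (t - algebraMap k Ω τ) := hτ1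
    have := h11.mul_ge (hk.ge c)
    rwa [add_zero] at this
  obtain ⟨Φ', η', -, h13, h14, -, h15⟩ := h1.ext hk hsp hval hcv (hLW _) hω hg
    (hg1.mono (by linarith)) (W.algebraMap_mem r) h10
  refine ⟨Φ', η', r, fun hrR => hc (mem_image.2 ⟨r, hrR, ?_⟩),
    h13.mono (hL (le_max_left _ _)) h13.pos le_rfl,
    h14.mono (hL (le_max_left _ _)) h14.pos le_rfl, by rw [h15, mul_one]⟩
  rw [hr, mul_div_assoc, div_self hτ, mul_one]

/-- **The motions of the root.** -/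
theorem mov_root [hp : Fact p.Prime] [CharP Ω p] [CharP k p] [IsAlgClosed k] [IsAlgClosed Ω]
    (hk : Ctx0 k v) (hsp : SphC v)
    (hval : ∀ ρ : ℝ, ∃ x : Ω, x ≠ 0 ∧ v x = ρ) (hcv : CompleteV v) (hL : Monotone L)
    (hLW : ∀ J, L J ≤ W) (hd : W ≤ clI v (⨆ J, L J)) (hω : TL v W ω 0) (hw : w = ω ^ p + b)
    (hb : b ∈ W) (h : MovV v L W w 0 ∨ MovR v L W w 0) : MovV v L W ω 0 ∨ MovR v L W ω 0 :=
  h.imp (movV_root hk hsp hval hcv hL hLW hd hω hw hb)
    (movR_root hk hsp hval hcv hL hLW hd hω hw hb)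

end Pool.Agent.TWRW
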