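import Pool.Agent.Lib.TWCT.J1S
import Pool.Agent.Lib.TWRT.RT6

/-!
# CT, j = 1, row B, the base change: the second floor is not hit

`nh_of_npar`: over a moving first floor, a second floor which is hit comes from the base.
-/

set_option autoImplicit false

open Polynomial Finset

namespace Pool.Agent.TWRW

open Pool.Agent.H15JM (RVal)
open Pool.Agent.D2 (Ctx0)
open Pool.Agent.D2P (clI)
open Pool.Agent.TWM
open Pool.Agent.TWCT (MovV MovR Hit)

universe u

variable {k Ω : Type u} [Field k] [Field Ω] [Algebra k Ω] {v : RVal Ω}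
  {W : IntermediateField k Ω} {ω u : Ω} {ρ s : ℝ} {p : ℕ} [hp : Fact p.Prime] [CharP Ω p]
  [IsAlgClosed Ω] [IsAlgClosed k]

/-- **The second floor is not hit**, if it does not come from the base. -/
theorem nh_of_npar (hk : Ctx0 k v) (hcv : CompleteV v) {L : ℕ → IntermediateField k Ω}
    (hL : Monotone L) (hd : W ≤ clI v (⨆ J, L J)) (hω : TL v W ω ρ)
    (hmv : MovV v L W ω ρ ∨ MovR v L W ω ρ) (hu : TL v (cadj v W ω) u s)
    (hnp : ∀ g ∈ cadj v W ω, ¬ Lim v W s (u - g)) : ¬ Hit p v (cadj v W ω) u s := by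
  intro h
  obtain ⟨h0, hrat⟩ := TWRT.mov_h0w_ratH (p := p) hk hL hd hω hmv
  obtain ⟨g, hg, hP⟩ := TWCT.exists_par_of_hit hcv hω h0 hrat hu h
  exact hnp g hg hP.t2.lim

end Pool.Agent.TWRW
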