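import Pool.Agent.Lib.TWII.Soc

/-!
# RowB, the base change: the root of a critical element is a limit over the base

* `root_lim`: `w + b`, `b ∈ W`, critical in `W⟨w⟩`, is a limit of `p`-th powers of `W`;
* `tl_root`: its `p`-th root is a limit over `W`, transcendental.
-/

set_option autoImplicit false

open Polynomial

namespace Pool.Agent.TWRW

open Pool.Agent.H15JM (RVal)
open Pool.Agent.D2 (Ctx0)
open Pool.Agent.TWM
open Pool.Agent.TWII (LP PG)

universe u

variable {k Ω : Type u} [Field k] [Field Ω] [Algebra k Ω] {v : RVal Ω} {p : ℕ}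
  {W : IntermediateField k Ω} {w ω b : Ω}

/-- A root is as small as its power. -/
theorem ge_of_pow (hp : 0 < p) {x : Ω} {r : ℝ} (h : v.Ge (p * r) (x ^ p)) : v.Ge r x := by
  intro h0
  have h1 := h (pow_ne_zero p h0)
  rw [v.map_pow h0] at h1
  have hp' : (0 : ℝ) < p := by exact_mod_cast hp
  exact le_of_mul_le_mul_left h1 hp'

/-- **A critical element is a limit of `p`-th powers of the base.** -/
theorem root_lim [hp : Fact p.Prime] [CharP Ω p] [IsAlgClosed Ω] (hw : TL v W w 0) (hb : b ∈ W)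
    (h : LP p v (cadj v W w) 0 (w + b)) {ε : ℝ} (hε : 0 < ε) :
    ∃ h ∈ W, v.Ge (-ε) (w + b - h ^ p) := by
  have hf : (X + C b : Polynomial Ω) ∈ PI W := add_mem X_mem_PI (C_mem_PI hb)
  obtain ⟨G, hG, h1⟩ := LP.poly p (f := X + C b) hw (by rwa [eval_add, eval_X, eval_C]) hε
  rw [zero_sub] at h1
  set E : Polynomial Ω := X + C b - G ^ p with hE
  have hEW : E ∈ PI W := sub_mem hf (pow_mem hG p)
  have key : ∀ h₀ ∈ W, v.Ge (-ε) (w - h₀) → v.Ge (-ε) (E.eval h₀) →
      ∃ h ∈ W, v.Ge (-ε) (w + b - h ^ p) := by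
    intro h₀ h2 h3 h4
    refine ⟨G.eval h₀, eval_mem hG h2, ?_⟩
    have e : w + b - G.eval h₀ ^ p = (w - h₀) + E.eval h₀ := by
      rw [hE, eval_sub, eval_add, eval_X, eval_C, eval_pow]
      ring
    rw [e]
    exact h3.add h4
  by_cases hE0 : E = 0
  · obtain ⟨h₀, h2, h3⟩ := hw.lim ε hε
    rw [zero_sub] at h3
    exact key h₀ h2 h3 (by rw [hE0, eval_zero]; exact RVal.Ge.zero)
  · obtain ⟨δ, hδ, h2⟩ := hw.near_val (PI_mono (le_algc W) hEW) hE0
    obtain ⟨h₀, h3, h4⟩ := hw.lim (min ε δ) (lt_min hε hδ)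
    obtain ⟨h5, h6⟩ := h2 h₀ (h4.mono (by linarith [min_le_right ε δ]))
    refine key h₀ h3 (h4.mono (by linarith [min_le_left ε δ])) fun _ => ?_
    rw [h6]
    exact h1 (hw.eval_ne (PI_mono (le_algc W) hEW) hE0)

/-- **The root is a limit over the base**, transcendental. -/
theorem tl_root [hp : Fact p.Prime] [CharP Ω p] {w' : Ω} (hw : TL v W w' 0)
    (h : ∀ ε : ℝ, 0 < ε → ∃ h ∈ W, v.Ge (-ε) (w' - h ^ p)) (hω : ω ^ p = w') : TL v W ω 0 where
  lim ε hε := by
    have hp0 : (0 : ℝ) < p := by exact_mod_cast hp.out.pos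
    obtain ⟨y, hy, h1⟩ := h (p * ε) (mul_pos hp0 hε)
    refine ⟨y, hy, ge_of_pow hp.out.pos ?_⟩
    rw [sub_pow_char, hω]
    exact h1.mono (by linarith)
  far θ hθ := by
    obtain ⟨h1, h2⟩ := hw.far (θ ^ p) (hθ.pow p)
    rw [← hω] at h1 h2
    have h3 : ω ≠ θ := fun h0 => h1 (by rw [h0])
    refine ⟨h3, ?_⟩
    rw [← sub_pow_char, v.map_pow (sub_ne_zero.2 h3)] at h2
    have hp0 : (0 : ℝ) < p := by exact_mod_cast hp.out.pos
    by_contra h4
    have h5 : (0 : ℝ) ≤ p * v (ω - θ) := mul_nonneg hp0.le (not_lt.1 h4)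
    linarith

end Pool.Agent.TWRW
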