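import Pool.Agent.Lib.TWRB.Core

/-!
# The base change `ω = (w + b)^(1/p)`: the shape of `w 1` along `ω`

`shU_root`: if `w 1` has the shape `U` along `w 0` and `ω ^ p = w 0 + b`, `b ∈ W`, then it has the shape
`U(s ^ p)` along `ω`.
-/

set_option autoImplicit false

open Polynomial Finset

namespace Pool.Agent.TWRW

open Pool.Agent.H15JM (RVal)
open Pool.Agent.D2 (Ctx0)
open Pool.Agent.TWM
open Pool.Agent.TWRB

universe u

variable {k Ω : Type u} [Field k] [Field Ω] [Algebra k Ω] {v : RVal Ω}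
  {W : IntermediateField k Ω} {w : Fin 2 → Ω} {ω b : Ω} {U : Polynomial Ω} {p : ℕ}

private theorem comp_PI8 {F : IntermediateField k Ω} {f g : Polynomial Ω} (hf : f ∈ PI F)
    (hg : g ∈ PI F) : f.comp g ∈ PI F := by
  rw [comp, eval₂_eq_sum_range]
  exact sum_mem fun i _ => mul_mem (C_mem_PI (hf i)) (pow_mem hg i)

/-- The translations by constants keep the bounds of the values of the polynomials. -/
theorem tl_ge_shift [IsAlgClosed Ω] (hk : Ctx0 k v) (hω : TL v W ω 0) {r : Polynomial Ω}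
    (hr : r ∈ PI W) {e : ℝ} (h : v.Ge e (r.eval ω)) (s : k) :
    v.Ge e (r.eval (ω + algebraMap k Ω s)) := by
  by_cases h0 : r = 0
  · rw [h0, eval_zero]
    exact RVal.Ge.zero
  have hr' : r ∈ PI (TWM.algc W) := PI_mono (le_algc W) hr
  have h1 : v.Ge (v (r.eval ω)) (r.eval (ω + algebraMap k Ω s)) := by
    rw [eval_eq_taylor r ω (ω + algebraMap k Ω s), add_sub_cancel_left,
      eval_eq_sum_range (p := taylor ω r)]
    refine RVal.Ge.sum _ _ fun j _ => ?_
    have h2 := hω.weak hr' h0 j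
    rw [mul_zero, sub_zero] at h2
    have h3 := h2.mul (ge_pow (hk.ge s) j)
    rwa [mul_zero, add_zero] at h3
  exact h1.mono (h (hω.eval_ne hr' h0))

/-- **The shape along `ω`.** -/
theorem shU_root [Fact p.Prime] [CharP Ω p] [IsAlgClosed Ω] (hk : Ctx0 k v)
    (hω : TL v W ω 0) (hw : TL v W (w 0) 0) (hωp : ω ^ p = w 0 + b) (hb : b ∈ W)
    (hl : Lim v (cadj v W (w 0)) 0 (w 1)) (h : ShU v W w U) :
    ShU v W ![ω, w 1] (expand Ω p U) := by
  have hp : 0 < p := (Fact.out : p.Prime).pos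
  obtain ⟨h0, h1, h2⟩ := h
  have hle : cadj v W (w 0) ≤ cadj v W ω := by
    refine cadj_le (cld_cadj v W ω) (le_cadj v W ω) ?_
    have e : w 0 = ω ^ p - b := by rw [hωp, add_sub_cancel_right]
    rw [e]
    exact sub_mem (pow_mem (self_mem_cadj v W ω) p) (le_cadj v W ω hb)
  refine ⟨?_, fun j => ?_, fun ε hε => ?_⟩
  · rw [coeff_expand hp, if_pos (dvd_zero p), Nat.zero_div, h0]
  · rw [coeff_expand hp]
    split_ifs
    · exact (h1 _).mono hle
    · intro ε _
      exact ⟨0, zero_mem _, by rw [sub_zero]; exact RVal.Ge.zero⟩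
  obtain ⟨η, hη, h3⟩ := h2 ε hε
  refine ⟨min η ε, lt_min hη hε, fun q hq hq1 s => ?_⟩
  change v.Ge (-ε) (q.eval (ω + algebraMap k Ω s) - q.eval ω -
    (expand Ω p U).eval (algebraMap k Ω s))
  change v.Ge (-min η ε) (w 1 - q.eval ω) at hq1
  obtain ⟨θ, hθ, h4⟩ := hl (min η ε) (lt_min hη hε)
  obtain ⟨f, hf, h5⟩ := hw.dense hθ (-min η ε)
  have h6 : v.Ge (-min η ε) (w 1 - f.eval (w 0)) := by
    have e : w 1 - f.eval (w 0) = (w 1 - θ) + (θ - f.eval (w 0)) := by ring
    rw [e]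
    rw [zero_sub] at h4
    exact h4.add h5
  have h7 := h3 f hf (h6.mono (by linarith [min_le_left η ε])) (s ^ p)
  obtain ⟨r, hr⟩ : ∃ r : Polynomial Ω, r = q - f.comp (X ^ p - C b) := ⟨_, rfl⟩
  have hrm : r ∈ PI W := by
    rw [hr]
    exact sub_mem hq (comp_PI8 hf (sub_mem (pow_mem X_mem_PI p) (C_mem_PI hb)))
  have hev : ∀ t : Ω, r.eval t = q.eval t - f.eval (t ^ p - b) := fun t => by
    rw [hr, eval_sub, eval_comp, eval_sub, eval_pow, eval_X, eval_C]
  have h8 : v.Ge (-min η ε) (r.eval ω) := by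
    rw [hev, hωp, add_sub_cancel_right]
    have e : q.eval ω - f.eval (w 0) = (w 1 - f.eval (w 0)) - (w 1 - q.eval ω) := by ring
    rw [e]
    exact h6.sub hq1
  have h9 := tl_ge_shift hk hω hrm h8 s
  have e : q.eval (ω + algebraMap k Ω s) - q.eval ω - (expand Ω p U).eval (algebraMap k Ω s) =
      (r.eval (ω + algebraMap k Ω s) - r.eval ω) +
        (f.eval (w 0 + algebraMap k Ω (s ^ p)) - f.eval (w 0) -
          U.eval (algebraMap k Ω (s ^ p))) := by
    rw [hev, hev, add_pow_char, hωp, expand_eval, map_pow]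
    have e1 : w 0 + b + algebraMap k Ω s ^ p - b = w 0 + algebraMap k Ω s ^ p := by ring
    rw [e1, add_sub_cancel_right]
    ring
  rw [e]
  exact ((h9.sub h8).mono (by linarith [min_le_right η ε])).add h7

end Pool.Agent.TWRW
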