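import Pool.Agent.Lib.TWRB.R12A
import Pool.Agent.Lib.TWRB.R12C
import Pool.Agent.Lib.TWCY.V0R
import Pool.Agent.Lib.TWCY.E1

/-!
# CT, j = 1, row B, the bad case: `F(ω)` and `F`

`ω ^ p ∈ F`, `ω` a limit of `F`, `F' = F(ω)`.

* `near_of_der`: the limits of `F` in `F(ω)` are in `k ω + F + O(> 0)`;
* `near_root`, `npar_root`: the same for `F = W⟨ω ^ p⟩⟨u⟩` and for `W⟨ω ^ p⟩`;
* `near_of_two`, `near_of_roots`: a limit of `F` near `F(ω)` and near `F(ω')` is near `F`.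
-/

set_option autoImplicit false
set_option linter.unusedSectionVars false

open Polynomial Finset

namespace Pool.Agent.TWRW

open Pool.Agent.H15JM (RVal)
open Pool.Agent.LU1 (VPos adj)
open Pool.Agent.D2 (Ctx0)
open Pool.Agent.D2P (clI mem_clI)
open Pool.Agent.TWM
open Pool.Agent.TWS (IsoE SphC)
open Pool.Agent.TWCY (Drv NatA BaseD)

universe u

variable {k Ω : Type u} [Field k] [Field Ω] [Algebra k Ω] {v : RVal Ω} {p : ℕ}
  {W B F : IntermediateField k Ω} {ω y u : Ω}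

/-- The elements of `A(t)`, `t ^ p ∈ A`, are polynomials in `t` of degree `< p`. -/
theorem exists_poly_of_mem_adj {A : IntermediateField k Ω} (hp : p ≠ 0) {t b : Ω}
    (ht : t ^ p ∈ A) (hb : b ∈ adj A t) : ∃ Q ∈ PI A, Q.natDegree < p ∧ Q.eval t = b := by
  have ht' : IsAlgebraic A t := by
    refine IsAlgebraic.of_pow (Nat.pos_of_ne_zero hp) ?_
    exact isAlgebraic_algebraMap (⟨t ^ p, ht⟩ : A)
  rw [adj_eq_restrict] at hb
  have h1 : b ∈ (IntermediateField.adjoin A {t}).toSubalgebra := hb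
  rw [IntermediateField.adjoin_simple_toSubalgebra_of_isAlgebraic ht',
    Algebra.adjoin_singleton_eq_range_aeval] at h1
  obtain ⟨P, hP⟩ := h1
  set m : A[X] := X ^ p - C ⟨t ^ p, ht⟩ with hm
  have hmon : m.Monic := monic_X_pow_sub_C _ hp
  have hdeg : m.natDegree = p := natDegree_X_pow_sub_C
  have hmt : aeval t m = 0 := by
    rw [hm, map_sub, map_pow, aeval_X, aeval_C]
    exact sub_self _
  refine ⟨(P %ₘ m).map (algebraMap A Ω), fun i => ?_, ?_, ?_⟩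
  · rw [coeff_map]
    exact ((P %ₘ m).coeff i).2
  · have h2 : (P %ₘ m).natDegree < m.natDegree :=
      natDegree_modByMonic_lt P hmon (fun h3 => hp (by rw [← hdeg, h3, natDegree_one]))
    rw [hdeg] at h2
    exact (natDegree_map_le).trans_lt h2
  · rw [eval_map_algebraMap]
    have h3 : aeval t P = aeval t (P %ₘ m) := by
      conv_lhs => rw [← modByMonic_add_div P m]
      rw [map_add, map_mul, hmt, zero_mul, add_zero]
    rw [← h3]
    exact hP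

section der

variable {F' : IntermediateField k Ω} {D : Ω → Ω}

/-- `D` at a polynomial in `ω`. -/
theorem drv_eval (hFF' : F ≤ F') (hω : ω ∈ F') (hD : Drv v F' D) (hDF : ∀ f ∈ F, D f = 0)
    (hDω : D ω = 1) {Q : Polynomial Ω} (hQ : Q ∈ PI F) :
    D (Q.eval ω) = (derivative Q).eval ω := by
  rw [eval_eq_sum_range, hD.sum _ (fun i _ => mul_mem (hFF' (hQ i)) (pow_mem hω i)),
    derivative_eval, sum_over_range _ (fun n => by rw [zero_mul, zero_mul])]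
  refine sum_congr rfl fun i _ => ?_
  rw [hD.mul _ (hFF' (hQ i)) _ (pow_mem hω i), hDF _ (hQ i), mul_zero, add_zero]
  rcases i with _ | i
  · rw [pow_zero, hD.one, Nat.cast_zero, mul_zero, zero_mul]
  · rw [hD.pow hω, hDω, Nat.add_sub_cancel, mul_one]
    ring

theorem der_mem_PI {Q : Polynomial Ω} (hQ : Q ∈ PI F) : derivative Q ∈ PI F := by
  intro i
  rw [coeff_derivative]
  refine mul_mem (hQ _) ?_
  have : ((i : Ω) + 1) = ((i + 1 : ℕ) : Ω) := by push_cast; ring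
  rw [this]
  exact natCast_mem F (i + 1)

/-- The jets of `Q.eval ω`. -/
theorem ge_iter (hFF' : F ≤ F') (hω : ω ∈ F') (hD : Drv v F' D) (hDF : ∀ f ∈ F, D f = 0)
    (hDω : D ω = 1) {r : ℝ} {Q : Polynomial Ω} (hQ : Q ∈ PI F)
    (h : v.Ge r ((derivative Q).eval ω)) (j : ℕ) :
    derivative^[j + 1] Q ∈ PI F ∧ v.Ge r ((derivative^[j + 1] Q).eval ω) := by
  induction j with
  | zero => exact ⟨der_mem_PI hQ, h⟩
  | succ j ih =>
    rw [Function.iterate_succ_apply']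
    refine ⟨der_mem_PI ih.1, ?_⟩
    rw [← drv_eval hFF' hω hD hDF hDω ih.1]
    refine hD.norm _ ?_ _ ih.2
    rw [eval_eq_sum_range]
    exact sum_mem fun i _ => mul_mem (hFF' (ih.1 i)) (pow_mem hω i)

/-- **The limits of `F` in `F(ω)`.** -/
theorem near_of_der [hp : Fact p.Prime] [CharP Ω p] (h0 : Ctx0 k v) (hpω : ω ^ p ∈ F)
    (hl : Lim v F 0 ω) (hD : Drv v (cadj v F ω) D) (hDF : ∀ f ∈ F, D f = 0) (hDω : D ω = 1)
    (hy : y ∈ cadj v F ω) (hyl : Lim v F 0 y) :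
    ∃ ρ : k, ∃ f ∈ F, Gt v 0 (y - algebraMap k Ω ρ * ω - f) := by
  have hFF' := le_cadj v F ω
  have hω := self_mem_cadj v F ω
  have hp0 : (0 : ℝ) < p := by exact_mod_cast hp.out.pos
  have h1 : v.Ge 0 (D y) := by
    intro hne
    by_contra hlt
    push Not at hlt
    obtain ⟨f, hf, h2⟩ := hyl (-(v (D y)) / 2) (by linarith)
    have h3 := hD.norm _ (sub_mem hy (hFF' hf)) _ h2
    rw [hD.sub hy (hFF' hf), hDF f hf, sub_zero] at h3
    have := h3 hne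
    linarith
  obtain ⟨ρ, hρ⟩ := h0.residue h1
  have hkF : algebraMap k Ω ρ ∈ F := F.algebraMap_mem ρ
  have hρω := mul_mem (hFF' hkF) hω
  set y' := y - algebraMap k Ω ρ * ω with hy'
  have hy'F : y' ∈ cadj v F ω := sub_mem hy hρω
  have hDy' : Gt v 0 (D y') := by
    have e : D y' = D y - algebraMap k Ω ρ := by
      rw [hy', hD.sub hy hρω, hD.mul _ (hFF' hkF) _ hω, hDω, hD.alg, mul_one, mul_zero, add_zero]
    rw [e]
    exact hρ
  obtain ⟨r, hr, h2⟩ := TWLM.exists_ge_of_gt hDy'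
  rw [zero_add] at h2
  obtain ⟨q0, hq0, h3⟩ := mem_clI.1 hy'F r
  obtain ⟨Q, hQ, hdeg, hQe⟩ := exists_poly_of_mem_adj hp.out.ne_zero hpω hq0
  have hQF' : Q.eval ω ∈ cadj v F ω := TWLM.eval_mem_cadj hQ
  have h4 : v.Ge r ((derivative Q).eval ω) := by
    rw [← drv_eval hFF' hω hD hDF hDω hQ]
    have e : D (Q.eval ω) = D y' - D (y' - Q.eval ω) := by
      rw [hD.sub hy'F hQF']
      ring
    rw [e]
    refine h2.sub (hD.norm _ (sub_mem hy'F hQF') _ ?_)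
    rw [hQe]
    exact h3
  set ε := r / (2 * p) with hε
  have hε0 : 0 < ε := by positivity
  obtain ⟨h, hh, h5⟩ := hl ε hε0
  refine ⟨ρ, Q.eval h, ?_, ?_⟩
  · rw [eval_eq_sum_range]
    exact sum_mem fun i _ => mul_mem (hQ i) (pow_mem hh i)
  have e : y' - Q.eval h = (y' - Q.eval ω) - (Q.eval h - Q.eval ω) := by ring
  rw [e]
  have hN : Q.natDegree ≤ p - 1 := by
    have := hp.out.pos
    omega
  have h6 : Gt v 0 (Q.eval h - Q.eval ω) := by
    rw [TWN1.rt_taylor hN ω h, sum_range_succ', hasseDeriv_zero', pow_zero, mul_one,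
      add_sub_cancel_right]
    refine Gt.sum _ _ fun i hi => ?_
    have hi' := mem_range.1 hi
    have h7 := (ge_iter hFF' hω hD hDF hDω hQ h4 i).2
    have h8 : (derivative^[i + 1] Q).eval ω =
        algebraMap k Ω ((i + 1).factorial : k) * (hasseDeriv (i + 1) Q).eval ω := by
      rw [← factorial_smul_hasseDeriv, LinearMap.smul_apply, eval_smul, nsmul_eq_mul, map_natCast]
    have h9 : ((i + 1).factorial : k) ≠ 0 := by
      intro h10
      have h11 : (((i + 1).factorial : ℕ) : Ω) = 0 := by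
        rw [← map_natCast (algebraMap k Ω), h10, map_zero]
      rw [CharP.cast_eq_zero_iff Ω p, hp.out.dvd_factorial] at h11
      omega
    have h10 : v.Ge r ((hasseDeriv (i + 1) Q).eval ω) := by
      rw [h8] at h7
      intro h11
      have h12 : algebraMap k Ω ((i + 1).factorial : k) ≠ 0 := by
        rwa [Ne, map_eq_zero]
      have h13 := h7 (mul_ne_zero h12 h11)
      rwa [v.map_mul h12 h11, h0.triv _ h9, zero_add] at h13
    have h11 : v.Ge (0 - ε) (h - ω) := by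
      have e1 : h - ω = -(ω - h) := by ring
      rw [e1]
      exact h5.neg
    have h12 := h10.mul (TWII.ge_pow' h11 (i + 1))
    refine Gt.of_ge h12 ?_
    have h13 : ((i + 1 : ℕ) : ℝ) ≤ p := by
      exact_mod_cast (by omega : i + 1 ≤ p)
    have h14 : ((i + 1 : ℕ) : ℝ) * ε ≤ p * ε := mul_le_mul_of_nonneg_right h13 hε0.le
    have h15 : (p : ℝ) * ε = r / 2 := by
      rw [hε]
      field_simp
    linarith
  refine Gt.sub (Gt.of_ge ?_ hr) h6
  rw [hQe]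
  exact h3

end der

/-! ### the roots over `W` -/

section root

variable [hp : Fact p.Prime] [CharP Ω p] [IsAlgClosed Ω]

/-- The derivation of `W⟨ω⟩` over `W⟨ω ^ p⟩`. -/
theorem exists_drv_root (h0 : Ctx0 k v) (hcv : CompleteV v) (hω : TL v W ω 0)
    (hw : TL v W (ω ^ p) 0) :
    ∃ D : Ω → Ω, Drv v (cadj v W ω) D ∧ D ω = 1 ∧ ∀ f ∈ cadj v W (ω ^ p), D f = 0 := by
  have hv1 : v.Ge 0 (1 : Ω) := by
    have := h0.ge (1 : k)
    rwa [map_one] at this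
  obtain ⟨D, d1, d2, d3, -⟩ := (TWCY.drv_zero v W).exists_tl (y := 1) h0 hcv hω
    fun b hb r hr => by
      have hr0 := TWCY.TL.neg_of_ge hω hb hr
      show v.Ge r ((1 : Ω) - 0)
      rw [sub_zero]
      exact hv1.mono hr0.le
  have hω' := self_mem_cadj v W ω
  exact ⟨D, d1, d3, fun f hf => d1.zero_cadj (le_cadj v W ω) d2 hw
    (cadj_le (cld_cadj v W ω) (le_cadj v W ω) (pow_mem hω' p))
    (d1.pow_p hp.out.ne_zero hω') hf⟩

theorem cadj_root_le : cadj v W (ω ^ p) ≤ cadj v W ω :=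
  cadj_le (cld_cadj v W ω) (le_cadj v W ω) (pow_mem (self_mem_cadj v W ω) p)

theorem cadj_root : cadj v W ω = cadj v (cadj v W (ω ^ p)) ω :=
  le_antisymm (cadj_le (cld_cadj _ _ _) ((le_cadj _ _ _).trans (le_cadj _ _ _))
    (self_mem_cadj _ _ _)) (cadj_le (cld_cadj _ _ _) cadj_root_le (self_mem_cadj _ _ _))

theorem cadj_root₂ : cadj v (cadj v W ω) u = cadj v (cadj v (cadj v W (ω ^ p)) u) ω := by
  refine le_antisymm (cadj_le (cld_cadj _ _ _) ?_ ?_) (cadj_le (cld_cadj _ _ _) ?_ ?_)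
  · exact cadj_le (cld_cadj _ _ _) ((le_cadj _ _ _).trans ((le_cadj _ _ _).trans (le_cadj _ _ _)))
      (self_mem_cadj _ _ _)
  · exact le_cadj _ _ _ (self_mem_cadj _ _ _)
  · exact cadj_le (cld_cadj _ _ _) (cadj_root_le.trans (le_cadj _ _ _)) (self_mem_cadj _ _ _)
  · exact le_cadj _ _ _ (self_mem_cadj _ _ _)

/-- **The limits of `B = W⟨ω ^ p⟩` in `W⟨ω⟩`.** -/
theorem near_rootB (h0 : Ctx0 k v) (hcv : CompleteV v) (hω : TL v W ω 0) (hw : TL v W (ω ^ p) 0)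
    (hy : y ∈ cadj v W ω) (hyl : Lim v (cadj v W (ω ^ p)) 0 y) :
    ∃ ρ : k, ∃ f ∈ cadj v W (ω ^ p), Gt v 0 (y - algebraMap k Ω ρ * ω - f) := by
  obtain ⟨D, d1, d2, d3⟩ := exists_drv_root h0 hcv hω hw
  rw [cadj_root (p := p)] at d1 hy
  exact near_of_der h0 (self_mem_cadj _ _ _) (hω.lim.mono (le_cadj _ _ _)) d1 d3 d2 hy hyl

/-- **The limits of `F = W⟨ω ^ p⟩⟨u⟩` in `W⟨ω⟩⟨u⟩`.** -/
theorem near_root (h0 : Ctx0 k v) (hcv : CompleteV v) (hω : TL v W ω 0) (hw : TL v W (ω ^ p) 0)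
    (hu : TL v (cadj v W (ω ^ p)) u 0) (hu' : TL v (cadj v W ω) u 0)
    (hy : y ∈ cadj v (cadj v W ω) u) (hyl : Lim v (cadj v (cadj v W (ω ^ p)) u) 0 y) :
    ∃ ρ : k, ∃ f ∈ cadj v (cadj v W (ω ^ p)) u, Gt v 0 (y - algebraMap k Ω ρ * ω - f) := by
  obtain ⟨D, d1, d2, d3⟩ := exists_drv_root h0 hcv hω hw
  have hle : cadj v W (ω ^ p) ≤ cadj v W ω := cadj_root_le
  have hn0 : NatA v (cadj v W (ω ^ p)) D u 0 := fun a ha r hr => by
    rw [d3 a ha, sub_zero]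
    exact RVal.Ge.zero
  have hn : NatA v (cadj v W ω) D u 0 := hn0.up hle d1 hu.lim hu'
  obtain ⟨D', e1, e2, e3, -⟩ := d1.exists_tl h0 hcv hu' hn
  have e4 : ∀ f ∈ cadj v (cadj v W (ω ^ p)) u, D' f = 0 := fun f hf =>
    e1.zero_cadj (hle.trans (le_cadj _ _ _)) (fun a ha => by rw [e2 a (hle ha), d3 a ha]) hu
      (cadj_le (cld_cadj _ _ _) (hle.trans (le_cadj _ _ _)) (self_mem_cadj _ _ _)) e3 hf
  have e5 : D' ω = 1 := by rw [e2 _ (self_mem_cadj _ _ _), d2]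
  rw [cadj_root₂ (p := p)] at e1 hy
  exact near_of_der h0 (le_cadj _ _ _ (self_mem_cadj _ _ _))
    (hω.lim.mono ((le_cadj _ _ _).trans (le_cadj _ _ _))) e1 e4 e5 hy hyl

theorem lim_add {A : IntermediateField k Ω} {x x' : Ω} {r : ℝ} (hx : Lim v A r x)
    (hx' : Lim v A r x') : Lim v A r (x + x') := fun ε hε => by
  obtain ⟨a, ha, h1⟩ := hx ε hε
  obtain ⟨b, hb, h2⟩ := hx' ε hε
  refine ⟨a + b, add_mem ha hb, ?_⟩
  have e : x + x' - (a + b) = (x - a) + (x' - b) := by ring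
  rw [e]
  exact h1.add h2

theorem lim_smul (h0 : Ctx0 k v) {A : IntermediateField k Ω} {x : Ω} {r : ℝ} (hx : Lim v A r x)
    (c : k) : Lim v A r (algebraMap k Ω c * x) := fun ε hε => by
  obtain ⟨a, ha, h1⟩ := hx ε hε
  refine ⟨algebraMap k Ω c * a, mul_mem (A.algebraMap_mem c) ha, ?_⟩
  rw [← mul_sub]
  have := (h0.ge c).mul h1
  rwa [zero_add] at this

/-- **`npar` for the root.** -/
theorem npar_root (h0 : Ctx0 k v) (hcv : CompleteV v) (hω : TL v W ω 0) (hw : TL v W (ω ^ p) 0)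
    (hu : Lim v (cadj v W (ω ^ p)) 0 u)
    (hn : ∀ g ∈ cadj v W (ω ^ p), ¬ Lim v W 0 (u - g)) :
    ∀ g ∈ cadj v W ω, ¬ Lim v W 0 (u - g) := by
  intro g hg hl
  have hgl : Lim v (cadj v W (ω ^ p)) 0 g := by
    have h1 := hu.sub (hl.mono (le_cadj v W (ω ^ p)))
    rwa [sub_sub_cancel] at h1
  obtain ⟨ρ, f, hf, h1⟩ := near_rootB h0 hcv hω hw hg hgl
  refine hn f hf ?_
  have e : u - f = (u - g) + (algebraMap k Ω ρ * ω + (g - algebraMap k Ω ρ * ω - f)) := by ring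
  rw [e]
  exact lim_add hl (lim_add (lim_smul h0 hω.lim ρ) fun ε hε => ⟨0, zero_mem _, by
    rw [sub_zero]
    exact h1.ge.mono (by linarith)⟩)

end root

/-! ### two roots -/

/-- **Two roots.** `d₀`, `d₁` are strict derivations of `F` with `d₀ w = 1`, `d₀ x = 0`, `d₁ x = 1`. -/
theorem near_of_two [hp : Fact p.Prime] [CharP Ω p] (h0 : Ctx0 k v)
    (hgp : ∀ f ∈ F, f ≠ 0 → ∃ g ∈ F, Gt v (v f) (f - g ^ p)) {d₀ d₁ : Ω → Ω} (hd₀ : Drv v F d₀)
    (hd₁ : Drv v F d₁) {x w' ω' : Ω} (hxF : x ∈ F) (hwF : w' ∈ F) (h00 : d₀ w' = 1)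
    (h01 : d₀ x = 0) (h11 : d₁ x = 1) {c c' : k} (hcc : c ≠ c')
    (hω : ω ^ p = w' + algebraMap k Ω c * x) (hω' : ω' ^ p = w' + algebraMap k Ω c' * x)
    {ρ ρ' : k} {f f' : Ω} (hf : f ∈ F) (hf' : f' ∈ F)
    (h1 : v.Ge 0 (y - algebraMap k Ω ρ * ω - f)) (h2 : v.Ge 0 (y - algebraMap k Ω ρ' * ω' - f')) :
    v.Ge 0 (y - f) := by
  have hk : ∀ c : k, algebraMap k Ω c ∈ F := fun c => F.algebraMap_mem c
  have hp0 := hp.out.ne_zero
  -- the `p`-th power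
  set g := f - f' with hg
  have hgF : g ∈ F := sub_mem hf hf'
  have h3 : v.Ge 0 (algebraMap k Ω ρ * ω - algebraMap k Ω ρ' * ω' + g) := by
    have e : algebraMap k Ω ρ * ω - algebraMap k Ω ρ' * ω' + g =
        (y - algebraMap k Ω ρ' * ω' - f') - (y - algebraMap k Ω ρ * ω - f) := by
      rw [hg]
      ring
    rw [e]
    exact h2.sub h1
  have h4 := TWII.ge_pow' h3 p
  rw [mul_zero] at h4
  set Y : Ω := algebraMap k Ω (ρ ^ p) * (w' + algebraMap k Ω c * x) -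
    algebraMap k Ω (ρ' ^ p) * (w' + algebraMap k Ω c' * x) + g ^ p with hY
  have e1 : (algebraMap k Ω ρ * ω - algebraMap k Ω ρ' * ω' + g) ^ p = Y := by
    rw [add_pow_char, sub_pow_char, mul_pow, mul_pow, hω, hω', ← map_pow, ← map_pow]
  rw [e1] at h4
  have hwc : ∀ c : k, w' + algebraMap k Ω c * x ∈ F := fun c => add_mem hwF (mul_mem (hk c) hxF)
  have hYF : Y ∈ F := add_mem (sub_mem (mul_mem (hk _) (hwc c)) (mul_mem (hk _) (hwc c')))
    (pow_mem hgF p)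
  have hD : ∀ {d : Ω → Ω}, Drv v F d → d Y = algebraMap k Ω (ρ ^ p) * (d w' + algebraMap k Ω c * d x)
      - algebraMap k Ω (ρ' ^ p) * (d w' + algebraMap k Ω c' * d x) := by
    intro d hd
    have e2 : ∀ c₁ c₂ : k, d (algebraMap k Ω c₁ * (w' + algebraMap k Ω c₂ * x)) =
        algebraMap k Ω c₁ * (d w' + algebraMap k Ω c₂ * d x) := fun c₁ c₂ => by
      rw [hd.mul _ (hk _) _ (hwc c₂), hd.alg, mul_zero, add_zero, hd.add _ hwF _
        (mul_mem (hk _) hxF), hd.mul _ (hk _) _ hxF, hd.alg, mul_zero, add_zero]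
    rw [hY, hd.add _ (sub_mem (mul_mem (hk _) (hwc c)) (mul_mem (hk _) (hwc c'))) _
      (pow_mem hgF p), hd.pow_p hp0 hgF, add_zero, hd.sub (mul_mem (hk _) (hwc c))
      (mul_mem (hk _) (hwc c')), e2, e2]
  have hkz : ∀ a : k, Gt v 0 (algebraMap k Ω a) → a = 0 := by
    intro a ha
    by_contra hne
    have h5 := ha (by rwa [Ne, map_eq_zero])
    rw [h0.triv a hne] at h5
    exact lt_irrefl _ h5
  have h5 := hd₀.strict hp0 hgp hYF h4
  rw [hD hd₀, h00, h01, mul_zero, mul_zero, add_zero, mul_one, mul_one, ← map_sub] at h5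
  have h6 : ρ ^ p = ρ' ^ p := sub_eq_zero.1 (hkz _ h5)
  have h7 := hd₁.strict hp0 hgp hYF h4
  rw [hD hd₁, h11, mul_one, mul_one, ← h6] at h7
  have e3 : algebraMap k Ω (ρ ^ p) * (d₁ w' + algebraMap k Ω c) -
      algebraMap k Ω (ρ ^ p) * (d₁ w' + algebraMap k Ω c') =
      algebraMap k Ω (ρ ^ p * (c - c')) := by
    rw [map_mul, map_sub]
    ring
  rw [e3] at h7
  have h8 := hkz _ h7
  have h9 : ρ = 0 := by
    rcases mul_eq_zero.1 h8 with h10 | h10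
    · exact pow_eq_zero_iff hp0 |>.1 h10
    · exact absurd (sub_eq_zero.1 h10) hcc
  rw [h9, map_zero, zero_mul, sub_zero] at h1
  exact h1

theorem cadj_add {w₀ b : Ω} (hb : b ∈ W) : cadj v W (w₀ + b) = cadj v W w₀ := by
  refine le_antisymm (cadj_le (cld_cadj _ _ _) (le_cadj _ _ _) (add_mem (self_mem_cadj _ _ _)
    (le_cadj _ _ _ hb))) (cadj_le (cld_cadj _ _ _) (le_cadj _ _ _) ?_)
  have h1 := sub_mem (self_mem_cadj v W (w₀ + b)) (le_cadj v W (w₀ + b) hb)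
  rwa [add_sub_cancel_right] at h1

section HB

variable [hp : Fact p.Prime] [CharP Ω p] [IsAlgClosed Ω] [IsAlgClosed k]
  {L : ℕ → IntermediateField k Ω} {K : IntermediateField k Ω} {w : Fin 2 → Ω} {x z a : Ω}
  {D₀ : Ω → Ω}

omit [CharP Ω p] [IsAlgClosed Ω] in
/-- `gr F` is perfect. -/
theorem HB.grp (h : TWRB.HB p v L W B F K w x z a) :
    ∀ f ∈ F, f ≠ 0 → ∃ g ∈ F, Gt v (v f) (f - g ^ p) := by
  intro f _ hf0
  obtain ⟨c, m, hm, h1⟩ := h.near hp.out.ne_zero hf0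
  obtain ⟨c', hc'⟩ := IsAlgClosed.exists_pow_nat_eq c hp.out.pos
  refine ⟨algebraMap k Ω c' * m, mul_mem (F.algebraMap_mem c') (h.W_le hm), ?_⟩
  rw [mul_pow, ← map_pow, hc']
  exact h1

/-- One root: a limit of `F` near `F(ω)` is in `k ω + F + O_0`. -/
theorem HB.near_root (h : TWRB.HB p v L W B F K w x z a) {b ω y : Ω} (hb : b ∈ W)
    (hω : TL v W ω 0) (e : ω ^ p = w 0 + b) (hu : TL v (cadj v W ω) (w 1) 0)
    (hy : Lim v F 0 y) (h1 : ∃ g ∈ cadj v (cadj v W ω) (w 1), v.Ge 0 (y - g)) :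
    ∃ ρ : k, ∃ f ∈ F, v.Ge 0 (y - algebraMap k Ω ρ * ω - f) := by
  obtain ⟨g, hg, h2⟩ := h1
  have eB : cadj v W (ω ^ p) = B := by rw [e, cadj_add hb, ← h.B_eq]
  have eF : cadj v (cadj v W (ω ^ p)) (w 1) = F := by rw [eB, ← h.F_eq]
  have hw : TL v W (ω ^ p) 0 := by
    rw [e]
    exact ⟨(lim_add h.tw.lim (TWCY.lim_self hb)), fun θ hθ => by
      have hb' : IsAlgebraic W b := isAlgebraic_algebraMap (⟨b, hb⟩ : W)
      have h3 := h.tw.far (θ - b) (hθ.sub hb')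
      have e1 : w 0 - (θ - b) = w 0 + b - θ := by ring
      rw [e1] at h3
      exact ⟨fun h4 => h3.1 (by rw [← h4]; ring), h3.2⟩⟩
  have hgl : Lim v F 0 g := by
    have h3 : Lim v F 0 (y - g) := fun ε hε => ⟨0, zero_mem _, by
      rw [sub_zero]
      exact h2.mono (by linarith)⟩
    have h4 := hy.sub h3
    rwa [sub_sub_cancel] at h4
  obtain ⟨ρ, f, hf, h5⟩ := TWRW.near_root h.c0 h.cv hω hw (by rw [eB]; exact h.tu) hu hg
    (by rw [eF]; exact hgl)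
  rw [eF] at hf
  refine ⟨ρ, f, hf, ?_⟩
  have e1 : y - algebraMap k Ω ρ * ω - f = (y - g) + (g - algebraMap k Ω ρ * ω - f) := by ring
  rw [e1]
  exact h2.add h5.ge

/-- **Two roots**: a limit of `F` near `F(ω₁)` and near `F(ω₂)` is near `F`. -/
theorem HB.near_of_roots (h : TWRB.HB p v L W B F K w x z a) (hB : BaseD p v W x D₀) {b : Ω}
    (hb : b ∈ W) {c₁ c₂ : k} (hcc : c₁ ≠ c₂) {ω₁ ω₂ : Ω} (hω₁ : TL v W ω₁ 0) (hω₂ : TL v W ω₂ 0)
    (e₁ : ω₁ ^ p = w 0 + b + algebraMap k Ω c₁ * x) (e₂ : ω₂ ^ p = w 0 + b + algebraMap k Ω c₂ * x)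
    (hu₁ : TL v (cadj v W ω₁) (w 1) 0) (hu₂ : TL v (cadj v W ω₂) (w 1) 0) {y : Ω}
    (hy : Lim v F 0 y) (h₁ : ∃ g ∈ cadj v (cadj v W ω₁) (w 1), v.Ge 0 (y - g))
    (h₂ : ∃ g ∈ cadj v (cadj v W ω₂) (w 1), v.Ge 0 (y - g)) : ∃ f ∈ F, v.Ge 0 (y - f) := by
  have hcx : ∀ c : k, b + algebraMap k Ω c * x ∈ W := fun c =>
    add_mem hb (mul_mem (W.algebraMap_mem c) h.xW)
  obtain ⟨ρ₁, f₁, hf₁, h3⟩ := HB.near_root h (hcx c₁) hω₁ (by rw [e₁]; ring) hu₁ hy h₁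
  obtain ⟨ρ₂, f₂, hf₂, h4⟩ := HB.near_root h (hcx c₂) hω₂ (by rw [e₂]; ring) hu₂ hy h₂
  obtain ⟨D, dd, hDD, hDW⟩ := TWRB.rowR12A h hB
  have hWF := h.W_le
  have hw0 : w 0 ∈ F := by
    rw [h.F_eq, h.B_eq]
    exact le_cadj _ _ _ (self_mem_cadj _ _ _)
  refine ⟨f₁, hf₁, near_of_two h.c0 (HB.grp h) (hDD.drvi 0) hDD.drv (hWF h.xW)
    (add_mem hw0 (hWF hb)) ?_ (hDD.ddW 0 x h.xW) ?_ hcc e₁ e₂ hf₁ hf₂ h3 h4⟩
  · rw [(hDD.drvi 0).add _ hw0 _ (hWF hb), hDD.dd00, hDD.ddW 0 b hb, add_zero]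
  · rw [hDW x h.xW]
    exact hB.Dx

end HB

end Pool.Agent.TWRW
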