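import Pool.Agent.Lib.TWRW.OutZ
import Pool.Agent.Lib.TWRW.HBc
import Pool.Agent.Lib.TWRW.Two
import Pool.Agent.Lib.TWRW.Mov
import Pool.Agent.Lib.TWRW.Root
import Pool.Agent.Lib.TWRW.Nh
import Pool.Agent.Lib.TWRW.ShUc
import Pool.Agent.Lib.TWRB.T5

/-!
# RowB, the bad case: the jets of `z` along `w 1` are attained

`a = e z + x P(z) + (w 0 + b) R(z) + a₀` modulo null, `R ≠ 0`. Over the fields `K(ω)`,
`ω ^ p = w 0 + b + c x`, the tie has coefficients in `k x`, and the core applies.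

* `one_root`: the output of the core over `K(ω)`;
* `att_of_bad`: two values of `c`.
-/

set_option autoImplicit false

open Polynomial Finset

namespace Pool.Agent.TWRW

open Pool.Agent.H15JM (RVal)
open Pool.Agent.LU1 (VPos adj)
open Pool.Agent.D2 (Ctx0)
open Pool.Agent.D2P (clI)
open Pool.Agent.TWM
open Pool.Agent.TWS (IsoE SphC)
open Pool.Agent.TWII (PG LP)
open Pool.Agent.TWN1
open Pool.Agent.TWLY
open Pool.Agent.TWCY
open Pool.Agent.TWCT (MovV MovR Hit)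
open Pool.Agent.TWRR (Att)
open Pool.Agent.TWRB

universe u

variable {k Ω : Type u} [Field k] [Field Ω] [Algebra k Ω] {v : RVal Ω}
  {L : ℕ → IntermediateField k Ω} {W B F K : IntermediateField k Ω} {w : Fin 2 → Ω}
  {x z a : Ω} {p : ℕ} [hp : Fact p.Prime] [CharP Ω p] [CharP k p] [IsAlgClosed k] [IsAlgClosed Ω]

/-- **The output of the core over `K(ω)`.** -/
theorem one_root (h10 : RowR10 (k := k) p v) {D₀ : Ω → Ω} {U₀ : Polynomial Ω} {e : k}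
    {κ γ : ℕ → k} {t : ℕ} {a₀ b ω : Ω} {c : k}
    (h : BCh p v L W B F K w x z a D₀ b e κ γ t a₀ c ω) (hU : ShU v W w U₀) :
    HB p v L W (cadj v W ω) (cadj v (cadj v W ω) (w 1))
      (cadj v (cadj v (cadj v W ω) (w 1)) z) ![ω, w 1] x z a ∧
    ∃ (T : k → Ω →ₐ[k] Ω) (N : ℕ) (g : ℕ → Ω) (d : Ω → Ω),
      Att v (cadj v W ω) (cadj v (cadj v W ω) (w 1)) (w 1) z T N g ∧
      Drv v (cadj v (cadj v W ω) (w 1)) d ∧ (∀ y ∈ cadj v W ω, d y = 0) ∧ d (w 1) = 1 ∧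
      ∀ c, VPos v (d (algebraMap k Ω e * ∑ j ∈ Icc 1 N, algebraMap k Ω c ^ j * g j +
        (T c a₀ - a₀))) := by
  have hb := h.hb
  have hk := hb.c0
  have hxW := hb.xW
  have hb' : b + algebraMap k Ω c * x ∈ W := add_mem h.bW (mul_mem (W.algebraMap_mem c) hxW)
  have hωp : ω ^ p = w 0 + (b + algebraMap k Ω c * x) := by
    rw [h.om]
    ring
  have hω := h.tw
  have hcw : cadj v W (ω ^ p) = B := by
    rw [hωp, cadj_add hb', hb.B_eq]
  have hwp : TL v W (ω ^ p) 0 := by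
    have h2 := hb.tw.sub_mem (neg_mem hb')
    rw [sub_neg_eq_add, ← hωp] at h2
    exact h2
  have hnp : ∀ g ∈ cadj v W ω, ¬ Lim v W 0 (w 1 - g) :=
    npar_root hk hb.cv hω hwp (by rw [hcw]; exact hb.tu.lim) (by rw [hcw]; exact hb.npar)
  have hmv := mov_root hk hb.sph hb.hval hb.cv hb.mono hb.le hb.dense hω
    (b := -(b + algebraMap k Ω c * x)) (by rw [hωp]; ring) (neg_mem hb') hb.mv
  have hnh : ¬ Hit p v (cadj v W ω) (w 1) 0 :=
    nh_of_npar hk hb.cv hb.mono hb.dense hω hmv h.tu hnp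
  have hH := h.hb' hnh hnp hmv
  have hUc : ShU v W ![ω, w 1] (expand Ω p U₀) :=
    shU_root hk hω hb.tw hωp hb' (by rw [← hb.B_eq]; exact hb.tu.lim) hU
  obtain ⟨φ, e', κ', t', a₁, T, n, f, dd, hO, -, hd0, hd1⟩ :=
    topC h10 (rowCore p v) hH h.base hUc h.tieF
  obtain ⟨N, g, hatt, heff⟩ := out_z hH h.base hO (h.leF h.aF) h.rel'
  exact ⟨hH, T, N, g, dd 1, hatt, hO.drv 1, hd0, hd1, heff⟩

/-- `z` is approximated by polynomials in `w 1` over `B`. -/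
theorem exists_near_poly (h : HB p v L W B F K w x z a) {ε : ℝ} (hε : 0 < ε) :
    ∃ θ ∈ PI B, v.Ge (-ε) (z - θ.eval (w 1)) := by
  obtain ⟨y, hy, h1⟩ := h.zt.lim ε hε
  rw [h.F_eq] at hy
  obtain ⟨θ, hθ, h2⟩ := h.tu.dense hy 0
  refine ⟨θ, hθ, ?_⟩
  have e : z - θ.eval (w 1) = (z - y) + (y - θ.eval (w 1)) := by ring
  rw [e]
  exact (h1.mono (by linarith)).add (h2.mono (by linarith))

/-- The top of the pair of additive polynomials. -/
theorem exists_top2 (p : ℕ) {κ γ : ℕ → k} {t : ℕ} (hγ : ∃ i ≤ t, γ i ≠ 0) :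
    ∃ t' ≤ t, (κ t' ≠ 0 ∨ γ t' ≠ 0) ∧ (∀ y : Ω, PP p κ t' y = PP p κ t y) ∧
      ∀ y : Ω, PP p γ t' y = PP p γ t y := by
  classical
  obtain ⟨i, hi, hγi⟩ := hγ
  set t' := Nat.findGreatest (fun i => κ i ≠ 0 ∨ γ i ≠ 0) t with ht'
  have h1 : κ t' ≠ 0 ∨ γ t' ≠ 0 :=
    Nat.findGreatest_spec (P := fun i => κ i ≠ 0 ∨ γ i ≠ 0) hi (Or.inr hγi)
  have h2 : ∀ j, t' < j → j ≤ t → κ j = 0 ∧ γ j = 0 := fun j hj hjt => by
    have := Nat.findGreatest_is_greatest (P := fun i => κ i ≠ 0 ∨ γ i ≠ 0) hj hjt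
    push Not at this
    exact this
  have h3 : ∀ κ' : ℕ → k, (∀ j, t' < j → j ≤ t → κ' j = 0) → ∀ y : Ω,
      PP p κ' t' y = PP p κ' t y := fun κ' h0 y => by
    rw [PP_ext (Nat.findGreatest_le t : t' ≤ t), PP]
    refine sum_congr rfl fun j hj => ?_
    by_cases hj' : j ≤ t'
    · rw [if_pos hj']
    · rw [if_neg hj', h0 j (not_le.1 hj') (Nat.lt_succ_iff.1 (mem_range.1 hj))]
  exact ⟨t', Nat.findGreatest_le t, h1, h3 κ fun j h h' => (h2 j h h').1,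
    h3 γ fun j h h' => (h2 j h h').2⟩

/-- **The bad case: the jets of `z` along `w 1` are attained, the effects have strict
derivatives.** -/
theorem att_of_bad (h10 : RowR10 (k := k) p v) {D₀ : Ω → Ω} {U₀ : Polynomial Ω}
    (hH : HB p v L W B F K w x z a) (hB : BaseD p v W x D₀) (hU : ShU v W w U₀) {e : k}
    {κ γ : ℕ → k} {t : ℕ} {a₀ b : Ω} (ha₀ : a₀ ∈ F) (hb : b ∈ W) (hlp : LP p v B 0 (w 0 + b))
    (hrel : PG p v K 0 (a - (algebraMap k Ω e * z + x * PP p κ t z +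
      (w 0 + b) * PP p γ t z + a₀)))
    (htie : ∀ ε : ℝ, 0 < ε → ∃ θ ∈ F, v.Ge (-ε) (z - θ) ∧ ∃ h ∈ F, v.Ge (-ε)
      (algebraMap k Ω e * θ + x * PP p κ t θ + (w 0 + b) * PP p γ t θ + a₀ - h ^ p))
    (hγ : ∃ i ≤ t, γ i ≠ 0) :
    ∃ (T : k → Ω →ₐ[k] Ω) (N : ℕ) (f : ℕ → Ω) (d : Ω → Ω), Att v B F (w 1) z T N f ∧
      (∀ c, ∀ y ∈ F, T c y ∈ F) ∧ Drv v F d ∧ (∀ y ∈ B, d y = 0) ∧ d (w 1) = 1 ∧
      ∀ c, VPos v (algebraMap k Ω e * d (∑ j ∈ Icc 1 N, algebraMap k Ω c ^ j * f j) +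
        d (T c a₀ - a₀)) := by
  classical
  have hinf : Infinite k := IsAlgClosed.instInfinite
  have hk := hH.c0
  have hxW := hH.xW
  obtain ⟨t', -, htop, hκt, hγt⟩ := exists_top2 (Ω := Ω) p (κ := κ) hγ
  -- two values
  obtain ⟨c₁, c₂, hcc, h1, h2⟩ : ∃ c₁ c₂ : k, c₁ ≠ c₂ ∧ κ t' - c₁ * γ t' ≠ 0 ∧
      κ t' - c₂ * γ t' ≠ 0 := by
    have hgood : ∀ c : k, c ≠ κ t' / γ t' → κ t' - c * γ t' ≠ 0 := by
      intro c hc h0
      by_cases hg : γ t' = 0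
      · rcases htop with h3 | h3
        · rw [hg, mul_zero, sub_zero] at h0
          exact h3 h0
        · exact h3 hg
      · exact hc (by rw [eq_div_iff hg]; exact (sub_eq_zero.1 h0).symm)
    obtain ⟨c₁, hc₁⟩ := Infinite.exists_notMem_finset ({κ t' / γ t'} : Finset k)
    obtain ⟨c₂, hc₂⟩ := Infinite.exists_notMem_finset ({κ t' / γ t', c₁} : Finset k)
    rw [mem_singleton] at hc₁
    rw [mem_insert, mem_singleton] at hc₂
    push Not at hc₂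
    exact ⟨c₁, c₂, fun h => hc₂.2 h.symm, hgood c₁ hc₁, hgood c₂ hc₂.1⟩
  -- the data
  have hlpW : LP p v W 0 (w 0 + b) := fun ε hε => by
    rw [hH.B_eq] at hlp
    obtain ⟨y, hy, h3⟩ := root_lim hH.tw hb hlp hε
    exact ⟨y, hy, by rwa [zero_sub]⟩
  have hbch : ∀ (c : k) (ω : Ω), κ t' - c * γ t' ≠ 0 → ω ^ p = w 0 + b + algebraMap k Ω c * x →
      BCh p v L W B F K w x z a D₀ b e κ γ t' a₀ c ω := fun c ω hc hω =>
    { hb := hH
      base := hB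
      bW := hb
      lpw := hlpW
      aF := ha₀
      rel := by rwa [hκt, hγt]
      tie := fun ε hε => by
        obtain ⟨θ, hθ, h3, y, hy, h4⟩ := htie ε hε
        exact ⟨θ, hθ, h3, y, hy, by rwa [hκt, hγt]⟩
      top := hc
      om := hω }
  obtain ⟨ω₁, e₁⟩ := IsAlgClosed.exists_pow_nat_eq (w 0 + b + algebraMap k Ω c₁ * x) hp.out.pos
  obtain ⟨ω₂, e₂⟩ := IsAlgClosed.exists_pow_nat_eq (w 0 + b + algebraMap k Ω c₂ * x) hp.out.pos
  have hb₁ := hbch c₁ ω₁ h1 e₁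
  have hb₂ := hbch c₂ ω₂ h2 e₂
  obtain ⟨hH₁, T, N, g, d, hatt, hd, hdB, hdu, heff⟩ := one_root h10 hb₁ hU
  obtain ⟨-, T₂, N₂, g₂, -, hatt₂, -, -, -, -⟩ := one_root h10 hb₂ hU
  -- the jets are limits over `F`, and they agree
  have hPI : ∀ {E : IntermediateField k Ω}, B ≤ E → ∀ {θ : Polynomial Ω}, θ ∈ PI B → θ ∈ PI E :=
    fun hE _ hθ => PI_mono hE hθ
  have hlim : ∀ j, j ≠ 0 → Lim v F 0 (if j ≤ N then g j else 0) := by
    intro j hj ε hε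
    obtain ⟨θ, hθ, h3⟩ := exists_near_poly hH hε
    have h4 := hatt.near hk hε (hPI hb₁.leB hθ) h3 hj
    refine ⟨(hasseDeriv j θ).eval (w 1), ?_, ?_⟩
    · rw [hH.F_eq]
      exact TWLM.eval_mem_cadj (TWLM.hasseDeriv_mem_PI hθ j)
    · rw [zero_sub]
      exact ge_sub_comm h4
  have hagree : ∀ j, j ≠ 0 → v.Ge 0 ((if j ≤ N then g j else 0) - (if j ≤ N₂ then g₂ j else 0)) := by
    intro j hj h0
    refine le_of_forall_pos_le_add fun ε hε => ?_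
    obtain ⟨θ, hθ, h3⟩ := exists_near_poly hH hε
    have h4 := hatt.near hk hε (hPI hb₁.leB hθ) h3 hj
    have h5 := hatt₂.near hk hε (hPI hb₂.leB hθ) h3 hj
    have h6 := (h5.sub h4)
    have e3 : (hasseDeriv j θ).eval (w 1) - (if j ≤ N₂ then g₂ j else 0) -
        ((hasseDeriv j θ).eval (w 1) - if j ≤ N then g j else 0) =
        (if j ≤ N then g j else 0) - (if j ≤ N₂ then g₂ j else 0) := by ring
    rw [e3] at h6
    have := h6 h0
    linarith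
  have hf : ∀ j, ∃ f ∈ F, j ∈ Icc 1 N → v.Ge 0 (g j - f) := by
    intro j
    by_cases hj : j ∈ Icc 1 N
    · obtain ⟨hj1, hj2⟩ := mem_Icc.1 hj
      have hj0 : j ≠ 0 := by omega
      have h3 := hlim j hj0
      have h4 := hagree j hj0
      rw [if_pos hj2] at h3 h4
      obtain ⟨f, hf, h5⟩ := HB.near_of_roots hH hB hb hcc hb₁.tw hb₂.tw e₁ e₂ hb₁.tu hb₂.tu h3
        ⟨g j, hatt.fF j, by rw [sub_self]; exact RVal.Ge.zero⟩
        ⟨_, by
          split_ifs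
          · exact hatt₂.fF j
          · exact zero_mem _, h4⟩
      exact ⟨f, hf, fun _ => h5⟩
    · exact ⟨0, zero_mem F, fun h => absurd h hj⟩
  choose f hfF hfg using hf
  have hattF : Att v B F (w 1) z T N f := by
    refine ⟨hatt.iso, fun c y hy => hatt.fix c y (hb₁.leB hy), hatt.w, hfF, fun c => ?_⟩
    have e3 : T c z - z - ∑ j ∈ Icc 1 N, algebraMap k Ω c ^ j * f j =
        (T c z - z - ∑ j ∈ Icc 1 N, algebraMap k Ω c ^ j * g j) +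
        ∑ j ∈ Icc 1 N, algebraMap k Ω c ^ j * (g j - f j) := by
      simp only [mul_sub, sum_sub_distrib]
      ring
    rw [e3]
    refine (hatt.jet c).add (RVal.Ge.sum _ _ fun j hj => ?_)
    have h3 := (ge_pow (hk.ge c) j).mul (hfg j hj)
    rwa [mul_zero, add_zero] at h3
  have hTF := fun c => att_maps hH.cv hH.F_eq hattF c
  have hleF : F ≤ cadj v (cadj v W ω₁) (w 1) := hb₁.leF
  have hdF : Drv v F d :=
    ⟨fun y hy y' hy' => hd.add y (hleF hy) y' (hleF hy'),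
      fun y hy y' hy' => hd.mul y (hleF hy) y' (hleF hy'), hd.alg,
      fun y hy r hr => hd.norm y (hleF hy) r hr⟩
  refine ⟨T, N, f, d, hattF, hTF, hdF, fun y hy => hdB y (hb₁.leB hy), hdu, fun c => ?_⟩
  set F₁ := cadj v (cadj v W ω₁) (w 1) with hF₁
  have hsf : ∑ j ∈ Icc 1 N, algebraMap k Ω c ^ j * f j ∈ F := sum_mem fun j _ =>
    mul_mem (pow_mem (F.algebraMap_mem _) _) (hfF j)
  have hsg : ∑ j ∈ Icc 1 N, algebraMap k Ω c ^ j * g j ∈ F₁ := sum_mem fun j _ =>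
    mul_mem (pow_mem (F₁.algebraMap_mem _) _) (hatt.fF j)
  have hTa : T c a₀ - a₀ ∈ F := sub_mem (hTF c a₀ ha₀) ha₀
  have hdiff : VPos v (d (∑ j ∈ Icc 1 N, algebraMap k Ω c ^ j * f j -
      ∑ j ∈ Icc 1 N, algebraMap k Ω c ^ j * g j)) := by
    refine drv_vpos hH₁ hd (sub_mem (hleF hsf) hsg) ?_
    rw [← sum_sub_distrib]
    refine RVal.Ge.sum _ _ fun j hj => ?_
    rw [← mul_sub]
    have h3 := (ge_pow (hk.ge c) j).mul (ge_sub_comm (hfg j hj))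
    rwa [mul_zero, add_zero] at h3
  have h3 := heff c
  rw [hd.add _ (mul_mem (F₁.algebraMap_mem e) hsg) _ (hleF hTa),
    hd.mul _ (F₁.algebraMap_mem e) _ hsg, hd.alg, mul_zero, add_zero] at h3
  rw [hd.sub (hleF hsf) hsg] at hdiff
  have e3 : algebraMap k Ω e * d (∑ j ∈ Icc 1 N, algebraMap k Ω c ^ j * f j) + d (T c a₀ - a₀) =
      (algebraMap k Ω e * d (∑ j ∈ Icc 1 N, algebraMap k Ω c ^ j * g j) + d (T c a₀ - a₀)) +
      (d (∑ j ∈ Icc 1 N, algebraMap k Ω c ^ j * f j) -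
        d (∑ j ∈ Icc 1 N, algebraMap k Ω c ^ j * g j)) * algebraMap k Ω e := by ring
  rw [e3]
  have h4 := Gt.mul_ge hdiff (hk.ge e)
  rw [add_zero] at h4
  exact Gt.add h3 h4

/-- The tie of a critical value of a polynomial. -/
theorem tie_poly {E : IntermediateField k Ω} (hz : TL v E z 0) {f : Polynomial Ω}
    (hf : f ∈ PI E) (h : LP p v (cadj v E z) 0 (f.eval z)) {ε : ℝ} (hε : 0 < ε) :
    ∃ θ ∈ E, v.Ge (-ε) (z - θ) ∧ ∃ h ∈ E, v.Ge (-ε) (f.eval θ - h ^ p) := by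
  obtain ⟨G, hG, h1⟩ := LP.poly p hz h hε
  rw [zero_sub] at h1
  set q : Polynomial Ω := f - G ^ p with hq
  have hqE : q ∈ PI E := sub_mem hf (pow_mem hG p)
  have key : ∀ θ ∈ E, v.Ge (-ε) (z - θ) → v.Ge (-ε) (q.eval θ) →
      ∃ θ ∈ E, v.Ge (-ε) (z - θ) ∧ ∃ h ∈ E, v.Ge (-ε) (f.eval θ - h ^ p) := by
    intro θ h2 h3 h4
    refine ⟨θ, h2, h3, G.eval θ, eval_mem hG h2, ?_⟩
    rwa [hq, eval_sub, eval_pow] at h4
  by_cases hE0 : q = 0
  · obtain ⟨θ, h2, h3⟩ := hz.lim ε hε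
    rw [zero_sub] at h3
    exact key θ h2 h3 (by rw [hE0, eval_zero]; exact RVal.Ge.zero)
  · obtain ⟨δ, hδ, h2⟩ := hz.near_val (PI_mono (le_algc E) hqE) hE0
    obtain ⟨θ, h3, h4⟩ := hz.lim (min ε δ) (lt_min hε hδ)
    obtain ⟨h5, h6⟩ := h2 θ (h4.mono (by linarith [min_le_right ε δ]))
    refine key θ h3 (h4.mono (by linarith [min_le_left ε δ])) fun _ => ?_
    rw [h6]
    exact h1 (hz.eval_ne (PI_mono (le_algc E) hqE) hE0)

/-- **The tie with two rows**, from the relation. -/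
theorem tie_two {E K : IntermediateField k Ω} {x y a₀ : Ω} (hz : TL v E z 0)
    (hK : K = cadj v E z) (hx : x ∈ E) (hy : y ∈ E) (ha₀ : a₀ ∈ E) (hlp : LP p v K 0 a) {e : k}
    {κ γ : ℕ → k} {t : ℕ} (hrel : PG p v K 0 (a - (algebraMap k Ω e * z + x * PP p κ t z +
      y * PP p γ t z + a₀))) {ε : ℝ} (hε : 0 < ε) : ∃ θ ∈ E, v.Ge (-ε) (z - θ) ∧ ∃ h ∈ E,
    v.Ge (-ε) (algebraMap k Ω e * θ + x * PP p κ t θ + y * PP p γ t θ + a₀ - h ^ p) := by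
  set f : Polynomial Ω := C (algebraMap k Ω e) * X + C x * (∑ i ∈ range (t + 1),
      C (algebraMap k Ω (κ i)) * X ^ p ^ (i + 1)) + C y * (∑ i ∈ range (t + 1),
      C (algebraMap k Ω (γ i)) * X ^ p ^ (i + 1)) + C a₀ with hf
  have hev : ∀ θ : Ω, f.eval θ = algebraMap k Ω e * θ + x * PP p κ t θ + y * PP p γ t θ + a₀ := by
    intro θ
    rw [hf]
    simp only [eval_add, eval_mul, eval_C, eval_X, eval_finsetSum, eval_pow]
    rfl
  have hsm : ∀ κ' : ℕ → k, (∑ i ∈ range (t + 1), C (algebraMap k Ω (κ' i)) * X ^ p ^ (i + 1) :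
      Polynomial Ω) ∈ PI E := fun κ' => sum_mem fun i _ =>
    mul_mem (C_mem_PI (E.algebraMap_mem _)) (pow_mem X_mem_PI _)
  have hfE : f ∈ PI E := add_mem (add_mem (add_mem (mul_mem (C_mem_PI (E.algebraMap_mem _))
    X_mem_PI) (mul_mem (C_mem_PI hx) (hsm κ))) (mul_mem (C_mem_PI hy) (hsm γ))) (C_mem_PI ha₀)
  have h1 : LP p v (cadj v E z) 0 (f.eval z) := by
    rw [hev, ← hK]
    have h2 := hlp.sub (LP.of_pg hrel)
    rwa [sub_sub_cancel] at h2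
  obtain ⟨θ, hθ, h2, h, hh, h3⟩ := tie_poly hz hfE h1 hε
  exact ⟨θ, hθ, h2, h, hh, by rwa [hev] at h3⟩

/-- **The bad case**, without the tie, the effects in one term. -/
theorem att_of_bad' (h10 : RowR10 (k := k) p v) {D₀ : Ω → Ω} {U₀ : Polynomial Ω}
    (hH : HB p v L W B F K w x z a) (hB : BaseD p v W x D₀) (hU : ShU v W w U₀) {e : k}
    {κ γ : ℕ → k} {t : ℕ} {a₀ b : Ω} (ha₀ : a₀ ∈ F) (hb : b ∈ W) (hlp : LP p v B 0 (w 0 + b))
    (hrel : PG p v K 0 (a - (algebraMap k Ω e * z + x * PP p κ t z +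
      (w 0 + b) * PP p γ t z + a₀)))
    (hγ : ∃ i ≤ t, γ i ≠ 0) :
    ∃ (T : k → Ω →ₐ[k] Ω) (N : ℕ) (f : ℕ → Ω) (d : Ω → Ω), Att v B F (w 1) z T N f ∧
      (∀ c, ∀ y ∈ F, T c y ∈ F) ∧ Drv v F d ∧ (∀ y ∈ B, d y = 0) ∧ d (w 1) = 1 ∧
      ∀ c, VPos v (d (algebraMap k Ω e * ∑ j ∈ Icc 1 N, algebraMap k Ω c ^ j * f j +
        (T c a₀ - a₀))) := by
  have hWF : W ≤ F := hH.WB.trans hH.BF
  have hw0 : w 0 ∈ F := hH.BF hH.w0B
  obtain ⟨T, N, f, d, h1, h2, h3, h4, h5, h6⟩ := att_of_bad h10 hH hB hU ha₀ hb hlp hrel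
    (fun ε hε => tie_two hH.zt hH.K_eq (hWF hH.xW) (add_mem hw0 (hWF hb)) ha₀ hH.lp hrel hε) hγ
  refine ⟨T, N, f, d, h1, h2, h3, h4, h5, fun c => ?_⟩
  have hs : ∑ j ∈ Icc 1 N, algebraMap k Ω c ^ j * f j ∈ F := sum_mem fun j _ =>
    mul_mem (pow_mem (F.algebraMap_mem _) _) (h1.fF j)
  rw [h3.add _ (mul_mem (F.algebraMap_mem e) hs) _ (sub_mem (h2 c a₀ ha₀) ha₀),
    h3.mul _ (F.algebraMap_mem e) _ hs, h3.alg, mul_zero, add_zero]
  exact h6 c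

end Pool.Agent.TWRW
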