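import Pool.Agent.Lib.TWRW.TopC
import Pool.Agent.Lib.TWRB.Fin

/-!
# RowB, the base change: from the output of the core to the original `z` and the original tie

* `tie_unique`: the coefficients of the tie are unique;
* `out_z`: the jets of `z` are attained, the derivatives of the effects are strict, for the original
  form of `a`.
-/

set_option autoImplicit false

open Polynomial Finset

namespace Pool.Agent.TWRW

open Pool.Agent.H15JM (RVal)
open Pool.Agent.LU1 (VPos adj)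
open Pool.Agent.D2 (Ctx0)
open Pool.Agent.D2P (clI)
open Pool.Agent.TWM
open Pool.Agent.TWS (IsoE SphC)
open Pool.Agent.TWII (PG LP)
open Pool.Agent.TWN1
open Pool.Agent.TWLY
open Pool.Agent.TWCY
open Pool.Agent.TWRR (Att)
open Pool.Agent.TWRB

universe u

variable {k Ω : Type u} [Field k] [Field Ω] [Algebra k Ω] {v : RVal Ω}
  {L : ℕ → IntermediateField k Ω} {W B F K : IntermediateField k Ω} {w : Fin 2 → Ω}
  {x z a : Ω} {p : ℕ}

/-- The additive polynomial, with more terms. -/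
theorem PP_ext {A : Type*} [CommRing A] [Algebra k A] {κ : ℕ → k} {t M : ℕ} (h : t ≤ M) (y : A) :
    PP p κ t y = ∑ i ∈ range (M + 1), algebraMap k A (if i ≤ t then κ i else 0) * y ^ p ^ (i + 1) := by
  have h1 : PP p κ t y = ∑ i ∈ range (t + 1),
      algebraMap k A (if i ≤ t then κ i else 0) * y ^ p ^ (i + 1) :=
    sum_congr rfl fun i hi => by rw [if_pos (Nat.lt_succ_iff.1 (mem_range.1 hi))]
  rw [h1]
  refine sum_subset (range_subset_range.2 (by omega)) fun i _ hi => ?_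
  rw [if_neg fun h2 => hi (mem_range.2 (by omega)), map_zero, zero_mul]

/-- **The coefficients of the tie are unique.** -/
theorem tie_unique [hp : Fact p.Prime] [CharP Ω p] [CharP k p] [IsAlgClosed k] [IsAlgClosed Ω]
    (hk : Ctx0 k v) (hz : TL v F z 0) (hx : x ∈ F) (hxn : ¬ PG p v F 0 x) {e₁ e₀ : k}
    {κ₁ κ₀ : ℕ → k} {t₁ t₀ : ℕ} {a₁ a₀ : Ω} (ha₁ : a₁ ∈ F) (ha₀ : a₀ ∈ F)
    (h : PG p v (cadj v F z) 0 ((algebraMap k Ω e₁ * z + x * PP p κ₁ t₁ z + a₁) -
      (algebraMap k Ω e₀ * z + x * PP p κ₀ t₀ z + a₀))) :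
    e₁ = e₀ ∧ (∀ {A : Type u} [CommRing A] [Algebra k A] (y : A), PP p κ₁ t₁ y = PP p κ₀ t₀ y) ∧
      PG p v F 0 (a₁ - a₀) := by
  classical
  set M := max t₁ t₀ with hM
  set κ : ℕ → k := fun i => (if i ≤ t₁ then κ₁ i else 0) - (if i ≤ t₀ then κ₀ i else 0) with hκ
  set y : ℕ → Ω := fun j => if j = 0 then algebraMap k Ω (e₁ - e₀) else
    x * algebraMap k Ω (κ (j - 1)) with hy
  have hyF : ∀ j, y j ∈ F := by
    intro j
    simp only [hy]
    split_ifs
    · exact F.algebraMap_mem _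
    · exact mul_mem hx (F.algebraMap_mem _)
  set g : Polynomial Ω := C (a₁ - a₀) + ∑ j ∈ range (M + 1 + 1), C (y j) * X ^ p ^ j with hg
  have hgF : g ∈ PI F := add_mem (C_mem_PI (sub_mem ha₁ ha₀)) (sum_mem fun j _ =>
    mul_mem (C_mem_PI (hyF j)) (pow_mem X_mem_PI _))
  have hge : g.eval z = (algebraMap k Ω e₁ * z + x * PP p κ₁ t₁ z + a₁) -
      (algebraMap k Ω e₀ * z + x * PP p κ₀ t₀ z + a₀) := by
    have h2 : ∑ i ∈ range (M + 1), (C (y (i + 1)) * X ^ p ^ (i + 1)).eval z =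
        x * (PP p κ₁ t₁ z - PP p κ₀ t₀ z) := by
      rw [PP_ext (le_max_left t₁ t₀), PP_ext (le_max_right t₁ t₀), ← sum_sub_distrib, mul_sum]
      refine sum_congr rfl fun i _ => ?_
      rw [eval_mul, eval_C, eval_pow, eval_X]
      simp only [hy, hκ, Nat.succ_ne_zero, if_false, Nat.add_sub_cancel, map_sub]
      ring
    have h3 : y 0 = algebraMap k Ω (e₁ - e₀) := by simp [hy]
    rw [hg, eval_add, eval_C, eval_finsetSum, sum_range_succ', h2, eval_mul, eval_C, eval_pow,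
      eval_X, h3, pow_zero, pow_one, map_sub]
    ring
  rw [← hge] at h
  obtain ⟨μ, hμ, h1⟩ := PG.exists_pc h
  have hjet : ∀ j, j ≤ M + 1 → (hasseDeriv (p ^ j) g).eval z = y j := by
    intro j hj
    have hpj : p ^ j ≠ 0 := (Nat.pow_pos hp.out.pos).ne'
    rw [hg, map_add, hasse_add_poly y (M + 1) hpj, hasseDeriv_eq_zero_of_lt_natDegree
      (C (a₁ - a₀)) (p ^ j) (by
        rw [natDegree_C]
        exact Nat.pos_of_ne_zero hpj), zero_add,
      sum_eq_single_of_mem j (mem_range.2 (by omega)) (fun i _ hij => if_neg fun h3 => hij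
      (Nat.pow_right_injective hp.out.one_lt h3.symm)), if_pos rfl, eval_C]
  have hκ0 : ∀ i, i ≤ M → κ i = 0 := by
    intro i hi
    by_contra h0
    have h2 := PC.jet_pg hz hgF h1 (j := p ^ (i + 1)) (Nat.pow_pos hp.out.pos).ne'
    rw [hjet (i + 1) (by omega), mul_zero, sub_zero] at h2
    simp only [hy, Nat.succ_ne_zero, if_false, Nat.add_sub_cancel] at h2
    have h3 : PG p v (cadj v F z) 0 (x * algebraMap k Ω (κ i)) := h2.mono (by linarith)
    obtain ⟨c, hc⟩ : ∃ c : k, c ^ p = κ i := IsAlgClosed.exists_pow_nat_eq _ hp.out.pos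
    have hc0 : c ≠ 0 := fun h4 => h0 (by rw [← hc, h4, zero_pow hp.out.ne_zero])
    have hcv : v (algebraMap k Ω c) = 0 := hk.triv c hc0
    have h5 : PG p v (cadj v F z) 0 x := by
      refine PG.of_mul_pow (d := algebraMap k Ω c) ((cadj v F z).algebraMap_mem c) (fun h4 => hc0 ?_) ?_
      · exact (map_eq_zero _).1 h4
      · rw [hcv, mul_zero, add_zero, ← map_pow, hc]
        exact h3
    exact hxn (PG.down hz hx h5)
  have he : e₁ = e₀ := by
    by_contra h0
    have hp1 : ¬ p ∣ 1 := fun h5 => hp.out.one_lt.not_ge (Nat.le_of_dvd one_pos h5)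
    have h2 := PC.jet_gt hz hgF h1 hp1
    have h3 := hjet 0 (by omega)
    rw [pow_zero] at h3
    rw [h3, mul_zero, sub_zero] at h2
    simp only [hy, if_true] at h2
    have h4 : e₁ - e₀ ≠ 0 := sub_ne_zero.2 h0
    have h5 := h2 (fun h6 => h4 ((map_eq_zero _).1 h6))
    rw [hk.triv _ h4] at h5
    linarith
  have hPP : ∀ {A : Type u} [CommRing A] [Algebra k A] (y : A), PP p κ₁ t₁ y = PP p κ₀ t₀ y := by
    intro A _ _ y
    rw [PP_ext (le_max_left t₁ t₀), PP_ext (le_max_right t₁ t₀)]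
    refine sum_congr rfl fun i hi => ?_
    rw [sub_eq_zero.1 (hκ0 i (Nat.lt_succ_iff.1 (mem_range.1 hi)))]
  refine ⟨he, hPP, ?_⟩
  have h2 : g.eval z = a₁ - a₀ := by
    rw [hge, he, hPP z]
    ring
  rw [h2] at h
  exact PG.down hz (sub_mem ha₁ ha₀) h

/-- `x` is not null in `F`. -/
theorem x_not_pg [hp : Fact p.Prime] [CharP Ω p] [IsAlgClosed Ω] (h : HB p v L W B F K w x z a)
    {D : Ω → Ω} (hD : BaseD p v W x D) : ¬ PG p v F 0 x := fun h1 => by
  have hu := h.tu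
  have hw := h.tw
  rw [h.F_eq] at h1
  have h2 := PG.down hu (h.WB h.xW) h1
  rw [h.B_eq] at h2
  exact base_not_pg h.xW hD (PG.down hw h.xW h2)

/-- The translations map `F` to `F`. -/
theorem att_maps [IsAlgClosed Ω] {C F : IntermediateField k Ω} {u y : Ω} {T : k → Ω →ₐ[k] Ω}
    {n : ℕ} {f : ℕ → Ω} (hcv : CompleteV v) (hF : F = cadj v C u) (h : Att v C F u y T n f) (c : k) :
    ∀ g ∈ F, T c g ∈ F := by
  have hCm : C.map (T c) = C := by
    ext y
    constructor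
    · rintro ⟨b, hb, rfl⟩
      have h5 : T c b = b := h.fix c b hb
      exact h5.symm ▸ hb
    · exact fun hy => ⟨y, hy, h.fix c y hy⟩
  intro y hy
  have h5 : (cadj v C u).map (T c) = cadj v C u :=
    TWCT.cadj_map_eq hcv (h.iso c) hCm (C.algebraMap_mem c) (h.w c)
  rw [hF] at hy ⊢
  rw [← h5]
  exact ⟨y, hy, rfl⟩

/-- **The jets of `z` are attained, the effects have strict derivatives**, for the original form. -/
theorem out_z [hp : Fact p.Prime] [CharP Ω p] [CharP k p] [IsAlgClosed k] [IsAlgClosed Ω]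
    (h : HB p v L W B F K w x z a) {D : Ω → Ω} (hD : BaseD p v W x D) {φ : Ω} {e : k} {κ : ℕ → k}
    {t : ℕ} {a₁ : Ω} {T : k → Ω →ₐ[k] Ω} {n : ℕ} {f : ℕ → Ω} {dd : Fin 2 → Ω → Ω}
    (hO : OutE p v B F K (w 1) x z a φ e κ t a₁ T n f dd) {e₀ : k} {κ₀ : ℕ → k} {t₀ : ℕ} {a₀ : Ω}
    (ha₀ : a₀ ∈ F)
    (hrel : PG p v K 0 (a - (algebraMap k Ω e₀ * z + x * PP p κ₀ t₀ z + a₀))) :
    ∃ (N : ℕ) (g : ℕ → Ω), Att v B F (w 1) z T N g ∧ ∀ c, VPos v (dd 1 (algebraMap k Ω e₀ *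
      ∑ j ∈ Icc 1 N, algebraMap k Ω c ^ j * g j + (T c a₀ - a₀))) := by
  classical
  have hcv := h.cv
  have hk := h.c0
  have hWF : W ≤ F := h.WB.trans h.BF
  have hxF : x ∈ F := hWF h.xW
  have hTF := fun c => att_maps hcv h.F_eq hO.att c
  have hPP : ∀ y ∈ F, PP p κ t y ∈ F := fun y hy => PP_mem hy
  -- uniqueness
  obtain ⟨he, hκ, h1⟩ := tie_unique (e₁ := e₀) (κ₁ := κ₀) (t₁ := t₀) (a₁ := a₀) (e₀ := e)
    (κ₀ := κ) (t₀ := t) (a₀ := a₁ - algebraMap k Ω e * φ - x * PP p κ t φ) hk h.zt hxF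
    (x_not_pg h hD) ha₀ (sub_mem (sub_mem hO.aF (mul_mem (F.algebraMap_mem _) hO.φF))
      (mul_mem hxF (hPP φ hO.φF))) (by
    have h2 := hO.rel.sub hrel
    rw [h.K_eq] at h2
    have e1 : algebraMap k Ω e₀ * z + x * PP p κ₀ t₀ z + a₀ - (algebraMap k Ω e * z +
        x * PP p κ t z + (a₁ - algebraMap k Ω e * φ - x * PP p κ t φ)) =
        a - (algebraMap k Ω e * (z - φ) + x * PP p κ t (z - φ) + a₁) -
        (a - (algebraMap k Ω e₀ * z + x * PP p κ₀ t₀ z + a₀)) := by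
      rw [PP_sub]
      ring
    rw [e1]
    exact h2)
  obtain ⟨m, hm, h2⟩ := h1
  set o : Ω := a₀ - (a₁ - algebraMap k Ω e * φ - x * PP p κ t φ) - m ^ p with ho
  have hoF : o ∈ F := sub_mem (sub_mem ha₀ (sub_mem (sub_mem hO.aF
    (mul_mem (F.algebraMap_mem _) hO.φF)) (mul_mem hxF (hPP φ hO.φF)))) (pow_mem hm p)
  -- the approximation of `φ`
  have hφ' := hO.φF
  rw [h.F_eq] at hφ'
  obtain ⟨q, hq, h4⟩ := h.tu.dense hφ' 1
  have hqF : q.eval (w 1) ∈ F := by
    rw [h.F_eq]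
    exact TWLM.eval_mem_cadj hq
  set r : Ω := φ - q.eval (w 1) with hr
  have hrF : r ∈ F := sub_mem hO.φF hqF
  set N := max n q.natDegree with hN
  set g : ℕ → Ω := fun j => (if j ≤ n then f j else 0) + (hasseDeriv j q).eval (w 1) with hg
  have hgF : ∀ j, g j ∈ F := fun j => by
    simp only [hg]
    refine add_mem ?_ ?_
    · split_ifs
      · exact hO.att.fF j
      · exact zero_mem _
    · rw [h.F_eq]
      exact TWLM.eval_mem_cadj (TWLM.hasseDeriv_mem_PI hq j)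
  have hsum : ∀ c : k, ∑ j ∈ Icc 1 N, algebraMap k Ω c ^ j * g j =
      ∑ j ∈ Icc 1 n, algebraMap k Ω c ^ j * f j + (T c φ - φ) - (T c r - r) := fun c => by
    have e1 : T c φ - φ - (T c r - r) = T c (q.eval (w 1)) - q.eval (w 1) := by
      rw [hr, map_sub]
      ring
    rw [add_sub_assoc, e1, att_poly hO.att hq (le_max_right n q.natDegree) c]
    simp only [hg, mul_add, sum_add_distrib]
    congr 1
    have h5 : ∑ j ∈ Icc 1 n, algebraMap k Ω c ^ j * f j =
        ∑ j ∈ Icc 1 n, algebraMap k Ω c ^ j * (if j ≤ n then f j else 0) :=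
      sum_congr rfl fun j hj => by rw [if_pos (mem_Icc.1 hj).2]
    rw [h5]
    refine (sum_subset (Icc_subset_Icc_right (le_max_left _ _)) fun j hj hj2 => ?_).symm
    rw [if_neg, mul_zero]
    exact fun h6 => hj2 (mem_Icc.2 ⟨(mem_Icc.1 hj).1, h6⟩)
  have hr1 : ∀ c, v.Ge 1 (T c r - r) := fun c => ((hO.att.iso c).ge_iff.2 h4).sub h4
  refine ⟨N, g, ⟨hO.att.iso, hO.att.fix, hO.att.w, hgF, fun c => ?_⟩, fun c => ?_⟩
  · have e1 : T c z - z - ∑ j ∈ Icc 1 N, algebraMap k Ω c ^ j * g j =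
        (T c (z - φ) - (z - φ) - ∑ j ∈ Icc 1 n, algebraMap k Ω c ^ j * f j) + (T c r - r) := by
      rw [hsum c, map_sub (T c) z φ]
      ring
    rw [e1]
    exact (hO.att.jet c).add ((hr1 c).mono zero_le_one)
  · have hd := hO.drv 1
    have hTx : T c x = x := hO.att.fix c x (h.WB h.xW)
    have hTPP : T c (PP p κ t φ) = PP p κ t (T c φ) := PP_map (T c) φ
    have hTφ : T c φ - φ ∈ F := sub_mem (hTF c φ hO.φF) hO.φF
    have hTm : T c m - m ∈ F := sub_mem (hTF c m hm) hm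
    have hTr : T c r - r ∈ F := sub_mem (hTF c r hrF) hrF
    have hTo : T c o - o ∈ F := sub_mem (hTF c o hoF) hoF
    have hold : algebraMap k Ω e * ∑ j ∈ Icc 1 n, algebraMap k Ω c ^ j * f j +
        (T c a₁ - a₁) ∈ F :=
      add_mem (mul_mem (F.algebraMap_mem _) (sum_mem fun j _ =>
        mul_mem (pow_mem (F.algebraMap_mem _) _) (hO.att.fF j))) (sub_mem (hTF c a₁ hO.aF) hO.aF)
    have ea : a₀ = a₁ - algebraMap k Ω e * φ - x * PP p κ t φ + m ^ p + o := by
      rw [ho]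
      ring
    have e1 : algebraMap k Ω e₀ * ∑ j ∈ Icc 1 N, algebraMap k Ω c ^ j * g j + (T c a₀ - a₀) =
        (algebraMap k Ω e * ∑ j ∈ Icc 1 n, algebraMap k Ω c ^ j * f j + (T c a₁ - a₁)) -
        x * PP p κ t (T c φ - φ) + (T c m - m) ^ p + ((T c o - o) -
          algebraMap k Ω e * (T c r - r)) := by
      have e2 : T c a₀ - a₀ = (T c a₁ - a₁) - algebraMap k Ω e * (T c φ - φ) -
          x * (T c (PP p κ t φ) - PP p κ t φ) + ((T c m) ^ p - m ^ p) + (T c o - o) := by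
        rw [ea]
        simp only [map_add, map_sub, map_mul, map_pow, hTx, AlgHom.commutes]
        ring
      rw [e2, hTPP, ← PP_sub, ← sub_pow_char, he, hsum c]
      ring
    have hsm : Gt v 0 ((T c o - o) - algebraMap k Ω e * (T c r - r)) := by
      refine Gt.sub (Gt.sub ?_ h2) ?_
      · exact (hO.att.iso c).gt_iff.2 h2
      · have h5 := (Gt.of_ge (hr1 c) one_pos).mul_ge (hk.ge e)
        rw [add_zero, mul_comm] at h5
        exact h5
    have hm1 : x * PP p κ t (T c φ - φ) ∈ F := mul_mem hxF (hPP _ hTφ)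
    have hm2 : (T c m - m) ^ p ∈ F := pow_mem hTm p
    have hm3 : (T c o - o) - algebraMap k Ω e * (T c r - r) ∈ F :=
      sub_mem hTo (mul_mem (F.algebraMap_mem _) hTr)
    rw [e1, hd.add _ (add_mem (sub_mem hold hm1) hm2) _ hm3, hd.add _ (sub_mem hold hm1) _ hm2,
      hd.sub hold hm1, hd.mul _ hxF _ (hPP _ hTφ), hd.map_PP hTφ, hO.ddx 1, mul_zero, mul_zero,
      add_zero, sub_zero, TWRR.drv_pow hd hTm, add_zero]
    exact (hO.eff c 1).add (drv_gt hd hm3 hsm)

end Pool.Agent.TWRW
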