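import Pool.Agent.Lib.TWRW.Bad
import Pool.Agent.Lib.TWRW.BF
import Pool.Agent.Lib.TWRW.Main
import Pool.Agent.Lib.TWRB.R10
import Pool.Agent.Lib.TWRW.AfDownB

/-!
# RowB, the tie: the rows of `tie_all`

* `rowTopBR`, `rowTopB1`, `rowAttBad`: the rows which are proved;
* `rowDown`: the descent; `rowBad`, `rowBF`: from the trichotomy.
-/

set_option autoImplicit false

open Finset Polynomial

namespace Pool.Agent.TWRW

open Pool.Agent.H15JM (RVal)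
open Pool.Agent.D2P (clI)
open Pool.Agent.TWM
open Pool.Agent.TWII (PG LP)
open Pool.Agent.TWCY
open Pool.Agent.TWRB

universe u

section big

variable {k Ω : Type u} [Field k] [Field Ω] [Algebra k Ω] {v : RVal Ω} {p : ℕ}
  [hp : Fact p.Prime] [CharP k p] [CharP Ω p] [IsAlgClosed k] [IsAlgClosed Ω]

theorem rowTopBR : RowTopB (k := k) p v :=
  rowTopB_of rowR8 rowR10 (rowR12 (p := p) v) rowR12v (rowCore p v)

theorem rowTopB1 : RowTopB1 (k := k) p v := by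
  intro L W B F K w x z a D U₀ e₀ κ₀ t₀ a₀ h hD hU hT
  obtain ⟨φ, e, κ, t, a₁, T, n, f, dd, h1, -, h2, h3⟩ := topC rowR10 (rowCore p v) h hD hU hT
  exact ⟨φ, e, κ, t, a₁, T, n, f, dd, h1, h2, h3⟩

theorem rowAttBad : RowAttBad (k := k) p v := by
  rintro L W B F K w x z a D U₀ e κ γ t a₀ b h hD hU hb hlw ha₀ hrel ⟨j, hj, hγ⟩
  obtain ⟨T, N, f, d, h1, -, h3, h4, h5, h6⟩ := att_of_bad' rowR10 h hD hU ha₀ hb hlw hrel
    ⟨j, by
      have := mem_range.1 hj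
      omega, hγ⟩
  exact ⟨T, N, f, d, h1, h3, h4, h5, h6⟩

end big

section real

variable {k Ω₀ Ω : Type u} [Field k] [Field Ω₀] [Algebra k Ω₀] [Field Ω] [Algebra k Ω]
  {p : ℕ} {v₀ : RVal Ω₀} {v : RVal Ω} {ι : Ω₀ →ₐ[k] Ω} [hp : Fact p.Prime] [CharP Ω₀ p]
  [CharP Ω p] [CharP k p] [IsAlgClosed k] [IsAlgClosed Ω₀] [IsAlgClosed Ω] {x₀ : Ω₀}
  {W₀ K₀ : IntermediateField k Ω₀} {al : Ω₀}

/-- The descent of additive forms. -/
theorem rowDown {ν : ℝ} {C F : IntermediateField k Ω₀} {y u z : Ω₀} {r t s : ℝ}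
    (h : RFl p v₀ v ι x₀ W₀ K₀ al ν C F y u z r t s) :
    RowDown p v₀ v ι x₀ W₀ K₀ al ν C F y u z r t s := by
  intro G M L X₀ c₁ c₂ d m cx D hG φ₀ hφ₀ hpar lam b m' hb hm' hmv g b₁ X S Y T hg haf hT hY
  obtain ⟨b₀, x, S', y', h1, h2⟩ := h.real_afb hG hφ₀ hpar hb hm' hmv hg haf hT hY
  exact ⟨b₀, x, S', y', T, h1, hT, h2⟩

/-- **`RowBad`**, from the trichotomy. -/
theorem rowBad (hTri : RowTri (k := k) p v) (hA : TWCT.RowA p v₀ v ι x₀ W₀ K₀ al) :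
    RowBad p v₀ v ι x₀ W₀ K₀ al := by
  intro ν C F y u z r t s Θ h _ _ hΘ hfin
  refine Or.inl fun G M L X₀ c₁ c₂ d m cx D hG => ?_
  exact tie_all rowTopBR rowTopB1 rowAttBad hTri hA h (rowDown h) hΘ hfin hG

/-- **Row B, the second floor of finite shape**, from row A and the trichotomy. -/
theorem rowBF (hTri : RowTri (k := k) p v) (hA : TWCT.RowA p v₀ v ι x₀ W₀ K₀ al) :
    TWCT.RowBF p v₀ v ι x₀ W₀ K₀ al :=
  rowBF_of rowTopBR hA (rowBad hTri hA)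

end real

end Pool.Agent.TWRW
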