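import Pool.Agent.Lib.TWII.Soc

/-!
# The relation from the jets

* `tie_of_jets`: `f(z) = e z + ∑ A_i z ^ (p ^ (i + 1)) + a₀` up to null elements, from the jets of
  `f(z)`; `f(z)` is not assumed critical.
-/

set_option autoImplicit false

open Polynomial Finset

namespace Pool.Agent.TWRW

open Pool.Agent.H15JM (RVal)
open Pool.Agent.TWM
open Pool.Agent.TWII (LP PG)

universe u

variable {k Ω : Type u} [Field k] [Field Ω] [Algebra k Ω] {v : RVal Ω}
  {F : IntermediateField k Ω} {z : Ω} {p : ℕ} [hp : Fact p.Prime] [CharP Ω p]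

/-- **The relation from the jets.** -/
theorem tie_of_jets (hz : TL v F z 0) {f : Polynomial Ω} (hf : f ∈ PI F) {e : Ω} {A : ℕ → Ω}
    (he : e ∈ F) (hA : ∀ i, A i ∈ F) (h1 : Gt v 0 ((hasseDeriv 1 f).eval z - e))
    (hpl : ∀ l, ¬ p ∣ l → l ≠ 1 → Gt v 0 ((hasseDeriv l f).eval z))
    (hi : ∀ i : ℕ, PG p v (cadj v F z) 0 ((hasseDeriv (p ^ (i + 1)) f).eval z - A i))
    (h0 : ∀ l, p ∣ l → l ≠ 0 → (∀ i, l ≠ p ^ i) → PG p v (cadj v F z) 0 ((hasseDeriv l f).eval z)) :
    ∃ t₀ : ℕ, ∀ t, t₀ ≤ t → ∃ a₀ ∈ F, PG p v (cadj v F z) 0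
      (f.eval z - (e * z + ∑ i ∈ range t, A i * z ^ p ^ (i + 1) + a₀)) := by
  classical
  have hp1 : ¬ p ∣ 1 := fun h5 => hp.out.one_lt.not_ge (Nat.le_of_dvd one_pos h5)
  refine ⟨f.natDegree, fun t ht => ?_⟩
  set b : ℕ → Ω := fun i => if i = 0 then e else A (i - 1) with hb
  have hbF : ∀ i, b i ∈ F := by
    intro i
    rw [hb]
    dsimp only
    split_ifs
    exacts [he, hA _]
  set Q : Polynomial Ω := TWM.addP p (t + 1) b with hQ
  have hQm : Q ∈ PI F := TWM.addP_mem hbF
  have hQe : ∀ x : Ω, Q.eval x = e * x + ∑ i ∈ range t, A i * x ^ p ^ (i + 1) := by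
    intro x
    rw [hQ, TWM.addP_eval, sum_range_succ']
    simp only [hb, if_true, pow_zero, pow_one, Nat.add_sub_cancel, Nat.succ_ne_zero, if_false]
    rw [add_comm]
  have hQj : ∀ l : ℕ, 1 ≤ l → (taylor z Q).coeff l =
      ∑ i ∈ range (t + 1), if l = p ^ i then b i else 0 := fun l hl =>
    TWM.coeff_taylor_addP p (t + 1) b z hl
  have hQ1 : (taylor z Q).coeff 1 = e := by
    have h1 := TWM.coeff_taylor_addP_pow p (t + 1) b z 0
    rw [pow_zero, if_pos (by omega)] at h1
    rw [hQ, h1, hb]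
    simp
  have hQi : ∀ i : ℕ, (taylor z Q).coeff (p ^ (i + 1)) = if i < t then A i else 0 := by
    intro i
    have h1 := TWM.coeff_taylor_addP_pow p (t + 1) b z (i + 1)
    rw [hQ, h1, hb]
    simp only [Nat.succ_ne_zero, if_false, Nat.add_sub_cancel]
    by_cases h2 : i < t
    · rw [if_pos h2, if_pos (by omega)]
    · rw [if_neg h2, if_neg (by omega)]
  have hQ0 : ∀ l : ℕ, 1 ≤ l → (∀ i, l ≠ p ^ i) → (taylor z Q).coeff l = 0 := by
    intro l hl h1
    rw [hQj l hl]
    exact sum_eq_zero fun i _ => if_neg (h1 i)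
  obtain ⟨a₀, ha₀, hB⟩ := PG.base p hz (sub_mem hf hQm) (ν := 0) (by
    intro l hpl'
    have hl0 : l ≠ 0 := by
      rintro rfl
      exact hpl' (dvd_zero p)
    rw [map_sub, coeff_sub, mul_zero, sub_zero]
    rcases eq_or_ne l 1 with rfl | hl1
    · rw [hQ1, taylor_coeff]
      exact h1
    · rw [hQ0 l (by omega) (fun i hi' => by
        rcases i with _ | i
        · exact hl1 (by rw [hi', pow_zero])
        · exact hpl' (by rw [hi']; exact dvd_pow_self p (by omega))), sub_zero, taylor_coeff]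
      exact hpl l hpl' hl1) (by
    intro l hpl' hl0
    rw [map_sub, coeff_sub, mul_zero, sub_zero]
    by_cases h1' : ∃ i, l = p ^ (i + 1)
    · obtain ⟨i, rfl⟩ := h1'
      rw [hQi]
      split_ifs with h2
      · rw [taylor_coeff]
        exact hi i
      · rw [sub_zero, coeff_eq_zero_of_natDegree_lt (by
          rw [natDegree_taylor]
          have : i + 1 < p ^ (i + 1) := Nat.lt_pow_self hp.out.one_lt
          omega)]
        exact PG.of_gt Gt.zero
    · push Not at h1'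
      have h2 : ∀ i, l ≠ p ^ i := by
        intro i hi'
        rcases i with _ | i
        · rw [pow_zero] at hi'
          exact hp1 (hi' ▸ hpl')
        · exact h1' i hi'
      rw [hQ0 l (by omega) h2, sub_zero, taylor_coeff]
      exact h0 l hpl' hl0 h2)
  refine ⟨a₀, ha₀, ?_⟩
  have e1 : f.eval z - (e * z + ∑ i ∈ range t, A i * z ^ p ^ (i + 1) + a₀) =
      (f - Q).eval z - a₀ := by
    rw [eval_sub, hQe]
    ring
  rw [e1]
  exact hB

end Pool.Agent.TWRW
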