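import Pool.Agent.Lib.TWRW.Bad
import Pool.Agent.Lib.TWRW.Main
import Pool.Agent.Lib.TWN1.GabE

/-!
# RowB, the trichotomy: the relation and the tie from the jets

* `rel_of_jets`: if the jets of index `p ^ (i + 1)` are `κ i x + γ i y` + null and the other `p`-jets
  are null, `a = e z + x P(z) + y R(z) + a₀` + null;
* `rel2_of_jets`: the relation with two classes;
* `tieF_of_jets`: the tie.
-/

set_option autoImplicit false

open Finset Polynomial

namespace Pool.Agent.TWRW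

open Pool.Agent.H15JM (RVal)
open Pool.Agent.LU1 (VPos)
open Pool.Agent.D2 (Ctx0)
open Pool.Agent.TWM
open Pool.Agent.TWII (PG LP)
open Pool.Agent.TWN1 (Unh)
open Pool.Agent.TWLY
open Pool.Agent.TWCY
open Pool.Agent.TWRB

universe u

variable {k Ω : Type u} [Field k] [Field Ω] [Algebra k Ω] {v : RVal Ω}
  {L : ℕ → IntermediateField k Ω} {W B F K : IntermediateField k Ω} {w : Fin 2 → Ω}
  {x z a : Ω} {p : ℕ} [hp : Fact p.Prime] [CharP Ω p]

omit hp [CharP Ω p] in
theorem PP_trim0 {κ : ℕ → k} {t t' : ℕ} (ht : t' ≤ t) (h : ∀ j, t' < j → j ≤ t → κ j = 0) (y : Ω) :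
    PP p κ t y = PP p κ t' y := by
  unfold PP
  symm
  refine sum_subset (range_subset_range.2 (by omega)) fun j hj hj2 => ?_
  rw [mem_range] at hj hj2
  rw [h j (by omega) (by omega), map_zero, zero_mul]

variable [IsAlgClosed Ω]

/-- **The relation from the jets.** -/
theorem rel_of_jets (h : HB p v L W B F K w x z a) {f : Polynomial Ω} (hf : f ∈ PI F)
    (hfa : PG p v K 0 (a - f.eval z)) {y : Ω} (hy : y ∈ F) {κ γ : ℕ → k}
    (hi : ∀ i, PG p v K 0 ((hasseDeriv (p ^ (i + 1)) f).eval z -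
      (algebraMap k Ω (κ i) * x + algebraMap k Ω (γ i) * y)))
    (h0 : ∀ l, p ∣ l → l ≠ 0 → (∀ i, l ≠ p ^ i) → PG p v K 0 ((hasseDeriv l f).eval z)) :
    ∃ e : k, Gt v 0 ((hasseDeriv 1 f).eval z - algebraMap k Ω e) ∧ ∀ t, f.natDegree ≤ t →
      ∃ a₀ ∈ F, PG p v K 0 (a - (algebraMap k Ω e * z + x * PP p κ t z + y * PP p γ t z + a₀)) := by
  classical
  have hBF : B ≤ F := by
    rw [h.F_eq]
    exact le_cadj v B (w 1)
  have hWB : W ≤ B := by
    rw [h.B_eq]
    exact le_cadj v W (w 0)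
  have hxF : x ∈ F := hBF (hWB h.xW)
  have hlf : LP p v (cadj v F z) 0 (f.eval z) := by
    rw [← h.K_eq]
    have h1 := h.lp.sub (LP.of_pg hfa)
    rwa [sub_sub_cancel] at h1
  have hj1 : v.Ge 0 ((hasseDeriv 1 f).eval z) := by
    have h1 := TWN1.lp_jet_one h.zt hf hlf
    rwa [sub_zero] at h1
  obtain ⟨e, he⟩ := h.c0.residue hj1
  refine ⟨e, he, fun t ht => ?_⟩
  set Y : ℕ → Ω := fun j => if j = 0 then algebraMap k Ω e else
    algebraMap k Ω (κ (j - 1)) * x + algebraMap k Ω (γ (j - 1)) * y with hY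
  have hYF : ∀ j, Y j ∈ F := by
    intro j
    simp only [hY]
    split_ifs
    · exact F.algebraMap_mem _
    · exact add_mem (mul_mem (F.algebraMap_mem _) hxF) (mul_mem (F.algebraMap_mem _) hy)
  set g : Polynomial Ω := ∑ j ∈ range (t + 1 + 1), Polynomial.C (Y j) * X ^ p ^ j with hg
  have hgF : g ∈ PI F := sum_mem fun j _ => mul_mem (C_mem_PI (hYF j)) (pow_mem X_mem_PI _)
  have hinj : ∀ i j : ℕ, p ^ i = p ^ j → i = j := fun i j hij =>
    Nat.pow_right_injective hp.out.one_lt hij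
  -- the jets of `g`
  have hgj : ∀ j, j ∈ range (t + 1 + 1) → hasseDeriv (p ^ j) g = Polynomial.C (Y j) := by
    intro j hj
    rw [hg, TWN1.hasse_add_poly Y (t + 1) (Nat.pow_pos hp.out.pos).ne',
      sum_eq_single_of_mem j hj fun i _ hij => if_neg fun h1 => hij (hinj j i h1).symm, if_pos rfl]
  have hg0 : ∀ l, l ≠ 0 → (∀ j ∈ range (t + 1 + 1), l ≠ p ^ j) → hasseDeriv l g = 0 := by
    intro l hl h1
    rw [hg, TWN1.hasse_add_poly Y (t + 1) hl]
    exact sum_eq_zero fun i hi' => if_neg fun h2 => h1 i hi' h2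
  have hbase := TWII.PG.base (p := p) (ν := 0) h.zt (sub_mem hf hgF) (fun l hl => ?_)
    (fun l hl hl0 => ?_)
  · obtain ⟨a₀, ha₀, h1⟩ := hbase
    refine ⟨a₀, ha₀, ?_⟩
    rw [← h.K_eq] at h1
    have e1 : g.eval z = algebraMap k Ω e * z + x * PP p κ t z + y * PP p γ t z := by
      rw [hg, eval_finsetSum, sum_range_succ']
      have e2 : ∀ j, (Polynomial.C (Y (j + 1)) * X ^ p ^ (j + 1)).eval z =
          x * (algebraMap k Ω (κ j) * z ^ p ^ (j + 1)) +
            y * (algebraMap k Ω (γ j) * z ^ p ^ (j + 1)) := by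
        intro j
        rw [eval_mul, eval_C, eval_pow, eval_X]
        simp only [hY, Nat.succ_ne_zero, if_false, Nat.add_sub_cancel]
        ring
      rw [sum_congr rfl fun j _ => e2 j, sum_add_distrib, ← mul_sum, ← mul_sum, eval_mul, eval_C,
        eval_pow, eval_X, pow_zero, pow_one]
      simp only [hY, if_true, PP]
      ring
    have h2 := hfa.add h1
    refine (congrArg _ ?_).mp h2
    rw [eval_sub, e1]
    ring
  · rw [mul_zero, sub_zero, taylor_coeff, map_sub, eval_sub]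
    rcases eq_or_ne l 1 with rfl | hl1
    · have h1 := hgj 0 (mem_range.2 (by omega))
      rw [pow_zero] at h1
      rw [h1, eval_C]
      simp only [hY, if_true]
      exact he
    · have hl0 : l ≠ 0 := by
        rintro rfl
        exact hl (dvd_zero p)
      rw [hg0 l hl0 (fun j _ h1 => ?_), eval_zero, sub_zero, ← taylor_coeff]
      · have h1 := TWII.LP.jet_prime_gt p h.zt hf hlf hl (by omega)
        rwa [mul_zero, sub_zero] at h1
      · rcases Nat.eq_zero_or_pos j with rfl | hj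
        · exact hl1 (by rw [h1, pow_zero])
        · exact hl (by rw [h1]; exact dvd_pow_self p hj.ne')
  · rw [mul_zero, sub_zero, taylor_coeff, map_sub, eval_sub, ← h.K_eq]
    by_cases hpow : ∃ j ∈ range (t + 1 + 1), l = p ^ j
    · obtain ⟨j, hj, rfl⟩ := hpow
      have hj0 : j ≠ 0 := by
        rintro rfl
        rw [pow_zero] at hl
        exact hp.out.one_lt.ne' (Nat.dvd_one.1 hl)
      obtain ⟨i, rfl⟩ : ∃ i, j = i + 1 := ⟨j - 1, by omega⟩
      rw [hgj _ hj, eval_C]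
      simp only [hY, Nat.succ_ne_zero, if_false, Nat.add_sub_cancel]
      exact hi i
    · push Not at hpow
      rw [hg0 l hl0 hpow, eval_zero, sub_zero]
      by_cases hpw : ∀ i, l ≠ p ^ i
      · exact h0 l hl hl0 hpw
      · push Not at hpw
        obtain ⟨i, rfl⟩ := hpw
        have h1 : t + 1 + 1 ≤ i := by
          by_contra h2
          exact hpow i (mem_range.2 (by omega)) rfl
        have h2 : f.natDegree < p ^ i := by
          have h3 : i < p ^ i := Nat.lt_pow_self hp.out.one_lt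
          omega
        rw [hasseDeriv_eq_zero_of_lt_natDegree f _ h2, eval_zero]
        exact PG.of_gt Gt.zero

/-- **The relation with two classes.** -/
theorem rel2_of_jets (h : HB p v L W B F K w x z a) {f : Polynomial Ω} (hf : f ∈ PI F)
    (hfa : PG p v K 0 (a - f.eval z)) {b : Ω} (hb : b ∈ W) {κ γ : ℕ → k}
    (hi : ∀ i, PG p v K 0 ((hasseDeriv (p ^ (i + 1)) f).eval z -
      (algebraMap k Ω (κ i) * x + algebraMap k Ω (γ i) * (w 0 + b))))
    (h0 : ∀ l, p ∣ l → l ≠ 0 → (∀ i, l ≠ p ^ i) → PG p v K 0 ((hasseDeriv l f).eval z)) :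
    ∃ e : k, Gt v 0 ((hasseDeriv 1 f).eval z - algebraMap k Ω e) ∧ ∀ t, f.natDegree ≤ t →
      ∃ a₀ ∈ F, Rel2 p v K (w 0) x z a e κ γ t a₀ b := by
  have hBF : B ≤ F := by
    rw [h.F_eq]
    exact le_cadj v B (w 1)
  have hWB : W ≤ B := by
    rw [h.B_eq]
    exact le_cadj v W (w 0)
  have hwB : w 0 ∈ B := by
    rw [h.B_eq]
    exact self_mem_cadj v W (w 0)
  exact rel_of_jets h hf hfa (hBF (add_mem hwB (hWB hb))) hi h0

/-- **The tie.** -/
theorem tieF_of_jets [CharP k p] [IsAlgClosed k] (h : HB p v L W B F K w x z a) {f : Polynomial Ω} (hf : f ∈ PI F)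
    (hfa : PG p v K 0 (a - f.eval z)) {κ : ℕ → k}
    (hi : ∀ i, PG p v K 0 ((hasseDeriv (p ^ (i + 1)) f).eval z - algebraMap k Ω (κ i) * x))
    (h0 : ∀ l, p ∣ l → l ≠ 0 → (∀ i, l ≠ p ^ i) → PG p v K 0 ((hasseDeriv l f).eval z)) :
    ∃ (e : k) (t : ℕ) (a₀ : Ω), Gt v 0 ((hasseDeriv 1 f).eval z - algebraMap k Ω e) ∧
      TieF p v F K x z a e κ t a₀ := by
  classical
  have hBF : B ≤ F := by
    rw [h.F_eq]
    exact le_cadj v B (w 1)
  have hWB : W ≤ B := by
    rw [h.B_eq]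
    exact le_cadj v W (w 0)
  have hxF : x ∈ F := hBF (hWB h.xW)
  obtain ⟨e, he, h1⟩ := rel_of_jets h hf hfa (y := 0) (γ := 0) (zero_mem F) (κ := κ) (fun i => by
    rw [mul_zero, add_zero]
    exact hi i) h0
  obtain ⟨a₀, ha₀, hrel⟩ := h1 f.natDegree le_rfl
  -- some coefficient is not zero
  have hne : ∃ i, i ≤ f.natDegree ∧ κ i ≠ 0 := by
    by_contra h2
    push Not at h2
    apply h.hit
    refine ⟨f, hf, hfa, fun l hl hl0 => ?_⟩
    rw [mul_zero, sub_zero, taylor_coeff]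
    by_cases hpw : ∀ i, l ≠ p ^ i
    · exact h0 l hl hl0 hpw
    · push Not at hpw
      obtain ⟨i, rfl⟩ := hpw
      have hi0 : i ≠ 0 := by
        rintro rfl
        rw [pow_zero] at hl
        exact hp.out.one_lt.ne' (Nat.dvd_one.1 hl)
      obtain ⟨i, rfl⟩ : ∃ j, i = j + 1 := ⟨i - 1, by omega⟩
      by_cases hin : i ≤ f.natDegree
      · have h3 := hi i
        rwa [h2 i hin, map_zero, zero_mul, sub_zero] at h3
      · have h3 : f.natDegree < p ^ (i + 1) := by
          have h4 : i + 1 < p ^ (i + 1) := Nat.lt_pow_self hp.out.one_lt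
          omega
        rw [hasseDeriv_eq_zero_of_lt_natDegree f _ h3, eval_zero]
        exact PG.of_gt Gt.zero
  obtain ⟨i₀, hi₀, hκ₀⟩ := hne
  set t := Nat.findGreatest (fun i => κ i ≠ 0) f.natDegree with ht
  have ht1 : κ t ≠ 0 := Nat.findGreatest_spec (P := fun i => κ i ≠ 0) hi₀ hκ₀
  have ht2 : t ≤ f.natDegree := Nat.findGreatest_le _
  have ht3 : ∀ j, t < j → j ≤ f.natDegree → κ j = 0 := fun j hj hj' => by
    by_contra h3
    exact Nat.findGreatest_is_greatest hj hj' h3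
  rw [PP_trim0 ht2 ht3 z, zero_mul, add_zero] at hrel
  refine ⟨e, t, a₀, he, ht1, ha₀, hrel, fun ε hε => ?_⟩
  have hrel' : PG p v K 0 (a - (algebraMap k Ω e * z + x * PP p κ t z +
      0 * PP p (0 : ℕ → k) t z + a₀)) := by
    rw [zero_mul, add_zero]
    exact hrel
  obtain ⟨θ, hθ, h3, g, hg, h4⟩ := tie_two h.zt h.K_eq hxF (zero_mem F) ha₀ h.lp hrel' hε
  rw [zero_mul, add_zero] at h4
  exact ⟨θ, hθ, h3, g, hg, h4⟩

end Pool.Agent.TWRW
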