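import Pool.Agent.Lib.TWRB.TopB
import Pool.Agent.Lib.TWRB.RowR8
import Pool.Agent.Lib.TWRB.R12
import Pool.Agent.Lib.TWRB.R12v

/-!
# RowB, the base change: the output of the core, with the derivation along `w 1`

* `topC`: `RowTopB` with the additional properties of `dd 1`: it is `0` on `B`, `1` at `w 1`, strict
  on `F`.
-/

set_option autoImplicit false

open MvPolynomial

namespace Pool.Agent.TWRW

open Pool.Agent.H15JM (RVal)
open Pool.Agent.LU1 (VPos adj)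
open Pool.Agent.D2 (Ctx0)
open Pool.Agent.D2P (clI)
open Pool.Agent.TWM
open Pool.Agent.TWS (IsoE SphC)
open Pool.Agent.TWII (PG LP)
open Pool.Agent.TWLY
open Pool.Agent.TWCY
open Pool.Agent.TWRB

universe u

variable {k Ω : Type u} [Field k] [Field Ω] [Algebra k Ω] {v : RVal Ω}
  {L : ℕ → IntermediateField k Ω} {W B F K : IntermediateField k Ω} {w : Fin 2 → Ω}
  {x z a : Ω} {p : ℕ}

/-- A derivation of `F` is strict. -/
theorem drv_strict [hp : Fact p.Prime] [CharP Ω p] (h : HB p v L W B F K w x z a) {d : Ω → Ω}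
    (hd : Drv v F d) {y : Ω} (hy : y ∈ F) (h0 : y ≠ 0) : Gt v (v y) (d y) := by
  obtain ⟨S, E, hE1, hE2⟩ := rowR12C h d hd
  rw [← hE2 y hy]
  exact hE1.str y h0

/-- A derivation of `F` sends the elements of value `≥ 0` to elements of value `> 0`. -/
theorem drv_vpos [hp : Fact p.Prime] [CharP Ω p] (h : HB p v L W B F K w x z a) {d : Ω → Ω}
    (hd : Drv v F d) {y : Ω} (hy : y ∈ F) (h0 : v.Ge 0 y) : VPos v (d y) := by
  by_cases h1 : y = 0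
  · rw [h1, hd.zero]
    exact Gt.zero
  · exact (drv_strict h hd hy h1).mono (h0 h1)

/-- **The output of the core in the big field**, with the derivation along `w 1`. -/
theorem topC [hp : Fact p.Prime] [CharP Ω p] [CharP k p] [IsAlgClosed k] [IsAlgClosed Ω]
    (h10 : RowR10 (k := k) p v) (hC : RowCoreB (k := k) p v) {D : Ω → Ω} {U₀ : Polynomial Ω}
    {e₀ : k} {κ₀ : ℕ → k} {t₀ : ℕ} {a₀ : Ω} (h : HB p v L W B F K w x z a)
    (hD : BaseD p v W x D) (hU : ShU v W w U₀) (hT : TieF p v F K x z a e₀ κ₀ t₀ a₀) :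
    ∃ (φ : Ω) (e : k) (κ : ℕ → k) (t : ℕ) (a₁ : Ω) (T : k → Ω →ₐ[k] Ω) (n : ℕ) (f : ℕ → Ω)
      (dd : Fin 2 → Ω → Ω), OutE p v B F K (w 1) x z a φ e κ t a₁ T n f dd ∧
      (∀ i, ∀ b ∈ W, dd i b = 0) ∧ (∀ b ∈ B, dd 1 b = 0) ∧ dd 1 (w 1) = 1 := by
  obtain ⟨A, hA, φ, hφ, T, U, x', D', e, κ, t, l, Pa, hx'W, hxx, hD', hHB, hFr, hNF⟩ :=
    h10 L W B F K w x z a D U₀ e₀ κ₀ t₀ a₀ h hD hU hT
  obtain ⟨Z, hCB⟩ := rowR8 L W B F K ![w 0, w 1 - A] x' (z - φ) a D' T U e κ t l Pa hHB hD' hFr hNF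
  obtain ⟨⟨D₁, dd, hdd, hDD⟩, -, hE⟩ := rowR12 (p := p) v L W B F K ![w 0, w 1 - A] x' (z - φ) a D' hHB hD'
  obtain ⟨S₀, E, hE1, hE2⟩ := hE D₁ hdd.drv
  have hWF : W ≤ F := h.WB.trans h.BF
  obtain ⟨hNC, hNG⟩ := hC L W B F K ![w 0, w 1 - A] x' (z - φ) a ⟨T, U, e, κ, t, l, Pa, Z⟩ hCB
    ⟨S₀, E, hE1, by rw [hE2 x' (hWF hx'W), hDD x' hx'W, hD'.Dx]⟩
  obtain ⟨f, hO⟩ := outE_of_cb hCB hφ hD' hdd hDD (rowR12 (p := p) v) rowR12v hNC hNG (u := w 1) (by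
    change w 1 - (w 1 - A) ∈ B
    rw [sub_sub_cancel]
    exact hA)
  obtain ⟨φ', a₁, n, f', hO'⟩ := hO.real h.c0 h.cv h.F_eq h.tu h.zt (h.WB hx'W) hxx
    fun i => hdd.ddW i x h.xW
  have hB0 : ∀ b ∈ B, dd 1 b = 0 := by
    intro b hb
    rw [h.B_eq] at hb
    exact (hdd.drvi 1).zero_cadj hWF (hdd.ddW 1) h.tw (by rw [← h.B_eq]; exact h.BF) hdd.dd10 hb
  refine ⟨φ', e, κ, t, a₁, _, n, f', dd, hO', hdd.ddW, hB0, ?_⟩
  have h1 : dd 1 (w 1 - A) = 1 := hdd.dd11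
  rwa [(hdd.drvi 1).sub h.w1F (h.BF hA), hB0 A hA, sub_zero] at h1

end Pool.Agent.TWRW
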