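import Pool.Agent.Lib.TWII.Soc

/-!
# RowB, the trichotomy: sums of multiples of `p` with a binomial coefficient prime to `p`
-/

set_option autoImplicit false

namespace Pool.Agent.TWRW

/-- **A multiple of `p` which is not a power of `p`** is a sum of two multiples of `p`, with a
binomial coefficient which is not zero. -/
theorem top_digit {k : Type*} [Field k] {p : ℕ} [hp : Fact p.Prime] [CharP k p] {n : ℕ}
    (hn : n ≠ 0) (hpn : p ∣ n) (h : ∀ i, n ≠ p ^ i) :
    ∃ l m : ℕ, n = l + m ∧ l ≠ 0 ∧ m ≠ 0 ∧ p ∣ l ∧ p ∣ m ∧ (((l + m).choose l : ℕ) : k) ≠ 0 := by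
  obtain ⟨i, j, hpi, hi, hj, hij, hc⟩ := TWII.exists_choose' p hpn hn h
  exact ⟨i, j, hij.symm, hi, hj, hpi, (Nat.dvd_add_right hpi).1 (hij ▸ hpn),
    fun h0 => hc ((CharP.cast_eq_zero_iff k p _).1 h0)⟩

end Pool.Agent.TWRW
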