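import Pool.Agent.Lib.TWRW.OutZ
import Pool.Agent.Lib.TWCT.Null

/-!
# RowB, the trichotomy, part A: the derivations of `K` and the translations of `z`

* `exists_ext`: a derivation of `F` extends to `K`; `exists_dz`: the derivation along `z`;
* `Drv.conj`: `T E T⁻¹`; `drv_comb`: a derivation of `K` which is `0` on `W` is a combination of
  `dw`, `du`, `dz`, with coefficients of value `≥ 0`;
* `exists_shift`: the translations `z ↦ z + s`;
* `star`: the residues of the jets.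
-/

set_option autoImplicit false

open Polynomial Finset

namespace Pool.Agent.TWRW

open Pool.Agent.H15JM (RVal)
open Pool.Agent.LU1 (VPos adj)
open Pool.Agent.D2 (Ctx0)
open Pool.Agent.D2P (clI)
open Pool.Agent.TWM
open Pool.Agent.TWS (IsoE SphC)
open Pool.Agent.TWII (PG LP)
open Pool.Agent.TWN1
open Pool.Agent.TWLY
open Pool.Agent.TWCY
open Pool.Agent.TWRB

universe u

variable {k Ω : Type u} [Field k] [Field Ω] [Algebra k Ω] {v : RVal Ω}
  {L : ℕ → IntermediateField k Ω} {W B F K : IntermediateField k Ω} {w : Fin 2 → Ω}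
  {x z a : Ω} {p : ℕ}

/-! ### Derivations -/

/-- The value at a limit is integral. -/
theorem drv_lim {A M : IntermediateField k Ω} (hAM : A ≤ M) {E : Ω → Ω} (hE : Drv v M E)
    (h0 : ∀ y ∈ A, E y = 0) {y : Ω} (hy : y ∈ M) (hl : Lim v A 0 y) : v.Ge 0 (E y) := by
  intro hne
  refine le_of_forall_pos_le_add fun ε hε => ?_
  obtain ⟨θ, hθ, h1⟩ := hl ε hε
  have h2 := hE.norm _ (sub_mem hy (hAM hθ)) _ h1
  rw [hE.sub hy (hAM hθ), h0 θ hθ, sub_zero] at h2
  linarith [h2 hne]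

/-- Combinations. -/
theorem drv_sub_mul {M : IntermediateField k Ω} {E G : Ω → Ω} (hE : Drv v M E) (hG : Drv v M G)
    {A : Ω} (hA : v.Ge 0 A) : Drv v M fun y => E y - A * G y where
  add f hf g hg := by
    rw [hE.add f hf g hg, hG.add f hf g hg]
    ring
  mul f hf g hg := by
    rw [hE.mul f hf g hg, hG.mul f hf g hg]
    ring
  alg c := by rw [hE.alg, hG.alg, mul_zero, sub_zero]
  norm f hf r hr := by
    refine (hE.norm f hf r hr).sub ?_
    have := hA.mul (hG.norm f hf r hr)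
    rwa [zero_add] at this

/-- Differences. -/
theorem drv_diff {M : IntermediateField k Ω} {E G : Ω → Ω} (hE : Drv v M E) (hG : Drv v M G) :
    Drv v M fun y => E y - G y where
  add f hf g hg := by
    rw [hE.add f hf g hg, hG.add f hf g hg]
    ring
  mul f hf g hg := by
    rw [hE.mul f hf g hg, hG.mul f hf g hg]
    ring
  alg c := by rw [hE.alg, hG.alg, sub_zero]
  norm f hf r hr := (hE.norm f hf r hr).sub (hG.norm f hf r hr)

/-- The conjugate. -/
theorem drv_conj {M : IntermediateField k Ω} {E : Ω → Ω} (hE : Drv v M E) {T T' : Ω →ₐ[k] Ω}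
    (hT : IsoE v v T) (hT' : IsoE v v T') (hM : ∀ y ∈ M, T' y ∈ M) (hTT : ∀ y ∈ M, T (T' y) = y) :
    Drv v M fun y => T (E (T' y)) where
  add f hf g hg := by
    rw [map_add, hE.add _ (hM f hf) _ (hM g hg), map_add]
  mul f hf g hg := by
    rw [map_mul, hE.mul _ (hM f hf) _ (hM g hg), map_add, map_mul, map_mul, hTT f hf, hTT g hg]
  alg c := by rw [AlgHom.commutes, hE.alg, map_zero]
  norm f hf r hr := hT.ge_iff.2 (hE.norm _ (hM f hf) r (hT'.ge_iff.2 hr))

/-- **The combination.** -/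
theorem drv_comb [IsAlgClosed Ω] (h : HB p v L W B F K w x z a) {H dw du dz : Ω → Ω}
    (hH : Drv v K H) (hHW : ∀ y ∈ W, H y = 0) (hw : Drv v K dw) (hwW : ∀ y ∈ W, dw y = 0)
    (hw1 : dw (w 0) = 1) (hu : Drv v K du) (huB : ∀ y ∈ B, du y = 0) (hu1 : du (w 1) = 1)
    (hz : Drv v K dz) (hzF : ∀ y ∈ F, dz y = 0) (hz1 : dz z = 1) :
    ∃ A C₁ C₂ : Ω, v.Ge 0 A ∧ v.Ge 0 C₁ ∧ v.Ge 0 C₂ ∧ A = H (w 0) ∧ (A = 0 → C₁ = H (w 1)) ∧
      ∀ y ∈ K, H y = A * dw y + C₁ * du y + C₂ * dz y := by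
  have hWB := h.WB
  have hBF := h.BF
  have hFK : F ≤ K := by
    rw [h.K_eq]
    exact le_cadj v F z
  have hBK := hBF.trans hFK
  have hWK := hWB.trans hBK
  have hzK : z ∈ K := by
    rw [h.K_eq]
    exact self_mem_cadj v F z
  have hA : v.Ge 0 (H (w 0)) := drv_lim hWK hH hHW (hBK h.w0B) h.tw.lim
  have h1 := drv_sub_mul hH hw hA
  have h1W : ∀ y ∈ W, H y - H (w 0) * dw y = 0 := fun y hy => by
    rw [hHW y hy, hwW y hy, mul_zero, sub_zero]
  have h1B : ∀ y ∈ B, H y - H (w 0) * dw y = 0 := fun y hy => by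
    rw [h.B_eq] at hy
    exact h1.zero_cadj hWK h1W h.tw (by rw [← h.B_eq]; exact hBK)
      (by rw [hw1, mul_one, sub_self]) hy
  have hC₁ := drv_lim hBK h1 h1B (hFK h.w1F) h.tu.lim
  set C₁ : Ω := H (w 1) - H (w 0) * dw (w 1) with hC₁e
  have h2 := drv_sub_mul h1 hu hC₁
  have h2B : ∀ y ∈ B, H y - H (w 0) * dw y - C₁ * du y = 0 := fun y hy => by
    rw [h1B y hy, huB y hy, mul_zero, sub_zero]
  have h2F : ∀ y ∈ F, H y - H (w 0) * dw y - C₁ * du y = 0 := fun y hy => by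
    rw [h.F_eq] at hy
    exact h2.zero_cadj hBK h2B h.tu (by rw [← h.F_eq]; exact hFK)
      (by rw [hu1, mul_one, hC₁e, sub_self]) hy
  have hC₂ := drv_lim hFK h2 h2F hzK h.zt.lim
  set C₂ : Ω := H z - H (w 0) * dw z - C₁ * du z with hC₂e
  have h3 := drv_sub_mul h2 hz hC₂
  have h3F : ∀ y ∈ F, H y - H (w 0) * dw y - C₁ * du y - C₂ * dz y = 0 := fun y hy => by
    rw [h2F y hy, hzF y hy, mul_zero, sub_zero]
  refine ⟨H (w 0), C₁, C₂, hA, hC₁, hC₂, rfl, fun h0 => by rw [hC₁e, h0, zero_mul, sub_zero],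
    fun y hy => ?_⟩
  rw [h.K_eq] at hy
  have h4 := h3.zero_cadj hFK h3F h.zt (by rw [← h.K_eq])
    (by rw [hz1, mul_one, hC₂e, sub_self]) hy
  have h5 : H y - H (w 0) * dw y - C₁ * du y - C₂ * dz y = 0 := h4
  linear_combination h5

/-- **The extension to `K`.** -/
theorem exists_ext [IsAlgClosed Ω] (h : HB p v L W B F K w x z a) {D : Ω → Ω} (hD : Drv v F D) :
    ∃ D' : Ω → Ω, Drv v K D' ∧ ∀ y ∈ F, D' y = D y := by
  obtain ⟨y0, hy0⟩ := hD.exists_nat h.sph h.zt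
  obtain ⟨D', h1, h2, -, -⟩ := hD.exists_tl h.c0 h.cv h.zt hy0
  rw [← h.K_eq] at h1
  exact ⟨D', h1, h2⟩

/-- **The derivation along `z`.** -/
theorem exists_dz [IsAlgClosed Ω] (h : HB p v L W B F K w x z a) :
    ∃ D' : Ω → Ω, Drv v K D' ∧ (∀ y ∈ F, D' y = 0) ∧ D' z = 1 := by
  obtain ⟨D', h1, h2, h3, -⟩ := (drv_zero v F).exists_tl (y := 1) h.c0 h.cv h.zt fun b hb r hr => by
    have hr0 := TL.neg_of_ge h.zt hb hr
    show v.Ge r ((1 : Ω) - 0)
    rw [sub_zero]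
    have := h.c0.ge (1 : k)
    rw [map_one] at this
    exact this.mono hr0.le
  rw [← h.K_eq] at h1
  exact ⟨D', h1, h2, h3⟩

/-! ### The translations -/

/-- **The translations of `z`.** -/
theorem exists_shift [IsAlgClosed Ω] (h : HB p v L W B F K w x z a) (s : k) :
    ∃ T : Ω →ₐ[k] Ω, IsoE v v T ∧ (∀ b ∈ F, T b = b) ∧ T z = z + algebraMap k Ω s ∧
      ∀ b ∈ K, T b ∈ K := by
  obtain ⟨T, h1, h2, h3, h4⟩ := TWCT.exists_trans h.c0 h.sph h.hval h.zt (h.c0.ge s)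
  rw [← h.K_eq] at h4
  exact ⟨T, h1, h2, h3, h4 (K.algebraMap_mem s)⟩

/-- An isometry is continuous: it is determined on `A⟨z⟩` by its values on `A` and at `z`. -/
theorem iso_eq_cadj [IsAlgClosed Ω] {A : IntermediateField k Ω} {T T' : Ω →ₐ[k] Ω}
    (hT : IsoE v v T) (hT' : IsoE v v T') (hz : TL v A z 0) (hA : ∀ b ∈ A, T b = T' b)
    (h1 : T z = T' z) {y : Ω} (hy : y ∈ cadj v A z) : T y = T' y := by
  rw [← sub_eq_zero]
  refine TWLM.eq_zero_of_ge (v := v) fun b => ?_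
  obtain ⟨f, hf, h2⟩ := hz.dense hy b
  have h3 : T (f.eval z) = T' (f.eval z) := by
    rw [eval_eq_sum_range, map_sum, map_sum]
    refine sum_congr rfl fun i _ => ?_
    rw [map_mul, map_mul, map_pow, map_pow, h1, hA _ (hf i)]
  have e : T y - T' y = T (y - f.eval z) - T' (y - f.eval z) := by
    rw [map_sub, map_sub, h3]
    ring
  rw [e]
  exact (hT.ge_iff.2 h2).sub (hT'.ge_iff.2 h2)

end Pool.Agent.TWRW
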