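import Pool.Agent.Lib.TWRW.TrA
import Pool.Agent.Lib.TWRB.FinA
import Pool.Agent.Lib.TWCY.E1

/-!
# RowB, the trichotomy, part B: the residues of the derivatives of the jets

* `rsd`: the residue in `k` of an element of value `≥ 0`;
* `star0`: the derivation `T⁻¹ E T - E` at a critical element `f(z)` has residue
  `∑ s ^ l res E (f_l(z))`, `T` the translation by `s`;
* `van`: the coefficients.
-/

set_option autoImplicit false

open Polynomial Finset

namespace Pool.Agent.TWRW

open Pool.Agent.H15JM (RVal)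
open Pool.Agent.LU1 (VPos adj)
open Pool.Agent.D2 (Ctx0)
open Pool.Agent.D2P (clI)
open Pool.Agent.TWM
open Pool.Agent.TWS (IsoE SphC)
open Pool.Agent.TWII (PG LP)
open Pool.Agent.TWN1
open Pool.Agent.TWLY
open Pool.Agent.TWCY
open Pool.Agent.TWRB

universe u

variable {k Ω : Type u} [Field k] [Field Ω] [Algebra k Ω] {v : RVal Ω}

/-! ### Residues -/

/-- The residue. -/
noncomputable def rsd (k : Type u) {Ω : Type u} [Field k] [Field Ω] [Algebra k Ω] (v : RVal Ω)
    (y : Ω) : k := by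
  classical
  exact if h : ∃ c : k, Gt v 0 (y - algebraMap k Ω c) then h.choose else 0

theorem rsd_eq (hk : Ctx0 k v) {y : Ω} {c : k} (h : Gt v 0 (y - algebraMap k Ω c)) :
    rsd k v y = c := by
  have h1 : ∃ c : k, Gt v 0 (y - algebraMap k Ω c) := ⟨c, h⟩
  have h2 : rsd k v y = h1.choose := by
    unfold rsd
    rw [dif_pos h1]
  have h3 := h1.choose_spec
  have h4 := h.sub h3
  have e : y - algebraMap k Ω c - (y - algebraMap k Ω h1.choose) =
      algebraMap k Ω (h1.choose - c) := by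
    rw [map_sub]
    ring
  rw [e] at h4
  rw [h2]
  exact sub_eq_zero.1 (hk.const_eq_zero h4)

theorem rsd_spec (hk : Ctx0 k v) {y : Ω} (h : v.Ge 0 y) :
    Gt v 0 (y - algebraMap k Ω (rsd k v y)) := by
  obtain ⟨c, hc⟩ := hk.residue h
  have hc' : Gt v 0 (y - algebraMap k Ω c) := hc
  rwa [rsd_eq hk hc']

theorem rsd_zero (hk : Ctx0 k v) {y : Ω} (h : Gt v 0 y) : rsd k v y = 0 :=
  rsd_eq hk (by rwa [map_zero, sub_zero])

theorem gt_of_rsd (hk : Ctx0 k v) {y : Ω} (h : v.Ge 0 y) (h0 : rsd k v y = 0) : Gt v 0 y := by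
  have h1 := rsd_spec hk h
  rwa [h0, map_zero, sub_zero] at h1

theorem rsd_add (hk : Ctx0 k v) {y y' : Ω} (h : v.Ge 0 y) (h' : v.Ge 0 y') :
    rsd k v (y + y') = rsd k v y + rsd k v y' := by
  refine rsd_eq hk ?_
  have h1 := (rsd_spec hk h).add (rsd_spec hk h')
  rw [map_add]
  have e : y + y' - (algebraMap k Ω (rsd k v y) + algebraMap k Ω (rsd k v y')) =
      y - algebraMap k Ω (rsd k v y) + (y' - algebraMap k Ω (rsd k v y')) := by ring
  rwa [e]

theorem rsd_mul (hk : Ctx0 k v) {y y' : Ω} (h : v.Ge 0 y) (h' : v.Ge 0 y') :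
    rsd k v (y * y') = rsd k v y * rsd k v y' := by
  refine rsd_eq hk ?_
  have h1 := Gt.mul_ge (rsd_spec hk h) h'
  have h2 := Gt.mul_ge (rsd_spec hk h') (hk.ge (rsd k v y))
  rw [add_zero] at h1 h2
  rw [map_mul]
  have e : y * y' - algebraMap k Ω (rsd k v y) * algebraMap k Ω (rsd k v y') =
      (y - algebraMap k Ω (rsd k v y)) * y' +
      (y' - algebraMap k Ω (rsd k v y')) * algebraMap k Ω (rsd k v y) := by ring
  rw [e]
  exact h1.add h2

theorem rsd_const (hk : Ctx0 k v) (c : k) : rsd k v (algebraMap k Ω c) = c :=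
  rsd_eq hk (by rw [sub_self]; exact Gt.zero)

/-- **The coefficients.** -/
theorem van [Infinite k] {n : ℕ} {r : ℕ → k} (h : ∀ s : k, ∑ l ∈ Icc 1 n, s ^ l * r l = 0) :
    ∀ l ∈ Icc 1 n, r l = 0 := by
  have h1 : (∑ l ∈ Icc 1 n, Polynomial.C (r l) * Polynomial.X ^ l : Polynomial k) = 0 := by
    refine Polynomial.funext fun s => ?_
    rw [eval_finsetSum, eval_zero, ← h s]
    refine sum_congr rfl fun l _ => ?_
    rw [eval_mul, eval_C, eval_pow, eval_X, mul_comm]
  intro l hl
  have h2 := congrArg (fun q : Polynomial k => q.coeff l) h1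
  simp only [finsetSum_coeff, coeff_C_mul, coeff_X_pow, coeff_zero, mul_ite, mul_one, mul_zero,
    sum_ite_eq, if_pos hl] at h2
  exact h2

/-! ### The translation of a derivation -/

variable {L : ℕ → IntermediateField k Ω} {W B F K : IntermediateField k Ω} {w : Fin 2 → Ω}
  {x z a : Ω} {p : ℕ} [hp : Fact p.Prime] [CharP Ω p] [IsAlgClosed Ω]

omit hp [CharP Ω p] [IsAlgClosed Ω] in
/-- The jets are in `K`. -/
theorem jet_memK (h : HB p v L W B F K w x z a) {f : Polynomial Ω} (hf : f ∈ PI F) (l : ℕ) :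
    (hasseDeriv l f).eval z ∈ K := by
  rw [h.K_eq]
  exact TWLM.eval_mem_cadj (TWLM.hasseDeriv_mem_PI hf l)

/-- The jets are critical. -/
theorem jet_lp (h : HB p v L W B F K w x z a) {f : Polynomial Ω} (hf : f ∈ PI F)
    (hl : LP p v K 0 (f.eval z)) (l : ℕ) : LP p v K 0 ((hasseDeriv l f).eval z) := by
  rw [h.K_eq] at hl ⊢
  have := hl.hjet h.zt hf l
  rwa [mul_zero, sub_zero] at this

omit hp [CharP Ω p] [IsAlgClosed Ω] in
/-- The translation. -/
theorem shift_eval {T : Ω →ₐ[k] Ω} (hT : ∀ b ∈ F, T b = b) {s : k}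
    (hz : T z = z + algebraMap k Ω s) {f : Polynomial Ω} (hf : f ∈ PI F) :
    T (f.eval z) = f.eval z +
      ∑ l ∈ Icc 1 f.natDegree, algebraMap k Ω s ^ l * (hasseDeriv l f).eval z := by
  have e1 : T (f.eval z) = f.eval (z + algebraMap k Ω s) := by
    rw [eval_eq_sum_range, map_sum, eval_eq_sum_range]
    refine sum_congr rfl fun i _ => ?_
    rw [map_mul, map_pow, hT _ (hf i), hz]
  have e2 : f.eval (z + algebraMap k Ω s) = (taylor z f).eval (algebraMap k Ω s) := by
    rw [taylor_eval, add_comm]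
  rw [e1, e2, eval_eq_sum_range, natDegree_taylor, Finset.sum_range_eq_add_Ico _ (Nat.succ_pos _),
    taylor_coeff_zero, pow_zero, mul_one]
  congr 1
  refine sum_congr rfl fun l _ => ?_
  rw [taylor_coeff, mul_comm]

/-- **The residue of the translated derivation.** -/
theorem star0 (h : HB p v L W B F K w x z a) {E : Ω → Ω} (hE : Drv v K E)
    (s : k) : ∃ H : Ω → Ω, Drv v K H ∧ (∀ y ∈ F, E y ∈ F → H y = 0) ∧
      (∀ c : k, E z = algebraMap k Ω c → H z = 0) ∧ ∀ f ∈ PI F, LP p v K 0 (f.eval z) →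
        rsd k v (H (f.eval z)) =
          ∑ l ∈ Icc 1 f.natDegree, s ^ l * rsd k v (E ((hasseDeriv l f).eval z)) := by
  obtain ⟨T, hT, hTF, hTz, hTK⟩ := exists_shift h s
  obtain ⟨T', hT', hTF', hTz', hTK'⟩ := exists_shift h (-s)
  have hk := h.c0
  have hzK : z ∈ K := by
    rw [h.K_eq]
    exact self_mem_cadj v F z
  have hFK : F ≤ K := by
    rw [h.K_eq]
    exact le_cadj v F z
  have hTT : ∀ y ∈ K, T' (T y) = y := by
    intro y hy
    rw [h.K_eq] at hy
    have hc : IsoE v v (T'.comp T) := ⟨fun b hb => by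
      rw [AlgHom.comp_apply, hT'.val _ (fun h0 => hb (by
        rw [← map_zero T] at h0
        exact T.injective h0)), hT.val _ hb]⟩
    have h1 := iso_eq_cadj hc (TWCT.isoE_id (k := k) (v := v)) h.zt (fun b hb => by
      rw [AlgHom.comp_apply, hTF b hb, hTF' b hb, AlgHom.id_apply]) (by
      rw [AlgHom.comp_apply, hTz, map_add, hTz', AlgHom.commutes, AlgHom.id_apply, map_neg]
      ring) hy
    rwa [AlgHom.comp_apply, AlgHom.id_apply] at h1
  have hH := drv_diff (drv_conj hE hT' hT hTK hTT) hE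
  refine ⟨_, hH, fun y hy hEy => ?_, fun c hc => ?_, fun f hf hl => ?_⟩
  · show T' (E (T y)) - E y = 0
    rw [hTF y hy, hTF' _ hEy, sub_self]
  · show T' (E (T z)) - E z = 0
    rw [hTz, hE.add _ hzK _ (K.algebraMap_mem s), hE.alg, add_zero, hc, AlgHom.commutes, sub_self]
  · show rsd k v (T' (E (T (f.eval z))) - E (f.eval z)) = _
    have hfK : f.eval z ∈ K := by
      have := jet_memK h hf 0
      rwa [hasseDeriv_zero, LinearMap.id_apply] at this
    have hg0 : v.Ge 0 (E (f.eval z)) := hE.ge_of_lp hfK hl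
    have hgl : ∀ l, v.Ge 0 (E ((hasseDeriv l f).eval z)) := fun l =>
      hE.ge_of_lp (jet_memK h hf l) (jet_lp h hf hl l)
    have e1 : E (T (f.eval z)) = E (f.eval z) + ∑ l ∈ Icc 1 f.natDegree,
        algebraMap k Ω s ^ l * E ((hasseDeriv l f).eval z) := by
      have hm : ∀ l ∈ Icc 1 f.natDegree, algebraMap k Ω s ^ l * (hasseDeriv l f).eval z ∈ K :=
        fun l _ => mul_mem (pow_mem (K.algebraMap_mem s) _) (jet_memK h hf l)
      rw [shift_eval hTF hTz hf, hE.add _ hfK _ (sum_mem hm), hE.sum _ hm]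
      congr 1
      refine sum_congr rfl fun l _ => ?_
      rw [← map_pow, hE.mul _ (K.algebraMap_mem _) _ (jet_memK h hf l), hE.alg, mul_zero, add_zero]
    have h1 : Gt v 0 (E (T (f.eval z)) - algebraMap k Ω (rsd k v (E (f.eval z)) +
        ∑ l ∈ Icc 1 f.natDegree, s ^ l * rsd k v (E ((hasseDeriv l f).eval z)))) := by
      rw [e1, map_add, map_sum]
      have e2 : E (f.eval z) + ∑ l ∈ Icc 1 f.natDegree,
          algebraMap k Ω s ^ l * E ((hasseDeriv l f).eval z) -
          (algebraMap k Ω (rsd k v (E (f.eval z))) + ∑ l ∈ Icc 1 f.natDegree,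
            algebraMap k Ω (s ^ l * rsd k v (E ((hasseDeriv l f).eval z)))) =
          (E (f.eval z) - algebraMap k Ω (rsd k v (E (f.eval z)))) + ∑ l ∈ Icc 1 f.natDegree,
            (E ((hasseDeriv l f).eval z) -
              algebraMap k Ω (rsd k v (E ((hasseDeriv l f).eval z)))) * algebraMap k Ω s ^ l := by
        have e3 : ∑ l ∈ Icc 1 f.natDegree, (E ((hasseDeriv l f).eval z) -
            algebraMap k Ω (rsd k v (E ((hasseDeriv l f).eval z)))) * algebraMap k Ω s ^ l =
            ∑ l ∈ Icc 1 f.natDegree, algebraMap k Ω s ^ l * E ((hasseDeriv l f).eval z) -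
            ∑ l ∈ Icc 1 f.natDegree,
              algebraMap k Ω (s ^ l * rsd k v (E ((hasseDeriv l f).eval z))) := by
          rw [← sum_sub_distrib]
          refine sum_congr rfl fun l _ => ?_
          rw [map_mul, map_pow]
          ring
        rw [e3]
        ring
      rw [e2]
      refine (rsd_spec hk hg0).add (Gt.sum _ _ fun l _ => ?_)
      have h2 := Gt.mul_ge (rsd_spec hk (hgl l)) (ge_pow (hk.ge s) l)
      rwa [mul_zero, add_zero] at h2
    have h2 := IsoE.gt_iff hT' |>.2 h1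
    rw [map_sub, AlgHom.commutes] at h2
    refine rsd_eq hk ?_
    have h3 := h2.sub (rsd_spec hk hg0)
    refine (congrArg _ ?_).mp h3
    rw [map_add]
    ring

end Pool.Agent.TWRW
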