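import Pool.Agent.Lib.TWFN.V0B
import Pool.Agent.Lib.TWRB.FinA
import Pool.Agent.Lib.TWM0.D
import Pool.Agent.Lib.TWRW.HBc

/-!
# RowB, the trichotomy, part C: critical elements of `K` with strict partial derivatives

`K = F⟨z⟩`, `F = W⟨w 0, w 1⟩`, derivations `D` (over the base), `dw`, `du`, `dz` of `K` with values in
`Ω`. The hypothesis `hjet`: the jets along `z` of a critical element with strict `dw`, `du`, `dz` have
strict derivatives.

* `cls_base`: if the `p`-jets are null, a critical element with strict partials is `c x` + null;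
* `jets_null`: the `p`-jets of a critical element with strict partials are null;
* `cls_K`: it is `c x` + null.
-/

set_option autoImplicit false
set_option linter.unusedSectionVars false

open Polynomial Finset

namespace Pool.Agent.TWRW

open Pool.Agent.H15JM (RVal)
open Pool.Agent.LU1 (VPos)
open Pool.Agent.D2 (Ctx0)
open Pool.Agent.TWM
open Pool.Agent.TWII (PG LP)
open Pool.Agent.TWN1
open Pool.Agent.TWCY
open Pool.Agent.TWRB

universe u

variable {k Ω : Type u} [Field k] [Field Ω] [Algebra k Ω] {v : RVal Ω}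
  {L : ℕ → IntermediateField k Ω} {W B F K : IntermediateField k Ω} {w : Fin 2 → Ω}
  {x z a : Ω} {p : ℕ} [hp : Fact p.Prime] [CharP Ω p]

/-- A derivation of `K`, on `F`. -/
theorem drv_mono {d : Ω → Ω} (h : Drv v K d) (hFK : F ≤ K) : Drv v F d where
  add f hf g hg := h.add f (hFK hf) g (hFK hg)
  mul f hf g hg := h.mul f (hFK hf) g (hFK hg)
  alg := h.alg
  norm f hf := h.norm f (hFK hf)

/-- A derivation is strict on null elements. -/
theorem drv_pg {d : Ω → Ω} (h : Drv v K d) {y : Ω} (hy : y ∈ K) (hn : PG p v K 0 y) :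
    Gt v 0 (d y) := by
  obtain ⟨g, hg, h1⟩ := hn
  have h2 := drv_gt h (sub_mem hy (pow_mem hg p)) h1
  rwa [h.map_sub hy (pow_mem hg p), h.map_pow_char hg, sub_zero] at h2

/-- A constant which is strict is `0`. -/
theorem const_zero (hk : Ctx0 k v) {c : k} (h : Gt v 0 (algebraMap k Ω c)) : c = 0 := by
  by_contra hc
  have h1 : algebraMap k Ω c ≠ 0 := by
    rwa [Ne, map_eq_zero]
  have h2 := h h1
  rw [hk.triv c hc] at h2
  exact lt_irrefl _ h2

section

variable {D₀ D dw du dz : Ω → Ω}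

/-- **The base step.** -/
theorem cls_base [IsAlgClosed Ω] (h : HB p v L W B F K w x z a) (hB : BaseD p v W x D₀)
    (hD : Drv v K D) (hDW : ∀ y ∈ W, D y = D₀ y) (hw : Drv v K dw) (hwW : ∀ y ∈ W, dw y = 0)
    (hw0 : dw (w 0) = 1) (hu : Drv v K du) (huB : ∀ y ∈ B, du y = 0) (hu1 : du (w 1) = 1)
    (hz : Drv v K dz) (hzF : ∀ y ∈ F, dz y = 0) (hz1 : dz z = 1) {f : Polynomial Ω}
    (hf : f ∈ PI F) (hlp : LP p v K 0 (f.eval z)) (sw : Gt v 0 (dw (f.eval z)))
    (su : Gt v 0 (du (f.eval z))) (sz : Gt v 0 (dz (f.eval z)))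
    (hj : ∀ l : ℕ, p ∣ l → l ≠ 0 → PG p v K 0 ((hasseDeriv l f).eval z)) :
    ∃ c : k, PG p v K 0 (f.eval z - algebraMap k Ω c * x) := by
  have hWB : W ≤ B := by
    rw [h.B_eq]
    exact le_cadj v W (w 0)
  have hBF : B ≤ F := by
    rw [h.F_eq]
    exact le_cadj v B (w 1)
  have hFK : F ≤ K := by
    rw [h.K_eq]
    exact le_cadj v F z
  have hzK : z ∈ K := by
    rw [h.K_eq]
    exact self_mem_cadj v F z
  have hfK : f.eval z ∈ K := by
    rw [h.K_eq]
    exact TWLM.eval_mem_cadj hf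
  have hKe := h.K_eq
  have hdz : dz (f.eval z) = (hasseDeriv 1 f).eval z := by
    rw [hz.map_poly hFK hzF hzK hf, hz1, mul_one]
  have hlp' := hlp
  rw [hKe] at hlp'
  obtain ⟨a₁, ha₁, h1⟩ := TWII.PG.base p h.zt hf (ν := 0) (fun l hl => by
    rcases eq_or_ne l 1 with rfl | h2
    · rw [taylor_coeff, mul_zero, sub_zero, ← hdz]
      exact sz
    · have h3 : l ≠ 0 := fun h4 => hl (h4 ▸ dvd_zero p)
      exact TWII.LP.jet_prime_gt p h.zt hf hlp' hl (by omega)) (fun l hpl hl => by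
    rw [taylor_coeff, mul_zero, sub_zero, ← hKe]
    exact hj l hpl hl)
  rw [← hKe] at h1
  have ha₁K : a₁ ∈ K := hFK ha₁
  have hnK : f.eval z - a₁ ∈ K := sub_mem hfK ha₁K
  have h2 : LP p v F 0 a₁ := by
    have h3 : LP p v K 0 a₁ := by
      have h4 := hlp.sub (LP.of_pg h1)
      rwa [sub_sub_cancel] at h4
    rw [hKe] at h3
    exact h3.down h.zt ha₁
  have hst : ∀ d : Ω → Ω, Drv v K d → Gt v 0 (d (f.eval z)) → Gt v 0 (d a₁) := by
    intro d hd hs
    have h3 := drv_pg hd hnK h1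
    rw [hd.map_sub hfK ha₁K] at h3
    have e : d a₁ = d (f.eval z) - (d (f.eval z) - d a₁) := by ring
    rw [e]
    exact hs.sub h3
  have hxW := h.xW
  have hBe := h.B_eq
  obtain ⟨c, hc⟩ := TWFN.v0b (dd := ![dw, du]) h.c0 h.tw (by rw [← hBe]; exact h.tu)
    (by rw [← hBe]; exact h.F_eq) h.gp hxW hB.gen hB.lp (drv_mono hD hFK)
    (by rw [hDW x hxW]; exact hB.Dx) (fun i => by
      fin_cases i
      · exact drv_mono hw hFK
      · exact drv_mono hu hFK) hwW hw0 (by rw [← hBe]; exact huB) hu1 a₁ ha₁ h2 (fun i => by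
      fin_cases i
      · exact hst dw hw sw
      · exact hst du hu su)
  refine ⟨c, ?_⟩
  have e : f.eval z - algebraMap k Ω c * x = (f.eval z - a₁) + (a₁ - algebraMap k Ω c * x) := by
    ring
  rw [e]
  exact h1.add (PG.of_le' hFK hc)

variable (hjet : ∀ f ∈ PI F, LP p v K 0 (f.eval z) → Gt v 0 (dw (f.eval z)) →
    Gt v 0 (du (f.eval z)) → Gt v 0 (dz (f.eval z)) → ∀ l : ℕ, l ≠ 0 →
    Gt v 0 (D ((hasseDeriv l f).eval z)) ∧ Gt v 0 (dw ((hasseDeriv l f).eval z)) ∧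
    Gt v 0 (du ((hasseDeriv l f).eval z)) ∧ Gt v 0 (dz ((hasseDeriv l f).eval z)))

include hjet

/-- **The `p`-jets are null.** -/
theorem jets_null [IsAlgClosed Ω] (h : HB p v L W B F K w x z a) (hB : BaseD p v W x D₀)
    (hD : Drv v K D) (hDW : ∀ y ∈ W, D y = D₀ y) (hw : Drv v K dw) (hwW : ∀ y ∈ W, dw y = 0)
    (hw0 : dw (w 0) = 1) (hu : Drv v K du) (huB : ∀ y ∈ B, du y = 0) (hu1 : du (w 1) = 1)
    (hz : Drv v K dz) (hzF : ∀ y ∈ F, dz y = 0) (hz1 : dz z = 1) {f : Polynomial Ω}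
    (hf : f ∈ PI F) (hlp : LP p v K 0 (f.eval z)) (sw : Gt v 0 (dw (f.eval z)))
    (su : Gt v 0 (du (f.eval z))) (sz : Gt v 0 (dz (f.eval z))) :
    ∀ l : ℕ, p ∣ l → l ≠ 0 → PG p v K 0 ((hasseDeriv l f).eval z) := by
  classical
  by_contra hcon
  let H : ℕ → Prop := fun l => p ∣ l ∧ l ≠ 0 ∧ ¬ PG p v K 0 ((hasseDeriv l f).eval z)
  have hHb : ∀ l, H l → l ≤ f.natDegree := by
    rintro l ⟨-, -, h3⟩
    by_contra hlt
    apply h3
    rw [hasseDeriv_eq_zero_of_lt_natDegree f l (by omega), eval_zero]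
    exact PG.of_gt Gt.zero
  obtain ⟨l₀, hl₀⟩ : ∃ l, H l := by
    by_contra h1
    exact hcon fun l hpl hl0 => by
      by_contra h2
      exact h1 ⟨l, hpl, hl0, h2⟩
  obtain ⟨l, hl, hmax⟩ : ∃ l, H l ∧ ∀ l', l < l' → ¬ H l' := by
    refine ⟨Nat.findGreatest H f.natDegree, Nat.findGreatest_spec (hHb l₀ hl₀) hl₀,
      fun m' hm' h1 => ?_⟩
    have := Nat.le_findGreatest (hHb m' h1) h1
    omega
  obtain ⟨hpl, hl0, hnl⟩ := hl
  have hKe := h.K_eq
  have hFK : F ≤ K := by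
    rw [h.K_eq]
    exact le_cadj v F z
  have hWF : W ≤ F := by
    rw [h.F_eq, h.B_eq]
    exact (le_cadj _ _ _).trans (le_cadj _ _ _)
  have hf' : hasseDeriv l f ∈ PI F := hasse_mem_PI hf l
  have hfK : (hasseDeriv l f).eval z ∈ K := by
    rw [hKe]
    exact TWLM.eval_mem_cadj hf'
  have h1 : LP p v K 0 ((hasseDeriv l f).eval z) := by
    have h2 := hlp
    rw [hKe] at h2 ⊢
    have := TWII.LP.jet p h.zt hf h2 hpl
    rwa [taylor_coeff, mul_zero, sub_zero] at this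
  obtain ⟨sD', sw', su', sz'⟩ := hjet f hf hlp sw su sz l hl0
  have h4 : ∀ j : ℕ, p ∣ j → j ≠ 0 → PG p v K 0 ((hasseDeriv j (hasseDeriv l f)).eval z) := by
    intro j hpj hj0
    have h5 : PG p v K 0 ((hasseDeriv (j + l) f).eval z) := by
      by_contra h6
      exact hmax (j + l) (by omega) ⟨dvd_add hpj hpl, by omega, h6⟩
    rw [← taylor_coeff, TWJ.jet_jet, taylor_coeff]
    exact h5.natCast_mul _
  obtain ⟨c, hc⟩ := cls_base h hB hD hDW hw hwW hw0 hu huB hu1 hz hzF hz1 hf' h1 sw' su' sz' h4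
  have hxK : x ∈ K := hFK (hWF h.xW)
  have hcx : algebraMap k Ω c * x ∈ K := mul_mem (K.algebraMap_mem c) hxK
  have h5 := drv_pg hD (sub_mem hfK hcx) hc
  have e1 : D (algebraMap k Ω c * x) = algebraMap k Ω c := by
    rw [hD.mul _ (K.algebraMap_mem c) _ hxK, hD.alg, mul_zero, add_zero, hDW x h.xW, hB.Dx,
      mul_one]
  rw [hD.map_sub hfK hcx, e1] at h5
  have h6 : Gt v 0 (algebraMap k Ω c) := by
    have e : algebraMap k Ω c = D ((hasseDeriv l f).eval z) -
        (D ((hasseDeriv l f).eval z) - algebraMap k Ω c) := by ring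
    rw [e]
    exact sD'.sub h5
  obtain rfl := const_zero h.c0 h6
  rw [map_zero, zero_mul, sub_zero] at hc
  exact hnl hc

/-- **The class**: a critical element of `K` with strict partials. -/
theorem cls_K [IsAlgClosed Ω] (h : HB p v L W B F K w x z a) (hB : BaseD p v W x D₀)
    (hD : Drv v K D) (hDW : ∀ y ∈ W, D y = D₀ y) (hw : Drv v K dw) (hwW : ∀ y ∈ W, dw y = 0)
    (hw0 : dw (w 0) = 1) (hu : Drv v K du) (huB : ∀ y ∈ B, du y = 0) (hu1 : du (w 1) = 1)
    (hz : Drv v K dz) (hzF : ∀ y ∈ F, dz y = 0) (hz1 : dz z = 1) {y : Ω} (hy : y ∈ K)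
    (hlp : LP p v K 0 y) (sw : Gt v 0 (dw y)) (su : Gt v 0 (du y)) (sz : Gt v 0 (dz y)) :
    ∃ c : k, PG p v K 0 (y - algebraMap k Ω c * x) := by
  have hy' := hy
  rw [h.K_eq] at hy'
  obtain ⟨f, hf, h1⟩ := h.zt.dense hy' 1
  have hfK : f.eval z ∈ K := by
    rw [h.K_eq]
    exact TWLM.eval_mem_cadj hf
  have h2 : Gt v 0 (y - f.eval z) := Gt.of_ge h1 one_pos
  have h3 : LP p v K 0 (f.eval z) := by
    have h4 := hlp.sub (LP.of_pg (PG.of_gt (p := p) (F := K) h2))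
    rwa [sub_sub_cancel] at h4
  have hst : ∀ d : Ω → Ω, Drv v K d → Gt v 0 (d y) → Gt v 0 (d (f.eval z)) := by
    intro d hd hs
    have h4 := drv_gt hd (sub_mem hy hfK) h2
    rw [hd.map_sub hy hfK] at h4
    have e : d (f.eval z) = d y - (d y - d (f.eval z)) := by ring
    rw [e]
    exact hs.sub h4
  have sw' := hst dw hw sw
  have su' := hst du hu su
  have sz' := hst dz hz sz
  obtain ⟨c, hc⟩ := cls_base h hB hD hDW hw hwW hw0 hu huB hu1 hz hzF hz1 hf h3 sw' su' sz'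
    (jets_null hjet h hB hD hDW hw hwW hw0 hu huB hu1 hz hzF hz1 hf h3 sw' su' sz')
  refine ⟨c, ?_⟩
  have e : y - algebraMap k Ω c * x = (y - f.eval z) + (f.eval z - algebraMap k Ω c * x) := by ring
  rw [e]
  exact (PG.of_gt h2).add hc

end

end Pool.Agent.TWRW
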