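import Pool.Agent.Lib.TWRW.TrC
import Pool.Agent.Lib.TWRW.Cl

/-!
# RowB, the trichotomy, part D: the third case, the critical elements of `B`

If a critical element `f(z)` of `K` has strict `du`, `dz`, `dw` has the residue `c ≠ 0`, and some
`p`-jet is not null, the critical elements of `B` are `c' x` + null.
-/

set_option autoImplicit false
set_option linter.unusedSectionVars false

open Polynomial Finset

namespace Pool.Agent.TWRW

open Pool.Agent.H15JM (RVal)
open Pool.Agent.LU1 (VPos)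
open Pool.Agent.D2 (Ctx0)
open Pool.Agent.TWM
open Pool.Agent.TWII (PG LP)
open Pool.Agent.TWN1
open Pool.Agent.TWCY
open Pool.Agent.TWRB

universe u

variable {k Ω : Type u} [Field k] [Field Ω] [Algebra k Ω] {v : RVal Ω}
  {L : ℕ → IntermediateField k Ω} {W B F K : IntermediateField k Ω} {w : Fin 2 → Ω}
  {x z a : Ω} {p : ℕ} [hp : Fact p.Prime] [CharP Ω p] {D₀ D dw du dz : Ω → Ω}

/-- The residue of an element of `O_0`. -/
theorem exists_res (hk : Ctx0 k v) {y : Ω} (hy : v.Ge 0 y) :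
    ∃ c : k, Gt v 0 (y - algebraMap k Ω c) := by
  by_cases h0 : y = 0
  · refine ⟨0, ?_⟩
    rw [h0, map_zero, sub_zero]
    exact Gt.zero
  · rcases (hy h0).lt_or_eq with h1 | h1
    · refine ⟨0, ?_⟩
      rw [map_zero, sub_zero]
      exact fun _ => h1
    · obtain ⟨c, -, hc⟩ := hk.res y h0 h1.symm
      exact ⟨c, hc⟩

/-- **The critical elements of `B`**, in the third case. -/
theorem cls_B_of_jet [IsAlgClosed k] [IsAlgClosed Ω] (hjet : ∀ f ∈ PI F, LP p v K 0 (f.eval z) →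
      Gt v 0 (dw (f.eval z)) → Gt v 0 (du (f.eval z)) → Gt v 0 (dz (f.eval z)) → ∀ l : ℕ, l ≠ 0 →
      Gt v 0 (D ((hasseDeriv l f).eval z)) ∧ Gt v 0 (dw ((hasseDeriv l f).eval z)) ∧
      Gt v 0 (du ((hasseDeriv l f).eval z)) ∧ Gt v 0 (dz ((hasseDeriv l f).eval z)))
    (h : HB p v L W B F K w x z a) (hB : BaseD p v W x D₀)
    (hD : Drv v K D) (hDW : ∀ y ∈ W, D y = D₀ y) (hw : Drv v K dw) (hwW : ∀ y ∈ W, dw y = 0)
    (hw0 : dw (w 0) = 1) (hu : Drv v K du) (huB : ∀ y ∈ B, du y = 0) (hu1 : du (w 1) = 1)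
    (hz : Drv v K dz) (hzF : ∀ y ∈ F, dz y = 0) (hz1 : dz z = 1) {f : Polynomial Ω}
    (hf : f ∈ PI F) (hlp : LP p v K 0 (f.eval z)) (su : Gt v 0 (du (f.eval z)))
    (sz : Gt v 0 (dz (f.eval z))) {c : k}
    (sw : Gt v 0 (dw (f.eval z) - algebraMap k Ω c)) {l : ℕ} (hl : l ≠ 0) (hpl : p ∣ l)
    (hn : ¬ PG p v K 0 ((hasseDeriv l f).eval z)) :
    ∀ y ∈ B, LP p v B 0 y → ∃ c' : k, PG p v B 0 (y - algebraMap k Ω c' * x) := by
  intro y hy hly
  have hWB : W ≤ B := by
    rw [h.B_eq]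
    exact le_cadj v W (w 0)
  have hBF : B ≤ F := by
    rw [h.F_eq]
    exact le_cadj v B (w 1)
  have hFK : F ≤ K := by
    rw [h.K_eq]
    exact le_cadj v F z
  have hyK : y ∈ K := hFK (hBF hy)
  have hlyK : LP p v K 0 y := TWN1.LP.of_le' (hBF.trans hFK) hly
  have hfK : f.eval z ∈ K := by
    rw [h.K_eq]
    exact TWLM.eval_mem_cadj hf
  obtain ⟨c₁, hc₁⟩ := exists_res h.c0 (hw.ge_of_lp hyK hlyK)
  by_cases h0 : c₁ = 0
  · rw [h0, map_zero, sub_zero] at hc₁
    obtain ⟨c', h1⟩ := cls_K hjet h hB hD hDW hw hwW hw0 hu huB hu1 hz hzF hz1 hyK hlyK hc₁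
      (by rw [huB y hy]; exact Gt.zero) (by rw [hzF y (hBF hy)]; exact Gt.zero)
    refine ⟨c', ?_⟩
    have hm : y - algebraMap k Ω c' * x ∈ B :=
      sub_mem hy (mul_mem (B.algebraMap_mem c') (hWB h.xW))
    rw [h.K_eq] at h1
    have h2 := TWII.PG.down h.zt (hBF hm) h1
    rw [h.F_eq] at h2
    exact TWII.PG.down h.tu hm h2
  · exfalso
    apply hn
    obtain ⟨q, hq⟩ : ∃ q : k, q = c / c₁ := ⟨_, rfl⟩
    have hqyF : algebraMap k Ω q * y ∈ F := mul_mem (F.algebraMap_mem q) (hBF hy)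
    have hqyK : algebraMap k Ω q * y ∈ K := hFK hqyF
    have hf₂ : f - Polynomial.C (algebraMap k Ω q * y) ∈ PI F := sub_mem hf (C_mem_PI hqyF)
    have he : (f - Polynomial.C (algebraMap k Ω q * y)).eval z =
        f.eval z - algebraMap k Ω q * y := by
      rw [eval_sub, eval_C]
    have hder : ∀ d : Ω → Ω, Drv v K d → d ((f - Polynomial.C (algebraMap k Ω q * y)).eval z) =
        d (f.eval z) - algebraMap k Ω q * d y := by
      intro d hd
      rw [he, hd.map_sub hfK hqyK, hd.mul _ (K.algebraMap_mem q) _ hyK, hd.alg, mul_zero, add_zero]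
    have h1 : LP p v K 0 ((f - Polynomial.C (algebraMap k Ω q * y)).eval z) := by
      rw [he]
      exact hlp.sub (lp_const h.c0 hlyK q)
    have h2 := jets_null hjet h hB hD hDW hw hwW hw0 hu huB hu1 hz hzF hz1 hf₂ h1
      (by
        rw [hder dw hw]
        have e : dw (f.eval z) - algebraMap k Ω q * dw y = (dw (f.eval z) - algebraMap k Ω c) -
            algebraMap k Ω q * (dw y - algebraMap k Ω c₁) := by
          have e1 : algebraMap k Ω c = algebraMap k Ω q * algebraMap k Ω c₁ := by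
            rw [← map_mul, hq, div_mul_cancel₀ _ h0]
          rw [e1]
          ring
        rw [e]
        refine sw.sub ?_
        have h3 : v.Ge 0 (algebraMap k Ω q) := h.c0.ge q
        have h4 := hc₁.mul_ge h3
        rw [add_zero] at h4
        rwa [mul_comm])
      (by
        rw [hder du hu, huB y hy, mul_zero, sub_zero]
        exact su)
      (by
        rw [hder dz hz, hzF y (hBF hy), mul_zero, sub_zero]
        exact sz) l hpl hl
    rwa [map_sub, hasseDeriv_C l _ (Nat.pos_of_ne_zero hl), sub_zero] at h2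

end Pool.Agent.TWRW
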