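import Pool.Agent.Lib.TWRW.TrB
import Pool.Agent.Lib.TWRW.TrC
import Pool.Agent.Lib.TWRW.DuJet

/-!
# RowB, the trichotomy, part E: the four derivations of `K` and the jets along `z`

* `DK`, `exists_DK`: derivations `D`, `dw`, `du`, `dz` of `K`;
* `DK.lz`, `DK.lw`, `DK.ld`: the residues of the derivatives of the jets;
* `DK.cls`: a critical element of `K` with strict partials is `c x` + null.
-/

set_option autoImplicit false
set_option linter.unusedSectionVars false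

open Polynomial Finset

namespace Pool.Agent.TWRW

open Pool.Agent.H15JM (RVal)
open Pool.Agent.LU1 (VPos adj)
open Pool.Agent.D2 (Ctx0)
open Pool.Agent.D2P (clI)
open Pool.Agent.TWM
open Pool.Agent.TWS (IsoE SphC)
open Pool.Agent.TWII (PG LP)
open Pool.Agent.TWN1
open Pool.Agent.TWLY
open Pool.Agent.TWCY
open Pool.Agent.TWRB

universe u

variable {k Ω : Type u} [Field k] [Field Ω] [Algebra k Ω] {v : RVal Ω}
  {L : ℕ → IntermediateField k Ω} {W B F K : IntermediateField k Ω} {w : Fin 2 → Ω}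
  {x z a : Ω} {p : ℕ}

/-- The four derivations of `K`. -/
structure DK (v : RVal Ω) (W B F K : IntermediateField k Ω) (w : Fin 2 → Ω) (z : Ω)
    (D₀ D dw du dz : Ω → Ω) : Prop where
  hD : Drv v K D
  DW : ∀ y ∈ W, D y = D₀ y
  hw : Drv v K dw
  wW : ∀ y ∈ W, dw y = 0
  w0 : dw (w 0) = 1
  hu : Drv v K du
  uB : ∀ y ∈ B, du y = 0
  u1 : du (w 1) = 1
  hz : Drv v K dz
  zF : ∀ y ∈ F, dz y = 0
  z1 : dz z = 1

section ext

variable [IsAlgClosed Ω] {A : IntermediateField k Ω} {y : Ω} {D : Ω → Ω}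

/-- The extension by a limit. -/
theorem ext_tl (hk : Ctx0 k v) (hcv : CompleteV v) (hsp : SphC v) (hD : Drv v A D)
    (hy : TL v A y 0) : ∃ D' : Ω → Ω, Drv v (cadj v A y) D' ∧ ∀ a ∈ A, D' a = D a := by
  obtain ⟨y0, hy0⟩ := hD.exists_nat hsp hy
  obtain ⟨D', h1, h2, -, -⟩ := hD.exists_tl hk hcv hy hy0
  exact ⟨D', h1, h2⟩

/-- The partial derivation. -/
theorem part_tl (hk : Ctx0 k v) (hcv : CompleteV v) (hy : TL v A y 0) :
    ∃ D' : Ω → Ω, Drv v (cadj v A y) D' ∧ (∀ a ∈ A, D' a = 0) ∧ D' y = 1 := by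
  obtain ⟨D', h1, h2, h3, -⟩ := (drv_zero v A).exists_tl (y := 1) hk hcv hy fun b hb r hr => by
    have hr0 := TL.neg_of_ge hy hb hr
    show v.Ge r ((1 : Ω) - 0)
    rw [sub_zero]
    have := hk.ge (1 : k)
    rw [map_one] at this
    exact this.mono hr0.le
  exact ⟨D', h1, h2, h3⟩

end ext

/-- **The four derivations.** -/
theorem exists_DK [Fact p.Prime] [CharP Ω p] [IsAlgClosed Ω]
    (h : HB p v L W B F K w x z a) {D₀ : Ω → Ω} (hB : BaseD p v W x D₀) :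
    ∃ D dw du dz : Ω → Ω, DK v W B F K w z D₀ D dw du dz := by
  have hWB := h.WB
  have hBF := h.BF
  -- `D`
  obtain ⟨D₁, h1, h1'⟩ := ext_tl h.c0 h.cv h.sph hB.drv h.tw
  rw [← h.B_eq] at h1
  obtain ⟨D₂, h2, h2'⟩ := ext_tl h.c0 h.cv h.sph h1 h.tu
  rw [← h.F_eq] at h2
  obtain ⟨D, h3, h3'⟩ := exists_ext h h2
  -- `dw`
  obtain ⟨w₁, h4, h4', h4''⟩ := part_tl h.c0 h.cv h.tw
  rw [← h.B_eq] at h4
  obtain ⟨w₂, h5, h5'⟩ := ext_tl h.c0 h.cv h.sph h4 h.tu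
  rw [← h.F_eq] at h5
  obtain ⟨dw, h6, h6'⟩ := exists_ext h h5
  -- `du`
  obtain ⟨u₁, h7, h7', h7''⟩ := part_tl h.c0 h.cv h.tu
  rw [← h.F_eq] at h7
  obtain ⟨du, h8, h8'⟩ := exists_ext h h7
  obtain ⟨dz, h9, h9', h9''⟩ := exists_dz h
  exact ⟨D, dw, du, dz,
    { hD := h3
      DW := fun y hy => by rw [h3' y (hBF (hWB hy)), h2' y (hWB hy), h1' y hy]
      hw := h6
      wW := fun y hy => by rw [h6' y (hBF (hWB hy)), h5' y (hWB hy), h4' y hy]
      w0 := by rw [h6' _ (hBF h.w0B), h5' _ h.w0B, h4'']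
      hu := h8
      uB := fun y hy => by rw [h8' y (hBF hy), h7' y hy]
      u1 := by rw [h8' _ h.w1F, h7'']
      hz := h9
      zF := h9'
      z1 := h9'' }⟩

section jets

variable [hp : Fact p.Prime] [CharP Ω p] [IsAlgClosed Ω] [IsAlgClosed k]
  {D₀ D dw du dz : Ω → Ω}

/-- `F ≤ K`. -/
theorem hb_leFK (h : HB p v L W B F K w x z a) : F ≤ K := by
  rw [h.K_eq]
  exact le_cadj v F z

/-- `z` is in `K`. -/
theorem hb_zK (h : HB p v L W B F K w x z a) : z ∈ K := by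
  rw [h.K_eq]
  exact self_mem_cadj v F z

/-- The value is the jet of order `0`. -/
theorem eval_memK (h : HB p v L W B F K w x z a) {f : Polynomial Ω} (hf : f ∈ PI F) :
    f.eval z ∈ K := by
  have := jet_memK h hf 0
  rwa [hasseDeriv_zero, LinearMap.id_apply] at this

/-- From the residues to the strict derivatives. -/
theorem strict_of_sum (h : HB p v L W B F K w x z a) {E : Ω → Ω} (hE : Drv v K E)
    {f : Polynomial Ω} (hf : f ∈ PI F) (hl : LP p v K 0 (f.eval z))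
    (h0 : ∀ s : k, ∑ l ∈ Icc 1 f.natDegree, s ^ l * rsd k v (E ((hasseDeriv l f).eval z)) = 0)
    {l : ℕ} (hl0 : l ≠ 0) : Gt v 0 (E ((hasseDeriv l f).eval z)) := by
  have hinf : Infinite k := IsAlgClosed.instInfinite
  by_cases hn : l ≤ f.natDegree
  · exact gt_of_rsd h.c0 (hE.ge_of_lp (jet_memK h hf l) (jet_lp h hf hl l))
      (van h0 l (mem_Icc.2 ⟨by omega, hn⟩))
  · rw [hasseDeriv_eq_zero_of_lt_natDegree f l (by omega), eval_zero, hE.zero]
    exact Gt.zero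

/-- **The jets along `z`, `dz`.** -/
theorem DK.lz (H : DK v W B F K w z D₀ D dw du dz) (h : HB p v L W B F K w x z a)
    {f : Polynomial Ω} (hf : f ∈ PI F) (hl : LP p v K 0 (f.eval z)) {l : ℕ} (hl0 : l ≠ 0) :
    Gt v 0 (dz ((hasseDeriv l f).eval z)) := by
  refine strict_of_sum h H.hz hf hl (fun s => ?_) hl0
  obtain ⟨G, hG, hG1, hG2, hG3⟩ := star0 h H.hz s
  rw [← hG3 f hf hl]
  have h1 : G (f.eval z) = 0 := by
    have h2 := eval_memK h hf
    rw [h.K_eq] at h2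
    exact hG.zero_cadj (hb_leFK h) (fun y hy => hG1 y hy (by rw [H.zF y hy]; exact zero_mem F)) h.zt
      (by rw [← h.K_eq]) (hG2 1 (by rw [H.z1, map_one])) h2
  rw [h1]
  exact rsd_zero h.c0 Gt.zero

/-- **The jets along `z`, `dw`.** -/
theorem DK.lw (H : DK v W B F K w z D₀ D dw du dz) (h : HB p v L W B F K w x z a)
    {f : Polynomial Ω} (hf : f ∈ PI F) (hl : LP p v K 0 (f.eval z)) (su : Gt v 0 (du (f.eval z)))
    (sz : Gt v 0 (dz (f.eval z))) {l : ℕ} (hl0 : l ≠ 0) :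
    Gt v 0 (dw ((hasseDeriv l f).eval z)) := by
  refine strict_of_sum h H.hw hf hl (fun s => ?_) hl0
  obtain ⟨G, hG, hG1, hG2, hG3⟩ := star0 h H.hw s
  rw [← hG3 f hf hl]
  obtain ⟨A, C₁, C₂, hA, hC₁, hC₂, e1, -, e2⟩ := drv_comb h hG
    (fun y hy => hG1 y (h.BF (h.WB hy)) (by rw [H.wW y hy]; exact zero_mem F)) H.hw H.wW H.w0 H.hu
    H.uB H.u1 H.hz H.zF H.z1
  have h0 : A = 0 := by
    rw [e1]
    exact hG1 _ (h.BF h.w0B) (by rw [H.w0]; exact one_mem F)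
  rw [e2 _ (eval_memK h hf), h0, zero_mul, zero_add]
  refine rsd_zero h.c0 (Gt.add ?_ ?_)
  · have := Gt.mul_ge su hC₁
    rwa [add_zero, mul_comm] at this
  · have := Gt.mul_ge sz hC₂
    rwa [add_zero, mul_comm] at this

/-- **The jets along `z`, `D`.** -/
theorem DK.ld (H : DK v W B F K w z D₀ D dw du dz) (h : HB p v L W B F K w x z a)
    (hB : BaseD p v W x D₀) (s : k) : ∃ ω : k, ∀ f ∈ PI F, LP p v K 0 (f.eval z) →
      Gt v 0 (du (f.eval z)) → Gt v 0 (dz (f.eval z)) →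
      ∑ l ∈ Icc 1 f.natDegree, s ^ l * rsd k v (D ((hasseDeriv l f).eval z)) =
        ω * rsd k v (dw (f.eval z)) := by
  obtain ⟨G, hG, hG1, hG2, hG3⟩ := star0 h H.hD s
  obtain ⟨A, C₁, C₂, hA, hC₁, hC₂, -, -, e2⟩ := drv_comb h hG
    (fun y hy => hG1 y (h.BF (h.WB hy)) (by
      rw [H.DW y hy]
      exact h.BF (h.WB (hB.dW y hy)))) H.hw H.wW H.w0 H.hu
    H.uB H.u1 H.hz H.zF H.z1
  refine ⟨rsd k v A, fun f hf hl su sz => ?_⟩
  have hfK := eval_memK h hf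
  rw [← hG3 f hf hl, e2 _ hfK]
  have hw0 := H.hw.ge_of_lp hfK hl
  have h1 : Gt v 0 (C₁ * du (f.eval z) + C₂ * dz (f.eval z)) := by
    refine Gt.add ?_ ?_
    · have := Gt.mul_ge su hC₁
      rwa [add_zero, mul_comm] at this
    · have := Gt.mul_ge sz hC₂
      rwa [add_zero, mul_comm] at this
  have h2 : v.Ge 0 (A * dw (f.eval z)) := by
    have := hA.mul hw0
    rwa [add_zero] at this
  rw [add_assoc, rsd_add h.c0 h2 h1.ge, rsd_zero h.c0 h1, add_zero, rsd_mul h.c0 hA hw0]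

/-- The jets of a critical element with strict partials have strict derivatives. -/
theorem DK.hjet (H : DK v W B F K w z D₀ D dw du dz) (h : HB p v L W B F K w x z a)
    (hB : BaseD p v W x D₀) : ∀ f ∈ PI F, LP p v K 0 (f.eval z) → Gt v 0 (dw (f.eval z)) →
    Gt v 0 (du (f.eval z)) → Gt v 0 (dz (f.eval z)) → ∀ l : ℕ, l ≠ 0 →
    Gt v 0 (D ((hasseDeriv l f).eval z)) ∧ Gt v 0 (dw ((hasseDeriv l f).eval z)) ∧
    Gt v 0 (du ((hasseDeriv l f).eval z)) ∧ Gt v 0 (dz ((hasseDeriv l f).eval z)) := by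
  intro f hf hl sw su sz l hl0
  refine ⟨strict_of_sum h H.hD hf hl (fun s => ?_) hl0, H.lw h hf hl su sz hl0,
    du_jet h H.hu H.uB H.u1 hf hl hl0, H.lz h hf hl hl0⟩
  obtain ⟨ω, hω⟩ := H.ld h hB s
  rw [hω f hf hl su sz, rsd_zero h.c0 sw, mul_zero]

/-- **The class.** -/
theorem DK.cls (H : DK v W B F K w z D₀ D dw du dz) (h : HB p v L W B F K w x z a)
    (hB : BaseD p v W x D₀) {y : Ω} (hy : y ∈ K) (hlp : LP p v K 0 y) (sw : Gt v 0 (dw y))
    (su : Gt v 0 (du y)) (sz : Gt v 0 (dz y)) : ∃ c : k, rsd k v (D y) = c ∧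
      PG p v K 0 (y - algebraMap k Ω c * x) := by
  obtain ⟨c, hc⟩ := cls_K (H.hjet h hB) h hB H.hD H.DW H.hw H.wW H.w0 H.hu H.uB H.u1 H.hz H.zF
    H.z1 hy hlp sw su sz
  refine ⟨c, ?_, hc⟩
  have hxK : x ∈ K := (hb_leFK h) (h.BF (h.WB h.xW))
  have hcx : algebraMap k Ω c * x ∈ K := mul_mem (K.algebraMap_mem c) hxK
  have h5 := drv_pg H.hD (sub_mem hy hcx) hc
  rw [H.hD.map_sub hy hcx, H.hD.mul _ (K.algebraMap_mem c) _ hxK, H.hD.alg, mul_zero, add_zero,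
    H.DW x h.xW, hB.Dx, mul_one] at h5
  exact rsd_eq h.c0 h5

/-- A critical element with strict derivatives is null. -/
theorem DK.null (H : DK v W B F K w z D₀ D dw du dz) (h : HB p v L W B F K w x z a)
    (hB : BaseD p v W x D₀) {y : Ω} (hy : y ∈ K) (hlp : LP p v K 0 y) (sD : Gt v 0 (D y))
    (sw : Gt v 0 (dw y)) (su : Gt v 0 (du y)) (sz : Gt v 0 (dz y)) : PG p v K 0 y := by
  obtain ⟨c, h1, h2⟩ := H.cls h hB hy hlp sw su sz
  rw [rsd_zero h.c0 sD] at h1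
  rwa [← h1, map_zero, zero_mul, sub_zero] at h2

end jets

end Pool.Agent.TWRW
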