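import Pool.Agent.Lib.TWRW.TrE
import Pool.Agent.Lib.TWRW.TopDigit
import Pool.Agent.Lib.TWRW.HbJet
import Pool.Agent.Lib.TWRW.Bad
import Pool.Agent.Lib.TWM1.WSh

/-!
# RowB, the trichotomy, part F: the three outcomes

* `np_gt`: the jets whose order is not a power of `p`;
* `DK.zero_p`: `p`-jets with strict derivatives;
* `exists_ws`: case (B), the critical element `w 0 + b`.
-/

set_option autoImplicit false
set_option linter.unusedSectionVars false

open Polynomial Finset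

namespace Pool.Agent.TWRW

open Pool.Agent.H15JM (RVal)
open Pool.Agent.LU1 (VPos adj)
open Pool.Agent.D2 (Ctx0)
open Pool.Agent.D2P (clI)
open Pool.Agent.TWM
open Pool.Agent.TWS (IsoE SphC)
open Pool.Agent.TWII (PG LP)
open Pool.Agent.TWN1
open Pool.Agent.TWLY
open Pool.Agent.TWCY
open Pool.Agent.TWRB

universe u

variable {k Ω : Type u} [Field k] [Field Ω] [Algebra k Ω] {v : RVal Ω}
  {L : ℕ → IntermediateField k Ω} {W B F K : IntermediateField k Ω} {w : Fin 2 → Ω}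
  {x z a : Ω} {p : ℕ} [hp : Fact p.Prime] [CharP Ω p] [IsAlgClosed Ω] [IsAlgClosed k]
  {D₀ D dw du dz : Ω → Ω}

theorem gt_of_smul (hk : Ctx0 k v) {c : k} (hc : c ≠ 0) {y : Ω}
    (h : Gt v 0 (algebraMap k Ω c * y)) : Gt v 0 y := by
  have h1 := Gt.mul_ge h (hk.ge c⁻¹)
  rw [add_zero] at h1
  have e2 : algebraMap k Ω c⁻¹ * algebraMap k Ω c = 1 := by
    rw [← map_mul, inv_mul_cancel₀ hc, map_one]
  have e : algebraMap k Ω c * y * algebraMap k Ω c⁻¹ = y := by linear_combination y * e2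
  rwa [e] at h1

theorem gt_smul (hk : Ctx0 k v) (c : k) {y : Ω} (h : Gt v 0 y) :
    Gt v 0 (algebraMap k Ω c * y) := by
  have h1 := Gt.mul_ge h (hk.ge c)
  rwa [add_zero, mul_comm] at h1

/-- The jets of order prime to `p`, at least `2`. -/
theorem jet_prime_gt' (h : HB p v L W B F K w x z a) {f : Polynomial Ω} (hf : f ∈ PI F)
    (hl : LP p v K 0 (f.eval z)) {n : ℕ} (hpn : ¬ p ∣ n) (hn : 2 ≤ n) :
    Gt v 0 ((hasseDeriv n f).eval z) := by
  rw [h.K_eq] at hl
  have h1 := TWII.LP.jet_prime_gt p h.zt hf hl hpn hn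
  rwa [mul_zero, sub_zero, taylor_coeff] at h1

/-- **The orders which are not powers of `p`.** -/
theorem np_gt [CharP k p] (h : HB p v L W B F K w x z a) {E : Ω → Ω} (hE : Drv v K E)
    {f : Polynomial Ω} (hf : f ∈ PI F) (hl : LP p v K 0 (f.eval z))
    (hsub : ∀ l, l ≠ 0 → ∀ m, m ≠ 0 → Gt v 0 (E ((hasseDeriv m (hasseDeriv l f)).eval z)))
    {n : ℕ} (hn : n ≠ 0) (hnp : ∀ i, n ≠ p ^ i) : Gt v 0 (E ((hasseDeriv n f).eval z)) := by
  by_cases hpn : p ∣ n
  · obtain ⟨l, m, rfl, hl0, hm0, -, -, hc⟩ := top_digit (k := k) hn hpn hnp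
    have h1 := hsub l hl0 m hm0
    have e : (hasseDeriv m (hasseDeriv l f)).eval z =
        algebraMap k Ω (((l + m).choose l : ℕ) : k) * (hasseDeriv (l + m) f).eval z := by
      rw [← taylor_coeff, TWJ.jet_jet, taylor_coeff, map_natCast, add_comm m l,
        Nat.choose_symm_add]
    rw [e, hE.map_smul _ (jet_memK h hf _)] at h1
    exact gt_of_smul h.c0 hc h1
  · have h2 : 2 ≤ n := by
      have := hnp 0
      rw [pow_zero] at this
      omega
    exact drv_gt hE (jet_memK h hf n) (jet_prime_gt' h hf hl hpn h2)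

/-- The linear jet is the derivative along `z`. -/
theorem DK.jet_one (H : DK v W B F K w z D₀ D dw du dz) (h : HB p v L W B F K w x z a)
    {f : Polynomial Ω} (hf : f ∈ PI F) : dz (f.eval z) = (hasseDeriv 1 f).eval z := by
  rw [H.hz.map_poly (hb_leFK h) H.zF (hb_zK h) hf, H.z1, mul_one]

/-- The linear jet is a constant. -/
theorem jet_one_const (h : HB p v L W B F K w x z a) (H : DK v W B F K w z D₀ D dw du dz)
    {f : Polynomial Ω} (hf : f ∈ PI F) (hl : LP p v K 0 (f.eval z)) :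
    ∃ e : k, Gt v 0 ((hasseDeriv 1 f).eval z - algebraMap k Ω e) := by
  rw [← H.jet_one h hf]
  exact ⟨_, rsd_spec h.c0 (H.hz.ge_of_lp (eval_memK h hf) hl)⟩

/-- A derivation is strict on the linear jet. -/
theorem drv_jet_one (h : HB p v L W B F K w x z a) (H : DK v W B F K w z D₀ D dw du dz)
    {E : Ω → Ω} (hE : Drv v K E) {f : Polynomial Ω} (hf : f ∈ PI F)
    (hl : LP p v K 0 (f.eval z)) : Gt v 0 (E ((hasseDeriv 1 f).eval z)) := by
  obtain ⟨e, he⟩ := jet_one_const h H hf hl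
  have h1 := drv_gt hE (sub_mem (jet_memK h hf 1) (K.algebraMap_mem e)) he
  rwa [hE.map_sub (jet_memK h hf 1) (K.algebraMap_mem e), hE.alg, sub_zero] at h1

/-- A derivation is strict on the jets prime to `p`. -/
theorem drv_jet_prime (h : HB p v L W B F K w x z a) (H : DK v W B F K w z D₀ D dw du dz)
    {E : Ω → Ω} (hE : Drv v K E) {f : Polynomial Ω} (hf : f ∈ PI F)
    (hl : LP p v K 0 (f.eval z)) {n : ℕ} (hpn : ¬ p ∣ n) :
    Gt v 0 (E ((hasseDeriv n f).eval z)) := by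
  rcases eq_or_ne n 1 with rfl | h1
  · exact drv_jet_one h H hE hf hl
  · have h0 : n ≠ 0 := fun h2 => hpn (h2 ▸ dvd_zero p)
    exact drv_gt hE (jet_memK h hf n) (jet_prime_gt' h hf hl hpn (by omega))

/-- **Null jets**: the value is in `F`. -/
theorem DK.base (H : DK v W B F K w z D₀ D dw du dz) (h : HB p v L W B F K w x z a)
    {f : Polynomial Ω} (hf : f ∈ PI F) (hl : LP p v K 0 (f.eval z)) (sz : Gt v 0 (dz (f.eval z)))
    (hj : ∀ l : ℕ, p ∣ l → l ≠ 0 → PG p v K 0 ((hasseDeriv l f).eval z)) :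
    ∃ a₁ ∈ F, PG p v K 0 (f.eval z - a₁) := by
  have hKe := h.K_eq
  obtain ⟨a₁, ha₁, h1⟩ := TWII.PG.base p h.zt hf (ν := 0) (fun l hpl => by
    rw [mul_zero, sub_zero, taylor_coeff]
    rcases eq_or_ne l 1 with rfl | h2
    · rwa [← H.jet_one h hf]
    · have h0 : l ≠ 0 := fun h2 => hpl (h2 ▸ dvd_zero p)
      exact jet_prime_gt' h hf hl hpl (by omega)) (fun l hpl hl0 => by
    rw [taylor_coeff, mul_zero, sub_zero, ← hKe]
    exact hj l hpl hl0)
  rw [← hKe] at h1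
  exact ⟨a₁, ha₁, h1⟩

/-- Multiples by constants: critical. -/
theorem LP.smul (hk : Ctx0 k v) {y : Ω} (h : LP p v K 0 y) (c : k) :
    LP p v K 0 (algebraMap k Ω c * y) := lp_const hk h c

/-- **Case (B)**: the critical element `w 0 + b` of `B`. -/
theorem exists_ws (H : DK v W B F K w z D₀ D dw du dz) (h : HB p v L W B F K w x z a)
    (hB : BaseD p v W x D₀)
    (hω : ∀ f ∈ PI F, LP p v K 0 (f.eval z) → Gt v 0 (du (f.eval z)) → Gt v 0 (dz (f.eval z)) →
      ∀ l, l ≠ 0 → Gt v 0 (D ((hasseDeriv l f).eval z)))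
    {g : Polynomial Ω} (hg : g ∈ PI F) (hl : LP p v K 0 (g.eval z)) (su : Gt v 0 (du (g.eval z)))
    (sz : Gt v 0 (dz (g.eval z))) (hw : ¬ Gt v 0 (dw (g.eval z))) :
    ∃ b ∈ W, LP p v B 0 (w 0 + b) := by
  have hKe := h.K_eq
  have hFK := hb_leFK h
  have hBF := h.BF
  have hgK := eval_memK h hg
  obtain ⟨a₁, ha₁, h1⟩ := H.base h hg hl sz fun m hpm hm0 =>
    H.null h hB (jet_memK h hg m) (jet_lp h hg hl m) (hω g hg hl su sz m hm0)
      (H.lw h hg hl su sz hm0) (du_jet h H.hu H.uB H.u1 hg hl hm0) (H.lz h hg hl hm0)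
  have h2 : LP p v K 0 a₁ := by
    have h4 := hl.sub (LP.of_pg h1)
    rwa [sub_sub_cancel] at h4
  have h3 : LP p v F 0 a₁ := by
    rw [hKe] at h2
    exact h2.down h.zt ha₁
  have hst : ∀ d : Ω → Ω, Drv v K d → Gt v 0 (d (g.eval z) - d a₁) := by
    intro d hd
    have h3 := drv_pg hd (sub_mem hgK (hFK ha₁)) h1
    rwa [hd.map_sub hgK (hFK ha₁)] at h3
  have h4 : Gt v 0 (du a₁) := by
    have h5 := su.sub (hst du H.hu)
    rwa [sub_sub_cancel] at h5
  -- `a₁` is in `B`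
  have hFe := h.F_eq
  have huF : Drv v F du := drv_mono H.hu hFK
  obtain ⟨c, hc, h5⟩ : ∃ c ∈ B, PG p v F 0 (a₁ - c) := by
    have h6 := cls_of_not_hit (p := p) (b := a₁) h.tu h.nh (by rw [← hFe]; exact huF) H.uB H.u1
      (by rw [← hFe]; exact ha₁) (by rw [← hFe]; exact h3) h4
    rwa [← hFe] at h6
  have h6 : LP p v B 0 c := by
    have h7 : LP p v F 0 c := by
      have h8 := h3.sub (LP.of_pg h5)
      rwa [sub_sub_cancel] at h8
    rw [hFe] at h7
    exact h7.down h.tu hc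
  have hwF : Drv v F dw := drv_mono H.hw hFK
  have h7 : Gt v 0 (dw (g.eval z) - dw c) := by
    have h8 := drv_pg hwF (sub_mem ha₁ (hBF hc)) h5
    rw [hwF.map_sub ha₁ (hBF hc)] at h8
    have h9 := (hst dw H.hw).add h8
    have e : dw (g.eval z) - dw a₁ + (dw a₁ - dw c) = dw (g.eval z) - dw c := by ring
    rwa [e] at h9
  -- the residue
  have hg0 : v.Ge 0 (dw (g.eval z)) := H.hw.ge_of_lp hgK hl
  set γ : k := rsd k v (dw (g.eval z)) with hγ
  have hγ0 : γ ≠ 0 := fun h0 => hw (gt_of_rsd h.c0 hg0 h0)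
  have h8 : Gt v 0 (dw c - algebraMap k Ω γ) := by
    have h9 := (rsd_spec h.c0 hg0).sub h7
    rw [← hγ] at h9
    have e : dw (g.eval z) - algebraMap k Ω γ - (dw (g.eval z) - dw c) =
      dw c - algebraMap k Ω γ := by ring
    rwa [e] at h9
  have hcB : algebraMap k Ω γ⁻¹ * c ∈ B := mul_mem (B.algebraMap_mem _) hc
  have h9 : LP p v B 0 (algebraMap k Ω γ⁻¹ * c) := lp_const h.c0 h6 _
  have h10 : Gt v 0 (dw (algebraMap k Ω γ⁻¹ * c) - 1) := by
    rw [hwF.map_smul _ (hBF hc)]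
    have h11 := gt_smul h.c0 γ⁻¹ h8
    have e2 : algebraMap k Ω γ⁻¹ * algebraMap k Ω γ = 1 := by
      rw [← map_mul, inv_mul_cancel₀ hγ0, map_one]
    rwa [mul_sub, e2] at h11
  obtain ⟨b, hb, h12⟩ := Pool.Agent.TWM1.exists_wsh h hwF H.wW H.w0 hcB h9 h10
  refine ⟨b, hb, ?_⟩
  have h13 := h9.sub (LP.of_pg h12)
  rwa [sub_sub_cancel] at h13

end Pool.Agent.TWRW
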