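import Pool.Agent.Lib.TWRW.TrF
import Pool.Agent.Lib.TWN1.GabE
import Pool.Agent.Lib.TWRW.Main

/-!
# RowB, the trichotomy, part G: the forms, and the theorem

* `form_of_jets`: the additive form from the jets;
* `tie_A`: the outcome (A);
* `rowTri`: the trichotomy.
-/

set_option autoImplicit false
set_option linter.unusedSectionVars false

open Polynomial Finset

namespace Pool.Agent.TWRW

open Pool.Agent.H15JM (RVal)
open Pool.Agent.LU1 (VPos adj)
open Pool.Agent.D2 (Ctx0)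
open Pool.Agent.D2P (clI)
open Pool.Agent.TWM
open Pool.Agent.TWS (IsoE SphC)
open Pool.Agent.TWII (PG LP)
open Pool.Agent.TWN1
open Pool.Agent.TWLY
open Pool.Agent.TWCY
open Pool.Agent.TWRB

universe u

variable {k Ω : Type u} [Field k] [Field Ω] [Algebra k Ω] {v : RVal Ω}
  {L : ℕ → IntermediateField k Ω} {W B F K : IntermediateField k Ω} {w : Fin 2 → Ω}
  {x z a : Ω} {p : ℕ} [hp : Fact p.Prime] [CharP Ω p] [IsAlgClosed Ω] [IsAlgClosed k]
  {D₀ D dw du dz : Ω → Ω}

/-- **The additive form, from the jets.** -/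
theorem form_of_jets (h : HB p v L W B F K w x z a) {f : Polynomial Ω} (hf : f ∈ PI F)
    (hl : LP p v K 0 (f.eval z)) {A : ℕ → Ω} (hA : ∀ i, A i ∈ F) {e : k}
    (he : Gt v 0 ((hasseDeriv 1 f).eval z - algebraMap k Ω e))
    (hi : ∀ i, PG p v K 0 ((hasseDeriv (p ^ (i + 1)) f).eval z - A i))
    (h0 : ∀ l : ℕ, p ∣ l → l ≠ 0 → (∀ i, l ≠ p ^ i) → PG p v K 0 ((hasseDeriv l f).eval z))
    {t : ℕ} (ht : f.natDegree ≤ t) : ∃ a₀ ∈ F, PG p v K 0 (f.eval z -
      (algebraMap k Ω e * z + ∑ i ∈ range (t + 1), A i * z ^ p ^ (i + 1) + a₀)) := by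
  classical
  have hKe := h.K_eq
  set xx : ℕ → Ω := fun j => Nat.casesOn j (algebraMap k Ω e) A with hxx
  have hx0 : xx 0 = algebraMap k Ω e := rfl
  have hxs : ∀ j, xx (j + 1) = A j := fun j => rfl
  have hxF : ∀ j, xx j ∈ F := by
    intro j
    cases j with
    | zero => exact F.algebraMap_mem e
    | succ j => exact hA j
  set P : Polynomial Ω := ∑ j ∈ range (t + 1 + 1), Polynomial.C (xx j) * X ^ p ^ j with hP
  have hPF : P ∈ PI F := sum_mem fun j _ => mul_mem (C_mem_PI (hxF j)) (pow_mem X_mem_PI _)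
  have hPe : P.eval z = algebraMap k Ω e * z + ∑ i ∈ range (t + 1), A i * z ^ p ^ (i + 1) := by
    rw [hP, eval_finsetSum, sum_range_succ', add_comm]
    simp only [eval_mul, eval_C, eval_pow, eval_X, hx0, hxs, pow_zero, pow_one]
  have hPj : ∀ l, l ≠ 0 → (hasseDeriv l P).eval z =
      ∑ j ∈ range (t + 1 + 1), if l = p ^ j then xx j else 0 := by
    intro l hl0
    rw [hP, hasse_add_poly (p := p) xx (t + 1) hl0, eval_finsetSum]
    refine sum_congr rfl fun j _ => ?_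
    split_ifs
    · rw [eval_C]
    · rw [eval_zero]
  have hPn : ∀ l, l ≠ 0 → (∀ j, j < t + 1 + 1 → l ≠ p ^ j) → (hasseDeriv l P).eval z = 0 := by
    intro l hl0 hlj
    rw [hPj l hl0]
    exact sum_eq_zero fun j hj => if_neg (hlj j (mem_range.1 hj))
  have hinj : ∀ i j : ℕ, p ^ i = p ^ j → i = j := fun i j hij =>
    Nat.pow_right_injective hp.out.two_le hij
  have hPp : ∀ i, i < t + 1 + 1 → (hasseDeriv (p ^ i) P).eval z = xx i := by
    intro i hi
    rw [hPj _ (pow_ne_zero _ hp.out.ne_zero), sum_eq_single i]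
    · rw [if_pos rfl]
    · intro j _ hji
      exact if_neg fun h1 => hji (hinj _ _ h1).symm
    · intro h1
      exact absurd (mem_range.2 hi) h1
  set g : Polynomial Ω := f - P with hg
  have hgF : g ∈ PI F := sub_mem hf hPF
  have hgj : ∀ l, (hasseDeriv l g).eval z = (hasseDeriv l f).eval z - (hasseDeriv l P).eval z := by
    intro l
    rw [hg, map_sub, eval_sub]
  obtain ⟨a₀, ha₀, h1⟩ := TWII.PG.base p h.zt hgF (ν := 0) (fun l hpl => by
    rw [mul_zero, sub_zero, taylor_coeff, hgj]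
    rcases eq_or_ne l 1 with rfl | h2
    · have h3 := hPp 0 (by omega)
      rw [pow_zero, hx0] at h3
      rwa [h3]
    · have h0 : l ≠ 0 := fun h2 => hpl (h2 ▸ dvd_zero p)
      rw [hPn l h0 fun j _ hj => ?_, sub_zero]
      · exact jet_prime_gt' h hf hl hpl (by omega)
      · rcases Nat.eq_zero_or_pos j with h3 | h3
        · rw [h3, pow_zero] at hj
          exact h2 hj
        · exact hpl (hj ▸ dvd_pow_self p h3.ne')) (fun l hpl hl0 => by
    rw [taylor_coeff, mul_zero, sub_zero, ← hKe, hgj]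
    by_cases hlp : ∃ i, l = p ^ i
    · obtain ⟨i, rfl⟩ := hlp
      obtain ⟨j, rfl⟩ : ∃ j, i = j + 1 := by
        refine Nat.exists_eq_succ_of_ne_zero fun h2 => ?_
        rw [h2, pow_zero] at hpl
        exact hp.out.one_lt.not_ge (Nat.le_of_dvd one_pos hpl)
      by_cases hj : j + 1 < t + 1 + 1
      · rw [hPp _ hj, hxs]
        exact hi j
      · rw [hPn _ hl0 fun j' hj' h2 => by
          have := hinj _ _ h2
          omega, sub_zero, hasseDeriv_eq_zero_of_lt_natDegree f _ ?_, eval_zero]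
        · exact PG.of_gt Gt.zero
        · have h2 : j + 1 < p ^ (j + 1) := Nat.lt_pow_self hp.out.one_lt
          omega
    · have hlp' : ∀ i, l ≠ p ^ i := fun i hi => hlp ⟨i, hi⟩
      rw [hPn l hl0 fun j _ => hlp' j, sub_zero]
      exact h0 l hpl hl0 hlp')
  refine ⟨a₀, ha₀, ?_⟩
  rw [← hKe, hg, eval_sub, hPe] at h1
  have e1 : f.eval z - (algebraMap k Ω e * z + ∑ i ∈ range (t + 1), A i * z ^ p ^ (i + 1) + a₀) =
      f.eval z - (algebraMap k Ω e * z + ∑ i ∈ range (t + 1), A i * z ^ p ^ (i + 1)) - a₀ := by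
    ring
  rwa [e1]

/-- The form with coefficients in `k y + k y'`. -/
theorem form_two (p : ℕ) (y y' z : Ω) (κ γ : ℕ → k) (t : ℕ) :
    ∑ i ∈ range (t + 1), (algebraMap k Ω (κ i) * y + algebraMap k Ω (γ i) * y') *
      z ^ p ^ (i + 1) = y * PP p κ t z + y' * PP p γ t z := by
  unfold PP
  rw [mul_sum, mul_sum, ← sum_add_distrib]
  exact sum_congr rfl fun i _ => by ring

/-- **Case (A).** -/
theorem tie_A [CharP k p] (H : DK v W B F K w z D₀ D dw du dz) (h : HB p v L W B F K w x z a)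
    (hB : BaseD p v W x D₀) {f : Polynomial Ω} (hf : f ∈ PI F) (hl : LP p v K 0 (f.eval z))
    (hrel : PG p v K 0 (a - f.eval z))
    (hA : ∀ l, l ≠ 0 → Gt v 0 (dw ((hasseDeriv l f).eval z))) {e : k}
    (he : Gt v 0 ((hasseDeriv 1 f).eval z - algebraMap k Ω e)) :
    ∃ (κ : ℕ → k) (t : ℕ) (a₀ : Ω), TieF p v F K x z a e κ t a₀ := by
  classical
  have hWF : W ≤ F := h.WB.trans h.BF
  have hxF : x ∈ F := hWF h.xW
  have hj : ∀ l, LP p v K 0 ((hasseDeriv l f).eval z) := jet_lp h hf hl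
  have hcl : ∀ l, l ≠ 0 → PG p v K 0 ((hasseDeriv l f).eval z -
      algebraMap k Ω (rsd k v (D ((hasseDeriv l f).eval z))) * x) := fun l hl0 => by
    obtain ⟨c, h1, h2⟩ := H.cls h hB (jet_memK h hf l) (hj l) (hA l hl0)
      (du_jet h H.hu H.uB H.u1 hf hl hl0) (H.lz h hf hl hl0)
    rwa [h1]
  have hnp : ∀ l, l ≠ 0 → (∀ i, l ≠ p ^ i) → PG p v K 0 ((hasseDeriv l f).eval z) := by
    intro l hl0 hnp
    have h1 := np_gt h H.hD hf hl (fun l hl0 m hm0 =>
      ((H.hjet h hB _ (TWLM.hasseDeriv_mem_PI hf l) (hj l) (hA l hl0)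
        (du_jet h H.hu H.uB H.u1 hf hl hl0) (H.lz h hf hl hl0)) m hm0).1) hl0 hnp
    have h2 := hcl l hl0
    rwa [rsd_zero h.c0 h1, map_zero, zero_mul, sub_zero] at h2
  set κ : ℕ → k := fun i => rsd k v (D ((hasseDeriv (p ^ (i + 1)) f).eval z)) with hκ
  have hpp : ∀ i, (p ^ (i + 1) : ℕ) ≠ 0 := fun i => pow_ne_zero _ hp.out.ne_zero
  -- one coefficient is not zero
  have hne : ∃ j, κ j ≠ 0 := by
    by_contra hcon
    push Not at hcon
    refine h.hit ⟨f, hf, hrel, fun l hpl hl0 => ?_⟩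
    rw [mul_zero, sub_zero, taylor_coeff]
    by_cases hlp : ∃ i, l = p ^ i
    · obtain ⟨i, rfl⟩ := hlp
      obtain ⟨j, rfl⟩ : ∃ j, i = j + 1 := by
        refine Nat.exists_eq_succ_of_ne_zero fun h2 => ?_
        rw [h2, pow_zero] at hpl
        exact hp.out.one_lt.not_ge (Nat.le_of_dvd one_pos hpl)
      have h2 := hcl _ (hpp j)
      have h3 : rsd k v (D ((hasseDeriv (p ^ (j + 1)) f).eval z)) = 0 := hcon j
      rwa [h3, map_zero, zero_mul, sub_zero] at h2
    · exact hnp l hl0 fun i hi => hlp ⟨i, hi⟩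
  obtain ⟨j₀, hj₀⟩ := hne
  have hbig : ∀ j, f.natDegree ≤ j → κ j = 0 := by
    intro j hj'
    have h2 : j + 1 < p ^ (j + 1) := Nat.lt_pow_self hp.out.one_lt
    have h3 : (hasseDeriv (p ^ (j + 1)) f).eval z = 0 := by
      rw [hasseDeriv_eq_zero_of_lt_natDegree f _ (by omega), eval_zero]
    show rsd k v (D ((hasseDeriv (p ^ (j + 1)) f).eval z)) = 0
    rw [h3, H.hD.zero]
    exact rsd_zero h.c0 Gt.zero
  have hj₀' : j₀ ≤ f.natDegree := by
    by_contra h1
    exact hj₀ (hbig j₀ (by omega))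
  obtain ⟨t, ht, hκt, hlast⟩ := exists_last (P := fun j => κ j ≠ 0) ⟨j₀, hj₀', hj₀⟩
  obtain ⟨a₀, ha₀, h1⟩ := form_of_jets h hf hl (A := fun i => algebraMap k Ω (κ i) * x)
    (fun i => mul_mem (F.algebraMap_mem _) hxF) he (fun i => hcl _ (hpp i))
    (fun l _ hl0 hl => hnp l hl0 hl) le_rfl
  have hsum : ∑ i ∈ range (f.natDegree + 1), algebraMap k Ω (κ i) * x * z ^ p ^ (i + 1) =
      x * PP p κ t z := by
    rw [← PP_trim ht (fun j h2 h3 => by
      by_contra h4
      exact hlast j h2 h3 h4) z]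
    unfold PP
    rw [mul_sum]
    exact sum_congr rfl fun i _ => by ring
  rw [hsum] at h1
  have h2 : PG p v K 0 (a - (algebraMap k Ω e * z + x * PP p κ t z + a₀)) := by
    have h3 := hrel.add h1
    have e1 : a - f.eval z + (f.eval z - (algebraMap k Ω e * z + x * PP p κ t z + a₀)) =
        a - (algebraMap k Ω e * z + x * PP p κ t z + a₀) := by ring
    rwa [e1] at h3
  refine ⟨κ, t, a₀, hκt, ha₀, h2, fun ε hε => ?_⟩
  obtain ⟨θ, hθ, h3, y, hy, h4⟩ := tie_two (γ := fun _ => (0 : k)) (y := 0) (t := t) h.zt h.K_eq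
    hxF (zero_mem F) ha₀ h.lp (e := e) (κ := κ) (by rwa [zero_mul, add_zero]) hε
  refine ⟨θ, hθ, h3, y, hy, ?_⟩
  rwa [zero_mul, add_zero] at h4

end Pool.Agent.TWRW
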